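import Mathlib

/-!
MP_9d29f5_al, project DM (owner helper86, helper13).
Basic objects: Eisenstein integers as pairs of integers, 3 x 3 matrices over them as a
plain structure (fast kernel computations), the unitary group U of the form
h(x,y) = x0 y2' + 2 x1 y1' + x2 y0' (ROW vectors, matrices act from the right).
-/
set_option autoImplicit false

namespace Pool.Agent.H13.DM

/-- a + b w with w^2 = -1 - w. -/
@[ext] structure Eis where
  a : ℤ
  b : ℤ
deriving DecidableEq

namespace Eis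

instance : Zero Eis := ⟨⟨0, 0⟩⟩
instance : One Eis := ⟨⟨1, 0⟩⟩
instance : Add Eis := ⟨fun x y => ⟨x.a + y.a, x.b + y.b⟩⟩
instance : Neg Eis := ⟨fun x => ⟨-x.a, -x.b⟩⟩
instance : Sub Eis := ⟨fun x y => ⟨x.a - y.a, x.b - y.b⟩⟩
instance : Mul Eis := ⟨fun x y => ⟨x.a * y.a - x.b * y.b, x.a * y.b + x.b * y.a - x.b * y.b⟩⟩

@[simp] theorem zero_a : (0 : Eis).a = 0 := rfl
@[simp] theorem zero_b : (0 : Eis).b = 0 := rfl
@[simp] theorem one_a : (1 : Eis).a = 1 := rfl
@[simp] theorem one_b : (1 : Eis).b = 0 := rfl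
@[simp] theorem add_a (x y : Eis) : (x + y).a = x.a + y.a := rfl
@[simp] theorem add_b (x y : Eis) : (x + y).b = x.b + y.b := rfl
@[simp] theorem neg_a (x : Eis) : (-x).a = -x.a := rfl
@[simp] theorem neg_b (x : Eis) : (-x).b = -x.b := rfl
@[simp] theorem sub_a (x y : Eis) : (x - y).a = x.a - y.a := rfl
@[simp] theorem sub_b (x y : Eis) : (x - y).b = x.b - y.b := rfl
@[simp] theorem mul_a (x y : Eis) : (x * y).a = x.a * y.a - x.b * y.b := rfl
@[simp] theorem mul_b (x y : Eis) : (x * y).b = x.a * y.b + x.b * y.a - x.b * y.b := rfl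

instance : CommRing Eis where
  add_assoc x y z := by ext <;> simp [add_assoc]
  zero_add x := by ext <;> simp
  add_zero x := by ext <;> simp
  add_comm x y := by ext <;> simp [add_comm]
  neg_add_cancel x := by ext <;> simp
  sub_eq_add_neg x y := by ext <;> simp [sub_eq_add_neg]
  mul_assoc x y z := by ext <;> simp <;> ring
  one_mul x := by ext <;> simp
  mul_one x := by ext <;> simp
  zero_mul x := by ext <;> simp
  mul_zero x := by ext <;> simp
  left_distrib x y z := by ext <;> simp <;> ring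
  right_distrib x y z := by ext <;> simp <;> ring
  mul_comm x y := by ext <;> simp <;> ring
  nsmul := nsmulRec
  zsmul := zsmulRec

/-- complex conjugation -/
def conj (x : Eis) : Eis := ⟨x.a - x.b, -x.b⟩
/-- the norm a^2 - a b + b^2 -/
def nrm (x : Eis) : ℤ := x.a * x.a - x.a * x.b + x.b * x.b

@[simp] theorem conj_a (x : Eis) : (conj x).a = x.a - x.b := rfl
@[simp] theorem conj_b (x : Eis) : (conj x).b = -x.b := rfl

/-- w -/
def w : Eis := ⟨0, 1⟩
/-- the six units zeta^k, zeta = 1 + w = exp(2 pi i / 6) -/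
def unit : Fin 6 → Eis
  | 0 => ⟨1, 0⟩ | 1 => ⟨1, 1⟩ | 2 => ⟨0, 1⟩ | 3 => ⟨-1, 0⟩ | 4 => ⟨-1, -1⟩ | 5 => ⟨0, -1⟩
/-- theta = sqrt(-3) = 1 + 2 w -/
def th : Eis := ⟨1, 2⟩

/-- w as a complex number: (-1 + sqrt 3 i) / 2 -/
noncomputable def wC : ℂ := ⟨-1 / 2, Real.sqrt 3 / 2⟩

/-- the embedding into the complex numbers -/
noncomputable def toC (x : Eis) : ℂ := (x.a : ℂ) + (x.b : ℂ) * wC

end Eis

/-- 3 x 3 matrices over the Eisenstein integers, entries by rows. -/
@[ext] structure M3 where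
  (x00 x01 x02 x10 x11 x12 x20 x21 x22 : Eis)
deriving DecidableEq

namespace M3

instance : One M3 := ⟨⟨1, 0, 0, 0, 1, 0, 0, 0, 1⟩⟩
instance : Mul M3 := ⟨fun p q =>
  ⟨p.x00 * q.x00 + p.x01 * q.x10 + p.x02 * q.x20,
   p.x00 * q.x01 + p.x01 * q.x11 + p.x02 * q.x21,
   p.x00 * q.x02 + p.x01 * q.x12 + p.x02 * q.x22,
   p.x10 * q.x00 + p.x11 * q.x10 + p.x12 * q.x20,
   p.x10 * q.x01 + p.x11 * q.x11 + p.x12 * q.x21,
   p.x10 * q.x02 + p.x11 * q.x12 + p.x12 * q.x22,
   p.x20 * q.x00 + p.x21 * q.x10 + p.x22 * q.x20,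
   p.x20 * q.x01 + p.x21 * q.x11 + p.x22 * q.x21,
   p.x20 * q.x02 + p.x21 * q.x12 + p.x22 * q.x22⟩⟩

theorem mul_def (p q : M3) : p * q =
  ⟨p.x00 * q.x00 + p.x01 * q.x10 + p.x02 * q.x20,
   p.x00 * q.x01 + p.x01 * q.x11 + p.x02 * q.x21,
   p.x00 * q.x02 + p.x01 * q.x12 + p.x02 * q.x22,
   p.x10 * q.x00 + p.x11 * q.x10 + p.x12 * q.x20,
   p.x10 * q.x01 + p.x11 * q.x11 + p.x12 * q.x21,
   p.x10 * q.x02 + p.x11 * q.x12 + p.x12 * q.x22,
   p.x20 * q.x00 + p.x21 * q.x10 + p.x22 * q.x20,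
   p.x20 * q.x01 + p.x21 * q.x11 + p.x22 * q.x21,
   p.x20 * q.x02 + p.x21 * q.x12 + p.x22 * q.x22⟩ := rfl

theorem one_def : (1 : M3) = ⟨1, 0, 0, 0, 1, 0, 0, 0, 1⟩ := rfl

instance : Monoid M3 where
  mul_assoc p q r := by
    ext1 <;> simp only [mul_def] <;> ring
  one_mul p := by
    ext1 <;> simp only [mul_def, one_def] <;> ring
  mul_one p := by
    ext1 <;> simp only [mul_def, one_def] <;> ring

/-- conjugate transpose -/
def adj (p : M3) : M3 :=
  ⟨p.x00.conj, p.x10.conj, p.x20.conj, p.x01.conj, p.x11.conj, p.x21.conj,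
   p.x02.conj, p.x12.conj, p.x22.conj⟩

/-- the Gram matrix H -/
def H : M3 := ⟨0, 0, 1, 0, 2, 0, 1, 0, 0⟩

/-- p H p* = H -/
def IsU (p : M3) : Prop := p * H * adj p = H

instance : DecidablePred IsU := fun p => inferInstanceAs (Decidable (p * H * adj p = H))

/-- determinant -/
def det (p : M3) : Eis :=
  p.x00 * (p.x11 * p.x22 - p.x12 * p.x21) - p.x01 * (p.x10 * p.x22 - p.x12 * p.x20)
    + p.x02 * (p.x10 * p.x21 - p.x11 * p.x20)

/-- as a complex matrix -/
noncomputable def toMat (p : M3) : Matrix (Fin 3) (Fin 3) ℂ :=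
  !![p.x00.toC, p.x01.toC, p.x02.toC; p.x10.toC, p.x11.toC, p.x12.toC;
     p.x20.toC, p.x21.toC, p.x22.toC]

theorem adj_mul (p q : M3) : adj (p * q) = adj q * adj p := by
  ext <;> simp [adj, mul_def] <;> ring

end M3

open M3

namespace M3

/-- scalar multiple -/
def smul (c : Eis) (p : M3) : M3 :=
  ⟨c * p.x00, c * p.x01, c * p.x02, c * p.x10, c * p.x11, c * p.x12, c * p.x20, c * p.x21, c * p.x22⟩

/-- classical adjugate -/
def adjug (p : M3) : M3 :=
  ⟨p.x11 * p.x22 - p.x12 * p.x21, p.x02 * p.x21 - p.x01 * p.x22, p.x01 * p.x12 - p.x02 * p.x11,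
   p.x12 * p.x20 - p.x10 * p.x22, p.x00 * p.x22 - p.x02 * p.x20, p.x02 * p.x10 - p.x00 * p.x12,
   p.x10 * p.x21 - p.x11 * p.x20, p.x01 * p.x20 - p.x00 * p.x21, p.x00 * p.x11 - p.x01 * p.x10⟩

/-- the inverse of an element of the unitary group: conj(det) * adjugate -/
def inv3 (p : M3) : M3 := smul p.det.conj p.adjug

theorem adj_adj (p : M3) : adj (adj p) = p := by
  ext <;> simp [adj]

theorem det_mul (p q : M3) : det (p * q) = det p * det q := by
  simp only [det, mul_def]; ring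

theorem det_adj (p : M3) : det (adj p) = (det p).conj := by
  ext <;> simp [adj, det] <;> ring

theorem mul_adjug (p : M3) : p * adjug p = smul (det p) 1 := by
  ext1 <;> simp only [mul_def, adjug, smul, det, one_def] <;> ring

theorem adjug_mul (p : M3) : adjug p * p = smul (det p) 1 := by
  ext1 <;> simp only [mul_def, adjug, smul, det, one_def] <;> ring

theorem smul_mul (c : Eis) (p q : M3) : smul c p * q = smul c (p * q) := by
  ext1 <;> simp only [mul_def, smul] <;> ring

theorem mul_smul' (c : Eis) (p q : M3) : p * smul c q = smul c (p * q) := by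
  ext1 <;> simp only [mul_def, smul] <;> ring

theorem smul_smul (c d : Eis) (p : M3) : smul c (smul d p) = smul (c * d) p := by
  ext1 <;> simp only [smul] <;> ring

theorem one_smul (p : M3) : smul 1 p = p := by
  ext1 <;> simp only [smul, one_mul]

theorem det_isU {p : M3} (h : IsU p) : p.det * p.det.conj = 1 := by
  have h1 : det (p * H * adj p) = det H := by
    have := h
    unfold IsU at this
    rw [this]
  rw [det_mul, det_mul, det_adj] at h1
  have hH : det H = ⟨-2, 0⟩ := by decide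
  rw [hH] at h1
  have h2 : p.det * p.det.conj * ⟨-2, 0⟩ = (⟨-2, 0⟩ : Eis) := by
    calc p.det * p.det.conj * ⟨-2, 0⟩ = p.det * ⟨-2, 0⟩ * p.det.conj := by ring
      _ = _ := h1
  have ha := congrArg Eis.a h2
  have hb := congrArg Eis.b h2
  simp at ha hb
  ext
  · simp; omega
  · simp; omega

theorem mul_inv3 {p : M3} (h : IsU p) : p * inv3 p = 1 := by
  rw [inv3, mul_smul', mul_adjug, smul_smul, mul_comm, det_isU h, one_smul]

theorem inv3_mul {p : M3} (h : IsU p) : inv3 p * p = 1 := by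
  rw [inv3, smul_mul, adjug_mul, smul_smul, mul_comm, det_isU h, one_smul]

theorem isU_mul {p q : M3} (hp : IsU p) (hq : IsU q) : IsU (p * q) := by
  unfold IsU at *
  calc (p * q) * H * adj (p * q)
      = p * (q * H * adj q) * adj p := by
        rw [adj_mul]; simp only [mul_assoc]
    _ = H := by rw [hq, hp]

theorem isU_one : IsU 1 := by
  unfold IsU; decide

theorem isU_inv3 {p : M3} (h : IsU p) : IsU (inv3 p) := by
  have h0 : p * H * adj p = H := h
  have h1 : adj p * adj (inv3 p) = 1 := by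
    rw [← adj_mul, inv3_mul h]; decide
  show inv3 p * H * adj (inv3 p) = H
  calc inv3 p * H * adj (inv3 p)
      = inv3 p * (p * H * adj p) * adj (inv3 p) := by rw [h0]
    _ = (inv3 p * p) * H * (adj p * adj (inv3 p)) := by simp only [mul_assoc]
    _ = H := by rw [h1, inv3_mul h, one_mul, mul_one]

end M3

/-- The unitary group of the Hermitian lattice: matrices p over the Eisenstein integers with
p H p* = H (product of matrices; acts on row vectors from the right). -/
@[ext] structure UU where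
  m : M3
  h : IsU m

namespace UU

instance : DecidableEq UU := fun x y =>
  decidable_of_iff (x.m = y.m) ⟨fun h => UU.ext h, fun h => h ▸ rfl⟩

instance : Mul UU := ⟨fun x y => ⟨x.m * y.m, isU_mul x.h y.h⟩⟩
instance : One UU := ⟨⟨1, isU_one⟩⟩
instance : Inv UU := ⟨fun x => ⟨inv3 x.m, isU_inv3 x.h⟩⟩

@[simp] theorem mul_m (x y : UU) : (x * y).m = x.m * y.m := rfl
@[simp] theorem one_m : (1 : UU).m = 1 := rfl
theorem inv_m (x : UU) : (x⁻¹).m = inv3 x.m := rfl

instance : Group UU where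
  mul_assoc x y z := UU.ext (by simp only [mul_m, mul_assoc])
  one_mul x := UU.ext (by simp only [mul_m, one_m, one_mul])
  mul_one x := UU.ext (by simp only [mul_m, one_m, mul_one])
  inv_mul_cancel x := UU.ext (by rw [mul_m, inv_m, one_m]; exact inv3_mul x.h)

/-- height = squared modulus of <e g, e>, the norm of the entry (0,2) -/
def ht (g : UU) : ℕ := g.m.x02.nrm.toNat

/-- determinant -/
def det (g : UU) : Eis := g.m.det

end UU

/-- The matrix of the element zeta^u * diag(1, zeta^k, 1) * T(z, m) of the stabiliser P of the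
cusp e = (1,0,0), where T(z,m) = (1 0 0; -2 conj z, 1, 0; -|z|^2 + m theta, z, 1). -/
def pmat (u k : Fin 6) (z : Eis) (m : ℤ) : M3 :=
  ⟨Eis.unit u, 0, 0,
   Eis.unit u * Eis.unit k * (⟨-2, 0⟩ * z.conj), Eis.unit u * Eis.unit k, 0,
   Eis.unit u * (⟨m - z.nrm, 2 * m⟩), Eis.unit u * z, Eis.unit u⟩

end Pool.Agent.H13.DM
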