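import Mathlib
import Pool.Agent.H13.DM.Defs

/-!
MP_9d29f5_al, project DM, block B (the homomorphism rho): the target monoid Wr, the six double
coset representatives g_i (heights 1, 3, 3, 4, 4, 4), their images w_i, the images of the
generators of the cusp group. Generated by a script.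
Wr is the monoid of maps a -> (b, matrix), a, b in Fin 6 (the six arrangements), with product
(x y) a = (c, R S) if x a = (b, R), y b = (c, S).
-/
set_option autoImplicit false

namespace Pool.Agent.H13.DM

/-- target of the homomorphism: wreath product of M3 by maps of Fin 6 -/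
@[ext] structure Wr where
  f : Fin 6 → Fin 6 × M3

namespace Wr

instance : Mul Wr := ⟨fun x y => ⟨fun a => ((y.f (x.f a).1).1, (x.f a).2 * (y.f (x.f a).1).2)⟩⟩
instance : One Wr := ⟨⟨fun a => (a, 1)⟩⟩
instance : DecidableEq Wr := fun x y =>
  decidable_of_iff (x.f = y.f) ⟨fun h => Wr.ext h, fun h => h ▸ rfl⟩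

@[simp] theorem mul_f (x y : Wr) (a : Fin 6) :
    (x * y).f a = ((y.f (x.f a).1).1, (x.f a).2 * (y.f (x.f a).1).2) := rfl
@[simp] theorem one_f (a : Fin 6) : (1 : Wr).f a = (a, 1) := rfl

instance : Monoid Wr where
  mul_assoc x y z := by
    ext1; funext a; simp [mul_assoc]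
  one_mul x := by
    ext1; funext a; simp
  mul_one x := by
    ext1; funext a; simp

end Wr

/-- image of diag(1, zeta, 1) -/
def Df : Wr := ⟨fun a => match a with
    | 0 => (4, ⟨⟨0, 0⟩, ⟨1, -1⟩, ⟨1, 0⟩, ⟨0, 0⟩, ⟨1, 0⟩, ⟨0, 0⟩, ⟨0, 1⟩, ⟨-1, 1⟩, ⟨0, 0⟩⟩)
    | 1 => (5, ⟨⟨0, 0⟩, ⟨1, -1⟩, ⟨1, 0⟩, ⟨0, 0⟩, ⟨1, 0⟩, ⟨0, 0⟩, ⟨0, 1⟩, ⟨-1, 1⟩, ⟨0, 0⟩⟩)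
    | 2 => (2, ⟨⟨0, 0⟩, ⟨0, 0⟩, ⟨-1, -1⟩, ⟨0, 0⟩, ⟨1, 0⟩, ⟨0, 0⟩, ⟨1, 0⟩, ⟨0, 0⟩, ⟨2, 1⟩⟩)
    | 3 => (3, ⟨⟨0, 0⟩, ⟨0, 0⟩, ⟨-1, -1⟩, ⟨0, 0⟩, ⟨1, 0⟩, ⟨0, 0⟩, ⟨1, 0⟩, ⟨0, 0⟩, ⟨2, 1⟩⟩)
    | 4 => (0, ⟨⟨0, 0⟩, ⟨1, -1⟩, ⟨1, 0⟩, ⟨0, 0⟩, ⟨0, 1⟩, ⟨0, 0⟩, ⟨1, 0⟩, ⟨-1, 1⟩, ⟨-1, 1⟩⟩)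
    | 5 => (1, ⟨⟨0, 0⟩, ⟨1, -1⟩, ⟨1, 0⟩, ⟨0, 0⟩, ⟨0, 1⟩, ⟨0, 0⟩, ⟨1, 0⟩, ⟨-1, 1⟩, ⟨-1, 1⟩⟩)⟩

/-- inverse of Df -/
def Dg : Wr := ⟨fun a => match a with
    | 0 => (4, ⟨⟨1, -1⟩, ⟨1, -1⟩, ⟨1, 0⟩, ⟨0, 0⟩, ⟨-1, -1⟩, ⟨0, 0⟩, ⟨1, 0⟩, ⟨2, 1⟩, ⟨0, 0⟩⟩)
    | 1 => (5, ⟨⟨1, -1⟩, ⟨1, -1⟩, ⟨1, 0⟩, ⟨0, 0⟩, ⟨-1, -1⟩, ⟨0, 0⟩, ⟨1, 0⟩, ⟨2, 1⟩, ⟨0, 0⟩⟩)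
    | 2 => (2, ⟨⟨1, -1⟩, ⟨0, 0⟩, ⟨1, 0⟩, ⟨0, 0⟩, ⟨1, 0⟩, ⟨0, 0⟩, ⟨0, 1⟩, ⟨0, 0⟩, ⟨0, 0⟩⟩)
    | 3 => (3, ⟨⟨1, -1⟩, ⟨0, 0⟩, ⟨1, 0⟩, ⟨0, 0⟩, ⟨1, 0⟩, ⟨0, 0⟩, ⟨0, 1⟩, ⟨0, 0⟩, ⟨0, 0⟩⟩)
    | 4 => (0, ⟨⟨0, 0⟩, ⟨-2, -1⟩, ⟨-1, -1⟩, ⟨0, 0⟩, ⟨1, 0⟩, ⟨0, 0⟩, ⟨1, 0⟩, ⟨-1, 1⟩, ⟨0, 0⟩⟩)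
    | 5 => (1, ⟨⟨0, 0⟩, ⟨-2, -1⟩, ⟨-1, -1⟩, ⟨0, 0⟩, ⟨1, 0⟩, ⟨0, 0⟩, ⟨1, 0⟩, ⟨-1, 1⟩, ⟨0, 0⟩⟩)⟩

/-- image of diag(1, zeta, 1), as a unit -/
def Du : Wrˣ := ⟨Df, Dg, by decide +kernel, by decide +kernel⟩

/-- image of T(1,0) -/
def Xf : Wr := ⟨fun a => match a with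
    | 0 => (5, ⟨⟨1, 2⟩, ⟨0, 0⟩, ⟨1, 0⟩, ⟨0, 1⟩, ⟨0, 0⟩, ⟨0, 0⟩, ⟨0, 0⟩, ⟨0, 1⟩, ⟨0, 0⟩⟩)
    | 1 => (4, ⟨⟨0, 0⟩, ⟨-1, -2⟩, ⟨1, 0⟩, ⟨-1, -1⟩, ⟨-1, -2⟩, ⟨0, 0⟩, ⟨2, 1⟩, ⟨2, 2⟩, ⟨0, 0⟩⟩)
    | 2 => (1, ⟨⟨0, 0⟩, ⟨0, 0⟩, ⟨0, 1⟩, ⟨1, 0⟩, ⟨0, 0⟩, ⟨0, 0⟩, ⟨0, 0⟩, ⟨-1, -1⟩, ⟨-1, -2⟩⟩)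
    | 3 => (0, ⟨⟨0, 0⟩, ⟨2, 1⟩, ⟨2, 2⟩, ⟨1, 0⟩, ⟨-1, 1⟩, ⟨-1, 1⟩, ⟨0, 0⟩, ⟨-2, 0⟩, ⟨-2, -1⟩⟩)
    | 4 => (3, ⟨⟨1, -1⟩, ⟨0, 0⟩, ⟨1, 0⟩, ⟨0, 1⟩, ⟨0, 0⟩, ⟨0, 0⟩, ⟨0, 0⟩, ⟨1, 0⟩, ⟨-1, 1⟩⟩)
    | 5 => (2, ⟨⟨0, 0⟩, ⟨0, 0⟩, ⟨0, 1⟩, ⟨-1, -1⟩, ⟨0, 0⟩, ⟨-1, -2⟩, ⟨2, 1⟩, ⟨1, 0⟩, ⟨1, 2⟩⟩)⟩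

/-- inverse of Xf -/
def Xg : Wr := ⟨fun a => match a with
    | 0 => (3, ⟨⟨-2, -1⟩, ⟨1, 0⟩, ⟨-2, -1⟩, ⟨-1, 1⟩, ⟨0, 0⟩, ⟨-2, 0⟩, ⟨0, -2⟩, ⟨0, 0⟩, ⟨1, -1⟩⟩)
    | 1 => (2, ⟨⟨0, 0⟩, ⟨1, 0⟩, ⟨0, 0⟩, ⟨1, 2⟩, ⟨0, 0⟩, ⟨0, 1⟩, ⟨-1, -1⟩, ⟨0, 0⟩, ⟨0, 0⟩⟩)
    | 2 => (5, ⟨⟨1, 2⟩, ⟨0, 1⟩, ⟨0, 0⟩, ⟨-1, -2⟩, ⟨1, -1⟩, ⟨1, 0⟩, ⟨-1, -1⟩, ⟨0, 0⟩, ⟨0, 0⟩⟩)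
    | 3 => (4, ⟨⟨0, 0⟩, ⟨-1, -1⟩, ⟨0, 0⟩, ⟨1, -1⟩, ⟨3, 0⟩, ⟨1, 0⟩, ⟨1, 0⟩, ⟨2, 1⟩, ⟨0, 0⟩⟩)
    | 4 => (1, ⟨⟨0, 0⟩, ⟨0, -2⟩, ⟨1, -1⟩, ⟨0, 0⟩, ⟨1, 2⟩, ⟨0, 1⟩, ⟨1, 0⟩, ⟨-3, 0⟩, ⟨-2, -1⟩⟩)
    | 5 => (0, ⟨⟨0, 0⟩, ⟨-1, -1⟩, ⟨0, 0⟩, ⟨0, 0⟩, ⟨0, 0⟩, ⟨-1, -1⟩, ⟨1, 0⟩, ⟨-1, 1⟩, ⟨0, 0⟩⟩)⟩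

/-- image of T(1,0), as a unit -/
def Xu : Wrˣ := ⟨Xf, Xg, by decide +kernel, by decide +kernel⟩

/-- image of T(w,0) -/
def Yf : Wr := ⟨fun a => match a with
    | 0 => (5, ⟨⟨0, 0⟩, ⟨1, -1⟩, ⟨1, 0⟩, ⟨0, 1⟩, ⟨0, 0⟩, ⟨0, 0⟩, ⟨0, 0⟩, ⟨0, 1⟩, ⟨0, 0⟩⟩)
    | 1 => (4, ⟨⟨-1, -2⟩, ⟨0, -3⟩, ⟨1, 0⟩, ⟨-1, -1⟩, ⟨-1, -2⟩, ⟨0, 0⟩, ⟨2, 1⟩, ⟨2, 2⟩, ⟨0, 0⟩⟩)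
    | 2 => (1, ⟨⟨0, 0⟩, ⟨1, -1⟩, ⟨1, 0⟩, ⟨1, 0⟩, ⟨0, 3⟩, ⟨-1, 1⟩, ⟨0, 0⟩, ⟨0, 1⟩, ⟨0, 0⟩⟩)
    | 3 => (0, ⟨⟨0, 0⟩, ⟨0, 0⟩, ⟨0, 1⟩, ⟨1, 0⟩, ⟨-1, 1⟩, ⟨-2, -1⟩, ⟨0, 0⟩, ⟨-1, -1⟩, ⟨-1, -2⟩⟩)
    | 4 => (3, ⟨⟨0, 0⟩, ⟨0, 0⟩, ⟨0, 1⟩, ⟨-1, -1⟩, ⟨0, 0⟩, ⟨-1, -2⟩, ⟨0, 0⟩, ⟨1, 0⟩, ⟨0, 0⟩⟩)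
    | 5 => (2, ⟨⟨2, 1⟩, ⟨0, 0⟩, ⟨2, 2⟩, ⟨-2, 0⟩, ⟨0, 0⟩, ⟨-2, -1⟩, ⟨-1, -2⟩, ⟨1, 0⟩, ⟨-1, -2⟩⟩)⟩

/-- inverse of Yf -/
def Yg : Wr := ⟨fun a => match a with
    | 0 => (3, ⟨⟨2, 1⟩, ⟨1, 0⟩, ⟨1, 2⟩, ⟨1, 2⟩, ⟨0, 0⟩, ⟨0, 1⟩, ⟨-1, -1⟩, ⟨0, 0⟩, ⟨0, 0⟩⟩)
    | 1 => (2, ⟨⟨1, -1⟩, ⟨1, 0⟩, ⟨0, 0⟩, ⟨0, 0⟩, ⟨0, 0⟩, ⟨-1, -1⟩, ⟨1, 0⟩, ⟨0, 0⟩, ⟨2, 1⟩⟩)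
    | 2 => (5, ⟨⟨-1, 1⟩, ⟨-2, 0⟩, ⟨0, 0⟩, ⟨1, -1⟩, ⟨1, -1⟩, ⟨1, 0⟩, ⟨0, -2⟩, ⟨1, -1⟩, ⟨0, 0⟩⟩)
    | 3 => (4, ⟨⟨1, 2⟩, ⟨0, 1⟩, ⟨0, 0⟩, ⟨0, 0⟩, ⟨0, 0⟩, ⟨1, 0⟩, ⟨-1, -1⟩, ⟨0, 0⟩, ⟨0, 0⟩⟩)
    | 4 => (1, ⟨⟨0, 0⟩, ⟨0, -2⟩, ⟨1, -1⟩, ⟨0, 0⟩, ⟨1, 2⟩, ⟨0, 1⟩, ⟨1, 0⟩, ⟨-2, -1⟩, ⟨0, 0⟩⟩)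
    | 5 => (0, ⟨⟨0, 0⟩, ⟨-1, -1⟩, ⟨0, 0⟩, ⟨0, 0⟩, ⟨0, 0⟩, ⟨-1, -1⟩, ⟨1, 0⟩, ⟨0, 0⟩, ⟨2, 1⟩⟩)⟩

/-- image of T(w,0), as a unit -/
def Yu : Wrˣ := ⟨Yf, Yg, by decide +kernel, by decide +kernel⟩

/-- image of T(0,1) -/
def Zf : Wr := ⟨fun a => match a with
    | 0 => (1, ⟨⟨1, 0⟩, ⟨0, 0⟩, ⟨0, 0⟩, ⟨0, 0⟩, ⟨1, 0⟩, ⟨0, 0⟩, ⟨0, 0⟩, ⟨0, 0⟩, ⟨1, 0⟩⟩)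
    | 1 => (0, ⟨⟨1, 0⟩, ⟨-1, 1⟩, ⟨-1, 1⟩, ⟨0, 0⟩, ⟨0, 1⟩, ⟨-1, 1⟩, ⟨0, 0⟩, ⟨-1, -2⟩, ⟨0, -2⟩⟩)
    | 2 => (3, ⟨⟨1, 0⟩, ⟨0, 0⟩, ⟨0, 0⟩, ⟨0, 0⟩, ⟨1, 0⟩, ⟨0, 0⟩, ⟨0, 0⟩, ⟨0, 0⟩, ⟨1, 0⟩⟩)
    | 3 => (2, ⟨⟨0, 1⟩, ⟨0, 0⟩, ⟨-1, 1⟩, ⟨-1, -2⟩, ⟨1, 0⟩, ⟨-1, -2⟩, ⟨-1, -2⟩, ⟨0, 0⟩, ⟨0, -2⟩⟩)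
    | 4 => (5, ⟨⟨1, 0⟩, ⟨0, 0⟩, ⟨0, 0⟩, ⟨0, 0⟩, ⟨1, 0⟩, ⟨0, 0⟩, ⟨0, 0⟩, ⟨0, 0⟩, ⟨1, 0⟩⟩)
    | 5 => (4, ⟨⟨0, 1⟩, ⟨-1, 1⟩, ⟨0, 0⟩, ⟨-1, -2⟩, ⟨0, -2⟩, ⟨0, 0⟩, ⟨2, 1⟩, ⟨2, 1⟩, ⟨1, 0⟩⟩)⟩

/-- inverse of Zf -/
def Zg : Wr := ⟨fun a => match a with
    | 0 => (1, ⟨⟨1, 0⟩, ⟨1, 2⟩, ⟨1, 2⟩, ⟨0, 0⟩, ⟨2, 2⟩, ⟨1, 2⟩, ⟨0, 0⟩, ⟨-2, -1⟩, ⟨-1, -1⟩⟩)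
    | 1 => (0, ⟨⟨1, 0⟩, ⟨0, 0⟩, ⟨0, 0⟩, ⟨0, 0⟩, ⟨1, 0⟩, ⟨0, 0⟩, ⟨0, 0⟩, ⟨0, 0⟩, ⟨1, 0⟩⟩)
    | 2 => (3, ⟨⟨2, 2⟩, ⟨0, 0⟩, ⟨1, 2⟩, ⟨-2, -1⟩, ⟨1, 0⟩, ⟨-2, -1⟩, ⟨-2, -1⟩, ⟨0, 0⟩, ⟨-1, -1⟩⟩)
    | 3 => (2, ⟨⟨1, 0⟩, ⟨0, 0⟩, ⟨0, 0⟩, ⟨0, 0⟩, ⟨1, 0⟩, ⟨0, 0⟩, ⟨0, 0⟩, ⟨0, 0⟩, ⟨1, 0⟩⟩)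
    | 4 => (5, ⟨⟨2, 2⟩, ⟨1, 2⟩, ⟨0, 0⟩, ⟨-2, -1⟩, ⟨-1, -1⟩, ⟨0, 0⟩, ⟨1, -1⟩, ⟨1, -1⟩, ⟨1, 0⟩⟩)
    | 5 => (4, ⟨⟨1, 0⟩, ⟨0, 0⟩, ⟨0, 0⟩, ⟨0, 0⟩, ⟨1, 0⟩, ⟨0, 0⟩, ⟨0, 0⟩, ⟨0, 0⟩, ⟨1, 0⟩⟩)⟩

/-- image of T(0,1), as a unit -/
def Zu : Wrˣ := ⟨Zf, Zg, by decide +kernel, by decide +kernel⟩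

/-- image of diag(1, zeta^k, 1) T(z, m) -/
def rinf (k : Fin 6) (z : Eis) (m : ℤ) : Wr :=
  ((Du ^ (k : ℕ) * Xu ^ z.a * Yu ^ z.b * Zu ^ (m - z.a * z.b) : Wrˣ) : Wr)

/-- the six double coset representatives, types 1, 3+, 3-, 4a, 4b+, 4b- -/
def gM : Fin 6 → M3 := fun i => match i with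
  | 0 => ⟨⟨0, 0⟩, ⟨0, 0⟩, ⟨1, 0⟩, ⟨0, 0⟩, ⟨-1, 0⟩, ⟨0, 0⟩, ⟨1, 0⟩, ⟨0, 0⟩, ⟨0, 0⟩⟩
  | 1 => ⟨⟨1, 0⟩, ⟨0, 0⟩, ⟨-1, -2⟩, ⟨0, 0⟩, ⟨1, 0⟩, ⟨0, 0⟩, ⟨0, 0⟩, ⟨0, 0⟩, ⟨1, 0⟩⟩
  | 2 => ⟨⟨1, 0⟩, ⟨0, 0⟩, ⟨1, 2⟩, ⟨0, 0⟩, ⟨1, 0⟩, ⟨0, 0⟩, ⟨0, 0⟩, ⟨0, 0⟩, ⟨1, 0⟩⟩
  | 3 => ⟨⟨1, 2⟩, ⟨0, 0⟩, ⟨-2, 0⟩, ⟨0, 0⟩, ⟨1, 0⟩, ⟨0, 0⟩, ⟨-2, 0⟩, ⟨0, 0⟩, ⟨-1, -2⟩⟩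
  | 4 => ⟨⟨1, 0⟩, ⟨-1, 0⟩, ⟨-2, -2⟩, ⟨0, 0⟩, ⟨0, -1⟩, ⟨0, -2⟩, ⟨0, 0⟩, ⟨0, 0⟩, ⟨1, 0⟩⟩
  | 5 => ⟨⟨1, 0⟩, ⟨1, 1⟩, ⟨0, 2⟩, ⟨0, 0⟩, ⟨1, 1⟩, ⟨-2, 0⟩, ⟨0, 0⟩, ⟨0, 0⟩, ⟨1, 0⟩⟩

theorem gM_isU : ∀ i, M3.IsU (gM i) := by decide +kernel

/-- the representatives as elements of the unitary group -/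
def gi (i : Fin 6) : UU := ⟨gM i, gM_isU i⟩

/-- their images -/
def wi : Fin 6 → Wr := fun i => match i with
  | 0 => ⟨fun a => match a with
    | 0 => (5, ⟨⟨-2, -1⟩, ⟨-4, -2⟩, ⟨1, 0⟩, ⟨-2, -1⟩, ⟨-4, -3⟩, ⟨0, 0⟩, ⟨1, 0⟩, ⟨2, 1⟩, ⟨0, 0⟩⟩)
    | 1 => (4, ⟨⟨-3, 0⟩, ⟨-4, -2⟩, ⟨1, 0⟩, ⟨-2, -1⟩, ⟨-2, -2⟩, ⟨0, 0⟩, ⟨0, 1⟩, ⟨-1, 1⟩, ⟨0, 0⟩⟩)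
    | 2 => (3, ⟨⟨-1, -2⟩, ⟨0, 0⟩, ⟨0, -1⟩, ⟨2, 1⟩, ⟨1, 0⟩, ⟨2, 1⟩, ⟨1, 1⟩, ⟨0, 0⟩, ⟨0, 0⟩⟩)
    | 3 => (2, ⟨⟨0, 0⟩, ⟨0, 0⟩, ⟨0, -1⟩, ⟨-1, -2⟩, ⟨1, 0⟩, ⟨-1, -2⟩, ⟨1, 1⟩, ⟨0, 0⟩, ⟨1, 2⟩⟩)
    | 4 => (1, ⟨⟨0, 0⟩, ⟨-1, 1⟩, ⟨2, 2⟩, ⟨0, 0⟩, ⟨0, -1⟩, ⟨-2, -1⟩, ⟨1, 0⟩, ⟨-1, 1⟩, ⟨0, 0⟩⟩)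
    | 5 => (0, ⟨⟨0, 0⟩, ⟨2, 1⟩, ⟨4, 3⟩, ⟨0, 0⟩, ⟨-1, 0⟩, ⟨-2, -1⟩, ⟨1, 0⟩, ⟨-1, 1⟩, ⟨-1, 1⟩⟩)⟩
  | 1 => ⟨fun a => match a with
    | 0 => (1, ⟨⟨1, 0⟩, ⟨0, 3⟩, ⟨4, 2⟩, ⟨0, 0⟩, ⟨0, 1⟩, ⟨3, 3⟩, ⟨0, 0⟩, ⟨0, 0⟩, ⟨-1, -1⟩⟩)
    | 1 => (0, ⟨⟨1, 0⟩, ⟨2, 4⟩, ⟨3, 6⟩, ⟨0, 0⟩, ⟨0, 1⟩, ⟨-1, 1⟩, ⟨0, 0⟩, ⟨2, 1⟩, ⟨4, 3⟩⟩)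
    | 2 => (3, ⟨⟨-2, 0⟩, ⟨0, 0⟩, ⟨-2, -1⟩, ⟨3, 0⟩, ⟨1, 0⟩, ⟨3, 0⟩, ⟨1, -1⟩, ⟨0, 0⟩, ⟨1, 0⟩⟩)
    | 3 => (2, ⟨⟨-1, -1⟩, ⟨0, 0⟩, ⟨0, 0⟩, ⟨-1, -2⟩, ⟨1, 0⟩, ⟨-1, -2⟩, ⟨0, 0⟩, ⟨0, 0⟩, ⟨-1, -1⟩⟩)
    | 4 => (5, ⟨⟨5, 2⟩, ⟨9, 6⟩, ⟨0, 0⟩, ⟨-3, 0⟩, ⟨-6, -2⟩, ⟨0, 0⟩, ⟨1, -1⟩, ⟨3, 0⟩, ⟨1, 0⟩⟩)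
    | 5 => (4, ⟨⟨4, 6⟩, ⟨2, 7⟩, ⟨0, 0⟩, ⟨-1, -2⟩, ⟨0, -2⟩, ⟨0, 0⟩, ⟨-3, 0⟩, ⟨-4, -2⟩, ⟨1, 0⟩⟩)⟩
  | 2 => ⟨fun a => match a with
    | 0 => (1, ⟨⟨1, 0⟩, ⟨-5, -4⟩, ⟨-3, 0⟩, ⟨0, 0⟩, ⟨-1, -4⟩, ⟨-2, -1⟩, ⟨0, 0⟩, ⟨1, 2⟩, ⟨1, 0⟩⟩)
    | 1 => (0, ⟨⟨1, 0⟩, ⟨-3, 0⟩, ⟨-7, -2⟩, ⟨0, 0⟩, ⟨-1, -1⟩, ⟨-3, -3⟩, ⟨0, 0⟩, ⟨0, 0⟩, ⟨0, 1⟩⟩)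
    | 2 => (3, ⟨⟨0, 1⟩, ⟨0, 0⟩, ⟨0, 0⟩, ⟨-2, -1⟩, ⟨1, 0⟩, ⟨-2, -1⟩, ⟨0, 0⟩, ⟨0, 0⟩, ⟨0, 1⟩⟩)
    | 3 => (2, ⟨⟨1, 0⟩, ⟨0, 0⟩, ⟨2, 1⟩, ⟨0, -3⟩, ⟨1, 0⟩, ⟨0, -3⟩, ⟨-1, 1⟩, ⟨0, 0⟩, ⟨-2, 0⟩⟩)
    | 4 => (5, ⟨⟨-2, 0⟩, ⟨-5, 2⟩, ⟨0, 0⟩, ⟨1, -1⟩, ⟨2, -4⟩, ⟨0, 0⟩, ⟨0, 0⟩, ⟨1, 2⟩, ⟨1, 0⟩⟩)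
    | 5 => (4, ⟨⟨-6, -2⟩, ⟨-9, -6⟩, ⟨0, 0⟩, ⟨3, 0⟩, ⟨5, 2⟩, ⟨0, 0⟩, ⟨-1, -2⟩, ⟨0, -3⟩, ⟨1, 0⟩⟩)⟩
  | 3 => ⟨fun a => match a with
    | 0 => (0, ⟨⟨1, 0⟩, ⟨-2, 2⟩, ⟨0, 6⟩, ⟨0, 0⟩, ⟨-1, 0⟩, ⟨-2, 2⟩, ⟨0, 0⟩, ⟨0, 0⟩, ⟨1, 0⟩⟩)
    | 1 => (1, ⟨⟨1, 0⟩, ⟨2, 4⟩, ⟨0, 0⟩, ⟨0, 0⟩, ⟨-1, 0⟩, ⟨0, 0⟩, ⟨0, 0⟩, ⟨4, 2⟩, ⟨1, 0⟩⟩)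
    | 2 => (2, ⟨⟨-1, 0⟩, ⟨0, 0⟩, ⟨0, 0⟩, ⟨2, -2⟩, ⟨1, 0⟩, ⟨2, -2⟩, ⟨0, 0⟩, ⟨0, 0⟩, ⟨-1, 0⟩⟩)
    | 3 => (3, ⟨⟨-1, 0⟩, ⟨0, 0⟩, ⟨0, 0⟩, ⟨0, 0⟩, ⟨1, 0⟩, ⟨0, 0⟩, ⟨0, 0⟩, ⟨0, 0⟩, ⟨-1, 0⟩⟩)
    | 4 => (4, ⟨⟨1, 6⟩, ⟨-2, 8⟩, ⟨0, 0⟩, ⟨-2, -4⟩, ⟨-1, -6⟩, ⟨0, 0⟩, ⟨0, 0⟩, ⟨0, 0⟩, ⟨1, 0⟩⟩)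
    | 5 => (5, ⟨⟨1, 0⟩, ⟨2, -2⟩, ⟨0, 0⟩, ⟨0, 0⟩, ⟨-1, 0⟩, ⟨0, 0⟩, ⟨0, 0⟩, ⟨4, 2⟩, ⟨1, 0⟩⟩)⟩
  | 4 => ⟨fun a => match a with
    | 0 => (0, ⟨⟨1, 0⟩, ⟨1, -1⟩, ⟨4, -1⟩, ⟨0, 0⟩, ⟨3, 0⟩, ⟨6, 2⟩, ⟨0, 0⟩, ⟨-1, 0⟩, ⟨-2, -1⟩⟩)
    | 1 => (1, ⟨⟨1, 0⟩, ⟨-1, 1⟩, ⟨2, 1⟩, ⟨0, 0⟩, ⟨0, 0⟩, ⟨1, 1⟩, ⟨0, 0⟩, ⟨1, 1⟩, ⟨1, -1⟩⟩)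
    | 2 => (4, ⟨⟨3, -1⟩, ⟨5, 1⟩, ⟨0, 0⟩, ⟨-1, 4⟩, ⟨-3, 3⟩, ⟨1, 0⟩, ⟨-1, 1⟩, ⟨-2, 0⟩, ⟨0, 0⟩⟩)
    | 3 => (5, ⟨⟨-1, 0⟩, ⟨-2, -1⟩, ⟨0, 0⟩, ⟨0, 0⟩, ⟨0, 0⟩, ⟨1, 0⟩, ⟨0, 0⟩, ⟨0, 1⟩, ⟨0, 0⟩⟩)
    | 4 => (2, ⟨⟨0, 2⟩, ⟨0, 0⟩, ⟨-1, 4⟩, ⟨-1, -2⟩, ⟨0, 0⟩, ⟨-1, -4⟩, ⟨-1, -2⟩, ⟨1, 0⟩, ⟨-1, -2⟩⟩)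
    | 5 => (3, ⟨⟨1, 1⟩, ⟨0, 0⟩, ⟨1, -1⟩, ⟨0, 0⟩, ⟨0, 0⟩, ⟨0, 1⟩, ⟨0, 0⟩, ⟨1, 0⟩, ⟨2, 1⟩⟩)⟩
  | 5 => ⟨fun a => match a with
    | 0 => (0, ⟨⟨1, 0⟩, ⟨-2, -1⟩, ⟨-5, -4⟩, ⟨0, 0⟩, ⟨-1, -2⟩, ⟨-4, -6⟩, ⟨0, 0⟩, ⟨1, 1⟩, ⟨3, 3⟩⟩)
    | 1 => (1, ⟨⟨1, 0⟩, ⟨2, 1⟩, ⟨-1, -2⟩, ⟨0, 0⟩, ⟨2, 1⟩, ⟨0, -1⟩, ⟨0, 0⟩, ⟨0, -1⟩, ⟨0, 0⟩⟩)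
    | 2 => (4, ⟨⟨1, 4⟩, ⟨-1, 4⟩, ⟨0, 0⟩, ⟨-4, -2⟩, ⟨-5, -4⟩, ⟨1, 0⟩, ⟨-1, -2⟩, ⟨0, -2⟩, ⟨0, 0⟩⟩)
    | 3 => (5, ⟨⟨0, -1⟩, ⟨1, -1⟩, ⟨0, 0⟩, ⟨0, 0⟩, ⟨1, 2⟩, ⟨1, 0⟩, ⟨0, 0⟩, ⟨-1, -1⟩, ⟨0, 0⟩⟩)
    | 4 => (2, ⟨⟨-2, -2⟩, ⟨0, 0⟩, ⟨-4, -5⟩, ⟨2, 1⟩, ⟨0, 0⟩, ⟨4, 3⟩, ⟨-1, -2⟩, ⟨1, 0⟩, ⟨-3, -3⟩⟩)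
    | 5 => (3, ⟨⟨-1, 0⟩, ⟨0, 0⟩, ⟨1, 2⟩, ⟨0, 0⟩, ⟨0, 0⟩, ⟨-1, -1⟩, ⟨0, 0⟩, ⟨1, 0⟩, ⟨0, 0⟩⟩)⟩

end Pool.Agent.H13.DM
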