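import Mathlib
import Pool.Agent.H13.DM.Types

/-!
MP_9d29f5_al, project DM, block B: explicit values of rinf k z m for z, m in the box -1..1.
Generated by a script.
-/
set_option autoImplicit false

namespace Pool.Agent.H13.DM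

/-- element of Wr by its six values -/
def W6 (a0 a1 a2 a3 a4 a5 : Fin 6 × M3) : Wr := ⟨fun a => match a with
  | 0 => a0 | 1 => a1 | 2 => a2 | 3 => a3 | 4 => a4 | 5 => a5⟩

/-- index of (z, m) in the tables -/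
def rix (z : Eis) (m : ℤ) : ℕ :=
  ((z.a + 1).toNat * 3 + (z.b + 1).toNat) * 3 + (m + 1).toNat

/-- the values for k = 0 -/
def rtab0 : List Wr := [
  W6 (4, ⟨⟨2, 1⟩, ⟨2, 1⟩, ⟨1, 0⟩, ⟨0, 1⟩, ⟨0, 0⟩, ⟨0, 0⟩, ⟨0, 0⟩, ⟨0, 1⟩, ⟨0, 0⟩⟩) (5, ⟨⟨2, 1⟩, ⟨2, 1⟩, ⟨1, 0⟩, ⟨0, 1⟩, ⟨0, 0⟩, ⟨0, 0⟩, ⟨0, 0⟩, ⟨0, 1⟩, ⟨0, 0⟩⟩) (0, ⟨⟨0, 0⟩, ⟨2, 1⟩, ⟨2, 2⟩, ⟨1, 0⟩, ⟨-3, 0⟩, ⟨-2, -1⟩, ⟨0, 0⟩, ⟨-2, 0⟩, ⟨-2, -1⟩⟩) (1, ⟨⟨0, 0⟩, ⟨2, 1⟩, ⟨2, 2⟩,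 ⟨1, 0⟩, ⟨-3, 0⟩, ⟨-2, -1⟩, ⟨0, 0⟩, ⟨-2, 0⟩, ⟨-2, -1⟩⟩) (2, ⟨⟨2, 1⟩, ⟨0, 0⟩, ⟨2, 2⟩, ⟨-2, 0⟩, ⟨0, 0⟩, ⟨-2, -1⟩, ⟨0, -3⟩, ⟨1, 0⟩, ⟨1, -1⟩⟩) (3, ⟨⟨2, 1⟩, ⟨0, 0⟩, ⟨2, 2⟩, ⟨-2, 0⟩, ⟨0, 0⟩, ⟨-2, -1⟩, ⟨0, -3⟩, ⟨1, 0⟩, ⟨1, -1⟩⟩),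
  W6 (5, ⟨⟨2, 1⟩, ⟨2, 1⟩, ⟨1, 0⟩, ⟨0, 1⟩, ⟨0, 0⟩, ⟨0, 0⟩, ⟨0, 0⟩, ⟨0, 1⟩, ⟨0, 0⟩⟩) (4, ⟨⟨1, -1⟩, ⟨1, -1⟩, ⟨1, 0⟩, ⟨-1, -1⟩, ⟨-1, -2⟩, ⟨0, 0⟩, ⟨2, 1⟩, ⟨2, 2⟩, ⟨0, 0⟩⟩) (1, ⟨⟨0, 0⟩, ⟨2, 1⟩, ⟨2, 2⟩, ⟨1, 0⟩, ⟨-3, 0⟩, ⟨-2, -1⟩, ⟨0, 0⟩, ⟨-2, 0⟩, ⟨-2, -1⟩⟩) (0, ⟨⟨0, 0⟩, ⟨1, -1⟩, ⟨1, 0⟩, ⟨1, 0⟩, ⟨-1, 1⟩, ⟨0, 0⟩, ⟨0, 0⟩, ⟨0, 1⟩, ⟨0, 0⟩⟩) (3, ⟨⟨2, 1⟩, ⟨0, 0⟩, ⟨2, 2⟩, ⟨-2, 0⟩, ⟨0, 0⟩, ⟨-2, -1⟩, ⟨0, -3⟩, ⟨1, 0⟩, ⟨1, -1⟩⟩) (2, ⟨⟨1,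 -1⟩, ⟨0, 0⟩, ⟨1, 0⟩, ⟨0, 1⟩, ⟨0, 0⟩, ⟨0, 0⟩, ⟨-1, -2⟩, ⟨1, 0⟩, ⟨0, 0⟩⟩),
  W6 (4, ⟨⟨1, -1⟩, ⟨1, -1⟩, ⟨1, 0⟩, ⟨-1, -1⟩, ⟨-1, -2⟩, ⟨0, 0⟩, ⟨2, 1⟩, ⟨2, 2⟩, ⟨0, 0⟩⟩) (5, ⟨⟨1, -1⟩, ⟨1, -1⟩, ⟨1, 0⟩, ⟨-1, -1⟩, ⟨-1, -2⟩, ⟨0, 0⟩, ⟨2, 1⟩, ⟨2, 2⟩, ⟨0, 0⟩⟩) (0, ⟨⟨0, 0⟩, ⟨1, -1⟩, ⟨1, 0⟩, ⟨1, 0⟩, ⟨-1, 1⟩, ⟨0, 0⟩, ⟨0, 0⟩, ⟨0, 1⟩, ⟨0, 0⟩⟩) (1, ⟨⟨0, 0⟩, ⟨1, -1⟩, ⟨1, 0⟩, ⟨1, 0⟩, ⟨-1, 1⟩, ⟨0, 0⟩, ⟨0, 0⟩, ⟨0, 1⟩, ⟨0, 0⟩⟩) (2, ⟨⟨1, -1⟩, ⟨0,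 0⟩, ⟨1, 0⟩, ⟨0, 1⟩, ⟨0, 0⟩, ⟨0, 0⟩, ⟨-1, -2⟩, ⟨1, 0⟩, ⟨0, 0⟩⟩) (3, ⟨⟨1, -1⟩, ⟨0, 0⟩, ⟨1, 0⟩, ⟨0, 1⟩, ⟨0, 0⟩, ⟨0, 0⟩, ⟨-1, -2⟩, ⟨1, 0⟩, ⟨0, 0⟩⟩),
  W6 (2, ⟨⟨-2, -1⟩, ⟨1, 0⟩, ⟨-2, -1⟩, ⟨-1, 1⟩, ⟨0, 0⟩, ⟨-2, 0⟩, ⟨0, -2⟩, ⟨0, 0⟩, ⟨1, -1⟩⟩) (3, ⟨⟨-2, -1⟩, ⟨1, 0⟩, ⟨-2, -1⟩, ⟨-1, 1⟩, ⟨0, 0⟩, ⟨-2, 0⟩, ⟨0, -2⟩, ⟨0, 0⟩, ⟨1, -1⟩⟩) (4, ⟨⟨1, 2⟩, ⟨0, 1⟩, ⟨0, 0⟩, ⟨-1, -2⟩, ⟨1, -1⟩, ⟨1, 0⟩, ⟨-1, -1⟩, ⟨0, 0⟩, ⟨0, 0⟩⟩) (5, ⟨⟨1, 2⟩, ⟨0,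 1⟩, ⟨0, 0⟩, ⟨-1, -2⟩, ⟨1, -1⟩, ⟨1, 0⟩, ⟨-1, -1⟩, ⟨0, 0⟩, ⟨0, 0⟩⟩) (0, ⟨⟨0, 0⟩, ⟨0, -2⟩, ⟨1, -1⟩, ⟨0, 0⟩, ⟨1, 2⟩, ⟨0, 1⟩, ⟨1, 0⟩, ⟨-3, 0⟩, ⟨-2, -1⟩⟩) (1, ⟨⟨0, 0⟩, ⟨0, -2⟩, ⟨1, -1⟩, ⟨0, 0⟩, ⟨1, 2⟩, ⟨0, 1⟩, ⟨1, 0⟩, ⟨-3, 0⟩, ⟨-2, -1⟩⟩),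
  W6 (3, ⟨⟨-2, -1⟩, ⟨1, 0⟩, ⟨-2, -1⟩, ⟨-1, 1⟩, ⟨0, 0⟩, ⟨-2, 0⟩, ⟨0, -2⟩, ⟨0, 0⟩, ⟨1, -1⟩⟩) (2, ⟨⟨0, 0⟩, ⟨1, 0⟩, ⟨0, 0⟩, ⟨1, 2⟩, ⟨0, 0⟩, ⟨0, 1⟩, ⟨-1, -1⟩, ⟨0, 0⟩, ⟨0, 0⟩⟩) (5, ⟨⟨1, 2⟩, ⟨0, 1⟩, ⟨0, 0⟩, ⟨-1, -2⟩, ⟨1, -1⟩, ⟨1, 0⟩, ⟨-1, -1⟩, ⟨0, 0⟩, ⟨0, 0⟩⟩) (4, ⟨⟨0, 0⟩, ⟨-1, -1⟩, ⟨0, 0⟩, ⟨1, -1⟩, ⟨3, 0⟩, ⟨1, 0⟩, ⟨1, 0⟩, ⟨2, 1⟩, ⟨0, 0⟩⟩) (1, ⟨⟨0, 0⟩, ⟨0, -2⟩, ⟨1, -1⟩, ⟨0, 0⟩, ⟨1, 2⟩, ⟨0, 1⟩, ⟨1, 0⟩, ⟨-3, 0⟩, ⟨-2, -1⟩⟩) (0,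 ⟨⟨0, 0⟩, ⟨-1, -1⟩, ⟨0, 0⟩, ⟨0, 0⟩, ⟨0, 0⟩, ⟨-1, -1⟩, ⟨1, 0⟩, ⟨-1, 1⟩, ⟨0, 0⟩⟩),
  W6 (2, ⟨⟨0, 0⟩, ⟨1, 0⟩, ⟨0, 0⟩, ⟨1, 2⟩, ⟨0, 0⟩, ⟨0, 1⟩, ⟨-1, -1⟩, ⟨0, 0⟩, ⟨0, 0⟩⟩) (3, ⟨⟨0, 0⟩, ⟨1, 0⟩, ⟨0, 0⟩, ⟨1, 2⟩, ⟨0, 0⟩, ⟨0, 1⟩, ⟨-1, -1⟩, ⟨0, 0⟩, ⟨0, 0⟩⟩) (4, ⟨⟨0, 0⟩, ⟨-1, -1⟩, ⟨0, 0⟩, ⟨1, -1⟩, ⟨3, 0⟩, ⟨1, 0⟩, ⟨1, 0⟩, ⟨2, 1⟩, ⟨0, 0⟩⟩) (5, ⟨⟨0, 0⟩, ⟨-1, -1⟩, ⟨0, 0⟩, ⟨1, -1⟩, ⟨3, 0⟩, ⟨1, 0⟩, ⟨1, 0⟩, ⟨2, 1⟩, ⟨0, 0⟩⟩) (0, ⟨⟨0, 0⟩, ⟨-1,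 -1⟩, ⟨0, 0⟩, ⟨0, 0⟩, ⟨0, 0⟩, ⟨-1, -1⟩, ⟨1, 0⟩, ⟨-1, 1⟩, ⟨0, 0⟩⟩) (1, ⟨⟨0, 0⟩, ⟨-1, -1⟩, ⟨0, 0⟩, ⟨0, 0⟩, ⟨0, 0⟩, ⟨-1, -1⟩, ⟨1, 0⟩, ⟨-1, 1⟩, ⟨0, 0⟩⟩),
  W6 (0, ⟨⟨1, 0⟩, ⟨0, 3⟩, ⟨-1, 1⟩, ⟨0, 0⟩, ⟨2, 2⟩, ⟨1, 2⟩, ⟨0, 0⟩, ⟨-2, -1⟩, ⟨-1, -1⟩⟩) (1, ⟨⟨1, 0⟩, ⟨0, 3⟩, ⟨-1, 1⟩, ⟨0, 0⟩, ⟨2, 2⟩, ⟨1, 2⟩, ⟨0, 0⟩, ⟨-2, -1⟩, ⟨-1, -1⟩⟩) (2, ⟨⟨0, 1⟩, ⟨0, 0⟩, ⟨-1, 1⟩, ⟨-3, -3⟩, ⟨1, 0⟩, ⟨-2, -4⟩, ⟨-1, -2⟩, ⟨0, 0⟩, ⟨0, -2⟩⟩) (3, ⟨⟨0, 1⟩, ⟨0,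 0⟩, ⟨-1, 1⟩, ⟨-3, -3⟩, ⟨1, 0⟩, ⟨-2, -4⟩, ⟨-1, -2⟩, ⟨0, 0⟩, ⟨0, -2⟩⟩) (4, ⟨⟨1, 0⟩, ⟨0, 0⟩, ⟨0, 0⟩, ⟨0, 0⟩, ⟨1, 0⟩, ⟨0, 0⟩, ⟨-1, -2⟩, ⟨1, -1⟩, ⟨1, 0⟩⟩) (5, ⟨⟨1, 0⟩, ⟨0, 0⟩, ⟨0, 0⟩, ⟨0, 0⟩, ⟨1, 0⟩, ⟨0, 0⟩, ⟨-1, -2⟩, ⟨1, -1⟩, ⟨1, 0⟩⟩),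
  W6 (1, ⟨⟨1, 0⟩, ⟨0, 3⟩, ⟨-1, 1⟩, ⟨0, 0⟩, ⟨2, 2⟩, ⟨1, 2⟩, ⟨0, 0⟩, ⟨-2, -1⟩, ⟨-1, -1⟩⟩) (0, ⟨⟨1, 0⟩, ⟨-1, 1⟩, ⟨-2, -1⟩, ⟨0, 0⟩, ⟨1, 0⟩, ⟨0, 0⟩, ⟨0, 0⟩, ⟨0, 0⟩, ⟨1, 0⟩⟩) (3, ⟨⟨0, 1⟩, ⟨0, 0⟩, ⟨-1, 1⟩, ⟨-3, -3⟩, ⟨1, 0⟩, ⟨-2, -4⟩, ⟨-1, -2⟩, ⟨0, 0⟩, ⟨0, -2⟩⟩) (2, ⟨⟨2, 2⟩, ⟨0, 0⟩, ⟨1, 2⟩, ⟨-4, -2⟩, ⟨1, 0⟩, ⟨-3, -3⟩, ⟨-2, -1⟩, ⟨0, 0⟩, ⟨-1, -1⟩⟩) (5, ⟨⟨1, 0⟩, ⟨0, 0⟩, ⟨0, 0⟩, ⟨0, 0⟩, ⟨1, 0⟩, ⟨0, 0⟩, ⟨-1, -2⟩, ⟨1, -1⟩, ⟨1, 0⟩⟩)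 (4, ⟨⟨0, 1⟩, ⟨-1, 1⟩, ⟨0, 0⟩, ⟨-1, -2⟩, ⟨0, -2⟩, ⟨0, 0⟩, ⟨1, -1⟩, ⟨3, 0⟩, ⟨1, 0⟩⟩),
  W6 (0, ⟨⟨1, 0⟩, ⟨-1, 1⟩, ⟨-2, -1⟩, ⟨0, 0⟩, ⟨1, 0⟩, ⟨0, 0⟩, ⟨0, 0⟩, ⟨0, 0⟩, ⟨1, 0⟩⟩) (1, ⟨⟨1, 0⟩, ⟨-1, 1⟩, ⟨-2, -1⟩, ⟨0, 0⟩, ⟨1, 0⟩, ⟨0, 0⟩, ⟨0, 0⟩, ⟨0, 0⟩, ⟨1, 0⟩⟩) (2, ⟨⟨2, 2⟩, ⟨0, 0⟩, ⟨1, 2⟩, ⟨-4, -2⟩, ⟨1, 0⟩, ⟨-3, -3⟩, ⟨-2, -1⟩, ⟨0, 0⟩, ⟨-1, -1⟩⟩) (3, ⟨⟨2, 2⟩, ⟨0, 0⟩, ⟨1, 2⟩, ⟨-4, -2⟩, ⟨1, 0⟩, ⟨-3, -3⟩, ⟨-2, -1⟩, ⟨0, 0⟩, ⟨-1, -1⟩⟩)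 (4, ⟨⟨0, 1⟩, ⟨-1, 1⟩, ⟨0, 0⟩, ⟨-1, -2⟩, ⟨0, -2⟩, ⟨0, 0⟩, ⟨1, -1⟩, ⟨3, 0⟩, ⟨1, 0⟩⟩) (5, ⟨⟨0, 1⟩, ⟨-1, 1⟩, ⟨0, 0⟩, ⟨-1, -2⟩, ⟨0, -2⟩, ⟨0, 0⟩, ⟨1, -1⟩, ⟨3, 0⟩, ⟨1, 0⟩⟩),
  W6 (2, ⟨⟨2, 1⟩, ⟨1, 0⟩, ⟨1, 2⟩, ⟨1, 2⟩, ⟨0, 0⟩, ⟨0, 1⟩, ⟨-1, -1⟩, ⟨0, 0⟩, ⟨0, 0⟩⟩) (3, ⟨⟨2, 1⟩, ⟨1, 0⟩, ⟨1, 2⟩, ⟨1, 2⟩, ⟨0, 0⟩, ⟨0, 1⟩, ⟨-1, -1⟩, ⟨0, 0⟩, ⟨0, 0⟩⟩) (4, ⟨⟨-1, 1⟩, ⟨-2, 0⟩, ⟨0, 0⟩, ⟨1, -1⟩, ⟨1, -1⟩, ⟨1, 0⟩, ⟨0, -2⟩, ⟨1, -1⟩, ⟨0, 0⟩⟩) (5, ⟨⟨-1,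 1⟩, ⟨-2, 0⟩, ⟨0, 0⟩, ⟨1, -1⟩, ⟨1, -1⟩, ⟨1, 0⟩, ⟨0, -2⟩, ⟨1, -1⟩, ⟨0, 0⟩⟩) (0, ⟨⟨0, 0⟩, ⟨0, -2⟩, ⟨1, -1⟩, ⟨0, 0⟩, ⟨1, 2⟩, ⟨0, 1⟩, ⟨1, 0⟩, ⟨-2, -1⟩, ⟨0, 0⟩⟩) (1, ⟨⟨0, 0⟩, ⟨0, -2⟩, ⟨1, -1⟩, ⟨0, 0⟩, ⟨1, 2⟩, ⟨0, 1⟩, ⟨1, 0⟩, ⟨-2, -1⟩, ⟨0, 0⟩⟩),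
  W6 (3, ⟨⟨2, 1⟩, ⟨1, 0⟩, ⟨1, 2⟩, ⟨1, 2⟩, ⟨0, 0⟩, ⟨0, 1⟩, ⟨-1, -1⟩, ⟨0, 0⟩, ⟨0, 0⟩⟩) (2, ⟨⟨1, -1⟩, ⟨1, 0⟩, ⟨0, 0⟩, ⟨0, 0⟩, ⟨0, 0⟩, ⟨-1, -1⟩, ⟨1, 0⟩, ⟨0, 0⟩, ⟨2, 1⟩⟩) (5, ⟨⟨-1, 1⟩, ⟨-2, 0⟩, ⟨0, 0⟩, ⟨1, -1⟩, ⟨1, -1⟩, ⟨1, 0⟩, ⟨0, -2⟩, ⟨1, -1⟩, ⟨0, 0⟩⟩) (4, ⟨⟨1, 2⟩, ⟨0, 1⟩, ⟨0, 0⟩, ⟨0, 0⟩, ⟨0, 0⟩, ⟨1, 0⟩, ⟨-1, -1⟩, ⟨0, 0⟩, ⟨0, 0⟩⟩) (1, ⟨⟨0, 0⟩, ⟨0, -2⟩, ⟨1, -1⟩, ⟨0, 0⟩, ⟨1, 2⟩, ⟨0, 1⟩, ⟨1, 0⟩, ⟨-2, -1⟩, ⟨0, 0⟩⟩) (0, ⟨⟨0, 0⟩,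 ⟨-1, -1⟩, ⟨0, 0⟩, ⟨0, 0⟩, ⟨0, 0⟩, ⟨-1, -1⟩, ⟨1, 0⟩, ⟨0, 0⟩, ⟨2, 1⟩⟩),
  W6 (2, ⟨⟨1, -1⟩, ⟨1, 0⟩, ⟨0, 0⟩, ⟨0, 0⟩, ⟨0, 0⟩, ⟨-1, -1⟩, ⟨1, 0⟩, ⟨0, 0⟩, ⟨2, 1⟩⟩) (3, ⟨⟨1, -1⟩, ⟨1, 0⟩, ⟨0, 0⟩, ⟨0, 0⟩, ⟨0, 0⟩, ⟨-1, -1⟩, ⟨1, 0⟩, ⟨0, 0⟩, ⟨2, 1⟩⟩) (4, ⟨⟨1, 2⟩, ⟨0, 1⟩, ⟨0, 0⟩, ⟨0, 0⟩, ⟨0, 0⟩, ⟨1, 0⟩, ⟨-1, -1⟩, ⟨0, 0⟩, ⟨0, 0⟩⟩) (5, ⟨⟨1, 2⟩, ⟨0, 1⟩, ⟨0, 0⟩, ⟨0, 0⟩, ⟨0, 0⟩, ⟨1, 0⟩, ⟨-1, -1⟩, ⟨0, 0⟩, ⟨0, 0⟩⟩) (0, ⟨⟨0, 0⟩, ⟨-1, -1⟩, ⟨0,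 0⟩, ⟨0, 0⟩, ⟨0, 0⟩, ⟨-1, -1⟩, ⟨1, 0⟩, ⟨0, 0⟩, ⟨2, 1⟩⟩) (1, ⟨⟨0, 0⟩, ⟨-1, -1⟩, ⟨0, 0⟩, ⟨0, 0⟩, ⟨0, 0⟩, ⟨-1, -1⟩, ⟨1, 0⟩, ⟨0, 0⟩, ⟨2, 1⟩⟩),
  W6 (1, ⟨⟨1, 0⟩, ⟨1, 2⟩, ⟨1, 2⟩, ⟨0, 0⟩, ⟨2, 2⟩, ⟨1, 2⟩, ⟨0, 0⟩, ⟨-2, -1⟩, ⟨-1, -1⟩⟩) (0, ⟨⟨1, 0⟩, ⟨0, 0⟩, ⟨0, 0⟩, ⟨0, 0⟩, ⟨1, 0⟩, ⟨0, 0⟩, ⟨0, 0⟩, ⟨0, 0⟩, ⟨1, 0⟩⟩) (3, ⟨⟨2, 2⟩, ⟨0, 0⟩, ⟨1, 2⟩, ⟨-2, -1⟩, ⟨1, 0⟩, ⟨-2, -1⟩, ⟨-2, -1⟩, ⟨0, 0⟩, ⟨-1, -1⟩⟩) (2, ⟨⟨1, 0⟩, ⟨0, 0⟩, ⟨0, 0⟩, ⟨0,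 0⟩, ⟨1, 0⟩, ⟨0, 0⟩, ⟨0, 0⟩, ⟨0, 0⟩, ⟨1, 0⟩⟩) (5, ⟨⟨2, 2⟩, ⟨1, 2⟩, ⟨0, 0⟩, ⟨-2, -1⟩, ⟨-1, -1⟩, ⟨0, 0⟩, ⟨1, -1⟩, ⟨1, -1⟩, ⟨1, 0⟩⟩) (4, ⟨⟨1, 0⟩, ⟨0, 0⟩, ⟨0, 0⟩, ⟨0, 0⟩, ⟨1, 0⟩, ⟨0, 0⟩, ⟨0, 0⟩, ⟨0, 0⟩, ⟨1, 0⟩⟩),
  W6 (0, ⟨⟨1, 0⟩, ⟨0, 0⟩, ⟨0, 0⟩, ⟨0, 0⟩, ⟨1, 0⟩, ⟨0, 0⟩, ⟨0, 0⟩, ⟨0, 0⟩, ⟨1, 0⟩⟩) (1, ⟨⟨1, 0⟩, ⟨0, 0⟩, ⟨0, 0⟩, ⟨0, 0⟩, ⟨1, 0⟩, ⟨0, 0⟩, ⟨0, 0⟩, ⟨0, 0⟩, ⟨1, 0⟩⟩) (2, ⟨⟨1, 0⟩, ⟨0, 0⟩, ⟨0, 0⟩, ⟨0, 0⟩, ⟨1, 0⟩, ⟨0, 0⟩,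 ⟨0, 0⟩, ⟨0, 0⟩, ⟨1, 0⟩⟩) (3, ⟨⟨1, 0⟩, ⟨0, 0⟩, ⟨0, 0⟩, ⟨0, 0⟩, ⟨1, 0⟩, ⟨0, 0⟩, ⟨0, 0⟩, ⟨0, 0⟩, ⟨1, 0⟩⟩) (4, ⟨⟨1, 0⟩, ⟨0, 0⟩, ⟨0, 0⟩, ⟨0, 0⟩, ⟨1, 0⟩, ⟨0, 0⟩, ⟨0, 0⟩, ⟨0, 0⟩, ⟨1, 0⟩⟩) (5, ⟨⟨1, 0⟩, ⟨0, 0⟩, ⟨0, 0⟩, ⟨0, 0⟩, ⟨1, 0⟩, ⟨0, 0⟩, ⟨0, 0⟩, ⟨0, 0⟩, ⟨1, 0⟩⟩),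
  W6 (1, ⟨⟨1, 0⟩, ⟨0, 0⟩, ⟨0, 0⟩, ⟨0, 0⟩, ⟨1, 0⟩, ⟨0, 0⟩, ⟨0, 0⟩, ⟨0, 0⟩, ⟨1, 0⟩⟩) (0, ⟨⟨1, 0⟩, ⟨-1, 1⟩, ⟨-1, 1⟩, ⟨0, 0⟩, ⟨0, 1⟩, ⟨-1, 1⟩, ⟨0, 0⟩, ⟨-1, -2⟩, ⟨0, -2⟩⟩) (3, ⟨⟨1, 0⟩, ⟨0, 0⟩, ⟨0, 0⟩, ⟨0, 0⟩, ⟨1, 0⟩, ⟨0, 0⟩, ⟨0, 0⟩, ⟨0, 0⟩, ⟨1, 0⟩⟩) (2, ⟨⟨0, 1⟩, ⟨0, 0⟩, ⟨-1, 1⟩, ⟨-1, -2⟩, ⟨1, 0⟩, ⟨-1, -2⟩, ⟨-1, -2⟩, ⟨0, 0⟩, ⟨0, -2⟩⟩) (5, ⟨⟨1, 0⟩, ⟨0, 0⟩, ⟨0, 0⟩, ⟨0, 0⟩, ⟨1, 0⟩, ⟨0, 0⟩, ⟨0, 0⟩, ⟨0, 0⟩, ⟨1, 0⟩⟩) (4, ⟨⟨0, 1⟩,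 ⟨-1, 1⟩, ⟨0, 0⟩, ⟨-1, -2⟩, ⟨0, -2⟩, ⟨0, 0⟩, ⟨2, 1⟩, ⟨2, 1⟩, ⟨1, 0⟩⟩),
  W6 (4, ⟨⟨0, 0⟩, ⟨1, -1⟩, ⟨1, 0⟩, ⟨0, 1⟩, ⟨0, 0⟩, ⟨0, 0⟩, ⟨0, 0⟩, ⟨0, 1⟩, ⟨0, 0⟩⟩) (5, ⟨⟨0, 0⟩, ⟨1, -1⟩, ⟨1, 0⟩, ⟨0, 1⟩, ⟨0, 0⟩, ⟨0, 0⟩, ⟨0, 0⟩, ⟨0, 1⟩, ⟨0, 0⟩⟩) (0, ⟨⟨0, 0⟩, ⟨1, -1⟩, ⟨1, 0⟩, ⟨1, 0⟩, ⟨0, 3⟩, ⟨-1, 1⟩, ⟨0, 0⟩, ⟨0, 1⟩, ⟨0, 0⟩⟩) (1, ⟨⟨0, 0⟩, ⟨1, -1⟩, ⟨1, 0⟩, ⟨1, 0⟩, ⟨0, 3⟩, ⟨-1, 1⟩, ⟨0, 0⟩, ⟨0, 1⟩, ⟨0, 0⟩⟩) (2, ⟨⟨0, 0⟩, ⟨0, 0⟩, ⟨0, 1⟩,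 ⟨-1, -1⟩, ⟨0, 0⟩, ⟨-1, -2⟩, ⟨0, 0⟩, ⟨1, 0⟩, ⟨0, 0⟩⟩) (3, ⟨⟨0, 0⟩, ⟨0, 0⟩, ⟨0, 1⟩, ⟨-1, -1⟩, ⟨0, 0⟩, ⟨-1, -2⟩, ⟨0, 0⟩, ⟨1, 0⟩, ⟨0, 0⟩⟩),
  W6 (5, ⟨⟨0, 0⟩, ⟨1, -1⟩, ⟨1, 0⟩, ⟨0, 1⟩, ⟨0, 0⟩, ⟨0, 0⟩, ⟨0, 0⟩, ⟨0, 1⟩, ⟨0, 0⟩⟩) (4, ⟨⟨-1, -2⟩, ⟨0, -3⟩, ⟨1, 0⟩, ⟨-1, -1⟩, ⟨-1, -2⟩, ⟨0, 0⟩, ⟨2, 1⟩, ⟨2, 2⟩, ⟨0, 0⟩⟩) (1, ⟨⟨0, 0⟩, ⟨1, -1⟩, ⟨1, 0⟩, ⟨1, 0⟩, ⟨0, 3⟩, ⟨-1, 1⟩, ⟨0, 0⟩, ⟨0, 1⟩, ⟨0, 0⟩⟩) (0, ⟨⟨0, 0⟩, ⟨0, 0⟩, ⟨0, 1⟩, ⟨1, 0⟩,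 ⟨-1, 1⟩, ⟨-2, -1⟩, ⟨0, 0⟩, ⟨-1, -1⟩, ⟨-1, -2⟩⟩) (3, ⟨⟨0, 0⟩, ⟨0, 0⟩, ⟨0, 1⟩, ⟨-1, -1⟩, ⟨0, 0⟩, ⟨-1, -2⟩, ⟨0, 0⟩, ⟨1, 0⟩, ⟨0, 0⟩⟩) (2, ⟨⟨2, 1⟩, ⟨0, 0⟩, ⟨2, 2⟩, ⟨-2, 0⟩, ⟨0, 0⟩, ⟨-2, -1⟩, ⟨-1, -2⟩, ⟨1, 0⟩, ⟨-1, -2⟩⟩),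
  W6 (4, ⟨⟨-1, -2⟩, ⟨0, -3⟩, ⟨1, 0⟩, ⟨-1, -1⟩, ⟨-1, -2⟩, ⟨0, 0⟩, ⟨2, 1⟩, ⟨2, 2⟩, ⟨0, 0⟩⟩) (5, ⟨⟨-1, -2⟩, ⟨0, -3⟩, ⟨1, 0⟩, ⟨-1, -1⟩, ⟨-1, -2⟩, ⟨0, 0⟩, ⟨2, 1⟩, ⟨2, 2⟩, ⟨0, 0⟩⟩) (0, ⟨⟨0, 0⟩, ⟨0, 0⟩, ⟨0, 1⟩, ⟨1, 0⟩, ⟨-1, 1⟩, ⟨-2, -1⟩, ⟨0, 0⟩, ⟨-1, -1⟩, ⟨-1, -2⟩⟩) (1, ⟨⟨0, 0⟩, ⟨0, 0⟩, ⟨0, 1⟩, ⟨1, 0⟩, ⟨-1, 1⟩, ⟨-2, -1⟩, ⟨0, 0⟩, ⟨-1, -1⟩, ⟨-1, -2⟩⟩) (2, ⟨⟨2, 1⟩, ⟨0, 0⟩, ⟨2, 2⟩, ⟨-2, 0⟩, ⟨0, 0⟩, ⟨-2, -1⟩, ⟨-1, -2⟩, ⟨1, 0⟩, ⟨-1,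 -2⟩⟩) (3, ⟨⟨2, 1⟩, ⟨0, 0⟩, ⟨2, 2⟩, ⟨-2, 0⟩, ⟨0, 0⟩, ⟨-2, -1⟩, ⟨-1, -2⟩, ⟨1, 0⟩, ⟨-1, -2⟩⟩),
  W6 (0, ⟨⟨1, 0⟩, ⟨1, -1⟩, ⟨2, 1⟩, ⟨0, 0⟩, ⟨1, 0⟩, ⟨0, 0⟩, ⟨0, 0⟩, ⟨0, 0⟩, ⟨1, 0⟩⟩) (1, ⟨⟨1, 0⟩, ⟨1, -1⟩, ⟨2, 1⟩, ⟨0, 0⟩, ⟨1, 0⟩, ⟨0, 0⟩, ⟨0, 0⟩, ⟨0, 0⟩, ⟨1, 0⟩⟩) (2, ⟨⟨0, 1⟩, ⟨0, 0⟩, ⟨-1, 1⟩, ⟨1, -1⟩, ⟨1, 0⟩, ⟨0, 0⟩, ⟨-1, -2⟩, ⟨0, 0⟩, ⟨0, -2⟩⟩) (3, ⟨⟨0, 1⟩, ⟨0, 0⟩, ⟨-1, 1⟩, ⟨1, -1⟩, ⟨1, 0⟩, ⟨0, 0⟩, ⟨-1, -2⟩, ⟨0, 0⟩, ⟨0, -2⟩⟩) (4,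 ⟨⟨2, 2⟩, ⟨1, 2⟩, ⟨0, 0⟩, ⟨-2, -1⟩, ⟨-1, -1⟩, ⟨0, 0⟩, ⟨2, 1⟩, ⟨0, 0⟩, ⟨1, 0⟩⟩) (5, ⟨⟨2, 2⟩, ⟨1, 2⟩, ⟨0, 0⟩, ⟨-2, -1⟩, ⟨-1, -1⟩, ⟨0, 0⟩, ⟨2, 1⟩, ⟨0, 0⟩, ⟨1, 0⟩⟩),
  W6 (1, ⟨⟨1, 0⟩, ⟨1, -1⟩, ⟨2, 1⟩, ⟨0, 0⟩, ⟨1, 0⟩, ⟨0, 0⟩, ⟨0, 0⟩, ⟨0, 0⟩, ⟨1, 0⟩⟩) (0, ⟨⟨1, 0⟩, ⟨0, 0⟩, ⟨1, 2⟩, ⟨0, 0⟩, ⟨0, 1⟩, ⟨-1, 1⟩, ⟨0, 0⟩, ⟨-1, -2⟩, ⟨0, -2⟩⟩) (3, ⟨⟨0, 1⟩, ⟨0, 0⟩, ⟨-1, 1⟩, ⟨1, -1⟩, ⟨1, 0⟩, ⟨0, 0⟩, ⟨-1, -2⟩, ⟨0, 0⟩, ⟨0, -2⟩⟩) (2, ⟨⟨2, 2⟩,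 ⟨0, 0⟩, ⟨1, 2⟩, ⟨0, 0⟩, ⟨1, 0⟩, ⟨-1, 1⟩, ⟨-2, -1⟩, ⟨0, 0⟩, ⟨-1, -1⟩⟩) (5, ⟨⟨2, 2⟩, ⟨1, 2⟩, ⟨0, 0⟩, ⟨-2, -1⟩, ⟨-1, -1⟩, ⟨0, 0⟩, ⟨2, 1⟩, ⟨0, 0⟩, ⟨1, 0⟩⟩) (4, ⟨⟨1, 0⟩, ⟨0, 0⟩, ⟨0, 0⟩, ⟨0, 0⟩, ⟨1, 0⟩, ⟨0, 0⟩, ⟨1, 2⟩, ⟨-1, 1⟩, ⟨1, 0⟩⟩),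
  W6 (0, ⟨⟨1, 0⟩, ⟨0, 0⟩, ⟨1, 2⟩, ⟨0, 0⟩, ⟨0, 1⟩, ⟨-1, 1⟩, ⟨0, 0⟩, ⟨-1, -2⟩, ⟨0, -2⟩⟩) (1, ⟨⟨1, 0⟩, ⟨0, 0⟩, ⟨1, 2⟩, ⟨0, 0⟩, ⟨0, 1⟩, ⟨-1, 1⟩, ⟨0, 0⟩, ⟨-1, -2⟩, ⟨0, -2⟩⟩) (2, ⟨⟨2, 2⟩, ⟨0, 0⟩, ⟨1, 2⟩, ⟨0, 0⟩, ⟨1, 0⟩, ⟨-1, 1⟩, ⟨-2, -1⟩, ⟨0, 0⟩, ⟨-1, -1⟩⟩) (3, ⟨⟨2, 2⟩, ⟨0, 0⟩, ⟨1, 2⟩, ⟨0, 0⟩, ⟨1, 0⟩, ⟨-1, 1⟩, ⟨-2, -1⟩, ⟨0, 0⟩, ⟨-1, -1⟩⟩) (4, ⟨⟨1, 0⟩, ⟨0, 0⟩, ⟨0, 0⟩, ⟨0, 0⟩, ⟨1, 0⟩, ⟨0, 0⟩, ⟨1, 2⟩, ⟨-1, 1⟩, ⟨1, 0⟩⟩) (5, ⟨⟨1,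 0⟩, ⟨0, 0⟩, ⟨0, 0⟩, ⟨0, 0⟩, ⟨1, 0⟩, ⟨0, 0⟩, ⟨1, 2⟩, ⟨-1, 1⟩, ⟨1, 0⟩⟩),
  W6 (4, ⟨⟨1, 2⟩, ⟨0, 0⟩, ⟨1, 0⟩, ⟨0, 1⟩, ⟨0, 0⟩, ⟨0, 0⟩, ⟨0, 0⟩, ⟨0, 1⟩, ⟨0, 0⟩⟩) (5, ⟨⟨1, 2⟩, ⟨0, 0⟩, ⟨1, 0⟩, ⟨0, 1⟩, ⟨0, 0⟩, ⟨0, 0⟩, ⟨0, 0⟩, ⟨0, 1⟩, ⟨0, 0⟩⟩) (0, ⟨⟨0, 0⟩, ⟨0, 0⟩, ⟨0, 1⟩, ⟨1, 0⟩, ⟨0, 0⟩, ⟨0, 0⟩, ⟨0, 0⟩, ⟨-1, -1⟩, ⟨-1, -2⟩⟩) (1, ⟨⟨0, 0⟩, ⟨0, 0⟩, ⟨0, 1⟩, ⟨1, 0⟩, ⟨0, 0⟩, ⟨0, 0⟩, ⟨0, 0⟩, ⟨-1, -1⟩, ⟨-1, -2⟩⟩) (2, ⟨⟨1, -1⟩, ⟨0, 0⟩, ⟨1,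 0⟩, ⟨0, 1⟩, ⟨0, 0⟩, ⟨0, 0⟩, ⟨0, 0⟩, ⟨1, 0⟩, ⟨-1, 1⟩⟩) (3, ⟨⟨1, -1⟩, ⟨0, 0⟩, ⟨1, 0⟩, ⟨0, 1⟩, ⟨0, 0⟩, ⟨0, 0⟩, ⟨0, 0⟩, ⟨1, 0⟩, ⟨-1, 1⟩⟩),
  W6 (5, ⟨⟨1, 2⟩, ⟨0, 0⟩, ⟨1, 0⟩, ⟨0, 1⟩, ⟨0, 0⟩, ⟨0, 0⟩, ⟨0, 0⟩, ⟨0, 1⟩, ⟨0, 0⟩⟩) (4, ⟨⟨0, 0⟩, ⟨-1, -2⟩, ⟨1, 0⟩, ⟨-1, -1⟩, ⟨-1, -2⟩, ⟨0, 0⟩, ⟨2, 1⟩, ⟨2, 2⟩, ⟨0, 0⟩⟩) (1, ⟨⟨0, 0⟩, ⟨0, 0⟩, ⟨0, 1⟩, ⟨1, 0⟩, ⟨0, 0⟩, ⟨0, 0⟩, ⟨0, 0⟩, ⟨-1, -1⟩, ⟨-1, -2⟩⟩) (0, ⟨⟨0, 0⟩, ⟨2, 1⟩, ⟨2, 2⟩, ⟨1, 0⟩, ⟨-1,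 1⟩, ⟨-1, 1⟩, ⟨0, 0⟩, ⟨-2, 0⟩, ⟨-2, -1⟩⟩) (3, ⟨⟨1, -1⟩, ⟨0, 0⟩, ⟨1, 0⟩, ⟨0, 1⟩, ⟨0, 0⟩, ⟨0, 0⟩, ⟨0, 0⟩, ⟨1, 0⟩, ⟨-1, 1⟩⟩) (2, ⟨⟨0, 0⟩, ⟨0, 0⟩, ⟨0, 1⟩, ⟨-1, -1⟩, ⟨0, 0⟩, ⟨-1, -2⟩, ⟨2, 1⟩, ⟨1, 0⟩, ⟨1, 2⟩⟩),
  W6 (4, ⟨⟨0, 0⟩, ⟨-1, -2⟩, ⟨1, 0⟩, ⟨-1, -1⟩, ⟨-1, -2⟩, ⟨0, 0⟩, ⟨2, 1⟩, ⟨2, 2⟩, ⟨0, 0⟩⟩) (5, ⟨⟨0, 0⟩, ⟨-1, -2⟩, ⟨1, 0⟩, ⟨-1, -1⟩, ⟨-1, -2⟩, ⟨0, 0⟩, ⟨2, 1⟩, ⟨2, 2⟩, ⟨0, 0⟩⟩) (0, ⟨⟨0, 0⟩, ⟨2, 1⟩, ⟨2, 2⟩, ⟨1, 0⟩, ⟨-1, 1⟩,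 ⟨-1, 1⟩, ⟨0, 0⟩, ⟨-2, 0⟩, ⟨-2, -1⟩⟩) (1, ⟨⟨0, 0⟩, ⟨2, 1⟩, ⟨2, 2⟩, ⟨1, 0⟩, ⟨-1, 1⟩, ⟨-1, 1⟩, ⟨0, 0⟩, ⟨-2, 0⟩, ⟨-2, -1⟩⟩) (2, ⟨⟨0, 0⟩, ⟨0, 0⟩, ⟨0, 1⟩, ⟨-1, -1⟩, ⟨0, 0⟩, ⟨-1, -2⟩, ⟨2, 1⟩, ⟨1, 0⟩, ⟨1, 2⟩⟩) (3, ⟨⟨0, 0⟩, ⟨0, 0⟩, ⟨0, 1⟩, ⟨-1, -1⟩, ⟨0, 0⟩, ⟨-1, -2⟩, ⟨2, 1⟩, ⟨1, 0⟩, ⟨1, 2⟩⟩),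
  W6 (2, ⟨⟨0, 0⟩, ⟨1, 0⟩, ⟨-2, -1⟩, ⟨0, 0⟩, ⟨0, 0⟩, ⟨-1, -1⟩, ⟨1, 0⟩, ⟨0, 0⟩, ⟨2, 1⟩⟩) (3, ⟨⟨0, 0⟩, ⟨1, 0⟩, ⟨-2, -1⟩, ⟨0, 0⟩, ⟨0, 0⟩, ⟨-1, -1⟩, ⟨1, 0⟩, ⟨0, 0⟩, ⟨2, 1⟩⟩) (4, ⟨⟨0, 0⟩, ⟨-1, -1⟩, ⟨0, 0⟩, ⟨0, 0⟩, ⟨1, -1⟩, ⟨1, 0⟩, ⟨1, 0⟩, ⟨2, 1⟩, ⟨0, 0⟩⟩) (5, ⟨⟨0, 0⟩, ⟨-1, -1⟩, ⟨0, 0⟩, ⟨0, 0⟩, ⟨1, -1⟩, ⟨1, 0⟩, ⟨1, 0⟩, ⟨2, 1⟩, ⟨0, 0⟩⟩) (0, ⟨⟨0, 0⟩, ⟨0, -2⟩, ⟨1, -1⟩, ⟨0, 0⟩, ⟨1, 2⟩, ⟨0, 1⟩, ⟨1, 0⟩, ⟨-1, 1⟩, ⟨-1, 1⟩⟩) (1, ⟨⟨0,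 0⟩, ⟨0, -2⟩, ⟨1, -1⟩, ⟨0, 0⟩, ⟨1, 2⟩, ⟨0, 1⟩, ⟨1, 0⟩, ⟨-1, 1⟩, ⟨-1, 1⟩⟩),
  W6 (3, ⟨⟨0, 0⟩, ⟨1, 0⟩, ⟨-2, -1⟩, ⟨0, 0⟩, ⟨0, 0⟩, ⟨-1, -1⟩, ⟨1, 0⟩, ⟨0, 0⟩, ⟨2, 1⟩⟩) (2, ⟨⟨-1, 1⟩, ⟨1, 0⟩, ⟨-3, 0⟩, ⟨-1, 1⟩, ⟨0, 0⟩, ⟨-2, 0⟩, ⟨0, -2⟩, ⟨0, 0⟩, ⟨1, -1⟩⟩) (5, ⟨⟨0, 0⟩, ⟨-1, -1⟩, ⟨0, 0⟩, ⟨0, 0⟩, ⟨1, -1⟩, ⟨1, 0⟩, ⟨1, 0⟩, ⟨2, 1⟩, ⟨0, 0⟩⟩) (4, ⟨⟨-1, 1⟩, ⟨-2, 0⟩, ⟨0, 0⟩, ⟨-1, -2⟩, ⟨0, -3⟩, ⟨1, 0⟩, ⟨0, -2⟩, ⟨1, -1⟩, ⟨0, 0⟩⟩) (1, ⟨⟨0, 0⟩,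 ⟨0, -2⟩, ⟨1, -1⟩, ⟨0, 0⟩, ⟨1, 2⟩, ⟨0, 1⟩, ⟨1, 0⟩, ⟨-1, 1⟩, ⟨-1, 1⟩⟩) (0, ⟨⟨0, 0⟩, ⟨-1, -1⟩, ⟨0, 0⟩, ⟨0, 0⟩, ⟨0, 0⟩, ⟨-1, -1⟩, ⟨1, 0⟩, ⟨1, 2⟩, ⟨1, 2⟩⟩),
  W6 (2, ⟨⟨-1, 1⟩, ⟨1, 0⟩, ⟨-3, 0⟩, ⟨-1, 1⟩, ⟨0, 0⟩, ⟨-2, 0⟩, ⟨0, -2⟩, ⟨0, 0⟩, ⟨1, -1⟩⟩) (3, ⟨⟨-1, 1⟩, ⟨1, 0⟩, ⟨-3, 0⟩, ⟨-1, 1⟩, ⟨0, 0⟩, ⟨-2, 0⟩, ⟨0, -2⟩, ⟨0, 0⟩, ⟨1, -1⟩⟩) (4, ⟨⟨-1, 1⟩, ⟨-2, 0⟩, ⟨0, 0⟩, ⟨-1, -2⟩, ⟨0, -3⟩, ⟨1, 0⟩, ⟨0, -2⟩, ⟨1, -1⟩, ⟨0, 0⟩⟩) (5, ⟨⟨-1, 1⟩,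 ⟨-2, 0⟩, ⟨0, 0⟩, ⟨-1, -2⟩, ⟨0, -3⟩, ⟨1, 0⟩, ⟨0, -2⟩, ⟨1, -1⟩, ⟨0, 0⟩⟩) (0, ⟨⟨0, 0⟩, ⟨-1, -1⟩, ⟨0, 0⟩, ⟨0, 0⟩, ⟨0, 0⟩, ⟨-1, -1⟩, ⟨1, 0⟩, ⟨1, 2⟩, ⟨1, 2⟩⟩) (1, ⟨⟨0, 0⟩, ⟨-1, -1⟩, ⟨0, 0⟩, ⟨0, 0⟩, ⟨0, 0⟩, ⟨-1, -1⟩, ⟨1, 0⟩, ⟨1, 2⟩, ⟨1, 2⟩⟩)]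

/-- the values for k = 1 -/
def rtab1 : List Wr := [
  W6 (2, ⟨⟨-2, -1⟩, ⟨1, 0⟩, ⟨-2, -1⟩, ⟨-2, 0⟩, ⟨0, 0⟩, ⟨-2, -1⟩, ⟨1, -1⟩, ⟨0, 0⟩, ⟨1, 0⟩⟩) (3, ⟨⟨-2, -1⟩, ⟨1, 0⟩, ⟨-2, -1⟩, ⟨-2, 0⟩, ⟨0, 0⟩, ⟨-2, -1⟩, ⟨1, -1⟩, ⟨0, 0⟩, ⟨1, 0⟩⟩) (0, ⟨⟨0, 0⟩, ⟨2, 2⟩, ⟨1, 2⟩, ⟨1, 0⟩, ⟨-3, 0⟩, ⟨-2, -1⟩, ⟨0, 0⟩, ⟨-2, -1⟩, ⟨-1, -1⟩⟩) (1, ⟨⟨0, 0⟩, ⟨2, 2⟩, ⟨1, 2⟩, ⟨1, 0⟩, ⟨-3, 0⟩, ⟨-2, -1⟩, ⟨0, 0⟩, ⟨-2, -1⟩, ⟨-1, -1⟩⟩) (4, ⟨⟨1, 2⟩, ⟨0, 1⟩,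 ⟨0, 0⟩, ⟨-1, -1⟩, ⟨0, 0⟩, ⟨0, 0⟩, ⟨1, -1⟩, ⟨1, -1⟩, ⟨1, 0⟩⟩) (5, ⟨⟨1, 2⟩, ⟨0, 1⟩, ⟨0, 0⟩, ⟨-1, -1⟩, ⟨0, 0⟩, ⟨0, 0⟩, ⟨1, -1⟩, ⟨1, -1⟩, ⟨1, 0⟩⟩),
  W6 (3, ⟨⟨-2, -1⟩, ⟨1, 0⟩, ⟨-2, -1⟩, ⟨-2, 0⟩, ⟨0, 0⟩, ⟨-2, -1⟩, ⟨1, -1⟩, ⟨0, 0⟩, ⟨1, 0⟩⟩) (2, ⟨⟨0, 0⟩, ⟨1, 0⟩, ⟨0, 0⟩, ⟨0, 1⟩, ⟨0, 0⟩, ⟨0, 0⟩, ⟨0, 0⟩, ⟨0, 0⟩, ⟨0, 1⟩⟩) (1, ⟨⟨0, 0⟩, ⟨2, 2⟩, ⟨1, 2⟩, ⟨1, 0⟩, ⟨-3, 0⟩, ⟨-2, -1⟩, ⟨0, 0⟩, ⟨-2, -1⟩, ⟨-1, -1⟩⟩) (0, ⟨⟨0, 0⟩, ⟨1, 0⟩, ⟨0,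 0⟩, ⟨1, 0⟩, ⟨-1, 1⟩, ⟨0, 0⟩, ⟨0, 0⟩, ⟨0, 0⟩, ⟨1, 0⟩⟩) (5, ⟨⟨1, 2⟩, ⟨0, 1⟩, ⟨0, 0⟩, ⟨-1, -1⟩, ⟨0, 0⟩, ⟨0, 0⟩, ⟨1, -1⟩, ⟨1, -1⟩, ⟨1, 0⟩⟩) (4, ⟨⟨0, 0⟩, ⟨-1, -1⟩, ⟨0, 0⟩, ⟨1, 0⟩, ⟨2, 1⟩, ⟨0, 0⟩, ⟨0, 0⟩, ⟨0, 0⟩, ⟨1, 0⟩⟩),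
  W6 (2, ⟨⟨0, 0⟩, ⟨1, 0⟩, ⟨0, 0⟩, ⟨0, 1⟩, ⟨0, 0⟩, ⟨0, 0⟩, ⟨0, 0⟩, ⟨0, 0⟩, ⟨0, 1⟩⟩) (3, ⟨⟨0, 0⟩, ⟨1, 0⟩, ⟨0, 0⟩, ⟨0, 1⟩, ⟨0, 0⟩, ⟨0, 0⟩, ⟨0, 0⟩, ⟨0, 0⟩, ⟨0, 1⟩⟩) (0, ⟨⟨0, 0⟩, ⟨1, 0⟩, ⟨0, 0⟩, ⟨1, 0⟩, ⟨-1, 1⟩, ⟨0, 0⟩, ⟨0, 0⟩, ⟨0, 0⟩, ⟨1, 0⟩⟩) (1, ⟨⟨0, 0⟩, ⟨1, 0⟩, ⟨0, 0⟩, ⟨1, 0⟩, ⟨-1, 1⟩, ⟨0, 0⟩, ⟨0, 0⟩, ⟨0, 0⟩, ⟨1, 0⟩⟩) (4, ⟨⟨0, 0⟩, ⟨-1, -1⟩, ⟨0, 0⟩, ⟨1, 0⟩, ⟨2, 1⟩, ⟨0, 0⟩, ⟨0, 0⟩, ⟨0, 0⟩, ⟨1, 0⟩⟩) (5, ⟨⟨0, 0⟩, ⟨-1, -1⟩,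 ⟨0, 0⟩, ⟨1, 0⟩, ⟨2, 1⟩, ⟨0, 0⟩, ⟨0, 0⟩, ⟨0, 0⟩, ⟨1, 0⟩⟩),
  W6 (0, ⟨⟨1, 0⟩, ⟨0, 3⟩, ⟨-1, 1⟩, ⟨0, 0⟩, ⟨1, 2⟩, ⟨0, 1⟩, ⟨0, 0⟩, ⟨-1, -1⟩, ⟨0, 0⟩⟩) (1, ⟨⟨1, 0⟩, ⟨0, 3⟩, ⟨-1, 1⟩, ⟨0, 0⟩, ⟨1, 2⟩, ⟨0, 1⟩, ⟨0, 0⟩, ⟨-1, -1⟩, ⟨0, 0⟩⟩) (4, ⟨⟨0, 1⟩, ⟨0, 0⟩, ⟨0, 0⟩, ⟨-1, -2⟩, ⟨1, -1⟩, ⟨1, 0⟩, ⟨0, 0⟩, ⟨0, 1⟩, ⟨0, 0⟩⟩) (5, ⟨⟨0, 1⟩, ⟨0, 0⟩, ⟨0, 0⟩, ⟨-1, -2⟩, ⟨1, -1⟩, ⟨1, 0⟩, ⟨0, 0⟩, ⟨0, 1⟩, ⟨0, 0⟩⟩) (2, ⟨⟨0, 1⟩, ⟨0, 0⟩, ⟨-1, 1⟩, ⟨-1,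 -2⟩, ⟨0, 0⟩, ⟨0, -2⟩, ⟨0, 0⟩, ⟨1, 0⟩, ⟨0, 0⟩⟩) (3, ⟨⟨0, 1⟩, ⟨0, 0⟩, ⟨-1, 1⟩, ⟨-1, -2⟩, ⟨0, 0⟩, ⟨0, -2⟩, ⟨0, 0⟩, ⟨1, 0⟩, ⟨0, 0⟩⟩),
  W6 (1, ⟨⟨1, 0⟩, ⟨0, 3⟩, ⟨-1, 1⟩, ⟨0, 0⟩, ⟨1, 2⟩, ⟨0, 1⟩, ⟨0, 0⟩, ⟨-1, -1⟩, ⟨0, 0⟩⟩) (0, ⟨⟨1, 0⟩, ⟨-1, 1⟩, ⟨-2, -1⟩, ⟨0, 0⟩, ⟨0, 0⟩, ⟨-1, -1⟩, ⟨0, 0⟩, ⟨1, 0⟩, ⟨2, 1⟩⟩) (5, ⟨⟨0, 1⟩, ⟨0, 0⟩, ⟨0, 0⟩, ⟨-1, -2⟩, ⟨1, -1⟩, ⟨1, 0⟩, ⟨0, 0⟩, ⟨0, 1⟩, ⟨0, 0⟩⟩) (4, ⟨⟨-1, -1⟩, ⟨-1, -2⟩, ⟨0, 0⟩, ⟨1, -1⟩,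 ⟨3, 0⟩, ⟨1, 0⟩, ⟨2, 1⟩, ⟨2, 2⟩, ⟨0, 0⟩⟩) (3, ⟨⟨0, 1⟩, ⟨0, 0⟩, ⟨-1, 1⟩, ⟨-1, -2⟩, ⟨0, 0⟩, ⟨0, -2⟩, ⟨0, 0⟩, ⟨1, 0⟩, ⟨0, 0⟩⟩) (2, ⟨⟨2, 2⟩, ⟨0, 0⟩, ⟨1, 2⟩, ⟨-2, -1⟩, ⟨0, 0⟩, ⟨-1, -1⟩, ⟨-1, -2⟩, ⟨1, 0⟩, ⟨-1, -2⟩⟩),
  W6 (0, ⟨⟨1, 0⟩, ⟨-1, 1⟩, ⟨-2, -1⟩, ⟨0, 0⟩, ⟨0, 0⟩, ⟨-1, -1⟩, ⟨0, 0⟩, ⟨1, 0⟩, ⟨2, 1⟩⟩) (1, ⟨⟨1, 0⟩, ⟨-1, 1⟩, ⟨-2, -1⟩, ⟨0, 0⟩, ⟨0, 0⟩, ⟨-1, -1⟩, ⟨0, 0⟩, ⟨1, 0⟩, ⟨2, 1⟩⟩) (4, ⟨⟨-1, -1⟩, ⟨-1, -2⟩, ⟨0, 0⟩, ⟨1, -1⟩,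 ⟨3, 0⟩, ⟨1, 0⟩, ⟨2, 1⟩, ⟨2, 2⟩, ⟨0, 0⟩⟩) (5, ⟨⟨-1, -1⟩, ⟨-1, -2⟩, ⟨0, 0⟩, ⟨1, -1⟩, ⟨3, 0⟩, ⟨1, 0⟩, ⟨2, 1⟩, ⟨2, 2⟩, ⟨0, 0⟩⟩) (2, ⟨⟨2, 2⟩, ⟨0, 0⟩, ⟨1, 2⟩, ⟨-2, -1⟩, ⟨0, 0⟩, ⟨-1, -1⟩, ⟨-1, -2⟩, ⟨1, 0⟩, ⟨-1, -2⟩⟩) (3, ⟨⟨2, 2⟩, ⟨0, 0⟩, ⟨1, 2⟩, ⟨-2, -1⟩, ⟨0, 0⟩, ⟨-1, -1⟩, ⟨-1, -2⟩, ⟨1, 0⟩, ⟨-1, -2⟩⟩),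
  W6 (4, ⟨⟨-1, -2⟩, ⟨2, -2⟩, ⟨1, 0⟩, ⟨0, 0⟩, ⟨1, 0⟩, ⟨0, 0⟩, ⟨0, 1⟩, ⟨-1, 1⟩, ⟨0, 0⟩⟩) (5, ⟨⟨-1, -2⟩, ⟨2, -2⟩, ⟨1, 0⟩, ⟨0, 0⟩, ⟨1, 0⟩, ⟨0, 0⟩, ⟨0, 1⟩, ⟨-1, 1⟩, ⟨0, 0⟩⟩) (2, ⟨⟨-1, 1⟩, ⟨0, 0⟩, ⟨-2, 0⟩, ⟨-3, -3⟩, ⟨1, 0⟩, ⟨-2, -4⟩, ⟨0, -2⟩, ⟨0, 0⟩, ⟨1, -1⟩⟩) (3, ⟨⟨-1, 1⟩, ⟨0, 0⟩, ⟨-2, 0⟩, ⟨-3, -3⟩, ⟨1, 0⟩, ⟨-2, -4⟩, ⟨0, -2⟩, ⟨0, 0⟩, ⟨1, -1⟩⟩) (0, ⟨⟨0, 0⟩, ⟨2, 1⟩, ⟨2, 2⟩, ⟨0, 0⟩, ⟨-2, 0⟩, ⟨-2, -1⟩, ⟨1, 0⟩, ⟨-1, 1⟩, ⟨-2, -1⟩⟩)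 (1, ⟨⟨0, 0⟩, ⟨2, 1⟩, ⟨2, 2⟩, ⟨0, 0⟩, ⟨-2, 0⟩, ⟨-2, -1⟩, ⟨1, 0⟩, ⟨-1, 1⟩, ⟨-2, -1⟩⟩),
  W6 (5, ⟨⟨-1, -2⟩, ⟨2, -2⟩, ⟨1, 0⟩, ⟨0, 0⟩, ⟨1, 0⟩, ⟨0, 0⟩, ⟨0, 1⟩, ⟨-1, 1⟩, ⟨0, 0⟩⟩) (4, ⟨⟨-2, -4⟩, ⟨1, -4⟩, ⟨1, 0⟩, ⟨-1, -2⟩, ⟨0, -2⟩, ⟨0, 0⟩, ⟨2, 2⟩, ⟨1, 2⟩, ⟨0, 0⟩⟩) (3, ⟨⟨-1, 1⟩, ⟨0, 0⟩, ⟨-2, 0⟩, ⟨-3, -3⟩, ⟨1, 0⟩, ⟨-2, -4⟩, ⟨0, -2⟩, ⟨0, 0⟩, ⟨1, -1⟩⟩) (2, ⟨⟨1, 2⟩, ⟨0, 0⟩, ⟨0, 1⟩, ⟨-4, -2⟩, ⟨1, 0⟩, ⟨-3, -3⟩, ⟨-1, -1⟩, ⟨0, 0⟩, ⟨0, 0⟩⟩)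 (1, ⟨⟨0, 0⟩, ⟨2, 1⟩, ⟨2, 2⟩, ⟨0, 0⟩, ⟨-2, 0⟩, ⟨-2, -1⟩, ⟨1, 0⟩, ⟨-1, 1⟩, ⟨-2, -1⟩⟩) (0, ⟨⟨0, 0⟩, ⟨1, -1⟩, ⟨1, 0⟩, ⟨0, 0⟩, ⟨0, 1⟩, ⟨0, 0⟩, ⟨1, 0⟩, ⟨-2, 2⟩, ⟨-3, 0⟩⟩),
  W6 (4, ⟨⟨-2, -4⟩, ⟨1, -4⟩, ⟨1, 0⟩, ⟨-1, -2⟩, ⟨0, -2⟩, ⟨0, 0⟩, ⟨2, 2⟩, ⟨1, 2⟩, ⟨0, 0⟩⟩) (5, ⟨⟨-2, -4⟩, ⟨1, -4⟩, ⟨1, 0⟩, ⟨-1, -2⟩, ⟨0, -2⟩, ⟨0, 0⟩, ⟨2, 2⟩, ⟨1, 2⟩, ⟨0, 0⟩⟩) (2, ⟨⟨1, 2⟩, ⟨0, 0⟩, ⟨0, 1⟩, ⟨-4, -2⟩, ⟨1, 0⟩, ⟨-3, -3⟩, ⟨-1, -1⟩, ⟨0, 0⟩, ⟨0, 0⟩⟩)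 (3, ⟨⟨1, 2⟩, ⟨0, 0⟩, ⟨0, 1⟩, ⟨-4, -2⟩, ⟨1, 0⟩, ⟨-3, -3⟩, ⟨-1, -1⟩, ⟨0, 0⟩, ⟨0, 0⟩⟩) (0, ⟨⟨0, 0⟩, ⟨1, -1⟩, ⟨1, 0⟩, ⟨0, 0⟩, ⟨0, 1⟩, ⟨0, 0⟩, ⟨1, 0⟩, ⟨-2, 2⟩, ⟨-3, 0⟩⟩) (1, ⟨⟨0, 0⟩, ⟨1, -1⟩, ⟨1, 0⟩, ⟨0, 0⟩, ⟨0, 1⟩, ⟨0, 0⟩, ⟨1, 0⟩, ⟨-2, 2⟩, ⟨-3, 0⟩⟩),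
  W6 (0, ⟨⟨1, 0⟩, ⟨1, 2⟩, ⟨1, 2⟩, ⟨0, 0⟩, ⟨1, 2⟩, ⟨0, 1⟩, ⟨0, 0⟩, ⟨-1, -1⟩, ⟨0, 0⟩⟩) (1, ⟨⟨1, 0⟩, ⟨1, 2⟩, ⟨1, 2⟩, ⟨0, 0⟩, ⟨1, 2⟩, ⟨0, 1⟩, ⟨0, 0⟩, ⟨-1, -1⟩, ⟨0, 0⟩⟩) (4, ⟨⟨-2, 0⟩, ⟨-2, -1⟩, ⟨0, 0⟩, ⟨1, -1⟩, ⟨1, -1⟩, ⟨1, 0⟩, ⟨1, -1⟩, ⟨1, 0⟩, ⟨0, 0⟩⟩) (5, ⟨⟨-2, 0⟩, ⟨-2, -1⟩, ⟨0, 0⟩, ⟨1, -1⟩, ⟨1, -1⟩, ⟨1, 0⟩, ⟨1, -1⟩, ⟨1, 0⟩, ⟨0, 0⟩⟩) (2, ⟨⟨2, 2⟩, ⟨0, 0⟩, ⟨1, 2⟩, ⟨-2, -1⟩, ⟨0, 0⟩, ⟨-1, -1⟩, ⟨1, -1⟩, ⟨1, 0⟩, ⟨0, 0⟩⟩) (3, ⟨⟨2,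 2⟩, ⟨0, 0⟩, ⟨1, 2⟩, ⟨-2, -1⟩, ⟨0, 0⟩, ⟨-1, -1⟩, ⟨1, -1⟩, ⟨1, 0⟩, ⟨0, 0⟩⟩),
  W6 (1, ⟨⟨1, 0⟩, ⟨1, 2⟩, ⟨1, 2⟩, ⟨0, 0⟩, ⟨1, 2⟩, ⟨0, 1⟩, ⟨0, 0⟩, ⟨-1, -1⟩, ⟨0, 0⟩⟩) (0, ⟨⟨1, 0⟩, ⟨0, 0⟩, ⟨0, 0⟩, ⟨0, 0⟩, ⟨0, 0⟩, ⟨-1, -1⟩, ⟨0, 0⟩, ⟨1, 0⟩, ⟨2, 1⟩⟩) (5, ⟨⟨-2, 0⟩, ⟨-2, -1⟩, ⟨0, 0⟩, ⟨1, -1⟩, ⟨1, -1⟩, ⟨1, 0⟩, ⟨1, -1⟩, ⟨1, 0⟩, ⟨0, 0⟩⟩) (4, ⟨⟨0, 1⟩, ⟨0, 0⟩, ⟨0, 0⟩, ⟨0, 0⟩, ⟨0, 0⟩, ⟨1, 0⟩, ⟨0, 0⟩, ⟨0, 1⟩, ⟨0, 0⟩⟩) (3, ⟨⟨2, 2⟩, ⟨0, 0⟩,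 ⟨1, 2⟩, ⟨-2, -1⟩, ⟨0, 0⟩, ⟨-1, -1⟩, ⟨1, -1⟩, ⟨1, 0⟩, ⟨0, 0⟩⟩) (2, ⟨⟨1, 0⟩, ⟨0, 0⟩, ⟨0, 0⟩, ⟨0, 0⟩, ⟨0, 0⟩, ⟨1, 0⟩, ⟨0, 0⟩, ⟨1, 0⟩, ⟨-1, 1⟩⟩),
  W6 (0, ⟨⟨1, 0⟩, ⟨0, 0⟩, ⟨0, 0⟩, ⟨0, 0⟩, ⟨0, 0⟩, ⟨-1, -1⟩, ⟨0, 0⟩, ⟨1, 0⟩, ⟨2, 1⟩⟩) (1, ⟨⟨1, 0⟩, ⟨0, 0⟩, ⟨0, 0⟩, ⟨0, 0⟩, ⟨0, 0⟩, ⟨-1, -1⟩, ⟨0, 0⟩, ⟨1, 0⟩, ⟨2, 1⟩⟩) (4, ⟨⟨0, 1⟩, ⟨0, 0⟩, ⟨0, 0⟩, ⟨0, 0⟩, ⟨0, 0⟩, ⟨1, 0⟩, ⟨0, 0⟩, ⟨0, 1⟩, ⟨0, 0⟩⟩) (5, ⟨⟨0, 1⟩, ⟨0, 0⟩, ⟨0, 0⟩, ⟨0, 0⟩,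 ⟨0, 0⟩, ⟨1, 0⟩, ⟨0, 0⟩, ⟨0, 1⟩, ⟨0, 0⟩⟩) (2, ⟨⟨1, 0⟩, ⟨0, 0⟩, ⟨0, 0⟩, ⟨0, 0⟩, ⟨0, 0⟩, ⟨1, 0⟩, ⟨0, 0⟩, ⟨1, 0⟩, ⟨-1, 1⟩⟩) (3, ⟨⟨1, 0⟩, ⟨0, 0⟩, ⟨0, 0⟩, ⟨0, 0⟩, ⟨0, 0⟩, ⟨1, 0⟩, ⟨0, 0⟩, ⟨1, 0⟩, ⟨-1, 1⟩⟩),
  W6 (5, ⟨⟨-2, -1⟩, ⟨-1, -2⟩, ⟨1, 0⟩, ⟨-2, -1⟩, ⟨-1, -1⟩, ⟨0, 0⟩, ⟨1, 0⟩, ⟨0, 0⟩, ⟨0, 0⟩⟩) (4, ⟨⟨0, 0⟩, ⟨1, -1⟩, ⟨1, 0⟩, ⟨0, 0⟩, ⟨1, 0⟩, ⟨0, 0⟩, ⟨0, 1⟩, ⟨-1, 1⟩, ⟨0, 0⟩⟩) (3, ⟨⟨1, 2⟩, ⟨0, 0⟩, ⟨0, 1⟩, ⟨-2, -1⟩, ⟨1, 0⟩, ⟨-2,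 -1⟩, ⟨-1, -1⟩, ⟨0, 0⟩, ⟨0, 0⟩⟩) (2, ⟨⟨0, 0⟩, ⟨0, 0⟩, ⟨-1, -1⟩, ⟨0, 0⟩, ⟨1, 0⟩, ⟨0, 0⟩, ⟨1, 0⟩, ⟨0, 0⟩, ⟨2, 1⟩⟩) (1, ⟨⟨0, 0⟩, ⟨2, 1⟩, ⟨2, 2⟩, ⟨0, 0⟩, ⟨-2, 0⟩, ⟨-2, -1⟩, ⟨1, 0⟩, ⟨0, 0⟩, ⟨0, 0⟩⟩) (0, ⟨⟨0, 0⟩, ⟨1, -1⟩, ⟨1, 0⟩, ⟨0, 0⟩, ⟨0, 1⟩, ⟨0, 0⟩, ⟨1, 0⟩, ⟨-1, 1⟩, ⟨-1, 1⟩⟩),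
  W6 (4, ⟨⟨0, 0⟩, ⟨1, -1⟩, ⟨1, 0⟩, ⟨0, 0⟩, ⟨1, 0⟩, ⟨0, 0⟩, ⟨0, 1⟩, ⟨-1, 1⟩, ⟨0, 0⟩⟩) (5, ⟨⟨0, 0⟩, ⟨1, -1⟩, ⟨1, 0⟩, ⟨0, 0⟩, ⟨1, 0⟩, ⟨0, 0⟩, ⟨0, 1⟩, ⟨-1, 1⟩, ⟨0, 0⟩⟩) (2, ⟨⟨0, 0⟩, ⟨0, 0⟩, ⟨-1, -1⟩, ⟨0, 0⟩, ⟨1, 0⟩, ⟨0, 0⟩, ⟨1, 0⟩, ⟨0, 0⟩, ⟨2, 1⟩⟩) (3, ⟨⟨0, 0⟩, ⟨0, 0⟩, ⟨-1, -1⟩, ⟨0, 0⟩, ⟨1, 0⟩, ⟨0, 0⟩, ⟨1, 0⟩, ⟨0, 0⟩, ⟨2, 1⟩⟩) (0, ⟨⟨0, 0⟩, ⟨1, -1⟩, ⟨1, 0⟩, ⟨0, 0⟩, ⟨0, 1⟩, ⟨0, 0⟩, ⟨1, 0⟩, ⟨-1, 1⟩, ⟨-1, 1⟩⟩) (1, ⟨⟨0, 0⟩, ⟨1,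 -1⟩, ⟨1, 0⟩, ⟨0, 0⟩, ⟨0, 1⟩, ⟨0, 0⟩, ⟨1, 0⟩, ⟨-1, 1⟩, ⟨-1, 1⟩⟩),
  W6 (5, ⟨⟨0, 0⟩, ⟨1, -1⟩, ⟨1, 0⟩, ⟨0, 0⟩, ⟨1, 0⟩, ⟨0, 0⟩, ⟨0, 1⟩, ⟨-1, 1⟩, ⟨0, 0⟩⟩) (4, ⟨⟨-1, -2⟩, ⟨0, -3⟩, ⟨1, 0⟩, ⟨-1, -2⟩, ⟨0, -2⟩, ⟨0, 0⟩, ⟨2, 2⟩, ⟨1, 2⟩, ⟨0, 0⟩⟩) (3, ⟨⟨0, 0⟩, ⟨0, 0⟩, ⟨-1, -1⟩, ⟨0, 0⟩, ⟨1, 0⟩, ⟨0, 0⟩, ⟨1, 0⟩, ⟨0, 0⟩, ⟨2, 1⟩⟩) (2, ⟨⟨-1, 1⟩, ⟨0, 0⟩, ⟨-2, 0⟩, ⟨-1, -2⟩, ⟨1, 0⟩, ⟨-1, -2⟩, ⟨0, -2⟩, ⟨0, 0⟩, ⟨1, -1⟩⟩) (1, ⟨⟨0, 0⟩, ⟨1, -1⟩,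 ⟨1, 0⟩, ⟨0, 0⟩, ⟨0, 1⟩, ⟨0, 0⟩, ⟨1, 0⟩, ⟨-1, 1⟩, ⟨-1, 1⟩⟩) (0, ⟨⟨0, 0⟩, ⟨0, 0⟩, ⟨0, 1⟩, ⟨0, 0⟩, ⟨-1, -1⟩, ⟨-1, -2⟩, ⟨1, 0⟩, ⟨1, 2⟩, ⟨1, 2⟩⟩),
  W6 (2, ⟨⟨-2, -1⟩, ⟨1, 0⟩, ⟨-3, -3⟩, ⟨-1, -1⟩, ⟨0, 0⟩, ⟨-1, -2⟩, ⟨2, 1⟩, ⟨0, 0⟩, ⟨2, 2⟩⟩) (3, ⟨⟨-2, -1⟩, ⟨1, 0⟩, ⟨-3, -3⟩, ⟨-1, -1⟩, ⟨0, 0⟩, ⟨-1, -2⟩, ⟨2, 1⟩, ⟨0, 0⟩, ⟨2, 2⟩⟩) (0, ⟨⟨0, 0⟩, ⟨1, 0⟩, ⟨0, 0⟩, ⟨1, 0⟩, ⟨0, 3⟩, ⟨-1, 1⟩, ⟨0, 0⟩, ⟨0, 0⟩, ⟨1, 0⟩⟩) (1, ⟨⟨0, 0⟩, ⟨1, 0⟩, ⟨0,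 0⟩, ⟨1, 0⟩, ⟨0, 3⟩, ⟨-1, 1⟩, ⟨0, 0⟩, ⟨0, 0⟩, ⟨1, 0⟩⟩) (4, ⟨⟨1, 2⟩, ⟨0, 1⟩, ⟨0, 0⟩, ⟨-1, -1⟩, ⟨0, 0⟩, ⟨0, 0⟩, ⟨-1, -2⟩, ⟨0, -3⟩, ⟨1, 0⟩⟩) (5, ⟨⟨1, 2⟩, ⟨0, 1⟩, ⟨0, 0⟩, ⟨-1, -1⟩, ⟨0, 0⟩, ⟨0, 0⟩, ⟨-1, -2⟩, ⟨0, -3⟩, ⟨1, 0⟩⟩),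
  W6 (3, ⟨⟨-2, -1⟩, ⟨1, 0⟩, ⟨-3, -3⟩, ⟨-1, -1⟩, ⟨0, 0⟩, ⟨-1, -2⟩, ⟨2, 1⟩, ⟨0, 0⟩, ⟨2, 2⟩⟩) (2, ⟨⟨-3, 0⟩, ⟨1, 0⟩, ⟨-4, -2⟩, ⟨-2, 0⟩, ⟨0, 0⟩, ⟨-2, -1⟩, ⟨1, -1⟩, ⟨0, 0⟩, ⟨1, 0⟩⟩) (1, ⟨⟨0, 0⟩, ⟨1, 0⟩, ⟨0, 0⟩, ⟨1, 0⟩, ⟨0, 3⟩, ⟨-1, 1⟩, ⟨0, 0⟩, ⟨0, 0⟩, ⟨1, 0⟩⟩) (0, ⟨⟨0, 0⟩, ⟨0, 1⟩, ⟨-1, 1⟩, ⟨1, 0⟩, ⟨-1, 1⟩, ⟨-2, -1⟩, ⟨0, 0⟩, ⟨-1, -2⟩, ⟨0, -2⟩⟩) (5, ⟨⟨1, 2⟩, ⟨0, 1⟩, ⟨0, 0⟩, ⟨-1, -1⟩, ⟨0, 0⟩, ⟨0, 0⟩, ⟨-1, -2⟩, ⟨0, -3⟩, ⟨1, 0⟩⟩)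 (4, ⟨⟨0, 0⟩, ⟨-1, -1⟩, ⟨0, 0⟩, ⟨1, 0⟩, ⟨2, 1⟩, ⟨0, 0⟩, ⟨-2, -1⟩, ⟨-1, -2⟩, ⟨1, 0⟩⟩),
  W6 (2, ⟨⟨-3, 0⟩, ⟨1, 0⟩, ⟨-4, -2⟩, ⟨-2, 0⟩, ⟨0, 0⟩, ⟨-2, -1⟩, ⟨1, -1⟩, ⟨0, 0⟩, ⟨1, 0⟩⟩) (3, ⟨⟨-3, 0⟩, ⟨1, 0⟩, ⟨-4, -2⟩, ⟨-2, 0⟩, ⟨0, 0⟩, ⟨-2, -1⟩, ⟨1, -1⟩, ⟨0, 0⟩, ⟨1, 0⟩⟩) (0, ⟨⟨0, 0⟩, ⟨0, 1⟩, ⟨-1, 1⟩, ⟨1, 0⟩, ⟨-1, 1⟩, ⟨-2, -1⟩, ⟨0, 0⟩, ⟨-1, -2⟩, ⟨0, -2⟩⟩) (1, ⟨⟨0, 0⟩, ⟨0, 1⟩, ⟨-1, 1⟩, ⟨1, 0⟩, ⟨-1, 1⟩, ⟨-2, -1⟩, ⟨0, 0⟩, ⟨-1, -2⟩, ⟨0,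 -2⟩⟩) (4, ⟨⟨0, 0⟩, ⟨-1, -1⟩, ⟨0, 0⟩, ⟨1, 0⟩, ⟨2, 1⟩, ⟨0, 0⟩, ⟨-2, -1⟩, ⟨-1, -2⟩, ⟨1, 0⟩⟩) (5, ⟨⟨0, 0⟩, ⟨-1, -1⟩, ⟨0, 0⟩, ⟨1, 0⟩, ⟨2, 1⟩, ⟨0, 0⟩, ⟨-2, -1⟩, ⟨-1, -2⟩, ⟨1, 0⟩⟩),
  W6 (4, ⟨⟨-1, 1⟩, ⟨-2, -1⟩, ⟨1, 0⟩, ⟨-2, -1⟩, ⟨-1, -1⟩, ⟨0, 0⟩, ⟨1, 0⟩, ⟨0, 0⟩, ⟨0, 0⟩⟩) (5, ⟨⟨-1, 1⟩, ⟨-2, -1⟩, ⟨1, 0⟩, ⟨-2, -1⟩, ⟨-1, -1⟩, ⟨0, 0⟩, ⟨1, 0⟩, ⟨0, 0⟩, ⟨0, 0⟩⟩) (2, ⟨⟨-1, 1⟩, ⟨0, 0⟩, ⟨-2, 0⟩, ⟨1, -1⟩, ⟨1, 0⟩, ⟨0, 0⟩, ⟨0, -2⟩, ⟨0, 0⟩,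 ⟨1, -1⟩⟩) (3, ⟨⟨-1, 1⟩, ⟨0, 0⟩, ⟨-2, 0⟩, ⟨1, -1⟩, ⟨1, 0⟩, ⟨0, 0⟩, ⟨0, -2⟩, ⟨0, 0⟩, ⟨1, -1⟩⟩) (0, ⟨⟨0, 0⟩, ⟨1, -1⟩, ⟨1, 0⟩, ⟨0, 0⟩, ⟨0, 1⟩, ⟨0, 0⟩, ⟨1, 0⟩, ⟨0, 0⟩, ⟨1, 2⟩⟩) (1, ⟨⟨0, 0⟩, ⟨1, -1⟩, ⟨1, 0⟩, ⟨0, 0⟩, ⟨0, 1⟩, ⟨0, 0⟩, ⟨1, 0⟩, ⟨0, 0⟩, ⟨1, 2⟩⟩),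
  W6 (5, ⟨⟨-1, 1⟩, ⟨-2, -1⟩, ⟨1, 0⟩, ⟨-2, -1⟩, ⟨-1, -1⟩, ⟨0, 0⟩, ⟨1, 0⟩, ⟨0, 0⟩, ⟨0, 0⟩⟩) (4, ⟨⟨1, 2⟩, ⟨0, 0⟩, ⟨1, 0⟩, ⟨0, 0⟩, ⟨1, 0⟩, ⟨0, 0⟩, ⟨0, 1⟩, ⟨-1, 1⟩, ⟨0, 0⟩⟩) (3, ⟨⟨-1, 1⟩, ⟨0, 0⟩, ⟨-2, 0⟩, ⟨1, -1⟩, ⟨1, 0⟩, ⟨0, 0⟩, ⟨0, -2⟩, ⟨0, 0⟩, ⟨1, -1⟩⟩) (2, ⟨⟨1, 2⟩, ⟨0, 0⟩, ⟨0, 1⟩, ⟨0, 0⟩, ⟨1, 0⟩, ⟨-1, 1⟩, ⟨-1, -1⟩, ⟨0, 0⟩, ⟨0, 0⟩⟩) (1, ⟨⟨0, 0⟩, ⟨1, -1⟩, ⟨1, 0⟩, ⟨0, 0⟩, ⟨0, 1⟩, ⟨0, 0⟩, ⟨1, 0⟩, ⟨0, 0⟩, ⟨1, 2⟩⟩) (0, ⟨⟨0, 0⟩,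 ⟨0, 0⟩, ⟨0, 1⟩, ⟨0, 0⟩, ⟨-1, -1⟩, ⟨-1, -2⟩, ⟨1, 0⟩, ⟨2, 1⟩, ⟨3, 3⟩⟩),
  W6 (4, ⟨⟨1, 2⟩, ⟨0, 0⟩, ⟨1, 0⟩, ⟨0, 0⟩, ⟨1, 0⟩, ⟨0, 0⟩, ⟨0, 1⟩, ⟨-1, 1⟩, ⟨0, 0⟩⟩) (5, ⟨⟨1, 2⟩, ⟨0, 0⟩, ⟨1, 0⟩, ⟨0, 0⟩, ⟨1, 0⟩, ⟨0, 0⟩, ⟨0, 1⟩, ⟨-1, 1⟩, ⟨0, 0⟩⟩) (2, ⟨⟨1, 2⟩, ⟨0, 0⟩, ⟨0, 1⟩, ⟨0, 0⟩, ⟨1, 0⟩, ⟨-1, 1⟩, ⟨-1, -1⟩, ⟨0, 0⟩, ⟨0, 0⟩⟩) (3, ⟨⟨1, 2⟩, ⟨0, 0⟩, ⟨0, 1⟩, ⟨0, 0⟩, ⟨1, 0⟩, ⟨-1, 1⟩, ⟨-1, -1⟩, ⟨0, 0⟩, ⟨0, 0⟩⟩) (0, ⟨⟨0, 0⟩, ⟨0, 0⟩, ⟨0, 1⟩,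 ⟨0, 0⟩, ⟨-1, -1⟩, ⟨-1, -2⟩, ⟨1, 0⟩, ⟨2, 1⟩, ⟨3, 3⟩⟩) (1, ⟨⟨0, 0⟩, ⟨0, 0⟩, ⟨0, 1⟩, ⟨0, 0⟩, ⟨-1, -1⟩, ⟨-1, -2⟩, ⟨1, 0⟩, ⟨2, 1⟩, ⟨3, 3⟩⟩),
  W6 (2, ⟨⟨1, 2⟩, ⟨1, 0⟩, ⟨-1, 1⟩, ⟨0, 1⟩, ⟨0, 0⟩, ⟨0, 0⟩, ⟨0, 0⟩, ⟨0, 0⟩, ⟨0, 1⟩⟩) (3, ⟨⟨1, 2⟩, ⟨1, 0⟩, ⟨-1, 1⟩, ⟨0, 1⟩, ⟨0, 0⟩, ⟨0, 0⟩, ⟨0, 0⟩, ⟨0, 0⟩, ⟨0, 1⟩⟩) (0, ⟨⟨0, 0⟩, ⟨0, 1⟩, ⟨-1, 1⟩, ⟨1, 0⟩, ⟨0, 0⟩, ⟨0, 0⟩, ⟨0, 0⟩, ⟨-1, -2⟩, ⟨0, -2⟩⟩) (1, ⟨⟨0, 0⟩, ⟨0, 1⟩, ⟨-1, 1⟩, ⟨1, 0⟩, ⟨0,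 0⟩, ⟨0, 0⟩, ⟨0, 0⟩, ⟨-1, -2⟩, ⟨0, -2⟩⟩) (4, ⟨⟨1, 2⟩, ⟨0, 1⟩, ⟨0, 0⟩, ⟨-1, -1⟩, ⟨0, 0⟩, ⟨0, 0⟩, ⟨0, 0⟩, ⟨-1, -2⟩, ⟨1, 0⟩⟩) (5, ⟨⟨1, 2⟩, ⟨0, 1⟩, ⟨0, 0⟩, ⟨-1, -1⟩, ⟨0, 0⟩, ⟨0, 0⟩, ⟨0, 0⟩, ⟨-1, -2⟩, ⟨1, 0⟩⟩),
  W6 (3, ⟨⟨1, 2⟩, ⟨1, 0⟩, ⟨-1, 1⟩, ⟨0, 1⟩, ⟨0, 0⟩, ⟨0, 0⟩, ⟨0, 0⟩, ⟨0, 0⟩, ⟨0, 1⟩⟩) (2, ⟨⟨0, 0⟩, ⟨1, 0⟩, ⟨-2, -1⟩, ⟨-1, -1⟩, ⟨0, 0⟩, ⟨-1, -2⟩, ⟨2, 1⟩, ⟨0, 0⟩, ⟨2, 2⟩⟩) (1, ⟨⟨0, 0⟩, ⟨0, 1⟩, ⟨-1, 1⟩, ⟨1, 0⟩, ⟨0, 0⟩, ⟨0,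 0⟩, ⟨0, 0⟩, ⟨-1, -2⟩, ⟨0, -2⟩⟩) (0, ⟨⟨0, 0⟩, ⟨2, 2⟩, ⟨1, 2⟩, ⟨1, 0⟩, ⟨-1, 1⟩, ⟨-1, 1⟩, ⟨0, 0⟩, ⟨-2, -1⟩, ⟨-1, -1⟩⟩) (5, ⟨⟨1, 2⟩, ⟨0, 1⟩, ⟨0, 0⟩, ⟨-1, -1⟩, ⟨0, 0⟩, ⟨0, 0⟩, ⟨0, 0⟩, ⟨-1, -2⟩, ⟨1, 0⟩⟩) (4, ⟨⟨0, 0⟩, ⟨-1, -1⟩, ⟨0, 0⟩, ⟨1, 0⟩, ⟨2, 1⟩, ⟨0, 0⟩, ⟨-1, 1⟩, ⟨-2, -1⟩, ⟨1, 0⟩⟩),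
  W6 (2, ⟨⟨0, 0⟩, ⟨1, 0⟩, ⟨-2, -1⟩, ⟨-1, -1⟩, ⟨0, 0⟩, ⟨-1, -2⟩, ⟨2, 1⟩, ⟨0, 0⟩, ⟨2, 2⟩⟩) (3, ⟨⟨0, 0⟩, ⟨1, 0⟩, ⟨-2, -1⟩, ⟨-1, -1⟩, ⟨0, 0⟩, ⟨-1, -2⟩, ⟨2, 1⟩, ⟨0, 0⟩, ⟨2, 2⟩⟩) (0, ⟨⟨0, 0⟩, ⟨2, 2⟩, ⟨1, 2⟩, ⟨1, 0⟩, ⟨-1, 1⟩, ⟨-1, 1⟩, ⟨0, 0⟩, ⟨-2, -1⟩, ⟨-1, -1⟩⟩) (1, ⟨⟨0, 0⟩, ⟨2, 2⟩, ⟨1, 2⟩, ⟨1, 0⟩, ⟨-1, 1⟩, ⟨-1, 1⟩, ⟨0, 0⟩, ⟨-2, -1⟩, ⟨-1, -1⟩⟩) (4, ⟨⟨0, 0⟩, ⟨-1, -1⟩, ⟨0, 0⟩, ⟨1, 0⟩, ⟨2, 1⟩, ⟨0, 0⟩, ⟨-1, 1⟩, ⟨-2, -1⟩, ⟨1, 0⟩⟩)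 (5, ⟨⟨0, 0⟩, ⟨-1, -1⟩, ⟨0, 0⟩, ⟨1, 0⟩, ⟨2, 1⟩, ⟨0, 0⟩, ⟨-1, 1⟩, ⟨-2, -1⟩, ⟨1, 0⟩⟩),
  W6 (0, ⟨⟨1, 0⟩, ⟨2, 4⟩, ⟨0, 3⟩, ⟨0, 0⟩, ⟨1, 2⟩, ⟨0, 1⟩, ⟨0, 0⟩, ⟨-1, -1⟩, ⟨0, 0⟩⟩) (1, ⟨⟨1, 0⟩, ⟨2, 4⟩, ⟨0, 3⟩, ⟨0, 0⟩, ⟨1, 2⟩, ⟨0, 1⟩, ⟨0, 0⟩, ⟨-1, -1⟩, ⟨0, 0⟩⟩) (4, ⟨⟨-1, -1⟩, ⟨-1, -2⟩, ⟨0, 0⟩, ⟨0, 0⟩, ⟨1, -1⟩, ⟨1, 0⟩, ⟨2, 1⟩, ⟨2, 2⟩, ⟨0, 0⟩⟩) (5, ⟨⟨-1, -1⟩, ⟨-1, -2⟩, ⟨0, 0⟩, ⟨0, 0⟩, ⟨1, -1⟩, ⟨1, 0⟩, ⟨2, 1⟩, ⟨2, 2⟩, ⟨0, 0⟩⟩) (2, ⟨⟨1,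 0⟩, ⟨0, 0⟩, ⟨0, 0⟩, ⟨0, 0⟩, ⟨0, 0⟩, ⟨1, 0⟩, ⟨-1, 1⟩, ⟨1, 0⟩, ⟨-3, 0⟩⟩) (3, ⟨⟨1, 0⟩, ⟨0, 0⟩, ⟨0, 0⟩, ⟨0, 0⟩, ⟨0, 0⟩, ⟨1, 0⟩, ⟨-1, 1⟩, ⟨1, 0⟩, ⟨-3, 0⟩⟩),
  W6 (1, ⟨⟨1, 0⟩, ⟨2, 4⟩, ⟨0, 3⟩, ⟨0, 0⟩, ⟨1, 2⟩, ⟨0, 1⟩, ⟨0, 0⟩, ⟨-1, -1⟩, ⟨0, 0⟩⟩) (0, ⟨⟨1, 0⟩, ⟨1, 2⟩, ⟨-1, 1⟩, ⟨0, 0⟩, ⟨0, 0⟩, ⟨-1, -1⟩, ⟨0, 0⟩, ⟨1, 0⟩, ⟨2, 1⟩⟩) (5, ⟨⟨-1, -1⟩, ⟨-1, -2⟩, ⟨0, 0⟩, ⟨0, 0⟩, ⟨1, -1⟩, ⟨1, 0⟩, ⟨2, 1⟩, ⟨2, 2⟩, ⟨0, 0⟩⟩) (4, ⟨⟨-2, 0⟩, ⟨-2, -1⟩,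 ⟨0, 0⟩, ⟨-1, -2⟩, ⟨0, -3⟩, ⟨1, 0⟩, ⟨1, -1⟩, ⟨1, 0⟩, ⟨0, 0⟩⟩) (3, ⟨⟨1, 0⟩, ⟨0, 0⟩, ⟨0, 0⟩, ⟨0, 0⟩, ⟨0, 0⟩, ⟨1, 0⟩, ⟨-1, 1⟩, ⟨1, 0⟩, ⟨-3, 0⟩⟩) (2, ⟨⟨0, 1⟩, ⟨0, 0⟩, ⟨-1, 1⟩, ⟨-1, -2⟩, ⟨0, 0⟩, ⟨0, -2⟩, ⟨1, 2⟩, ⟨1, 0⟩, ⟨-1, 1⟩⟩),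
  W6 (0, ⟨⟨1, 0⟩, ⟨1, 2⟩, ⟨-1, 1⟩, ⟨0, 0⟩, ⟨0, 0⟩, ⟨-1, -1⟩, ⟨0, 0⟩, ⟨1, 0⟩, ⟨2, 1⟩⟩) (1, ⟨⟨1, 0⟩, ⟨1, 2⟩, ⟨-1, 1⟩, ⟨0, 0⟩, ⟨0, 0⟩, ⟨-1, -1⟩, ⟨0, 0⟩, ⟨1, 0⟩, ⟨2, 1⟩⟩) (4, ⟨⟨-2, 0⟩, ⟨-2, -1⟩, ⟨0, 0⟩, ⟨-1, -2⟩, ⟨0, -3⟩, ⟨1, 0⟩, ⟨1, -1⟩, ⟨1, 0⟩, ⟨0, 0⟩⟩) (5, ⟨⟨-2, 0⟩, ⟨-2, -1⟩, ⟨0, 0⟩, ⟨-1, -2⟩, ⟨0, -3⟩, ⟨1, 0⟩, ⟨1, -1⟩, ⟨1, 0⟩, ⟨0, 0⟩⟩) (2, ⟨⟨0, 1⟩, ⟨0, 0⟩, ⟨-1, 1⟩, ⟨-1, -2⟩, ⟨0, 0⟩, ⟨0, -2⟩, ⟨1, 2⟩, ⟨1, 0⟩, ⟨-1, 1⟩⟩) (3,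 ⟨⟨0, 1⟩, ⟨0, 0⟩, ⟨-1, 1⟩, ⟨-1, -2⟩, ⟨0, 0⟩, ⟨0, -2⟩, ⟨1, 2⟩, ⟨1, 0⟩, ⟨-1, 1⟩⟩)]

/-- the values for k = 2 -/
def rtab2 : List Wr := [
  W6 (4, ⟨⟨-1, -2⟩, ⟨1, -1⟩, ⟨1, 0⟩, ⟨-1, -1⟩, ⟨0, 0⟩, ⟨0, 0⟩, ⟨0, 0⟩, ⟨-1, -1⟩, ⟨0, 0⟩⟩) (5, ⟨⟨-1, -2⟩, ⟨1, -1⟩, ⟨1, 0⟩, ⟨-1, -1⟩, ⟨0, 0⟩, ⟨0, 0⟩, ⟨0, 0⟩, ⟨-1, -1⟩, ⟨0, 0⟩⟩) (0, ⟨⟨0, 0⟩, ⟨1, 2⟩, ⟨0, 1⟩, ⟨1, 0⟩, ⟨-3, 0⟩, ⟨-2, -1⟩, ⟨0, 0⟩, ⟨-1, -1⟩, ⟨0, 0⟩⟩) (1, ⟨⟨0, 0⟩, ⟨1, 2⟩, ⟨0, 1⟩, ⟨1,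 0⟩, ⟨-3, 0⟩, ⟨-2, -1⟩, ⟨0, 0⟩, ⟨-1, -1⟩, ⟨0, 0⟩⟩) (2, ⟨⟨-1, 1⟩, ⟨0, 0⟩, ⟨-2, 0⟩, ⟨0, -2⟩, ⟨0, 0⟩, ⟨1, -1⟩, ⟨0, 0⟩, ⟨1, 0⟩, ⟨0, 0⟩⟩) (3, ⟨⟨-1, 1⟩, ⟨0, 0⟩, ⟨-2, 0⟩, ⟨0, -2⟩, ⟨0, 0⟩, ⟨1, -1⟩, ⟨0, 0⟩, ⟨1, 0⟩, ⟨0, 0⟩⟩),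
  W6 (5, ⟨⟨-1, -2⟩, ⟨1, -1⟩, ⟨1, 0⟩, ⟨-1, -1⟩, ⟨0, 0⟩, ⟨0, 0⟩, ⟨0, 0⟩, ⟨-1, -1⟩, ⟨0, 0⟩⟩) (4, ⟨⟨1, -1⟩, ⟨3, 0⟩, ⟨1, 0⟩, ⟨1, 0⟩, ⟨2, 1⟩, ⟨0, 0⟩, ⟨-1, 1⟩, ⟨-2, 0⟩, ⟨0, 0⟩⟩) (1, ⟨⟨0, 0⟩, ⟨1, 2⟩, ⟨0, 1⟩, ⟨1, 0⟩, ⟨-3, 0⟩, ⟨-2, -1⟩, ⟨0, 0⟩, ⟨-1, -1⟩, ⟨0, 0⟩⟩) (0, ⟨⟨0, 0⟩, ⟨0, 0⟩, ⟨-1, -1⟩, ⟨1, 0⟩, ⟨-1, 1⟩, ⟨0, 0⟩, ⟨0, 0⟩, ⟨1, 0⟩, ⟨2, 1⟩⟩) (3, ⟨⟨-1, 1⟩, ⟨0, 0⟩, ⟨-2, 0⟩, ⟨0, -2⟩, ⟨0, 0⟩, ⟨1, -1⟩, ⟨0, 0⟩, ⟨1, 0⟩, ⟨0, 0⟩⟩) (2, ⟨⟨1,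 2⟩, ⟨0, 0⟩, ⟨0, 1⟩, ⟨-1, -1⟩, ⟨0, 0⟩, ⟨0, 0⟩, ⟨-1, -2⟩, ⟨1, 0⟩, ⟨-1, -2⟩⟩),
  W6 (4, ⟨⟨1, -1⟩, ⟨3, 0⟩, ⟨1, 0⟩, ⟨1, 0⟩, ⟨2, 1⟩, ⟨0, 0⟩, ⟨-1, 1⟩, ⟨-2, 0⟩, ⟨0, 0⟩⟩) (5, ⟨⟨1, -1⟩, ⟨3, 0⟩, ⟨1, 0⟩, ⟨1, 0⟩, ⟨2, 1⟩, ⟨0, 0⟩, ⟨-1, 1⟩, ⟨-2, 0⟩, ⟨0, 0⟩⟩) (0, ⟨⟨0, 0⟩, ⟨0, 0⟩, ⟨-1, -1⟩, ⟨1, 0⟩, ⟨-1, 1⟩, ⟨0, 0⟩, ⟨0, 0⟩, ⟨1, 0⟩, ⟨2, 1⟩⟩) (1, ⟨⟨0, 0⟩, ⟨0, 0⟩, ⟨-1, -1⟩, ⟨1, 0⟩, ⟨-1, 1⟩, ⟨0, 0⟩, ⟨0, 0⟩, ⟨1, 0⟩, ⟨2, 1⟩⟩) (2, ⟨⟨1, 2⟩, ⟨0,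 0⟩, ⟨0, 1⟩, ⟨-1, -1⟩, ⟨0, 0⟩, ⟨0, 0⟩, ⟨-1, -2⟩, ⟨1, 0⟩, ⟨-1, -2⟩⟩) (3, ⟨⟨1, 2⟩, ⟨0, 0⟩, ⟨0, 1⟩, ⟨-1, -1⟩, ⟨0, 0⟩, ⟨0, 0⟩, ⟨-1, -2⟩, ⟨1, 0⟩, ⟨-1, -2⟩⟩),
  W6 (2, ⟨⟨-3, -3⟩, ⟨1, 0⟩, ⟨-2, -4⟩, ⟨-1, -2⟩, ⟨0, 0⟩, ⟨0, -2⟩, ⟨2, 2⟩, ⟨0, 0⟩, ⟨1, 2⟩⟩) (3, ⟨⟨-3, -3⟩, ⟨1, 0⟩, ⟨-2, -4⟩, ⟨-1, -2⟩, ⟨0, 0⟩, ⟨0, -2⟩, ⟨2, 2⟩, ⟨0, 0⟩, ⟨1, 2⟩⟩) (4, ⟨⟨0, 0⟩, ⟨1, 0⟩, ⟨0, 0⟩, ⟨-1, -2⟩, ⟨1, -1⟩, ⟨1, 0⟩, ⟨0, 1⟩, ⟨-1, 1⟩, ⟨0, 0⟩⟩) (5, ⟨⟨0, 0⟩,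 ⟨1, 0⟩, ⟨0, 0⟩, ⟨-1, -2⟩, ⟨1, -1⟩, ⟨1, 0⟩, ⟨0, 1⟩, ⟨-1, 1⟩, ⟨0, 0⟩⟩) (0, ⟨⟨0, 0⟩, ⟨2, 2⟩, ⟨1, 2⟩, ⟨0, 0⟩, ⟨-2, -1⟩, ⟨-1, -1⟩, ⟨1, 0⟩, ⟨-1, 1⟩, ⟨-2, -1⟩⟩) (1, ⟨⟨0, 0⟩, ⟨2, 2⟩, ⟨1, 2⟩, ⟨0, 0⟩, ⟨-2, -1⟩, ⟨-1, -1⟩, ⟨1, 0⟩, ⟨-1, 1⟩, ⟨-2, -1⟩⟩),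
  W6 (3, ⟨⟨-3, -3⟩, ⟨1, 0⟩, ⟨-2, -4⟩, ⟨-1, -2⟩, ⟨0, 0⟩, ⟨0, -2⟩, ⟨2, 2⟩, ⟨0, 0⟩, ⟨1, 2⟩⟩) (2, ⟨⟨-4, -2⟩, ⟨1, 0⟩, ⟨-3, -3⟩, ⟨-2, -1⟩, ⟨0, 0⟩, ⟨-1, -1⟩, ⟨1, 0⟩, ⟨0, 0⟩, ⟨0, 0⟩⟩) (5, ⟨⟨0, 0⟩, ⟨1, 0⟩, ⟨0, 0⟩, ⟨-1, -2⟩, ⟨1, -1⟩, ⟨1, 0⟩, ⟨0, 1⟩, ⟨-1, 1⟩, ⟨0, 0⟩⟩) (4, ⟨⟨-1, -2⟩, ⟨0, -2⟩, ⟨0, 0⟩, ⟨1, -1⟩, ⟨3, 0⟩, ⟨1, 0⟩, ⟨2, 2⟩, ⟨1, 2⟩, ⟨0, 0⟩⟩) (1, ⟨⟨0, 0⟩, ⟨2, 2⟩, ⟨1, 2⟩, ⟨0, 0⟩, ⟨-2, -1⟩, ⟨-1, -1⟩, ⟨1, 0⟩, ⟨-1, 1⟩, ⟨-2, -1⟩⟩)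 (0, ⟨⟨0, 0⟩, ⟨1, 0⟩, ⟨0, 0⟩, ⟨0, 0⟩, ⟨0, 0⟩, ⟨1, 0⟩, ⟨1, 0⟩, ⟨-2, 2⟩, ⟨-3, 0⟩⟩),
  W6 (2, ⟨⟨-4, -2⟩, ⟨1, 0⟩, ⟨-3, -3⟩, ⟨-2, -1⟩, ⟨0, 0⟩, ⟨-1, -1⟩, ⟨1, 0⟩, ⟨0, 0⟩, ⟨0, 0⟩⟩) (3, ⟨⟨-4, -2⟩, ⟨1, 0⟩, ⟨-3, -3⟩, ⟨-2, -1⟩, ⟨0, 0⟩, ⟨-1, -1⟩, ⟨1, 0⟩, ⟨0, 0⟩, ⟨0, 0⟩⟩) (4, ⟨⟨-1, -2⟩, ⟨0, -2⟩, ⟨0, 0⟩, ⟨1, -1⟩, ⟨3, 0⟩, ⟨1, 0⟩, ⟨2, 2⟩, ⟨1, 2⟩, ⟨0, 0⟩⟩) (5, ⟨⟨-1, -2⟩, ⟨0, -2⟩, ⟨0, 0⟩, ⟨1, -1⟩, ⟨3, 0⟩, ⟨1, 0⟩, ⟨2, 2⟩, ⟨1, 2⟩, ⟨0, 0⟩⟩)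 (0, ⟨⟨0, 0⟩, ⟨1, 0⟩, ⟨0, 0⟩, ⟨0, 0⟩, ⟨0, 0⟩, ⟨1, 0⟩, ⟨1, 0⟩, ⟨-2, 2⟩, ⟨-3, 0⟩⟩) (1, ⟨⟨0, 0⟩, ⟨1, 0⟩, ⟨0, 0⟩, ⟨0, 0⟩, ⟨0, 0⟩, ⟨1, 0⟩, ⟨1, 0⟩, ⟨-2, 2⟩, ⟨-3, 0⟩⟩),
  W6 (0, ⟨⟨1, 0⟩, ⟨-3, 3⟩, ⟨-5, -1⟩, ⟨0, 0⟩, ⟨-2, 0⟩, ⟨-2, -1⟩, ⟨0, 0⟩, ⟨1, -1⟩, ⟨1, 0⟩⟩) (1, ⟨⟨1, 0⟩, ⟨-3, 3⟩, ⟨-5, -1⟩, ⟨0, 0⟩, ⟨-2, 0⟩, ⟨-2, -1⟩, ⟨0, 0⟩, ⟨1, -1⟩, ⟨1, 0⟩⟩) (2, ⟨⟨-2, 0⟩, ⟨0, 0⟩, ⟨-2, -1⟩, ⟨-3, -3⟩, ⟨1, 0⟩, ⟨-2, -4⟩, ⟨1, -1⟩, ⟨0, 0⟩, ⟨1, 0⟩⟩)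 (3, ⟨⟨-2, 0⟩, ⟨0, 0⟩, ⟨-2, -1⟩, ⟨-3, -3⟩, ⟨1, 0⟩, ⟨-2, -4⟩, ⟨1, -1⟩, ⟨0, 0⟩, ⟨1, 0⟩⟩) (4, ⟨⟨0, 1⟩, ⟨0, 0⟩, ⟨0, 0⟩, ⟨0, 0⟩, ⟨0, 1⟩, ⟨0, 0⟩, ⟨-2, -4⟩, ⟨1, -4⟩, ⟨1, 0⟩⟩) (5, ⟨⟨0, 1⟩, ⟨0, 0⟩, ⟨0, 0⟩, ⟨0, 0⟩, ⟨0, 1⟩, ⟨0, 0⟩, ⟨-2, -4⟩, ⟨1, -4⟩, ⟨1, 0⟩⟩),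
  W6 (1, ⟨⟨1, 0⟩, ⟨-3, 3⟩, ⟨-5, -1⟩, ⟨0, 0⟩, ⟨-2, 0⟩, ⟨-2, -1⟩, ⟨0, 0⟩, ⟨1, -1⟩, ⟨1, 0⟩⟩) (0, ⟨⟨1, 0⟩, ⟨-1, 4⟩, ⟨-3, 0⟩, ⟨0, 0⟩, ⟨0, 1⟩, ⟨0, 0⟩, ⟨0, 0⟩, ⟨0, 0⟩, ⟨0, 1⟩⟩) (3, ⟨⟨-2, 0⟩, ⟨0, 0⟩, ⟨-2, -1⟩, ⟨-3, -3⟩, ⟨1, 0⟩, ⟨-2, -4⟩, ⟨1, -1⟩, ⟨0, 0⟩, ⟨1, 0⟩⟩) (2, ⟨⟨0, 1⟩, ⟨0, 0⟩, ⟨0, 0⟩, ⟨-4, -2⟩, ⟨1, 0⟩, ⟨-3, -3⟩, ⟨0, 0⟩, ⟨0, 0⟩, ⟨0, 1⟩⟩) (5, ⟨⟨0, 1⟩, ⟨0, 0⟩, ⟨0, 0⟩, ⟨0, 0⟩, ⟨0, 1⟩, ⟨0, 0⟩, ⟨-2, -4⟩, ⟨1, -4⟩, ⟨1, 0⟩⟩) (4,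 ⟨⟨-1, -1⟩, ⟨-1, -2⟩, ⟨0, 0⟩, ⟨2, 1⟩, ⟨2, 2⟩, ⟨0, 0⟩, ⟨-3, -3⟩, ⟨0, -3⟩, ⟨1, 0⟩⟩),
  W6 (0, ⟨⟨1, 0⟩, ⟨-1, 4⟩, ⟨-3, 0⟩, ⟨0, 0⟩, ⟨0, 1⟩, ⟨0, 0⟩, ⟨0, 0⟩, ⟨0, 0⟩, ⟨0, 1⟩⟩) (1, ⟨⟨1, 0⟩, ⟨-1, 4⟩, ⟨-3, 0⟩, ⟨0, 0⟩, ⟨0, 1⟩, ⟨0, 0⟩, ⟨0, 0⟩, ⟨0, 0⟩, ⟨0, 1⟩⟩) (2, ⟨⟨0, 1⟩, ⟨0, 0⟩, ⟨0, 0⟩, ⟨-4, -2⟩, ⟨1, 0⟩, ⟨-3, -3⟩, ⟨0, 0⟩, ⟨0, 0⟩, ⟨0, 1⟩⟩) (3, ⟨⟨0, 1⟩, ⟨0, 0⟩, ⟨0, 0⟩, ⟨-4, -2⟩, ⟨1, 0⟩, ⟨-3, -3⟩, ⟨0, 0⟩, ⟨0, 0⟩, ⟨0, 1⟩⟩) (4, ⟨⟨-1, -1⟩,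 ⟨-1, -2⟩, ⟨0, 0⟩, ⟨2, 1⟩, ⟨2, 2⟩, ⟨0, 0⟩, ⟨-3, -3⟩, ⟨0, -3⟩, ⟨1, 0⟩⟩) (5, ⟨⟨-1, -1⟩, ⟨-1, -2⟩, ⟨0, 0⟩, ⟨2, 1⟩, ⟨2, 2⟩, ⟨0, 0⟩, ⟨-3, -3⟩, ⟨0, -3⟩, ⟨1, 0⟩⟩),
  W6 (2, ⟨⟨-2, -1⟩, ⟨1, 0⟩, ⟨-2, -1⟩, ⟨-2, -1⟩, ⟨0, 0⟩, ⟨-1, -1⟩, ⟨1, 0⟩, ⟨0, 0⟩, ⟨0, 0⟩⟩) (3, ⟨⟨-2, -1⟩, ⟨1, 0⟩, ⟨-2, -1⟩, ⟨-2, -1⟩, ⟨0, 0⟩, ⟨-1, -1⟩, ⟨1, 0⟩, ⟨0, 0⟩, ⟨0, 0⟩⟩) (4, ⟨⟨-2, -1⟩, ⟨-1, -1⟩, ⟨0, 0⟩, ⟨1, -1⟩, ⟨1, -1⟩, ⟨1, 0⟩, ⟨1, 0⟩, ⟨0, 0⟩, ⟨0, 0⟩⟩) (5, ⟨⟨-2,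 -1⟩, ⟨-1, -1⟩, ⟨0, 0⟩, ⟨1, -1⟩, ⟨1, -1⟩, ⟨1, 0⟩, ⟨1, 0⟩, ⟨0, 0⟩, ⟨0, 0⟩⟩) (0, ⟨⟨0, 0⟩, ⟨2, 2⟩, ⟨1, 2⟩, ⟨0, 0⟩, ⟨-2, -1⟩, ⟨-1, -1⟩, ⟨1, 0⟩, ⟨0, 0⟩, ⟨0, 0⟩⟩) (1, ⟨⟨0, 0⟩, ⟨2, 2⟩, ⟨1, 2⟩, ⟨0, 0⟩, ⟨-2, -1⟩, ⟨-1, -1⟩, ⟨1, 0⟩, ⟨0, 0⟩, ⟨0, 0⟩⟩),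
  W6 (3, ⟨⟨-2, -1⟩, ⟨1, 0⟩, ⟨-2, -1⟩, ⟨-2, -1⟩, ⟨0, 0⟩, ⟨-1, -1⟩, ⟨1, 0⟩, ⟨0, 0⟩, ⟨0, 0⟩⟩) (2, ⟨⟨0, 0⟩, ⟨1, 0⟩, ⟨0, 0⟩, ⟨0, 0⟩, ⟨0, 0⟩, ⟨1, 0⟩, ⟨0, 1⟩, ⟨0, 0⟩, ⟨-1, 1⟩⟩) (5, ⟨⟨-2, -1⟩, ⟨-1, -1⟩, ⟨0, 0⟩, ⟨1, -1⟩, ⟨1, -1⟩, ⟨1, 0⟩, ⟨1, 0⟩, ⟨0, 0⟩, ⟨0, 0⟩⟩) (4, ⟨⟨0, 0⟩, ⟨1, 0⟩, ⟨0, 0⟩, ⟨0, 0⟩, ⟨0, 0⟩, ⟨1, 0⟩, ⟨0, 1⟩, ⟨-1, 1⟩, ⟨0, 0⟩⟩) (1, ⟨⟨0, 0⟩, ⟨2, 2⟩, ⟨1, 2⟩, ⟨0, 0⟩, ⟨-2, -1⟩, ⟨-1, -1⟩, ⟨1, 0⟩, ⟨0, 0⟩, ⟨0, 0⟩⟩) (0, ⟨⟨0,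 0⟩, ⟨1, 0⟩, ⟨0, 0⟩, ⟨0, 0⟩, ⟨0, 0⟩, ⟨1, 0⟩, ⟨1, 0⟩, ⟨-1, 1⟩, ⟨-1, 1⟩⟩),
  W6 (2, ⟨⟨0, 0⟩, ⟨1, 0⟩, ⟨0, 0⟩, ⟨0, 0⟩, ⟨0, 0⟩, ⟨1, 0⟩, ⟨0, 1⟩, ⟨0, 0⟩, ⟨-1, 1⟩⟩) (3, ⟨⟨0, 0⟩, ⟨1, 0⟩, ⟨0, 0⟩, ⟨0, 0⟩, ⟨0, 0⟩, ⟨1, 0⟩, ⟨0, 1⟩, ⟨0, 0⟩, ⟨-1, 1⟩⟩) (4, ⟨⟨0, 0⟩, ⟨1, 0⟩, ⟨0, 0⟩, ⟨0, 0⟩, ⟨0, 0⟩, ⟨1, 0⟩, ⟨0, 1⟩, ⟨-1, 1⟩, ⟨0, 0⟩⟩) (5, ⟨⟨0, 0⟩, ⟨1, 0⟩, ⟨0, 0⟩, ⟨0, 0⟩, ⟨0, 0⟩, ⟨1, 0⟩, ⟨0, 1⟩, ⟨-1, 1⟩, ⟨0, 0⟩⟩) (0, ⟨⟨0, 0⟩, ⟨1, 0⟩, ⟨0, 0⟩,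 ⟨0, 0⟩, ⟨0, 0⟩, ⟨1, 0⟩, ⟨1, 0⟩, ⟨-1, 1⟩, ⟨-1, 1⟩⟩) (1, ⟨⟨0, 0⟩, ⟨1, 0⟩, ⟨0, 0⟩, ⟨0, 0⟩, ⟨0, 0⟩, ⟨1, 0⟩, ⟨1, 0⟩, ⟨-1, 1⟩, ⟨-1, 1⟩⟩),
  W6 (1, ⟨⟨1, 0⟩, ⟨-2, 2⟩, ⟨-3, 0⟩, ⟨0, 0⟩, ⟨-2, 0⟩, ⟨-2, -1⟩, ⟨0, 0⟩, ⟨1, -1⟩, ⟨1, 0⟩⟩) (0, ⟨⟨1, 0⟩, ⟨0, 3⟩, ⟨-1, 1⟩, ⟨0, 0⟩, ⟨0, 1⟩, ⟨0, 0⟩, ⟨0, 0⟩, ⟨0, 0⟩, ⟨0, 1⟩⟩) (3, ⟨⟨0, 1⟩, ⟨0, 0⟩, ⟨0, 0⟩, ⟨-2, -1⟩, ⟨1, 0⟩, ⟨-2, -1⟩, ⟨0, 0⟩, ⟨0, 0⟩, ⟨0, 1⟩⟩) (2, ⟨⟨-1, -1⟩, ⟨0, 0⟩, ⟨-1, -2⟩, ⟨0, 0⟩,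 ⟨1, 0⟩, ⟨0, 0⟩, ⟨2, 1⟩, ⟨0, 0⟩, ⟨2, 2⟩⟩) (5, ⟨⟨-2, 0⟩, ⟨-2, -1⟩, ⟨0, 0⟩, ⟨1, -1⟩, ⟨1, 0⟩, ⟨0, 0⟩, ⟨0, 0⟩, ⟨1, -1⟩, ⟨1, 0⟩⟩) (4, ⟨⟨0, 1⟩, ⟨0, 0⟩, ⟨0, 0⟩, ⟨0, 0⟩, ⟨0, 1⟩, ⟨0, 0⟩, ⟨-1, -2⟩, ⟨0, -3⟩, ⟨1, 0⟩⟩),
  W6 (0, ⟨⟨1, 0⟩, ⟨0, 3⟩, ⟨-1, 1⟩, ⟨0, 0⟩, ⟨0, 1⟩, ⟨0, 0⟩, ⟨0, 0⟩, ⟨0, 0⟩, ⟨0, 1⟩⟩) (1, ⟨⟨1, 0⟩, ⟨0, 3⟩, ⟨-1, 1⟩, ⟨0, 0⟩, ⟨0, 1⟩, ⟨0, 0⟩, ⟨0, 0⟩, ⟨0, 0⟩, ⟨0, 1⟩⟩) (2, ⟨⟨-1, -1⟩, ⟨0, 0⟩, ⟨-1, -2⟩, ⟨0, 0⟩, ⟨1, 0⟩, ⟨0,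 0⟩, ⟨2, 1⟩, ⟨0, 0⟩, ⟨2, 2⟩⟩) (3, ⟨⟨-1, -1⟩, ⟨0, 0⟩, ⟨-1, -2⟩, ⟨0, 0⟩, ⟨1, 0⟩, ⟨0, 0⟩, ⟨2, 1⟩, ⟨0, 0⟩, ⟨2, 2⟩⟩) (4, ⟨⟨0, 1⟩, ⟨0, 0⟩, ⟨0, 0⟩, ⟨0, 0⟩, ⟨0, 1⟩, ⟨0, 0⟩, ⟨-1, -2⟩, ⟨0, -3⟩, ⟨1, 0⟩⟩) (5, ⟨⟨0, 1⟩, ⟨0, 0⟩, ⟨0, 0⟩, ⟨0, 0⟩, ⟨0, 1⟩, ⟨0, 0⟩, ⟨-1, -2⟩, ⟨0, -3⟩, ⟨1, 0⟩⟩),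
  W6 (1, ⟨⟨1, 0⟩, ⟨0, 3⟩, ⟨-1, 1⟩, ⟨0, 0⟩, ⟨0, 1⟩, ⟨0, 0⟩, ⟨0, 0⟩, ⟨0, 0⟩, ⟨0, 1⟩⟩) (0, ⟨⟨1, 0⟩, ⟨-1, 1⟩, ⟨-2, -1⟩, ⟨0, 0⟩, ⟨-1, -1⟩, ⟨-1, -2⟩, ⟨0, 0⟩, ⟨2, 1⟩, ⟨2, 2⟩⟩) (3, ⟨⟨-1, -1⟩, ⟨0, 0⟩, ⟨-1, -2⟩, ⟨0, 0⟩, ⟨1, 0⟩, ⟨0, 0⟩, ⟨2, 1⟩, ⟨0, 0⟩, ⟨2, 2⟩⟩) (2, ⟨⟨-2, 0⟩, ⟨0, 0⟩, ⟨-2, -1⟩, ⟨-1, -2⟩, ⟨1, 0⟩, ⟨-1, -2⟩, ⟨1, -1⟩, ⟨0, 0⟩, ⟨1, 0⟩⟩) (5, ⟨⟨0, 1⟩, ⟨0, 0⟩, ⟨0, 0⟩, ⟨0, 0⟩, ⟨0, 1⟩, ⟨0, 0⟩, ⟨-1, -2⟩, ⟨0, -3⟩, ⟨1, 0⟩⟩) (4,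 ⟨⟨-1, -1⟩, ⟨-1, -2⟩, ⟨0, 0⟩, ⟨2, 1⟩, ⟨2, 2⟩, ⟨0, 0⟩, ⟨-2, -1⟩, ⟨-1, -2⟩, ⟨1, 0⟩⟩),
  W6 (4, ⟨⟨-3, -3⟩, ⟨0, -3⟩, ⟨1, 0⟩, ⟨-1, -1⟩, ⟨0, 0⟩, ⟨0, 0⟩, ⟨0, 0⟩, ⟨-1, -1⟩, ⟨0, 0⟩⟩) (5, ⟨⟨-3, -3⟩, ⟨0, -3⟩, ⟨1, 0⟩, ⟨-1, -1⟩, ⟨0, 0⟩, ⟨0, 0⟩, ⟨0, 0⟩, ⟨-1, -1⟩, ⟨0, 0⟩⟩) (0, ⟨⟨0, 0⟩, ⟨0, 0⟩, ⟨-1, -1⟩, ⟨1, 0⟩, ⟨0, 3⟩, ⟨-1, 1⟩, ⟨0, 0⟩, ⟨1, 0⟩, ⟨2, 1⟩⟩) (1, ⟨⟨0, 0⟩, ⟨0, 0⟩, ⟨-1, -1⟩, ⟨1, 0⟩, ⟨0, 3⟩, ⟨-1, 1⟩, ⟨0, 0⟩, ⟨1, 0⟩, ⟨2, 1⟩⟩) (2,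 ⟨⟨0, 0⟩, ⟨0, 0⟩, ⟨-1, -1⟩, ⟨1, 0⟩, ⟨0, 0⟩, ⟨2, 1⟩, ⟨-3, 0⟩, ⟨1, 0⟩, ⟨-4, -2⟩⟩) (3, ⟨⟨0, 0⟩, ⟨0, 0⟩, ⟨-1, -1⟩, ⟨1, 0⟩, ⟨0, 0⟩, ⟨2, 1⟩, ⟨-3, 0⟩, ⟨1, 0⟩, ⟨-4, -2⟩⟩),
  W6 (5, ⟨⟨-3, -3⟩, ⟨0, -3⟩, ⟨1, 0⟩, ⟨-1, -1⟩, ⟨0, 0⟩, ⟨0, 0⟩, ⟨0, 0⟩, ⟨-1, -1⟩, ⟨0, 0⟩⟩) (4, ⟨⟨-1, -2⟩, ⟨2, -2⟩, ⟨1, 0⟩, ⟨1, 0⟩, ⟨2, 1⟩, ⟨0, 0⟩, ⟨-1, 1⟩, ⟨-2, 0⟩, ⟨0, 0⟩⟩) (1, ⟨⟨0, 0⟩, ⟨0, 0⟩, ⟨-1, -1⟩, ⟨1, 0⟩, ⟨0, 3⟩, ⟨-1, 1⟩, ⟨0, 0⟩, ⟨1, 0⟩, ⟨2, 1⟩⟩) (0, ⟨⟨0,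 0⟩, ⟨-1, 1⟩, ⟨-2, 0⟩, ⟨1, 0⟩, ⟨-1, 1⟩, ⟨-2, -1⟩, ⟨0, 0⟩, ⟨0, -2⟩, ⟨1, -1⟩⟩) (3, ⟨⟨0, 0⟩, ⟨0, 0⟩, ⟨-1, -1⟩, ⟨1, 0⟩, ⟨0, 0⟩, ⟨2, 1⟩, ⟨-3, 0⟩, ⟨1, 0⟩, ⟨-4, -2⟩⟩) (2, ⟨⟨-1, 1⟩, ⟨0, 0⟩, ⟨-2, 0⟩, ⟨0, -2⟩, ⟨0, 0⟩, ⟨1, -1⟩, ⟨-1, 1⟩, ⟨1, 0⟩, ⟨-2, -1⟩⟩),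
  W6 (4, ⟨⟨-1, -2⟩, ⟨2, -2⟩, ⟨1, 0⟩, ⟨1, 0⟩, ⟨2, 1⟩, ⟨0, 0⟩, ⟨-1, 1⟩, ⟨-2, 0⟩, ⟨0, 0⟩⟩) (5, ⟨⟨-1, -2⟩, ⟨2, -2⟩, ⟨1, 0⟩, ⟨1, 0⟩, ⟨2, 1⟩, ⟨0, 0⟩, ⟨-1, 1⟩, ⟨-2, 0⟩, ⟨0, 0⟩⟩) (0, ⟨⟨0, 0⟩, ⟨-1, 1⟩, ⟨-2, 0⟩, ⟨1, 0⟩, ⟨-1, 1⟩, ⟨-2, -1⟩, ⟨0, 0⟩, ⟨0, -2⟩, ⟨1, -1⟩⟩) (1, ⟨⟨0, 0⟩, ⟨-1, 1⟩, ⟨-2, 0⟩, ⟨1, 0⟩, ⟨-1, 1⟩, ⟨-2, -1⟩, ⟨0, 0⟩, ⟨0, -2⟩, ⟨1, -1⟩⟩) (2, ⟨⟨-1, 1⟩, ⟨0, 0⟩, ⟨-2, 0⟩, ⟨0, -2⟩, ⟨0, 0⟩, ⟨1, -1⟩, ⟨-1, 1⟩, ⟨1, 0⟩, ⟨-2, -1⟩⟩)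 (3, ⟨⟨-1, 1⟩, ⟨0, 0⟩, ⟨-2, 0⟩, ⟨0, -2⟩, ⟨0, 0⟩, ⟨1, -1⟩, ⟨-1, 1⟩, ⟨1, 0⟩, ⟨-2, -1⟩⟩),
  W6 (0, ⟨⟨1, 0⟩, ⟨1, 2⟩, ⟨1, 2⟩, ⟨0, 0⟩, ⟨0, 1⟩, ⟨0, 0⟩, ⟨0, 0⟩, ⟨0, 0⟩, ⟨0, 1⟩⟩) (1, ⟨⟨1, 0⟩, ⟨1, 2⟩, ⟨1, 2⟩, ⟨0, 0⟩, ⟨0, 1⟩, ⟨0, 0⟩, ⟨0, 0⟩, ⟨0, 0⟩, ⟨0, 1⟩⟩) (2, ⟨⟨-2, 0⟩, ⟨0, 0⟩, ⟨-2, -1⟩, ⟨1, -1⟩, ⟨1, 0⟩, ⟨0, 0⟩, ⟨1, -1⟩, ⟨0, 0⟩, ⟨1, 0⟩⟩) (3, ⟨⟨-2, 0⟩, ⟨0, 0⟩, ⟨-2, -1⟩, ⟨1, -1⟩, ⟨1, 0⟩, ⟨0, 0⟩, ⟨1, -1⟩, ⟨0, 0⟩, ⟨1, 0⟩⟩) (4, ⟨⟨-2,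 0⟩, ⟨-2, -1⟩, ⟨0, 0⟩, ⟨1, -1⟩, ⟨1, 0⟩, ⟨0, 0⟩, ⟨1, 2⟩, ⟨0, 0⟩, ⟨1, 0⟩⟩) (5, ⟨⟨-2, 0⟩, ⟨-2, -1⟩, ⟨0, 0⟩, ⟨1, -1⟩, ⟨1, 0⟩, ⟨0, 0⟩, ⟨1, 2⟩, ⟨0, 0⟩, ⟨1, 0⟩⟩),
  W6 (1, ⟨⟨1, 0⟩, ⟨1, 2⟩, ⟨1, 2⟩, ⟨0, 0⟩, ⟨0, 1⟩, ⟨0, 0⟩, ⟨0, 0⟩, ⟨0, 0⟩, ⟨0, 1⟩⟩) (0, ⟨⟨1, 0⟩, ⟨0, 0⟩, ⟨0, 0⟩, ⟨0, 0⟩, ⟨-1, -1⟩, ⟨-1, -2⟩, ⟨0, 0⟩, ⟨2, 1⟩, ⟨2, 2⟩⟩) (3, ⟨⟨-2, 0⟩, ⟨0, 0⟩, ⟨-2, -1⟩, ⟨1, -1⟩, ⟨1, 0⟩, ⟨0, 0⟩, ⟨1, -1⟩, ⟨0, 0⟩, ⟨1, 0⟩⟩) (2, ⟨⟨0, 1⟩, ⟨0, 0⟩,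 ⟨0, 0⟩, ⟨0, 0⟩, ⟨1, 0⟩, ⟨-1, 1⟩, ⟨0, 0⟩, ⟨0, 0⟩, ⟨0, 1⟩⟩) (5, ⟨⟨-2, 0⟩, ⟨-2, -1⟩, ⟨0, 0⟩, ⟨1, -1⟩, ⟨1, 0⟩, ⟨0, 0⟩, ⟨1, 2⟩, ⟨0, 0⟩, ⟨1, 0⟩⟩) (4, ⟨⟨0, 1⟩, ⟨0, 0⟩, ⟨0, 0⟩, ⟨0, 0⟩, ⟨0, 1⟩, ⟨0, 0⟩, ⟨0, 0⟩, ⟨-1, -2⟩, ⟨1, 0⟩⟩),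
  W6 (0, ⟨⟨1, 0⟩, ⟨0, 0⟩, ⟨0, 0⟩, ⟨0, 0⟩, ⟨-1, -1⟩, ⟨-1, -2⟩, ⟨0, 0⟩, ⟨2, 1⟩, ⟨2, 2⟩⟩) (1, ⟨⟨1, 0⟩, ⟨0, 0⟩, ⟨0, 0⟩, ⟨0, 0⟩, ⟨-1, -1⟩, ⟨-1, -2⟩, ⟨0, 0⟩, ⟨2, 1⟩, ⟨2, 2⟩⟩) (2, ⟨⟨0, 1⟩, ⟨0, 0⟩, ⟨0, 0⟩, ⟨0, 0⟩, ⟨1, 0⟩, ⟨-1, 1⟩, ⟨0, 0⟩, ⟨0, 0⟩, ⟨0, 1⟩⟩) (3, ⟨⟨0, 1⟩, ⟨0, 0⟩, ⟨0, 0⟩, ⟨0, 0⟩, ⟨1, 0⟩, ⟨-1, 1⟩, ⟨0, 0⟩, ⟨0, 0⟩, ⟨0, 1⟩⟩) (4, ⟨⟨0, 1⟩, ⟨0, 0⟩, ⟨0, 0⟩, ⟨0, 0⟩, ⟨0, 1⟩, ⟨0, 0⟩, ⟨0, 0⟩, ⟨-1, -2⟩, ⟨1, 0⟩⟩) (5, ⟨⟨0, 1⟩, ⟨0,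 0⟩, ⟨0, 0⟩, ⟨0, 0⟩, ⟨0, 1⟩, ⟨0, 0⟩, ⟨0, 0⟩, ⟨-1, -2⟩, ⟨1, 0⟩⟩),
  W6 (4, ⟨⟨-2, -1⟩, ⟨-1, -2⟩, ⟨1, 0⟩, ⟨-1, -1⟩, ⟨0, 0⟩, ⟨0, 0⟩, ⟨0, 0⟩, ⟨-1, -1⟩, ⟨0, 0⟩⟩) (5, ⟨⟨-2, -1⟩, ⟨-1, -2⟩, ⟨1, 0⟩, ⟨-1, -1⟩, ⟨0, 0⟩, ⟨0, 0⟩, ⟨0, 0⟩, ⟨-1, -1⟩, ⟨0, 0⟩⟩) (0, ⟨⟨0, 0⟩, ⟨-1, 1⟩, ⟨-2, 0⟩, ⟨1, 0⟩, ⟨0, 0⟩, ⟨0, 0⟩, ⟨0, 0⟩, ⟨0, -2⟩, ⟨1, -1⟩⟩) (1, ⟨⟨0, 0⟩, ⟨-1, 1⟩, ⟨-2, 0⟩, ⟨1, 0⟩, ⟨0, 0⟩, ⟨0, 0⟩, ⟨0, 0⟩, ⟨0, -2⟩, ⟨1, -1⟩⟩) (2, ⟨⟨1, 2⟩, ⟨0,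 0⟩, ⟨0, 1⟩, ⟨-1, -1⟩, ⟨0, 0⟩, ⟨0, 0⟩, ⟨0, 0⟩, ⟨1, 0⟩, ⟨-2, -1⟩⟩) (3, ⟨⟨1, 2⟩, ⟨0, 0⟩, ⟨0, 1⟩, ⟨-1, -1⟩, ⟨0, 0⟩, ⟨0, 0⟩, ⟨0, 0⟩, ⟨1, 0⟩, ⟨-2, -1⟩⟩),
  W6 (5, ⟨⟨-2, -1⟩, ⟨-1, -2⟩, ⟨1, 0⟩, ⟨-1, -1⟩, ⟨0, 0⟩, ⟨0, 0⟩, ⟨0, 0⟩, ⟨-1, -1⟩, ⟨0, 0⟩⟩) (4, ⟨⟨0, 0⟩, ⟨1, -1⟩, ⟨1, 0⟩, ⟨1, 0⟩, ⟨2, 1⟩, ⟨0, 0⟩, ⟨-1, 1⟩, ⟨-2, 0⟩, ⟨0, 0⟩⟩) (1, ⟨⟨0, 0⟩, ⟨-1, 1⟩, ⟨-2, 0⟩, ⟨1, 0⟩, ⟨0, 0⟩, ⟨0, 0⟩, ⟨0, 0⟩, ⟨0, -2⟩, ⟨1, -1⟩⟩) (0, ⟨⟨0, 0⟩, ⟨1, 2⟩,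 ⟨0, 1⟩, ⟨1, 0⟩, ⟨-1, 1⟩, ⟨-1, 1⟩, ⟨0, 0⟩, ⟨-1, -1⟩, ⟨0, 0⟩⟩) (3, ⟨⟨1, 2⟩, ⟨0, 0⟩, ⟨0, 1⟩, ⟨-1, -1⟩, ⟨0, 0⟩, ⟨0, 0⟩, ⟨0, 0⟩, ⟨1, 0⟩, ⟨-2, -1⟩⟩) (2, ⟨⟨0, 0⟩, ⟨0, 0⟩, ⟨-1, -1⟩, ⟨1, 0⟩, ⟨0, 0⟩, ⟨2, 1⟩, ⟨-1, 1⟩, ⟨1, 0⟩, ⟨-3, 0⟩⟩),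
  W6 (4, ⟨⟨0, 0⟩, ⟨1, -1⟩, ⟨1, 0⟩, ⟨1, 0⟩, ⟨2, 1⟩, ⟨0, 0⟩, ⟨-1, 1⟩, ⟨-2, 0⟩, ⟨0, 0⟩⟩) (5, ⟨⟨0, 0⟩, ⟨1, -1⟩, ⟨1, 0⟩, ⟨1, 0⟩, ⟨2, 1⟩, ⟨0, 0⟩, ⟨-1, 1⟩, ⟨-2, 0⟩, ⟨0, 0⟩⟩) (0, ⟨⟨0, 0⟩, ⟨1, 2⟩, ⟨0, 1⟩, ⟨1, 0⟩, ⟨-1, 1⟩, ⟨-1, 1⟩, ⟨0, 0⟩, ⟨-1, -1⟩, ⟨0, 0⟩⟩) (1, ⟨⟨0, 0⟩, ⟨1, 2⟩, ⟨0, 1⟩, ⟨1, 0⟩, ⟨-1, 1⟩, ⟨-1, 1⟩, ⟨0, 0⟩, ⟨-1, -1⟩, ⟨0, 0⟩⟩) (2, ⟨⟨0, 0⟩, ⟨0, 0⟩, ⟨-1, -1⟩, ⟨1, 0⟩, ⟨0, 0⟩, ⟨2, 1⟩, ⟨-1, 1⟩, ⟨1, 0⟩, ⟨-3, 0⟩⟩) (3, ⟨⟨0,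 0⟩, ⟨0, 0⟩, ⟨-1, -1⟩, ⟨1, 0⟩, ⟨0, 0⟩, ⟨2, 1⟩, ⟨-1, 1⟩, ⟨1, 0⟩, ⟨-3, 0⟩⟩),
  W6 (2, ⟨⟨-1, 1⟩, ⟨1, 0⟩, ⟨-2, -1⟩, ⟨0, 0⟩, ⟨0, 0⟩, ⟨1, 0⟩, ⟨0, 1⟩, ⟨0, 0⟩, ⟨-1, 1⟩⟩) (3, ⟨⟨-1, 1⟩, ⟨1, 0⟩, ⟨-2, -1⟩, ⟨0, 0⟩, ⟨0, 0⟩, ⟨1, 0⟩, ⟨0, 1⟩, ⟨0, 0⟩, ⟨-1, 1⟩⟩) (4, ⟨⟨-1, -2⟩, ⟨0, -2⟩, ⟨0, 0⟩, ⟨0, 0⟩, ⟨1, -1⟩, ⟨1, 0⟩, ⟨2, 2⟩, ⟨1, 2⟩, ⟨0, 0⟩⟩) (5, ⟨⟨-1, -2⟩, ⟨0, -2⟩, ⟨0, 0⟩, ⟨0, 0⟩, ⟨1, -1⟩, ⟨1, 0⟩, ⟨2, 2⟩, ⟨1, 2⟩, ⟨0, 0⟩⟩) (0, ⟨⟨0, 0⟩, ⟨2,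 2⟩, ⟨1, 2⟩, ⟨0, 0⟩, ⟨-2, -1⟩, ⟨-1, -1⟩, ⟨1, 0⟩, ⟨1, 2⟩, ⟨-1, 1⟩⟩) (1, ⟨⟨0, 0⟩, ⟨2, 2⟩, ⟨1, 2⟩, ⟨0, 0⟩, ⟨-2, -1⟩, ⟨-1, -1⟩, ⟨1, 0⟩, ⟨1, 2⟩, ⟨-1, 1⟩⟩),
  W6 (3, ⟨⟨-1, 1⟩, ⟨1, 0⟩, ⟨-2, -1⟩, ⟨0, 0⟩, ⟨0, 0⟩, ⟨1, 0⟩, ⟨0, 1⟩, ⟨0, 0⟩, ⟨-1, 1⟩⟩) (2, ⟨⟨-2, -1⟩, ⟨1, 0⟩, ⟨-3, -3⟩, ⟨-1, -2⟩, ⟨0, 0⟩, ⟨0, -2⟩, ⟨2, 2⟩, ⟨0, 0⟩, ⟨1, 2⟩⟩) (5, ⟨⟨-1, -2⟩, ⟨0, -2⟩, ⟨0, 0⟩, ⟨0, 0⟩, ⟨1, -1⟩, ⟨1, 0⟩, ⟨2, 2⟩, ⟨1, 2⟩, ⟨0, 0⟩⟩) (4, ⟨⟨-2, -1⟩, ⟨-1,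 -1⟩, ⟨0, 0⟩, ⟨-1, -2⟩, ⟨0, -3⟩, ⟨1, 0⟩, ⟨1, 0⟩, ⟨0, 0⟩, ⟨0, 0⟩⟩) (1, ⟨⟨0, 0⟩, ⟨2, 2⟩, ⟨1, 2⟩, ⟨0, 0⟩, ⟨-2, -1⟩, ⟨-1, -1⟩, ⟨1, 0⟩, ⟨1, 2⟩, ⟨-1, 1⟩⟩) (0, ⟨⟨0, 0⟩, ⟨1, 0⟩, ⟨0, 0⟩, ⟨0, 0⟩, ⟨0, 0⟩, ⟨1, 0⟩, ⟨1, 0⟩, ⟨0, 3⟩, ⟨-2, 2⟩⟩),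
  W6 (2, ⟨⟨-2, -1⟩, ⟨1, 0⟩, ⟨-3, -3⟩, ⟨-1, -2⟩, ⟨0, 0⟩, ⟨0, -2⟩, ⟨2, 2⟩, ⟨0, 0⟩, ⟨1, 2⟩⟩) (3, ⟨⟨-2, -1⟩, ⟨1, 0⟩, ⟨-3, -3⟩, ⟨-1, -2⟩, ⟨0, 0⟩, ⟨0, -2⟩, ⟨2, 2⟩, ⟨0, 0⟩, ⟨1, 2⟩⟩) (4, ⟨⟨-2, -1⟩, ⟨-1, -1⟩, ⟨0, 0⟩, ⟨-1, -2⟩, ⟨0, -3⟩, ⟨1, 0⟩, ⟨1, 0⟩, ⟨0, 0⟩, ⟨0, 0⟩⟩) (5, ⟨⟨-2, -1⟩, ⟨-1, -1⟩, ⟨0, 0⟩, ⟨-1, -2⟩, ⟨0, -3⟩, ⟨1, 0⟩, ⟨1, 0⟩, ⟨0, 0⟩, ⟨0, 0⟩⟩) (0, ⟨⟨0, 0⟩, ⟨1, 0⟩, ⟨0, 0⟩, ⟨0, 0⟩, ⟨0, 0⟩, ⟨1, 0⟩, ⟨1, 0⟩, ⟨0, 3⟩, ⟨-2, 2⟩⟩)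 (1, ⟨⟨0, 0⟩, ⟨1, 0⟩, ⟨0, 0⟩, ⟨0, 0⟩, ⟨0, 0⟩, ⟨1, 0⟩, ⟨1, 0⟩, ⟨0, 3⟩, ⟨-2, 2⟩⟩)]

/-- the values for k = 3 -/
def rtab3 : List Wr := [
  W6 (2, ⟨⟨-2, -4⟩, ⟨1, 0⟩, ⟨0, -3⟩, ⟨0, -2⟩, ⟨0, 0⟩, ⟨1, -1⟩, ⟨1, 2⟩, ⟨0, 0⟩, ⟨0, 1⟩⟩) (3, ⟨⟨-2, -4⟩, ⟨1, 0⟩, ⟨0, -3⟩, ⟨0, -2⟩, ⟨0, 0⟩, ⟨1, -1⟩, ⟨1, 2⟩, ⟨0, 0⟩, ⟨0, 1⟩⟩) (0, ⟨⟨0, 0⟩, ⟨0, 1⟩, ⟨0, 0⟩, ⟨1, 0⟩, ⟨-3, 0⟩, ⟨-2, -1⟩, ⟨0, 0⟩, ⟨0, 0⟩, ⟨0, 1⟩⟩) (1, ⟨⟨0, 0⟩, ⟨0, 1⟩, ⟨0, 0⟩, ⟨1, 0⟩,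 ⟨-3, 0⟩, ⟨-2, -1⟩, ⟨0, 0⟩, ⟨0, 0⟩, ⟨0, 1⟩⟩) (4, ⟨⟨-2, -1⟩, ⟨-1, -1⟩, ⟨0, 0⟩, ⟨1, 0⟩, ⟨0, 0⟩, ⟨0, 0⟩, ⟨1, -1⟩, ⟨3, 0⟩, ⟨1, 0⟩⟩) (5, ⟨⟨-2, -1⟩, ⟨-1, -1⟩, ⟨0, 0⟩, ⟨1, 0⟩, ⟨0, 0⟩, ⟨0, 0⟩, ⟨1, -1⟩, ⟨3, 0⟩, ⟨1, 0⟩⟩),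
  W6 (3, ⟨⟨-2, -4⟩, ⟨1, 0⟩, ⟨0, -3⟩, ⟨0, -2⟩, ⟨0, 0⟩, ⟨1, -1⟩, ⟨1, 2⟩, ⟨0, 0⟩, ⟨0, 1⟩⟩) (2, ⟨⟨-3, -3⟩, ⟨1, 0⟩, ⟨-1, -2⟩, ⟨-1, -1⟩, ⟨0, 0⟩, ⟨0, 0⟩, ⟨0, 0⟩, ⟨0, 0⟩, ⟨-1, -1⟩⟩) (1, ⟨⟨0, 0⟩, ⟨0, 1⟩, ⟨0, 0⟩, ⟨1, 0⟩, ⟨-3, 0⟩, ⟨-2, -1⟩, ⟨0, 0⟩, ⟨0, 0⟩, ⟨0, 1⟩⟩) (0, ⟨⟨0, 0⟩, ⟨-1, -1⟩, ⟨-1, -2⟩, ⟨1, 0⟩, ⟨-1, 1⟩, ⟨0, 0⟩, ⟨0, 0⟩, ⟨2, 1⟩, ⟨2, 2⟩⟩) (5, ⟨⟨-2, -1⟩, ⟨-1, -1⟩, ⟨0, 0⟩, ⟨1, 0⟩, ⟨0, 0⟩, ⟨0, 0⟩, ⟨1, -1⟩, ⟨3, 0⟩, ⟨1, 0⟩⟩) (4,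 ⟨⟨0, 0⟩, ⟨1, 0⟩, ⟨0, 0⟩, ⟨0, 1⟩, ⟨-1, 1⟩, ⟨0, 0⟩, ⟨0, -3⟩, ⟨2, -2⟩, ⟨1, 0⟩⟩),
  W6 (2, ⟨⟨-3, -3⟩, ⟨1, 0⟩, ⟨-1, -2⟩, ⟨-1, -1⟩, ⟨0, 0⟩, ⟨0, 0⟩, ⟨0, 0⟩, ⟨0, 0⟩, ⟨-1, -1⟩⟩) (3, ⟨⟨-3, -3⟩, ⟨1, 0⟩, ⟨-1, -2⟩, ⟨-1, -1⟩, ⟨0, 0⟩, ⟨0, 0⟩, ⟨0, 0⟩, ⟨0, 0⟩, ⟨-1, -1⟩⟩) (0, ⟨⟨0, 0⟩, ⟨-1, -1⟩, ⟨-1, -2⟩, ⟨1, 0⟩, ⟨-1, 1⟩, ⟨0, 0⟩, ⟨0, 0⟩, ⟨2, 1⟩, ⟨2, 2⟩⟩) (1, ⟨⟨0, 0⟩, ⟨-1, -1⟩, ⟨-1, -2⟩, ⟨1, 0⟩, ⟨-1, 1⟩, ⟨0, 0⟩, ⟨0, 0⟩, ⟨2, 1⟩, ⟨2, 2⟩⟩) (4,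 ⟨⟨0, 0⟩, ⟨1, 0⟩, ⟨0, 0⟩, ⟨0, 1⟩, ⟨-1, 1⟩, ⟨0, 0⟩, ⟨0, -3⟩, ⟨2, -2⟩, ⟨1, 0⟩⟩) (5, ⟨⟨0, 0⟩, ⟨1, 0⟩, ⟨0, 0⟩, ⟨0, 1⟩, ⟨-1, 1⟩, ⟨0, 0⟩, ⟨0, -3⟩, ⟨2, -2⟩, ⟨1, 0⟩⟩),
  W6 (0, ⟨⟨1, 0⟩, ⟨-4, 1⟩, ⟨-4, -2⟩, ⟨0, 0⟩, ⟨-2, -1⟩, ⟨-1, -1⟩, ⟨0, 0⟩, ⟨1, 0⟩, ⟨0, 0⟩⟩) (1, ⟨⟨1, 0⟩, ⟨-4, 1⟩, ⟨-4, -2⟩, ⟨0, 0⟩, ⟨-2, -1⟩, ⟨-1, -1⟩, ⟨0, 0⟩, ⟨1, 0⟩, ⟨0, 0⟩⟩) (4, ⟨⟨1, 0⟩, ⟨2, 1⟩, ⟨0, 0⟩, ⟨-1, -2⟩, ⟨1, -1⟩, ⟨1, 0⟩, ⟨-1, 1⟩, ⟨-2, 0⟩, ⟨0, 0⟩⟩) (5, ⟨⟨1,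 0⟩, ⟨2, 1⟩, ⟨0, 0⟩, ⟨-1, -2⟩, ⟨1, -1⟩, ⟨1, 0⟩, ⟨-1, 1⟩, ⟨-2, 0⟩, ⟨0, 0⟩⟩) (2, ⟨⟨-1, -1⟩, ⟨0, 0⟩, ⟨-1, -2⟩, ⟨2, 1⟩, ⟨0, 0⟩, ⟨2, 2⟩, ⟨-4, -2⟩, ⟨1, 0⟩, ⟨-3, -3⟩⟩) (3, ⟨⟨-1, -1⟩, ⟨0, 0⟩, ⟨-1, -2⟩, ⟨2, 1⟩, ⟨0, 0⟩, ⟨2, 2⟩, ⟨-4, -2⟩, ⟨1, 0⟩, ⟨-3, -3⟩⟩),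
  W6 (1, ⟨⟨1, 0⟩, ⟨-4, 1⟩, ⟨-4, -2⟩, ⟨0, 0⟩, ⟨-2, -1⟩, ⟨-1, -1⟩, ⟨0, 0⟩, ⟨1, 0⟩, ⟨0, 0⟩⟩) (0, ⟨⟨1, 0⟩, ⟨-2, 2⟩, ⟨-2, -1⟩, ⟨0, 0⟩, ⟨0, 0⟩, ⟨1, 0⟩, ⟨0, 0⟩, ⟨0, 1⟩, ⟨-1, 1⟩⟩) (5, ⟨⟨1, 0⟩, ⟨2, 1⟩, ⟨0, 0⟩, ⟨-1, -2⟩, ⟨1, -1⟩, ⟨1, 0⟩, ⟨-1, 1⟩, ⟨-2, 0⟩, ⟨0, 0⟩⟩) (4, ⟨⟨0, -2⟩, ⟨1, -1⟩, ⟨0, 0⟩, ⟨1, -1⟩, ⟨3, 0⟩, ⟨1, 0⟩, ⟨1, 2⟩, ⟨0, 1⟩, ⟨0, 0⟩⟩) (3, ⟨⟨-1, -1⟩, ⟨0, 0⟩, ⟨-1, -2⟩, ⟨2, 1⟩, ⟨0, 0⟩, ⟨2, 2⟩, ⟨-4, -2⟩, ⟨1, 0⟩, ⟨-3, -3⟩⟩)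 (2, ⟨⟨-2, 0⟩, ⟨0, 0⟩, ⟨-2, -1⟩, ⟨1, -1⟩, ⟨0, 0⟩, ⟨1, 0⟩, ⟨-2, -1⟩, ⟨1, 0⟩, ⟨-1, -2⟩⟩),
  W6 (0, ⟨⟨1, 0⟩, ⟨-2, 2⟩, ⟨-2, -1⟩, ⟨0, 0⟩, ⟨0, 0⟩, ⟨1, 0⟩, ⟨0, 0⟩, ⟨0, 1⟩, ⟨-1, 1⟩⟩) (1, ⟨⟨1, 0⟩, ⟨-2, 2⟩, ⟨-2, -1⟩, ⟨0, 0⟩, ⟨0, 0⟩, ⟨1, 0⟩, ⟨0, 0⟩, ⟨0, 1⟩, ⟨-1, 1⟩⟩) (4, ⟨⟨0, -2⟩, ⟨1, -1⟩, ⟨0, 0⟩, ⟨1, -1⟩, ⟨3, 0⟩, ⟨1, 0⟩, ⟨1, 2⟩, ⟨0, 1⟩, ⟨0, 0⟩⟩) (5, ⟨⟨0, -2⟩, ⟨1, -1⟩, ⟨0, 0⟩, ⟨1, -1⟩, ⟨3, 0⟩, ⟨1, 0⟩, ⟨1, 2⟩, ⟨0, 1⟩, ⟨0, 0⟩⟩) (2,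 ⟨⟨-2, 0⟩, ⟨0, 0⟩, ⟨-2, -1⟩, ⟨1, -1⟩, ⟨0, 0⟩, ⟨1, 0⟩, ⟨-2, -1⟩, ⟨1, 0⟩, ⟨-1, -2⟩⟩) (3, ⟨⟨-2, 0⟩, ⟨0, 0⟩, ⟨-2, -1⟩, ⟨1, -1⟩, ⟨0, 0⟩, ⟨1, 0⟩, ⟨-2, -1⟩, ⟨1, 0⟩, ⟨-1, -2⟩⟩),
  W6 (4, ⟨⟨-2, -4⟩, ⟨2, -2⟩, ⟨1, 0⟩, ⟨0, 0⟩, ⟨0, 1⟩, ⟨0, 0⟩, ⟨-1, -1⟩, ⟨-1, -2⟩, ⟨0, 0⟩⟩) (5, ⟨⟨-2, -4⟩, ⟨2, -2⟩, ⟨1, 0⟩, ⟨0, 0⟩, ⟨0, 1⟩, ⟨0, 0⟩, ⟨-1, -1⟩, ⟨-1, -2⟩, ⟨0, 0⟩⟩) (2, ⟨⟨-2, -1⟩, ⟨0, 0⟩, ⟨-1, -1⟩, ⟨-3, -3⟩, ⟨1, 0⟩, ⟨-2, -4⟩, ⟨1, 0⟩, ⟨0, 0⟩, ⟨0,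 0⟩⟩) (3, ⟨⟨-2, -1⟩, ⟨0, 0⟩, ⟨-1, -1⟩, ⟨-3, -3⟩, ⟨1, 0⟩, ⟨-2, -4⟩, ⟨1, 0⟩, ⟨0, 0⟩, ⟨0, 0⟩⟩) (0, ⟨⟨0, 0⟩, ⟨-1, 1⟩, ⟨-2, 0⟩, ⟨0, 0⟩, ⟨0, -2⟩, ⟨1, -1⟩, ⟨1, 0⟩, ⟨-1, 4⟩, ⟨-3, 0⟩⟩) (1, ⟨⟨0, 0⟩, ⟨-1, 1⟩, ⟨-2, 0⟩, ⟨0, 0⟩, ⟨0, -2⟩, ⟨1, -1⟩, ⟨1, 0⟩, ⟨-1, 4⟩, ⟨-3, 0⟩⟩),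
  W6 (5, ⟨⟨-2, -4⟩, ⟨2, -2⟩, ⟨1, 0⟩, ⟨0, 0⟩, ⟨0, 1⟩, ⟨0, 0⟩, ⟨-1, -1⟩, ⟨-1, -2⟩, ⟨0, 0⟩⟩) (4, ⟨⟨0, -3⟩, ⟨4, -1⟩, ⟨1, 0⟩, ⟨2, 1⟩, ⟨2, 2⟩, ⟨0, 0⟩, ⟨-2, 0⟩, ⟨-2, -1⟩, ⟨0, 0⟩⟩) (3, ⟨⟨-2, -1⟩, ⟨0, 0⟩, ⟨-1, -1⟩, ⟨-3, -3⟩, ⟨1, 0⟩, ⟨-2, -4⟩, ⟨1, 0⟩, ⟨0, 0⟩, ⟨0, 0⟩⟩) (2, ⟨⟨0, 0⟩, ⟨0, 0⟩, ⟨1, 0⟩, ⟨-4, -2⟩, ⟨1, 0⟩, ⟨-3, -3⟩, ⟨0, 1⟩, ⟨0, 0⟩, ⟨-1, 1⟩⟩) (1, ⟨⟨0, 0⟩, ⟨-1, 1⟩, ⟨-2, 0⟩, ⟨0, 0⟩, ⟨0, -2⟩, ⟨1, -1⟩, ⟨1, 0⟩, ⟨-1, 4⟩, ⟨-3, 0⟩⟩)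 (0, ⟨⟨0, 0⟩, ⟨1, 2⟩, ⟨0, 1⟩, ⟨0, 0⟩, ⟨-1, -1⟩, ⟨0, 0⟩, ⟨1, 0⟩, ⟨-2, 2⟩, ⟨-4, -2⟩⟩),
  W6 (4, ⟨⟨0, -3⟩, ⟨4, -1⟩, ⟨1, 0⟩, ⟨2, 1⟩, ⟨2, 2⟩, ⟨0, 0⟩, ⟨-2, 0⟩, ⟨-2, -1⟩, ⟨0, 0⟩⟩) (5, ⟨⟨0, -3⟩, ⟨4, -1⟩, ⟨1, 0⟩, ⟨2, 1⟩, ⟨2, 2⟩, ⟨0, 0⟩, ⟨-2, 0⟩, ⟨-2, -1⟩, ⟨0, 0⟩⟩) (2, ⟨⟨0, 0⟩, ⟨0, 0⟩, ⟨1, 0⟩, ⟨-4, -2⟩, ⟨1, 0⟩, ⟨-3, -3⟩, ⟨0, 1⟩, ⟨0, 0⟩, ⟨-1, 1⟩⟩) (3, ⟨⟨0, 0⟩, ⟨0, 0⟩, ⟨1, 0⟩, ⟨-4, -2⟩, ⟨1, 0⟩, ⟨-3, -3⟩, ⟨0, 1⟩, ⟨0, 0⟩, ⟨-1, 1⟩⟩) (0,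 ⟨⟨0, 0⟩, ⟨1, 2⟩, ⟨0, 1⟩, ⟨0, 0⟩, ⟨-1, -1⟩, ⟨0, 0⟩, ⟨1, 0⟩, ⟨-2, 2⟩, ⟨-4, -2⟩⟩) (1, ⟨⟨0, 0⟩, ⟨1, 2⟩, ⟨0, 1⟩, ⟨0, 0⟩, ⟨-1, -1⟩, ⟨0, 0⟩, ⟨1, 0⟩, ⟨-2, 2⟩, ⟨-4, -2⟩⟩),
  W6 (0, ⟨⟨1, 0⟩, ⟨-3, 0⟩, ⟨-2, -1⟩, ⟨0, 0⟩, ⟨-2, -1⟩, ⟨-1, -1⟩, ⟨0, 0⟩, ⟨1, 0⟩, ⟨0, 0⟩⟩) (1, ⟨⟨1, 0⟩, ⟨-3, 0⟩, ⟨-2, -1⟩, ⟨0, 0⟩, ⟨-2, -1⟩, ⟨-1, -1⟩, ⟨0, 0⟩, ⟨1, 0⟩, ⟨0, 0⟩⟩) (4, ⟨⟨-1, -1⟩, ⟨0, 0⟩, ⟨0, 0⟩, ⟨1, -1⟩, ⟨1, -1⟩, ⟨1, 0⟩, ⟨0, 0⟩, ⟨-1, -1⟩, ⟨0, 0⟩⟩)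 (5, ⟨⟨-1, -1⟩, ⟨0, 0⟩, ⟨0, 0⟩, ⟨1, -1⟩, ⟨1, -1⟩, ⟨1, 0⟩, ⟨0, 0⟩, ⟨-1, -1⟩, ⟨0, 0⟩⟩) (2, ⟨⟨-2, 0⟩, ⟨0, 0⟩, ⟨-2, -1⟩, ⟨1, -1⟩, ⟨0, 0⟩, ⟨1, 0⟩, ⟨0, 0⟩, ⟨1, 0⟩, ⟨0, 0⟩⟩) (3, ⟨⟨-2, 0⟩, ⟨0, 0⟩, ⟨-2, -1⟩, ⟨1, -1⟩, ⟨0, 0⟩, ⟨1, 0⟩, ⟨0, 0⟩, ⟨1, 0⟩, ⟨0, 0⟩⟩),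
  W6 (1, ⟨⟨1, 0⟩, ⟨-3, 0⟩, ⟨-2, -1⟩, ⟨0, 0⟩, ⟨-2, -1⟩, ⟨-1, -1⟩, ⟨0, 0⟩, ⟨1, 0⟩, ⟨0, 0⟩⟩) (0, ⟨⟨1, 0⟩, ⟨-1, 1⟩, ⟨0, 0⟩, ⟨0, 0⟩, ⟨0, 0⟩, ⟨1, 0⟩, ⟨0, 0⟩, ⟨0, 1⟩, ⟨-1, 1⟩⟩) (5, ⟨⟨-1, -1⟩, ⟨0, 0⟩, ⟨0, 0⟩, ⟨1, -1⟩, ⟨1, -1⟩, ⟨1, 0⟩, ⟨0, 0⟩, ⟨-1, -1⟩, ⟨0, 0⟩⟩) (4, ⟨⟨1, 0⟩, ⟨2, 1⟩, ⟨0, 0⟩, ⟨0, 0⟩, ⟨0, 0⟩, ⟨1, 0⟩, ⟨-1, 1⟩, ⟨-2, 0⟩, ⟨0, 0⟩⟩) (3, ⟨⟨-2, 0⟩, ⟨0, 0⟩, ⟨-2, -1⟩, ⟨1, -1⟩, ⟨0, 0⟩, ⟨1, 0⟩, ⟨0, 0⟩, ⟨1, 0⟩, ⟨0, 0⟩⟩) (2, ⟨⟨0,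 1⟩, ⟨0, 0⟩, ⟨0, 0⟩, ⟨0, 0⟩, ⟨0, 0⟩, ⟨0, 1⟩, ⟨-1, -2⟩, ⟨1, 0⟩, ⟨-1, -2⟩⟩),
  W6 (0, ⟨⟨1, 0⟩, ⟨-1, 1⟩, ⟨0, 0⟩, ⟨0, 0⟩, ⟨0, 0⟩, ⟨1, 0⟩, ⟨0, 0⟩, ⟨0, 1⟩, ⟨-1, 1⟩⟩) (1, ⟨⟨1, 0⟩, ⟨-1, 1⟩, ⟨0, 0⟩, ⟨0, 0⟩, ⟨0, 0⟩, ⟨1, 0⟩, ⟨0, 0⟩, ⟨0, 1⟩, ⟨-1, 1⟩⟩) (4, ⟨⟨1, 0⟩, ⟨2, 1⟩, ⟨0, 0⟩, ⟨0, 0⟩, ⟨0, 0⟩, ⟨1, 0⟩, ⟨-1, 1⟩, ⟨-2, 0⟩, ⟨0, 0⟩⟩) (5, ⟨⟨1, 0⟩, ⟨2, 1⟩, ⟨0, 0⟩, ⟨0, 0⟩, ⟨0, 0⟩, ⟨1, 0⟩, ⟨-1, 1⟩, ⟨-2, 0⟩, ⟨0, 0⟩⟩) (2, ⟨⟨0, 1⟩, ⟨0, 0⟩, ⟨0,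 0⟩, ⟨0, 0⟩, ⟨0, 0⟩, ⟨0, 1⟩, ⟨-1, -2⟩, ⟨1, 0⟩, ⟨-1, -2⟩⟩) (3, ⟨⟨0, 1⟩, ⟨0, 0⟩, ⟨0, 0⟩, ⟨0, 0⟩, ⟨0, 0⟩, ⟨0, 1⟩, ⟨-1, -2⟩, ⟨1, 0⟩, ⟨-1, -2⟩⟩),
  W6 (5, ⟨⟨0, -3⟩, ⟨2, -2⟩, ⟨1, 0⟩, ⟨1, -1⟩, ⟨1, 0⟩, ⟨0, 0⟩, ⟨0, 1⟩, ⟨0, 0⟩, ⟨0, 0⟩⟩) (4, ⟨⟨-1, -2⟩, ⟨1, -1⟩, ⟨1, 0⟩, ⟨0, 0⟩, ⟨0, 1⟩, ⟨0, 0⟩, ⟨-1, -1⟩, ⟨-1, -2⟩, ⟨0, 0⟩⟩) (3, ⟨⟨0, 0⟩, ⟨0, 0⟩, ⟨1, 0⟩, ⟨-2, -1⟩, ⟨1, 0⟩, ⟨-2, -1⟩, ⟨0, 1⟩, ⟨0, 0⟩, ⟨-1, 1⟩⟩) (2, ⟨⟨-1, -2⟩, ⟨0, 0⟩, ⟨0, -2⟩,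 ⟨0, 0⟩, ⟨1, 0⟩, ⟨0, 0⟩, ⟨2, 2⟩, ⟨0, 0⟩, ⟨1, 2⟩⟩) (1, ⟨⟨0, 0⟩, ⟨-1, 1⟩, ⟨-2, 0⟩, ⟨0, 0⟩, ⟨0, -2⟩, ⟨1, -1⟩, ⟨1, 0⟩, ⟨0, 3⟩, ⟨-1, 1⟩⟩) (0, ⟨⟨0, 0⟩, ⟨1, 2⟩, ⟨0, 1⟩, ⟨0, 0⟩, ⟨-1, -1⟩, ⟨0, 0⟩, ⟨1, 0⟩, ⟨-1, 1⟩, ⟨-2, -1⟩⟩),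
  W6 (4, ⟨⟨-1, -2⟩, ⟨1, -1⟩, ⟨1, 0⟩, ⟨0, 0⟩, ⟨0, 1⟩, ⟨0, 0⟩, ⟨-1, -1⟩, ⟨-1, -2⟩, ⟨0, 0⟩⟩) (5, ⟨⟨-1, -2⟩, ⟨1, -1⟩, ⟨1, 0⟩, ⟨0, 0⟩, ⟨0, 1⟩, ⟨0, 0⟩, ⟨-1, -1⟩, ⟨-1, -2⟩, ⟨0, 0⟩⟩) (2, ⟨⟨-1, -2⟩, ⟨0, 0⟩, ⟨0, -2⟩, ⟨0, 0⟩, ⟨1, 0⟩, ⟨0, 0⟩, ⟨2, 2⟩, ⟨0, 0⟩, ⟨1, 2⟩⟩) (3, ⟨⟨-1, -2⟩, ⟨0, 0⟩, ⟨0, -2⟩, ⟨0, 0⟩, ⟨1, 0⟩, ⟨0, 0⟩, ⟨2, 2⟩, ⟨0, 0⟩, ⟨1, 2⟩⟩) (0, ⟨⟨0, 0⟩, ⟨1, 2⟩, ⟨0, 1⟩, ⟨0, 0⟩, ⟨-1, -1⟩, ⟨0, 0⟩, ⟨1, 0⟩, ⟨-1, 1⟩, ⟨-2, -1⟩⟩) (1,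 ⟨⟨0, 0⟩, ⟨1, 2⟩, ⟨0, 1⟩, ⟨0, 0⟩, ⟨-1, -1⟩, ⟨0, 0⟩, ⟨1, 0⟩, ⟨-1, 1⟩, ⟨-2, -1⟩⟩),
  W6 (5, ⟨⟨-1, -2⟩, ⟨1, -1⟩, ⟨1, 0⟩, ⟨0, 0⟩, ⟨0, 1⟩, ⟨0, 0⟩, ⟨-1, -1⟩, ⟨-1, -2⟩, ⟨0, 0⟩⟩) (4, ⟨⟨1, -1⟩, ⟨3, 0⟩, ⟨1, 0⟩, ⟨2, 1⟩, ⟨2, 2⟩, ⟨0, 0⟩, ⟨-2, 0⟩, ⟨-2, -1⟩, ⟨0, 0⟩⟩) (3, ⟨⟨-1, -2⟩, ⟨0, 0⟩, ⟨0, -2⟩, ⟨0, 0⟩, ⟨1, 0⟩, ⟨0, 0⟩, ⟨2, 2⟩, ⟨0, 0⟩, ⟨1, 2⟩⟩) (2, ⟨⟨-2, -1⟩, ⟨0, 0⟩, ⟨-1, -1⟩, ⟨-1, -2⟩, ⟨1, 0⟩, ⟨-1, -2⟩, ⟨1, 0⟩, ⟨0, 0⟩, ⟨0, 0⟩⟩) (1,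 ⟨⟨0, 0⟩, ⟨1, 2⟩, ⟨0, 1⟩, ⟨0, 0⟩, ⟨-1, -1⟩, ⟨0, 0⟩, ⟨1, 0⟩, ⟨-1, 1⟩, ⟨-2, -1⟩⟩) (0, ⟨⟨0, 0⟩, ⟨0, 0⟩, ⟨-1, -1⟩, ⟨0, 0⟩, ⟨1, 0⟩, ⟨2, 1⟩, ⟨1, 0⟩, ⟨-2, 2⟩, ⟨-3, 0⟩⟩),
  W6 (2, ⟨⟨-2, -1⟩, ⟨1, 0⟩, ⟨-1, -2⟩, ⟨1, 0⟩, ⟨0, 0⟩, ⟨2, 1⟩, ⟨-1, 1⟩, ⟨0, 0⟩, ⟨-2, 0⟩⟩) (3, ⟨⟨-2, -1⟩, ⟨1, 0⟩, ⟨-1, -2⟩, ⟨1, 0⟩, ⟨0, 0⟩, ⟨2, 1⟩, ⟨-1, 1⟩, ⟨0, 0⟩, ⟨-2, 0⟩⟩) (0, ⟨⟨0, 0⟩, ⟨-1, -1⟩, ⟨-1, -2⟩, ⟨1, 0⟩, ⟨0, 3⟩, ⟨-1, 1⟩, ⟨0, 0⟩, ⟨2, 1⟩, ⟨2, 2⟩⟩) (1,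 ⟨⟨0, 0⟩, ⟨-1, -1⟩, ⟨-1, -2⟩, ⟨1, 0⟩, ⟨0, 3⟩, ⟨-1, 1⟩, ⟨0, 0⟩, ⟨2, 1⟩, ⟨2, 2⟩⟩) (4, ⟨⟨-2, -1⟩, ⟨-1, -1⟩, ⟨0, 0⟩, ⟨1, 0⟩, ⟨0, 0⟩, ⟨0, 0⟩, ⟨-1, -2⟩, ⟨2, -2⟩, ⟨1, 0⟩⟩) (5, ⟨⟨-2, -1⟩, ⟨-1, -1⟩, ⟨0, 0⟩, ⟨1, 0⟩, ⟨0, 0⟩, ⟨0, 0⟩, ⟨-1, -2⟩, ⟨2, -2⟩, ⟨1, 0⟩⟩),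
  W6 (3, ⟨⟨-2, -1⟩, ⟨1, 0⟩, ⟨-1, -2⟩, ⟨1, 0⟩, ⟨0, 0⟩, ⟨2, 1⟩, ⟨-1, 1⟩, ⟨0, 0⟩, ⟨-2, 0⟩⟩) (2, ⟨⟨-3, -3⟩, ⟨1, 0⟩, ⟨-2, -4⟩, ⟨0, -2⟩, ⟨0, 0⟩, ⟨1, -1⟩, ⟨1, 2⟩, ⟨0, 0⟩, ⟨0, 1⟩⟩) (1, ⟨⟨0, 0⟩, ⟨-1, -1⟩, ⟨-1, -2⟩, ⟨1, 0⟩, ⟨0, 3⟩, ⟨-1, 1⟩, ⟨0, 0⟩, ⟨2, 1⟩, ⟨2, 2⟩⟩) (0, ⟨⟨0, 0⟩, ⟨-2, 0⟩, ⟨-2, -1⟩, ⟨1, 0⟩, ⟨-1, 1⟩, ⟨-2, -1⟩, ⟨0, 0⟩, ⟨1, -1⟩, ⟨1, 0⟩⟩) (5, ⟨⟨-2, -1⟩, ⟨-1, -1⟩, ⟨0, 0⟩, ⟨1, 0⟩, ⟨0, 0⟩, ⟨0, 0⟩, ⟨-1, -2⟩, ⟨2, -2⟩, ⟨1, 0⟩⟩)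 (4, ⟨⟨0, 0⟩, ⟨1, 0⟩, ⟨0, 0⟩, ⟨0, 1⟩, ⟨-1, 1⟩, ⟨0, 0⟩, ⟨-2, -4⟩, ⟨1, -4⟩, ⟨1, 0⟩⟩),
  W6 (2, ⟨⟨-3, -3⟩, ⟨1, 0⟩, ⟨-2, -4⟩, ⟨0, -2⟩, ⟨0, 0⟩, ⟨1, -1⟩, ⟨1, 2⟩, ⟨0, 0⟩, ⟨0, 1⟩⟩) (3, ⟨⟨-3, -3⟩, ⟨1, 0⟩, ⟨-2, -4⟩, ⟨0, -2⟩, ⟨0, 0⟩, ⟨1, -1⟩, ⟨1, 2⟩, ⟨0, 0⟩, ⟨0, 1⟩⟩) (0, ⟨⟨0, 0⟩, ⟨-2, 0⟩, ⟨-2, -1⟩, ⟨1, 0⟩, ⟨-1, 1⟩, ⟨-2, -1⟩, ⟨0, 0⟩, ⟨1, -1⟩, ⟨1, 0⟩⟩) (1, ⟨⟨0, 0⟩, ⟨-2, 0⟩, ⟨-2, -1⟩, ⟨1, 0⟩, ⟨-1, 1⟩, ⟨-2, -1⟩, ⟨0, 0⟩, ⟨1, -1⟩, ⟨1, 0⟩⟩)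 (4, ⟨⟨0, 0⟩, ⟨1, 0⟩, ⟨0, 0⟩, ⟨0, 1⟩, ⟨-1, 1⟩, ⟨0, 0⟩, ⟨-2, -4⟩, ⟨1, -4⟩, ⟨1, 0⟩⟩) (5, ⟨⟨0, 0⟩, ⟨1, 0⟩, ⟨0, 0⟩, ⟨0, 1⟩, ⟨-1, 1⟩, ⟨0, 0⟩, ⟨-2, -4⟩, ⟨1, -4⟩, ⟨1, 0⟩⟩),
  W6 (4, ⟨⟨1, -1⟩, ⟨1, -1⟩, ⟨1, 0⟩, ⟨1, -1⟩, ⟨1, 0⟩, ⟨0, 0⟩, ⟨0, 1⟩, ⟨0, 0⟩, ⟨0, 0⟩⟩) (5, ⟨⟨1, -1⟩, ⟨1, -1⟩, ⟨1, 0⟩, ⟨1, -1⟩, ⟨1, 0⟩, ⟨0, 0⟩, ⟨0, 1⟩, ⟨0, 0⟩, ⟨0, 0⟩⟩) (2, ⟨⟨-2, -1⟩, ⟨0, 0⟩, ⟨-1, -1⟩, ⟨1, -1⟩, ⟨1, 0⟩, ⟨0, 0⟩, ⟨1, 0⟩, ⟨0, 0⟩, ⟨0, 0⟩⟩) (3, ⟨⟨-2,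 -1⟩, ⟨0, 0⟩, ⟨-1, -1⟩, ⟨1, -1⟩, ⟨1, 0⟩, ⟨0, 0⟩, ⟨1, 0⟩, ⟨0, 0⟩, ⟨0, 0⟩⟩) (0, ⟨⟨0, 0⟩, ⟨1, 2⟩, ⟨0, 1⟩, ⟨0, 0⟩, ⟨-1, -1⟩, ⟨0, 0⟩, ⟨1, 0⟩, ⟨0, 0⟩, ⟨0, 0⟩⟩) (1, ⟨⟨0, 0⟩, ⟨1, 2⟩, ⟨0, 1⟩, ⟨0, 0⟩, ⟨-1, -1⟩, ⟨0, 0⟩, ⟨1, 0⟩, ⟨0, 0⟩, ⟨0, 0⟩⟩),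
  W6 (5, ⟨⟨1, -1⟩, ⟨1, -1⟩, ⟨1, 0⟩, ⟨1, -1⟩, ⟨1, 0⟩, ⟨0, 0⟩, ⟨0, 1⟩, ⟨0, 0⟩, ⟨0, 0⟩⟩) (4, ⟨⟨0, 0⟩, ⟨0, 0⟩, ⟨1, 0⟩, ⟨0, 0⟩, ⟨0, 1⟩, ⟨0, 0⟩, ⟨-1, -1⟩, ⟨-1, -2⟩, ⟨0, 0⟩⟩) (3, ⟨⟨-2, -1⟩, ⟨0, 0⟩, ⟨-1, -1⟩, ⟨1, -1⟩, ⟨1, 0⟩, ⟨0, 0⟩, ⟨1, 0⟩, ⟨0, 0⟩, ⟨0, 0⟩⟩) (2, ⟨⟨0, 0⟩, ⟨0, 0⟩, ⟨1, 0⟩, ⟨0, 0⟩, ⟨1, 0⟩, ⟨-1, 1⟩, ⟨0, 1⟩, ⟨0, 0⟩, ⟨-1, 1⟩⟩) (1, ⟨⟨0, 0⟩, ⟨1, 2⟩, ⟨0, 1⟩, ⟨0, 0⟩, ⟨-1, -1⟩, ⟨0, 0⟩, ⟨1, 0⟩, ⟨0, 0⟩, ⟨0, 0⟩⟩) (0, ⟨⟨0, 0⟩,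 ⟨0, 0⟩, ⟨-1, -1⟩, ⟨0, 0⟩, ⟨1, 0⟩, ⟨2, 1⟩, ⟨1, 0⟩, ⟨-1, 1⟩, ⟨-1, 1⟩⟩),
  W6 (4, ⟨⟨0, 0⟩, ⟨0, 0⟩, ⟨1, 0⟩, ⟨0, 0⟩, ⟨0, 1⟩, ⟨0, 0⟩, ⟨-1, -1⟩, ⟨-1, -2⟩, ⟨0, 0⟩⟩) (5, ⟨⟨0, 0⟩, ⟨0, 0⟩, ⟨1, 0⟩, ⟨0, 0⟩, ⟨0, 1⟩, ⟨0, 0⟩, ⟨-1, -1⟩, ⟨-1, -2⟩, ⟨0, 0⟩⟩) (2, ⟨⟨0, 0⟩, ⟨0, 0⟩, ⟨1, 0⟩, ⟨0, 0⟩, ⟨1, 0⟩, ⟨-1, 1⟩, ⟨0, 1⟩, ⟨0, 0⟩, ⟨-1, 1⟩⟩) (3, ⟨⟨0, 0⟩, ⟨0, 0⟩, ⟨1, 0⟩, ⟨0, 0⟩, ⟨1, 0⟩, ⟨-1, 1⟩, ⟨0, 1⟩, ⟨0, 0⟩, ⟨-1, 1⟩⟩) (0, ⟨⟨0, 0⟩, ⟨0, 0⟩, ⟨-1,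 -1⟩, ⟨0, 0⟩, ⟨1, 0⟩, ⟨2, 1⟩, ⟨1, 0⟩, ⟨-1, 1⟩, ⟨-1, 1⟩⟩) (1, ⟨⟨0, 0⟩, ⟨0, 0⟩, ⟨-1, -1⟩, ⟨0, 0⟩, ⟨1, 0⟩, ⟨2, 1⟩, ⟨1, 0⟩, ⟨-1, 1⟩, ⟨-1, 1⟩⟩),
  W6 (2, ⟨⟨-2, -1⟩, ⟨1, 0⟩, ⟨-2, -1⟩, ⟨-1, -1⟩, ⟨0, 0⟩, ⟨0, 0⟩, ⟨0, 0⟩, ⟨0, 0⟩, ⟨-1, -1⟩⟩) (3, ⟨⟨-2, -1⟩, ⟨1, 0⟩, ⟨-2, -1⟩, ⟨-1, -1⟩, ⟨0, 0⟩, ⟨0, 0⟩, ⟨0, 0⟩, ⟨0, 0⟩, ⟨-1, -1⟩⟩) (0, ⟨⟨0, 0⟩, ⟨-2, 0⟩, ⟨-2, -1⟩, ⟨1, 0⟩, ⟨0, 0⟩, ⟨0, 0⟩, ⟨0, 0⟩, ⟨1, -1⟩, ⟨1, 0⟩⟩) (1, ⟨⟨0, 0⟩, ⟨-2, 0⟩, ⟨-2,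 -1⟩, ⟨1, 0⟩, ⟨0, 0⟩, ⟨0, 0⟩, ⟨0, 0⟩, ⟨1, -1⟩, ⟨1, 0⟩⟩) (4, ⟨⟨-2, -1⟩, ⟨-1, -1⟩, ⟨0, 0⟩, ⟨1, 0⟩, ⟨0, 0⟩, ⟨0, 0⟩, ⟨0, 0⟩, ⟨1, -1⟩, ⟨1, 0⟩⟩) (5, ⟨⟨-2, -1⟩, ⟨-1, -1⟩, ⟨0, 0⟩, ⟨1, 0⟩, ⟨0, 0⟩, ⟨0, 0⟩, ⟨0, 0⟩, ⟨1, -1⟩, ⟨1, 0⟩⟩),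
  W6 (3, ⟨⟨-2, -1⟩, ⟨1, 0⟩, ⟨-2, -1⟩, ⟨-1, -1⟩, ⟨0, 0⟩, ⟨0, 0⟩, ⟨0, 0⟩, ⟨0, 0⟩, ⟨-1, -1⟩⟩) (2, ⟨⟨0, 0⟩, ⟨1, 0⟩, ⟨0, 0⟩, ⟨1, 0⟩, ⟨0, 0⟩, ⟨2, 1⟩, ⟨-1, 1⟩, ⟨0, 0⟩, ⟨-2, 0⟩⟩) (1, ⟨⟨0, 0⟩, ⟨-2, 0⟩, ⟨-2, -1⟩, ⟨1, 0⟩, ⟨0, 0⟩, ⟨0, 0⟩, ⟨0, 0⟩, ⟨1, -1⟩, ⟨1, 0⟩⟩) (0, ⟨⟨0, 0⟩, ⟨0, 1⟩, ⟨0, 0⟩, ⟨1, 0⟩, ⟨-1, 1⟩, ⟨-1, 1⟩, ⟨0, 0⟩, ⟨0, 0⟩, ⟨0, 1⟩⟩) (5, ⟨⟨-2, -1⟩, ⟨-1, -1⟩, ⟨0, 0⟩, ⟨1, 0⟩, ⟨0, 0⟩, ⟨0, 0⟩, ⟨0, 0⟩, ⟨1, -1⟩, ⟨1, 0⟩⟩) (4, ⟨⟨0,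 0⟩, ⟨1, 0⟩, ⟨0, 0⟩, ⟨0, 1⟩, ⟨-1, 1⟩, ⟨0, 0⟩, ⟨-1, -2⟩, ⟨0, -3⟩, ⟨1, 0⟩⟩),
  W6 (2, ⟨⟨0, 0⟩, ⟨1, 0⟩, ⟨0, 0⟩, ⟨1, 0⟩, ⟨0, 0⟩, ⟨2, 1⟩, ⟨-1, 1⟩, ⟨0, 0⟩, ⟨-2, 0⟩⟩) (3, ⟨⟨0, 0⟩, ⟨1, 0⟩, ⟨0, 0⟩, ⟨1, 0⟩, ⟨0, 0⟩, ⟨2, 1⟩, ⟨-1, 1⟩, ⟨0, 0⟩, ⟨-2, 0⟩⟩) (0, ⟨⟨0, 0⟩, ⟨0, 1⟩, ⟨0, 0⟩, ⟨1, 0⟩, ⟨-1, 1⟩, ⟨-1, 1⟩, ⟨0, 0⟩, ⟨0, 0⟩, ⟨0, 1⟩⟩) (1, ⟨⟨0, 0⟩, ⟨0, 1⟩, ⟨0, 0⟩, ⟨1, 0⟩, ⟨-1, 1⟩, ⟨-1, 1⟩, ⟨0, 0⟩, ⟨0, 0⟩, ⟨0, 1⟩⟩) (4, ⟨⟨0, 0⟩, ⟨1, 0⟩, ⟨0,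 0⟩, ⟨0, 1⟩, ⟨-1, 1⟩, ⟨0, 0⟩, ⟨-1, -2⟩, ⟨0, -3⟩, ⟨1, 0⟩⟩) (5, ⟨⟨0, 0⟩, ⟨1, 0⟩, ⟨0, 0⟩, ⟨0, 1⟩, ⟨-1, 1⟩, ⟨0, 0⟩, ⟨-1, -2⟩, ⟨0, -3⟩, ⟨1, 0⟩⟩),
  W6 (0, ⟨⟨1, 0⟩, ⟨-2, 2⟩, ⟨-3, 0⟩, ⟨0, 0⟩, ⟨-2, -1⟩, ⟨-1, -1⟩, ⟨0, 0⟩, ⟨1, 0⟩, ⟨0, 0⟩⟩) (1, ⟨⟨1, 0⟩, ⟨-2, 2⟩, ⟨-3, 0⟩, ⟨0, 0⟩, ⟨-2, -1⟩, ⟨-1, -1⟩, ⟨0, 0⟩, ⟨1, 0⟩, ⟨0, 0⟩⟩) (4, ⟨⟨0, -2⟩, ⟨1, -1⟩, ⟨0, 0⟩, ⟨0, 0⟩, ⟨1, -1⟩, ⟨1, 0⟩, ⟨1, 2⟩, ⟨0, 1⟩, ⟨0, 0⟩⟩) (5, ⟨⟨0, -2⟩, ⟨1, -1⟩, ⟨0, 0⟩,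 ⟨0, 0⟩, ⟨1, -1⟩, ⟨1, 0⟩, ⟨1, 2⟩, ⟨0, 1⟩, ⟨0, 0⟩⟩) (2, ⟨⟨0, 1⟩, ⟨0, 0⟩, ⟨0, 0⟩, ⟨0, 0⟩, ⟨0, 0⟩, ⟨0, 1⟩, ⟨-2, -1⟩, ⟨1, 0⟩, ⟨-3, -3⟩⟩) (3, ⟨⟨0, 1⟩, ⟨0, 0⟩, ⟨0, 0⟩, ⟨0, 0⟩, ⟨0, 0⟩, ⟨0, 1⟩, ⟨-2, -1⟩, ⟨1, 0⟩, ⟨-3, -3⟩⟩),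
  W6 (1, ⟨⟨1, 0⟩, ⟨-2, 2⟩, ⟨-3, 0⟩, ⟨0, 0⟩, ⟨-2, -1⟩, ⟨-1, -1⟩, ⟨0, 0⟩, ⟨1, 0⟩, ⟨0, 0⟩⟩) (0, ⟨⟨1, 0⟩, ⟨0, 3⟩, ⟨-1, 1⟩, ⟨0, 0⟩, ⟨0, 0⟩, ⟨1, 0⟩, ⟨0, 0⟩, ⟨0, 1⟩, ⟨-1, 1⟩⟩) (5, ⟨⟨0, -2⟩, ⟨1, -1⟩, ⟨0, 0⟩, ⟨0, 0⟩, ⟨1, -1⟩, ⟨1, 0⟩, ⟨1, 2⟩, ⟨0, 1⟩, ⟨0, 0⟩⟩) (4, ⟨⟨-1, -1⟩, ⟨0, 0⟩, ⟨0, 0⟩, ⟨-1, -2⟩, ⟨0, -3⟩, ⟨1, 0⟩, ⟨0, 0⟩, ⟨-1, -1⟩, ⟨0, 0⟩⟩) (3, ⟨⟨0, 1⟩, ⟨0, 0⟩, ⟨0, 0⟩, ⟨0, 0⟩, ⟨0, 0⟩, ⟨0, 1⟩, ⟨-2, -1⟩, ⟨1, 0⟩, ⟨-3, -3⟩⟩) (2, ⟨⟨-1,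 -1⟩, ⟨0, 0⟩, ⟨-1, -2⟩, ⟨2, 1⟩, ⟨0, 0⟩, ⟨2, 2⟩, ⟨-3, 0⟩, ⟨1, 0⟩, ⟨-4, -2⟩⟩),
  W6 (0, ⟨⟨1, 0⟩, ⟨0, 3⟩, ⟨-1, 1⟩, ⟨0, 0⟩, ⟨0, 0⟩, ⟨1, 0⟩, ⟨0, 0⟩, ⟨0, 1⟩, ⟨-1, 1⟩⟩) (1, ⟨⟨1, 0⟩, ⟨0, 3⟩, ⟨-1, 1⟩, ⟨0, 0⟩, ⟨0, 0⟩, ⟨1, 0⟩, ⟨0, 0⟩, ⟨0, 1⟩, ⟨-1, 1⟩⟩) (4, ⟨⟨-1, -1⟩, ⟨0, 0⟩, ⟨0, 0⟩, ⟨-1, -2⟩, ⟨0, -3⟩, ⟨1, 0⟩, ⟨0, 0⟩, ⟨-1, -1⟩, ⟨0, 0⟩⟩) (5, ⟨⟨-1, -1⟩, ⟨0, 0⟩, ⟨0, 0⟩, ⟨-1, -2⟩, ⟨0, -3⟩, ⟨1, 0⟩, ⟨0, 0⟩, ⟨-1, -1⟩, ⟨0, 0⟩⟩) (2, ⟨⟨-1, -1⟩,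 ⟨0, 0⟩, ⟨-1, -2⟩, ⟨2, 1⟩, ⟨0, 0⟩, ⟨2, 2⟩, ⟨-3, 0⟩, ⟨1, 0⟩, ⟨-4, -2⟩⟩) (3, ⟨⟨-1, -1⟩, ⟨0, 0⟩, ⟨-1, -2⟩, ⟨2, 1⟩, ⟨0, 0⟩, ⟨2, 2⟩, ⟨-3, 0⟩, ⟨1, 0⟩, ⟨-4, -2⟩⟩)]

/-- the values for k = 4 -/
def rtab4 : List Wr := [
  W6 (4, ⟨⟨2, -2⟩, ⟨3, 0⟩, ⟨1, 0⟩, ⟨1, 0⟩, ⟨0, 0⟩, ⟨0, 0⟩, ⟨0, 0⟩, ⟨1, 0⟩, ⟨0, 0⟩⟩) (5, ⟨⟨2, -2⟩, ⟨3, 0⟩, ⟨1, 0⟩, ⟨1, 0⟩, ⟨0, 0⟩, ⟨0, 0⟩, ⟨0, 0⟩, ⟨1, 0⟩, ⟨0, 0⟩⟩) (0, ⟨⟨0, 0⟩, ⟨0, 0⟩, ⟨1, 0⟩, ⟨1, 0⟩, ⟨-3, 0⟩, ⟨-2,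 -1⟩, ⟨0, 0⟩, ⟨0, 1⟩, ⟨-1, 1⟩⟩) (1, ⟨⟨0, 0⟩, ⟨0, 0⟩, ⟨1, 0⟩, ⟨1, 0⟩, ⟨-3, 0⟩, ⟨-2, -1⟩, ⟨0, 0⟩, ⟨0, 1⟩, ⟨-1, 1⟩⟩) (2, ⟨⟨-1, -2⟩, ⟨0, 0⟩, ⟨0, -2⟩, ⟨2, 2⟩, ⟨0, 0⟩, ⟨1, 2⟩, ⟨-3, -3⟩, ⟨1, 0⟩, ⟨-1, -2⟩⟩) (3, ⟨⟨-1, -2⟩, ⟨0, 0⟩, ⟨0, -2⟩, ⟨2, 2⟩, ⟨0, 0⟩, ⟨1, 2⟩, ⟨-3, -3⟩, ⟨1, 0⟩, ⟨-1, -2⟩⟩),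
  W6 (5, ⟨⟨2, -2⟩, ⟨3, 0⟩, ⟨1, 0⟩, ⟨1, 0⟩, ⟨0, 0⟩, ⟨0, 0⟩, ⟨0, 0⟩, ⟨1, 0⟩, ⟨0, 0⟩⟩) (4, ⟨⟨1, -1⟩, ⟨2, 1⟩, ⟨1, 0⟩, ⟨0, 1⟩, ⟨-1, 1⟩, ⟨0, 0⟩, ⟨-1, -2⟩, ⟨0, -2⟩, ⟨0, 0⟩⟩) (1, ⟨⟨0, 0⟩, ⟨0, 0⟩, ⟨1, 0⟩, ⟨1, 0⟩, ⟨-3, 0⟩, ⟨-2, -1⟩, ⟨0, 0⟩, ⟨0, 1⟩, ⟨-1, 1⟩⟩) (0, ⟨⟨0, 0⟩, ⟨-1, -2⟩, ⟨0, -2⟩, ⟨1, 0⟩, ⟨-1, 1⟩, ⟨0, 0⟩, ⟨0, 0⟩, ⟨2, 2⟩, ⟨1, 2⟩⟩) (3, ⟨⟨-1, -2⟩, ⟨0, 0⟩, ⟨0, -2⟩, ⟨2, 2⟩, ⟨0, 0⟩, ⟨1, 2⟩, ⟨-3, -3⟩, ⟨1, 0⟩, ⟨-1, -2⟩⟩) (2, ⟨⟨-2,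 -1⟩, ⟨0, 0⟩, ⟨-1, -1⟩, ⟨1, 0⟩, ⟨0, 0⟩, ⟨0, 0⟩, ⟨-1, -2⟩, ⟨1, 0⟩, ⟨1, -1⟩⟩),
  W6 (4, ⟨⟨1, -1⟩, ⟨2, 1⟩, ⟨1, 0⟩, ⟨0, 1⟩, ⟨-1, 1⟩, ⟨0, 0⟩, ⟨-1, -2⟩, ⟨0, -2⟩, ⟨0, 0⟩⟩) (5, ⟨⟨1, -1⟩, ⟨2, 1⟩, ⟨1, 0⟩, ⟨0, 1⟩, ⟨-1, 1⟩, ⟨0, 0⟩, ⟨-1, -2⟩, ⟨0, -2⟩, ⟨0, 0⟩⟩) (0, ⟨⟨0, 0⟩, ⟨-1, -2⟩, ⟨0, -2⟩, ⟨1, 0⟩, ⟨-1, 1⟩, ⟨0, 0⟩, ⟨0, 0⟩, ⟨2, 2⟩, ⟨1, 2⟩⟩) (1, ⟨⟨0, 0⟩, ⟨-1, -2⟩, ⟨0, -2⟩, ⟨1, 0⟩, ⟨-1, 1⟩, ⟨0, 0⟩, ⟨0, 0⟩, ⟨2, 2⟩, ⟨1, 2⟩⟩) (2, ⟨⟨-2, -1⟩,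 ⟨0, 0⟩, ⟨-1, -1⟩, ⟨1, 0⟩, ⟨0, 0⟩, ⟨0, 0⟩, ⟨-1, -2⟩, ⟨1, 0⟩, ⟨1, -1⟩⟩) (3, ⟨⟨-2, -1⟩, ⟨0, 0⟩, ⟨-1, -1⟩, ⟨1, 0⟩, ⟨0, 0⟩, ⟨0, 0⟩, ⟨-1, -2⟩, ⟨1, 0⟩, ⟨1, -1⟩⟩),
  W6 (2, ⟨⟨-1, -2⟩, ⟨1, 0⟩, ⟨1, -1⟩, ⟨2, 1⟩, ⟨0, 0⟩, ⟨2, 2⟩, ⟨-2, 0⟩, ⟨0, 0⟩, ⟨-2, -1⟩⟩) (3, ⟨⟨-1, -2⟩, ⟨1, 0⟩, ⟨1, -1⟩, ⟨2, 1⟩, ⟨0, 0⟩, ⟨2, 2⟩, ⟨-2, 0⟩, ⟨0, 0⟩, ⟨-2, -1⟩⟩) (4, ⟨⟨2, 1⟩, ⟨2, 2⟩, ⟨0, 0⟩, ⟨-1, -2⟩, ⟨1, -1⟩, ⟨1, 0⟩, ⟨-2, 0⟩, ⟨-2, -1⟩, ⟨0, 0⟩⟩) (5, ⟨⟨2,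 1⟩, ⟨2, 2⟩, ⟨0, 0⟩, ⟨-1, -2⟩, ⟨1, -1⟩, ⟨1, 0⟩, ⟨-2, 0⟩, ⟨-2, -1⟩, ⟨0, 0⟩⟩) (0, ⟨⟨0, 0⟩, ⟨-2, 0⟩, ⟨-2, -1⟩, ⟨0, 0⟩, ⟨1, -1⟩, ⟨1, 0⟩, ⟨1, 0⟩, ⟨-2, 2⟩, ⟨-2, -1⟩⟩) (1, ⟨⟨0, 0⟩, ⟨-2, 0⟩, ⟨-2, -1⟩, ⟨0, 0⟩, ⟨1, -1⟩, ⟨1, 0⟩, ⟨1, 0⟩, ⟨-2, 2⟩, ⟨-2, -1⟩⟩),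
  W6 (3, ⟨⟨-1, -2⟩, ⟨1, 0⟩, ⟨1, -1⟩, ⟨2, 1⟩, ⟨0, 0⟩, ⟨2, 2⟩, ⟨-2, 0⟩, ⟨0, 0⟩, ⟨-2, -1⟩⟩) (2, ⟨⟨-2, -4⟩, ⟨1, 0⟩, ⟨0, -3⟩, ⟨1, -1⟩, ⟨0, 0⟩, ⟨1, 0⟩, ⟨0, 1⟩, ⟨0, 0⟩, ⟨0, 0⟩⟩) (5, ⟨⟨2, 1⟩, ⟨2, 2⟩, ⟨0, 0⟩, ⟨-1, -2⟩, ⟨1, -1⟩, ⟨1, 0⟩, ⟨-2, 0⟩, ⟨-2, -1⟩, ⟨0, 0⟩⟩) (4, ⟨⟨1, -1⟩, ⟨1, 0⟩, ⟨0, 0⟩, ⟨1, -1⟩, ⟨3, 0⟩, ⟨1, 0⟩, ⟨0, 1⟩, ⟨0, 0⟩, ⟨0, 0⟩⟩) (1, ⟨⟨0, 0⟩, ⟨-2, 0⟩, ⟨-2, -1⟩, ⟨0, 0⟩, ⟨1, -1⟩, ⟨1, 0⟩, ⟨1, 0⟩, ⟨-2, 2⟩, ⟨-2, -1⟩⟩) (0,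 ⟨⟨0, 0⟩, ⟨0, 1⟩, ⟨0, 0⟩, ⟨0, 0⟩, ⟨0, 0⟩, ⟨0, 1⟩, ⟨1, 0⟩, ⟨-3, 0⟩, ⟨-3, -3⟩⟩),
  W6 (2, ⟨⟨-2, -4⟩, ⟨1, 0⟩, ⟨0, -3⟩, ⟨1, -1⟩, ⟨0, 0⟩, ⟨1, 0⟩, ⟨0, 1⟩, ⟨0, 0⟩, ⟨0, 0⟩⟩) (3, ⟨⟨-2, -4⟩, ⟨1, 0⟩, ⟨0, -3⟩, ⟨1, -1⟩, ⟨0, 0⟩, ⟨1, 0⟩, ⟨0, 1⟩, ⟨0, 0⟩, ⟨0, 0⟩⟩) (4, ⟨⟨1, -1⟩, ⟨1, 0⟩, ⟨0, 0⟩, ⟨1, -1⟩, ⟨3, 0⟩, ⟨1, 0⟩, ⟨0, 1⟩, ⟨0, 0⟩, ⟨0, 0⟩⟩) (5, ⟨⟨1, -1⟩, ⟨1, 0⟩, ⟨0, 0⟩, ⟨1, -1⟩, ⟨3, 0⟩, ⟨1, 0⟩, ⟨0, 1⟩, ⟨0, 0⟩, ⟨0, 0⟩⟩) (0, ⟨⟨0, 0⟩, ⟨0,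 1⟩, ⟨0, 0⟩, ⟨0, 0⟩, ⟨0, 0⟩, ⟨0, 1⟩, ⟨1, 0⟩, ⟨-3, 0⟩, ⟨-3, -3⟩⟩) (1, ⟨⟨0, 0⟩, ⟨0, 1⟩, ⟨0, 0⟩, ⟨0, 0⟩, ⟨0, 0⟩, ⟨0, 1⟩, ⟨1, 0⟩, ⟨-3, 0⟩, ⟨-3, -3⟩⟩),
  W6 (0, ⟨⟨1, 0⟩, ⟨-3, 0⟩, ⟨-3, -3⟩, ⟨0, 0⟩, ⟨0, -2⟩, ⟨1, -1⟩, ⟨0, 0⟩, ⟨1, 2⟩, ⟨0, 1⟩⟩) (1, ⟨⟨1, 0⟩, ⟨-3, 0⟩, ⟨-3, -3⟩, ⟨0, 0⟩, ⟨0, -2⟩, ⟨1, -1⟩, ⟨0, 0⟩, ⟨1, 2⟩, ⟨0, 1⟩⟩) (2, ⟨⟨-1, -1⟩, ⟨0, 0⟩, ⟨0, 0⟩, ⟨-3, -3⟩, ⟨1, 0⟩, ⟨-2, -4⟩, ⟨0, 0⟩, ⟨0, 0⟩, ⟨-1, -1⟩⟩) (3, ⟨⟨-1, -1⟩, ⟨0,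 0⟩, ⟨0, 0⟩, ⟨-3, -3⟩, ⟨1, 0⟩, ⟨-2, -4⟩, ⟨0, 0⟩, ⟨0, 0⟩, ⟨-1, -1⟩⟩) (4, ⟨⟨-1, -1⟩, ⟨0, 0⟩, ⟨0, 0⟩, ⟨0, 0⟩, ⟨-1, -1⟩, ⟨0, 0⟩, ⟨0, -3⟩, ⟨4, -1⟩, ⟨1, 0⟩⟩) (5, ⟨⟨-1, -1⟩, ⟨0, 0⟩, ⟨0, 0⟩, ⟨0, 0⟩, ⟨-1, -1⟩, ⟨0, 0⟩, ⟨0, -3⟩, ⟨4, -1⟩, ⟨1, 0⟩⟩),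
  W6 (1, ⟨⟨1, 0⟩, ⟨-3, 0⟩, ⟨-3, -3⟩, ⟨0, 0⟩, ⟨0, -2⟩, ⟨1, -1⟩, ⟨0, 0⟩, ⟨1, 2⟩, ⟨0, 1⟩⟩) (0, ⟨⟨1, 0⟩, ⟨-4, 1⟩, ⟨-4, -2⟩, ⟨0, 0⟩, ⟨-1, -1⟩, ⟨0, 0⟩, ⟨0, 0⟩, ⟨0, 0⟩, ⟨-1, -1⟩⟩) (3, ⟨⟨-1, -1⟩, ⟨0, 0⟩, ⟨0, 0⟩, ⟨-3, -3⟩, ⟨1, 0⟩, ⟨-2, -4⟩, ⟨0, 0⟩, ⟨0, 0⟩, ⟨-1, -1⟩⟩) (2, ⟨⟨1, 0⟩, ⟨0, 0⟩, ⟨2, 1⟩, ⟨-4, -2⟩, ⟨1, 0⟩, ⟨-3, -3⟩, ⟨-1, 1⟩, ⟨0, 0⟩, ⟨-2, 0⟩⟩) (5, ⟨⟨-1, -1⟩, ⟨0, 0⟩, ⟨0, 0⟩, ⟨0, 0⟩, ⟨-1, -1⟩, ⟨0, 0⟩, ⟨0, -3⟩, ⟨4, -1⟩, ⟨1,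 0⟩⟩) (4, ⟨⟨1, 0⟩, ⟨2, 1⟩, ⟨0, 0⟩, ⟨-1, 1⟩, ⟨-2, 0⟩, ⟨0, 0⟩, ⟨-1, -5⟩, ⟨3, -3⟩, ⟨1, 0⟩⟩),
  W6 (0, ⟨⟨1, 0⟩, ⟨-4, 1⟩, ⟨-4, -2⟩, ⟨0, 0⟩, ⟨-1, -1⟩, ⟨0, 0⟩, ⟨0, 0⟩, ⟨0, 0⟩, ⟨-1, -1⟩⟩) (1, ⟨⟨1, 0⟩, ⟨-4, 1⟩, ⟨-4, -2⟩, ⟨0, 0⟩, ⟨-1, -1⟩, ⟨0, 0⟩, ⟨0, 0⟩, ⟨0, 0⟩, ⟨-1, -1⟩⟩) (2, ⟨⟨1, 0⟩, ⟨0, 0⟩, ⟨2, 1⟩, ⟨-4, -2⟩, ⟨1, 0⟩, ⟨-3, -3⟩, ⟨-1, 1⟩, ⟨0, 0⟩, ⟨-2, 0⟩⟩) (3, ⟨⟨1, 0⟩, ⟨0, 0⟩, ⟨2, 1⟩, ⟨-4, -2⟩, ⟨1, 0⟩, ⟨-3, -3⟩, ⟨-1, 1⟩, ⟨0, 0⟩,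 ⟨-2, 0⟩⟩) (4, ⟨⟨1, 0⟩, ⟨2, 1⟩, ⟨0, 0⟩, ⟨-1, 1⟩, ⟨-2, 0⟩, ⟨0, 0⟩, ⟨-1, -5⟩, ⟨3, -3⟩, ⟨1, 0⟩⟩) (5, ⟨⟨1, 0⟩, ⟨2, 1⟩, ⟨0, 0⟩, ⟨-1, 1⟩, ⟨-2, 0⟩, ⟨0, 0⟩, ⟨-1, -5⟩, ⟨3, -3⟩, ⟨1, 0⟩⟩),
  W6 (2, ⟨⟨0, -3⟩, ⟨1, 0⟩, ⟨1, -1⟩, ⟨1, -1⟩, ⟨0, 0⟩, ⟨1, 0⟩, ⟨0, 1⟩, ⟨0, 0⟩, ⟨0, 0⟩⟩) (3, ⟨⟨0, -3⟩, ⟨1, 0⟩, ⟨1, -1⟩, ⟨1, -1⟩, ⟨0, 0⟩, ⟨1, 0⟩, ⟨0, 1⟩, ⟨0, 0⟩, ⟨0, 0⟩⟩) (4, ⟨⟨0, 0⟩, ⟨0, 1⟩, ⟨0, 0⟩, ⟨1, -1⟩, ⟨1, -1⟩, ⟨1, 0⟩, ⟨-1, -1⟩, ⟨-1, -2⟩, ⟨0,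 0⟩⟩) (5, ⟨⟨0, 0⟩, ⟨0, 1⟩, ⟨0, 0⟩, ⟨1, -1⟩, ⟨1, -1⟩, ⟨1, 0⟩, ⟨-1, -1⟩, ⟨-1, -2⟩, ⟨0, 0⟩⟩) (0, ⟨⟨0, 0⟩, ⟨-2, 0⟩, ⟨-2, -1⟩, ⟨0, 0⟩, ⟨1, -1⟩, ⟨1, 0⟩, ⟨1, 0⟩, ⟨-1, 1⟩, ⟨0, 0⟩⟩) (1, ⟨⟨0, 0⟩, ⟨-2, 0⟩, ⟨-2, -1⟩, ⟨0, 0⟩, ⟨1, -1⟩, ⟨1, 0⟩, ⟨1, 0⟩, ⟨-1, 1⟩, ⟨0, 0⟩⟩),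
  W6 (3, ⟨⟨0, -3⟩, ⟨1, 0⟩, ⟨1, -1⟩, ⟨1, -1⟩, ⟨0, 0⟩, ⟨1, 0⟩, ⟨0, 1⟩, ⟨0, 0⟩, ⟨0, 0⟩⟩) (2, ⟨⟨-1, -2⟩, ⟨1, 0⟩, ⟨0, 0⟩, ⟨0, 0⟩, ⟨0, 0⟩, ⟨0, 1⟩, ⟨-1, -1⟩, ⟨0, 0⟩, ⟨-1, -2⟩⟩) (5, ⟨⟨0, 0⟩, ⟨0, 1⟩, ⟨0, 0⟩, ⟨1, -1⟩, ⟨1, -1⟩, ⟨1, 0⟩, ⟨-1, -1⟩, ⟨-1, -2⟩, ⟨0, 0⟩⟩) (4, ⟨⟨2, 1⟩, ⟨2, 2⟩, ⟨0, 0⟩, ⟨0, 0⟩, ⟨0, 0⟩, ⟨1, 0⟩, ⟨-2, 0⟩, ⟨-2, -1⟩, ⟨0, 0⟩⟩) (1, ⟨⟨0, 0⟩, ⟨-2, 0⟩, ⟨-2, -1⟩, ⟨0, 0⟩, ⟨1, -1⟩, ⟨1, 0⟩, ⟨1, 0⟩, ⟨-1, 1⟩, ⟨0, 0⟩⟩) (0,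 ⟨⟨0, 0⟩, ⟨0, 1⟩, ⟨0, 0⟩, ⟨0, 0⟩, ⟨0, 0⟩, ⟨0, 1⟩, ⟨1, 0⟩, ⟨-2, -1⟩, ⟨-1, -2⟩⟩),
  W6 (2, ⟨⟨-1, -2⟩, ⟨1, 0⟩, ⟨0, 0⟩, ⟨0, 0⟩, ⟨0, 0⟩, ⟨0, 1⟩, ⟨-1, -1⟩, ⟨0, 0⟩, ⟨-1, -2⟩⟩) (3, ⟨⟨-1, -2⟩, ⟨1, 0⟩, ⟨0, 0⟩, ⟨0, 0⟩, ⟨0, 0⟩, ⟨0, 1⟩, ⟨-1, -1⟩, ⟨0, 0⟩, ⟨-1, -2⟩⟩) (4, ⟨⟨2, 1⟩, ⟨2, 2⟩, ⟨0, 0⟩, ⟨0, 0⟩, ⟨0, 0⟩, ⟨1, 0⟩, ⟨-2, 0⟩, ⟨-2, -1⟩, ⟨0, 0⟩⟩) (5, ⟨⟨2, 1⟩, ⟨2, 2⟩, ⟨0, 0⟩, ⟨0, 0⟩, ⟨0, 0⟩, ⟨1, 0⟩, ⟨-2, 0⟩, ⟨-2, -1⟩, ⟨0, 0⟩⟩) (0, ⟨⟨0,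 0⟩, ⟨0, 1⟩, ⟨0, 0⟩, ⟨0, 0⟩, ⟨0, 0⟩, ⟨0, 1⟩, ⟨1, 0⟩, ⟨-2, -1⟩, ⟨-1, -2⟩⟩) (1, ⟨⟨0, 0⟩, ⟨0, 1⟩, ⟨0, 0⟩, ⟨0, 0⟩, ⟨0, 0⟩, ⟨0, 1⟩, ⟨1, 0⟩, ⟨-2, -1⟩, ⟨-1, -2⟩⟩),
  W6 (1, ⟨⟨1, 0⟩, ⟨-2, -1⟩, ⟨-1, -2⟩, ⟨0, 0⟩, ⟨0, -2⟩, ⟨1, -1⟩, ⟨0, 0⟩, ⟨1, 2⟩, ⟨0, 1⟩⟩) (0, ⟨⟨1, 0⟩, ⟨-3, 0⟩, ⟨-2, -1⟩, ⟨0, 0⟩, ⟨-1, -1⟩, ⟨0, 0⟩, ⟨0, 0⟩, ⟨0, 0⟩, ⟨-1, -1⟩⟩) (3, ⟨⟨1, 0⟩, ⟨0, 0⟩, ⟨2, 1⟩, ⟨-2, -1⟩, ⟨1, 0⟩, ⟨-2, -1⟩, ⟨-1, 1⟩, ⟨0, 0⟩, ⟨-2, 0⟩⟩) (2, ⟨⟨0,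 -2⟩, ⟨0, 0⟩, ⟨1, -1⟩, ⟨0, 0⟩, ⟨1, 0⟩, ⟨0, 0⟩, ⟨1, 2⟩, ⟨0, 0⟩, ⟨0, 1⟩⟩) (5, ⟨⟨0, -2⟩, ⟨1, -1⟩, ⟨0, 0⟩, ⟨1, 2⟩, ⟨0, 1⟩, ⟨0, 0⟩, ⟨-1, -2⟩, ⟨1, -1⟩, ⟨1, 0⟩⟩) (4, ⟨⟨-1, -1⟩, ⟨0, 0⟩, ⟨0, 0⟩, ⟨0, 0⟩, ⟨-1, -1⟩, ⟨0, 0⟩, ⟨1, -1⟩, ⟨3, 0⟩, ⟨1, 0⟩⟩),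
  W6 (0, ⟨⟨1, 0⟩, ⟨-3, 0⟩, ⟨-2, -1⟩, ⟨0, 0⟩, ⟨-1, -1⟩, ⟨0, 0⟩, ⟨0, 0⟩, ⟨0, 0⟩, ⟨-1, -1⟩⟩) (1, ⟨⟨1, 0⟩, ⟨-3, 0⟩, ⟨-2, -1⟩, ⟨0, 0⟩, ⟨-1, -1⟩, ⟨0, 0⟩, ⟨0, 0⟩, ⟨0, 0⟩, ⟨-1, -1⟩⟩) (2, ⟨⟨0, -2⟩, ⟨0, 0⟩, ⟨1, -1⟩, ⟨0, 0⟩, ⟨1, 0⟩, ⟨0, 0⟩, ⟨1, 2⟩, ⟨0, 0⟩, ⟨0, 1⟩⟩) (3, ⟨⟨0, -2⟩, ⟨0, 0⟩, ⟨1, -1⟩, ⟨0, 0⟩, ⟨1, 0⟩, ⟨0, 0⟩, ⟨1, 2⟩, ⟨0, 0⟩, ⟨0, 1⟩⟩) (4, ⟨⟨-1, -1⟩, ⟨0, 0⟩, ⟨0, 0⟩, ⟨0, 0⟩, ⟨-1, -1⟩, ⟨0, 0⟩, ⟨1, -1⟩, ⟨3, 0⟩, ⟨1, 0⟩⟩) (5,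 ⟨⟨-1, -1⟩, ⟨0, 0⟩, ⟨0, 0⟩, ⟨0, 0⟩, ⟨-1, -1⟩, ⟨0, 0⟩, ⟨1, -1⟩, ⟨3, 0⟩, ⟨1, 0⟩⟩),
  W6 (1, ⟨⟨1, 0⟩, ⟨-3, 0⟩, ⟨-2, -1⟩, ⟨0, 0⟩, ⟨-1, -1⟩, ⟨0, 0⟩, ⟨0, 0⟩, ⟨0, 0⟩, ⟨-1, -1⟩⟩) (0, ⟨⟨1, 0⟩, ⟨-1, 1⟩, ⟨0, 0⟩, ⟨0, 0⟩, ⟨1, 0⟩, ⟨2, 1⟩, ⟨0, 0⟩, ⟨-1, 1⟩, ⟨-2, 0⟩⟩) (3, ⟨⟨0, -2⟩, ⟨0, 0⟩, ⟨1, -1⟩, ⟨0, 0⟩, ⟨1, 0⟩, ⟨0, 0⟩, ⟨1, 2⟩, ⟨0, 0⟩, ⟨0, 1⟩⟩) (2, ⟨⟨-1, -1⟩, ⟨0, 0⟩, ⟨0, 0⟩, ⟨-1, -2⟩, ⟨1, 0⟩, ⟨-1, -2⟩, ⟨0, 0⟩, ⟨0, 0⟩, ⟨-1, -1⟩⟩) (5, ⟨⟨-1,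 -1⟩, ⟨0, 0⟩, ⟨0, 0⟩, ⟨0, 0⟩, ⟨-1, -1⟩, ⟨0, 0⟩, ⟨1, -1⟩, ⟨3, 0⟩, ⟨1, 0⟩⟩) (4, ⟨⟨1, 0⟩, ⟨2, 1⟩, ⟨0, 0⟩, ⟨-1, 1⟩, ⟨-2, 0⟩, ⟨0, 0⟩, ⟨0, -3⟩, ⟨2, -2⟩, ⟨1, 0⟩⟩),
  W6 (4, ⟨⟨0, -3⟩, ⟨2, -2⟩, ⟨1, 0⟩, ⟨1, 0⟩, ⟨0, 0⟩, ⟨0, 0⟩, ⟨0, 0⟩, ⟨1, 0⟩, ⟨0, 0⟩⟩) (5, ⟨⟨0, -3⟩, ⟨2, -2⟩, ⟨1, 0⟩, ⟨1, 0⟩, ⟨0, 0⟩, ⟨0, 0⟩, ⟨0, 0⟩, ⟨1, 0⟩, ⟨0, 0⟩⟩) (0, ⟨⟨0, 0⟩, ⟨-1, -2⟩, ⟨0, -2⟩, ⟨1, 0⟩, ⟨0, 3⟩, ⟨-1, 1⟩, ⟨0, 0⟩, ⟨2, 2⟩, ⟨1, 2⟩⟩) (1, ⟨⟨0, 0⟩, ⟨-1, -2⟩,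 ⟨0, -2⟩, ⟨1, 0⟩, ⟨0, 3⟩, ⟨-1, 1⟩, ⟨0, 0⟩, ⟨2, 2⟩, ⟨1, 2⟩⟩) (2, ⟨⟨0, 0⟩, ⟨0, 0⟩, ⟨1, 0⟩, ⟨0, 1⟩, ⟨0, 0⟩, ⟨-1, 1⟩, ⟨-3, -3⟩, ⟨1, 0⟩, ⟨-2, -4⟩⟩) (3, ⟨⟨0, 0⟩, ⟨0, 0⟩, ⟨1, 0⟩, ⟨0, 1⟩, ⟨0, 0⟩, ⟨-1, 1⟩, ⟨-3, -3⟩, ⟨1, 0⟩, ⟨-2, -4⟩⟩),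
  W6 (5, ⟨⟨0, -3⟩, ⟨2, -2⟩, ⟨1, 0⟩, ⟨1, 0⟩, ⟨0, 0⟩, ⟨0, 0⟩, ⟨0, 0⟩, ⟨1, 0⟩, ⟨0, 0⟩⟩) (4, ⟨⟨-1, -2⟩, ⟨1, -1⟩, ⟨1, 0⟩, ⟨0, 1⟩, ⟨-1, 1⟩, ⟨0, 0⟩, ⟨-1, -2⟩, ⟨0, -2⟩, ⟨0, 0⟩⟩) (1, ⟨⟨0, 0⟩, ⟨-1, -2⟩, ⟨0, -2⟩, ⟨1, 0⟩, ⟨0, 3⟩, ⟨-1, 1⟩, ⟨0, 0⟩, ⟨2, 2⟩, ⟨1, 2⟩⟩) (0, ⟨⟨0, 0⟩, ⟨-2, -1⟩, ⟨-1, -1⟩, ⟨1, 0⟩, ⟨-1, 1⟩, ⟨-2, -1⟩, ⟨0, 0⟩, ⟨1, 0⟩, ⟨0, 0⟩⟩) (3, ⟨⟨0, 0⟩, ⟨0, 0⟩, ⟨1, 0⟩, ⟨0, 1⟩, ⟨0, 0⟩, ⟨-1, 1⟩, ⟨-3, -3⟩, ⟨1, 0⟩, ⟨-2, -4⟩⟩) (2,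 ⟨⟨-1, -2⟩, ⟨0, 0⟩, ⟨0, -2⟩, ⟨2, 2⟩, ⟨0, 0⟩, ⟨1, 2⟩, ⟨-4, -2⟩, ⟨1, 0⟩, ⟨-3, -3⟩⟩),
  W6 (4, ⟨⟨-1, -2⟩, ⟨1, -1⟩, ⟨1, 0⟩, ⟨0, 1⟩, ⟨-1, 1⟩, ⟨0, 0⟩, ⟨-1, -2⟩, ⟨0, -2⟩, ⟨0, 0⟩⟩) (5, ⟨⟨-1, -2⟩, ⟨1, -1⟩, ⟨1, 0⟩, ⟨0, 1⟩, ⟨-1, 1⟩, ⟨0, 0⟩, ⟨-1, -2⟩, ⟨0, -2⟩, ⟨0, 0⟩⟩) (0, ⟨⟨0, 0⟩, ⟨-2, -1⟩, ⟨-1, -1⟩, ⟨1, 0⟩, ⟨-1, 1⟩, ⟨-2, -1⟩, ⟨0, 0⟩, ⟨1, 0⟩, ⟨0, 0⟩⟩) (1, ⟨⟨0, 0⟩, ⟨-2, -1⟩, ⟨-1, -1⟩, ⟨1, 0⟩, ⟨-1, 1⟩, ⟨-2, -1⟩, ⟨0, 0⟩, ⟨1, 0⟩, ⟨0,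 0⟩⟩) (2, ⟨⟨-1, -2⟩, ⟨0, 0⟩, ⟨0, -2⟩, ⟨2, 2⟩, ⟨0, 0⟩, ⟨1, 2⟩, ⟨-4, -2⟩, ⟨1, 0⟩, ⟨-3, -3⟩⟩) (3, ⟨⟨-1, -2⟩, ⟨0, 0⟩, ⟨0, -2⟩, ⟨2, 2⟩, ⟨0, 0⟩, ⟨1, 2⟩, ⟨-4, -2⟩, ⟨1, 0⟩, ⟨-3, -3⟩⟩),
  W6 (0, ⟨⟨1, 0⟩, ⟨-2, -1⟩, ⟨0, 0⟩, ⟨0, 0⟩, ⟨-1, -1⟩, ⟨0, 0⟩, ⟨0, 0⟩, ⟨0, 0⟩, ⟨-1, -1⟩⟩) (1, ⟨⟨1, 0⟩, ⟨-2, -1⟩, ⟨0, 0⟩, ⟨0, 0⟩, ⟨-1, -1⟩, ⟨0, 0⟩, ⟨0, 0⟩, ⟨0, 0⟩, ⟨-1, -1⟩⟩) (2, ⟨⟨-1, -1⟩, ⟨0, 0⟩, ⟨0, 0⟩, ⟨1, -1⟩, ⟨1, 0⟩, ⟨0, 0⟩, ⟨0, 0⟩, ⟨0, 0⟩, ⟨-1,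 -1⟩⟩) (3, ⟨⟨-1, -1⟩, ⟨0, 0⟩, ⟨0, 0⟩, ⟨1, -1⟩, ⟨1, 0⟩, ⟨0, 0⟩, ⟨0, 0⟩, ⟨0, 0⟩, ⟨-1, -1⟩⟩) (4, ⟨⟨0, -2⟩, ⟨1, -1⟩, ⟨0, 0⟩, ⟨1, 2⟩, ⟨0, 1⟩, ⟨0, 0⟩, ⟨0, 0⟩, ⟨0, 0⟩, ⟨1, 0⟩⟩) (5, ⟨⟨0, -2⟩, ⟨1, -1⟩, ⟨0, 0⟩, ⟨1, 2⟩, ⟨0, 1⟩, ⟨0, 0⟩, ⟨0, 0⟩, ⟨0, 0⟩, ⟨1, 0⟩⟩),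
  W6 (1, ⟨⟨1, 0⟩, ⟨-2, -1⟩, ⟨0, 0⟩, ⟨0, 0⟩, ⟨-1, -1⟩, ⟨0, 0⟩, ⟨0, 0⟩, ⟨0, 0⟩, ⟨-1, -1⟩⟩) (0, ⟨⟨1, 0⟩, ⟨0, 0⟩, ⟨2, 1⟩, ⟨0, 0⟩, ⟨1, 0⟩, ⟨2, 1⟩, ⟨0, 0⟩, ⟨-1, 1⟩, ⟨-2, 0⟩⟩) (3, ⟨⟨-1, -1⟩, ⟨0, 0⟩, ⟨0, 0⟩, ⟨1, -1⟩, ⟨1, 0⟩, ⟨0, 0⟩, ⟨0, 0⟩, ⟨0, 0⟩, ⟨-1, -1⟩⟩) (2, ⟨⟨1, 0⟩, ⟨0, 0⟩, ⟨2, 1⟩, ⟨0, 0⟩, ⟨1, 0⟩, ⟨-1, 1⟩, ⟨-1, 1⟩, ⟨0, 0⟩, ⟨-2, 0⟩⟩) (5, ⟨⟨0, -2⟩, ⟨1, -1⟩, ⟨0, 0⟩, ⟨1, 2⟩, ⟨0, 1⟩, ⟨0, 0⟩, ⟨0, 0⟩, ⟨0, 0⟩, ⟨1, 0⟩⟩) (4, ⟨⟨-1,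 -1⟩, ⟨0, 0⟩, ⟨0, 0⟩, ⟨0, 0⟩, ⟨-1, -1⟩, ⟨0, 0⟩, ⟨2, 1⟩, ⟨2, 1⟩, ⟨1, 0⟩⟩),
  W6 (0, ⟨⟨1, 0⟩, ⟨0, 0⟩, ⟨2, 1⟩, ⟨0, 0⟩, ⟨1, 0⟩, ⟨2, 1⟩, ⟨0, 0⟩, ⟨-1, 1⟩, ⟨-2, 0⟩⟩) (1, ⟨⟨1, 0⟩, ⟨0, 0⟩, ⟨2, 1⟩, ⟨0, 0⟩, ⟨1, 0⟩, ⟨2, 1⟩, ⟨0, 0⟩, ⟨-1, 1⟩, ⟨-2, 0⟩⟩) (2, ⟨⟨1, 0⟩, ⟨0, 0⟩, ⟨2, 1⟩, ⟨0, 0⟩, ⟨1, 0⟩, ⟨-1, 1⟩, ⟨-1, 1⟩, ⟨0, 0⟩, ⟨-2, 0⟩⟩) (3, ⟨⟨1, 0⟩, ⟨0, 0⟩, ⟨2, 1⟩, ⟨0, 0⟩, ⟨1, 0⟩, ⟨-1, 1⟩, ⟨-1, 1⟩, ⟨0, 0⟩, ⟨-2, 0⟩⟩) (4, ⟨⟨-1, -1⟩, ⟨0, 0⟩,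 ⟨0, 0⟩, ⟨0, 0⟩, ⟨-1, -1⟩, ⟨0, 0⟩, ⟨2, 1⟩, ⟨2, 1⟩, ⟨1, 0⟩⟩) (5, ⟨⟨-1, -1⟩, ⟨0, 0⟩, ⟨0, 0⟩, ⟨0, 0⟩, ⟨-1, -1⟩, ⟨0, 0⟩, ⟨2, 1⟩, ⟨2, 1⟩, ⟨1, 0⟩⟩),
  W6 (4, ⟨⟨1, -1⟩, ⟨1, -1⟩, ⟨1, 0⟩, ⟨1, 0⟩, ⟨0, 0⟩, ⟨0, 0⟩, ⟨0, 0⟩, ⟨1, 0⟩, ⟨0, 0⟩⟩) (5, ⟨⟨1, -1⟩, ⟨1, -1⟩, ⟨1, 0⟩, ⟨1, 0⟩, ⟨0, 0⟩, ⟨0, 0⟩, ⟨0, 0⟩, ⟨1, 0⟩, ⟨0, 0⟩⟩) (0, ⟨⟨0, 0⟩, ⟨-2, -1⟩, ⟨-1, -1⟩, ⟨1, 0⟩, ⟨0, 0⟩, ⟨0, 0⟩, ⟨0, 0⟩, ⟨1, 0⟩, ⟨0, 0⟩⟩) (1, ⟨⟨0, 0⟩, ⟨-2, -1⟩, ⟨-1, -1⟩,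 ⟨1, 0⟩, ⟨0, 0⟩, ⟨0, 0⟩, ⟨0, 0⟩, ⟨1, 0⟩, ⟨0, 0⟩⟩) (2, ⟨⟨-2, -1⟩, ⟨0, 0⟩, ⟨-1, -1⟩, ⟨1, 0⟩, ⟨0, 0⟩, ⟨0, 0⟩, ⟨0, 0⟩, ⟨1, 0⟩, ⟨0, 0⟩⟩) (3, ⟨⟨-2, -1⟩, ⟨0, 0⟩, ⟨-1, -1⟩, ⟨1, 0⟩, ⟨0, 0⟩, ⟨0, 0⟩, ⟨0, 0⟩, ⟨1, 0⟩, ⟨0, 0⟩⟩),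
  W6 (5, ⟨⟨1, -1⟩, ⟨1, -1⟩, ⟨1, 0⟩, ⟨1, 0⟩, ⟨0, 0⟩, ⟨0, 0⟩, ⟨0, 0⟩, ⟨1, 0⟩, ⟨0, 0⟩⟩) (4, ⟨⟨0, 0⟩, ⟨0, 0⟩, ⟨1, 0⟩, ⟨0, 1⟩, ⟨-1, 1⟩, ⟨0, 0⟩, ⟨-1, -2⟩, ⟨0, -2⟩, ⟨0, 0⟩⟩) (1, ⟨⟨0, 0⟩, ⟨-2, -1⟩, ⟨-1, -1⟩, ⟨1, 0⟩, ⟨0, 0⟩, ⟨0, 0⟩, ⟨0, 0⟩, ⟨1, 0⟩, ⟨0, 0⟩⟩) (0, ⟨⟨0, 0⟩, ⟨0, 0⟩, ⟨1, 0⟩, ⟨1, 0⟩, ⟨-1, 1⟩, ⟨-1, 1⟩, ⟨0, 0⟩, ⟨0, 1⟩, ⟨-1, 1⟩⟩) (3, ⟨⟨-2, -1⟩, ⟨0, 0⟩, ⟨-1, -1⟩, ⟨1, 0⟩, ⟨0, 0⟩, ⟨0, 0⟩, ⟨0, 0⟩, ⟨1, 0⟩, ⟨0, 0⟩⟩) (2, ⟨⟨0, 0⟩,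 ⟨0, 0⟩, ⟨1, 0⟩, ⟨0, 1⟩, ⟨0, 0⟩, ⟨-1, 1⟩, ⟨-1, -2⟩, ⟨1, 0⟩, ⟨-1, -2⟩⟩),
  W6 (4, ⟨⟨0, 0⟩, ⟨0, 0⟩, ⟨1, 0⟩, ⟨0, 1⟩, ⟨-1, 1⟩, ⟨0, 0⟩, ⟨-1, -2⟩, ⟨0, -2⟩, ⟨0, 0⟩⟩) (5, ⟨⟨0, 0⟩, ⟨0, 0⟩, ⟨1, 0⟩, ⟨0, 1⟩, ⟨-1, 1⟩, ⟨0, 0⟩, ⟨-1, -2⟩, ⟨0, -2⟩, ⟨0, 0⟩⟩) (0, ⟨⟨0, 0⟩, ⟨0, 0⟩, ⟨1, 0⟩, ⟨1, 0⟩, ⟨-1, 1⟩, ⟨-1, 1⟩, ⟨0, 0⟩, ⟨0, 1⟩, ⟨-1, 1⟩⟩) (1, ⟨⟨0, 0⟩, ⟨0, 0⟩, ⟨1, 0⟩, ⟨1, 0⟩, ⟨-1, 1⟩, ⟨-1, 1⟩, ⟨0, 0⟩, ⟨0, 1⟩, ⟨-1, 1⟩⟩) (2, ⟨⟨0, 0⟩, ⟨0, 0⟩,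 ⟨1, 0⟩, ⟨0, 1⟩, ⟨0, 0⟩, ⟨-1, 1⟩, ⟨-1, -2⟩, ⟨1, 0⟩, ⟨-1, -2⟩⟩) (3, ⟨⟨0, 0⟩, ⟨0, 0⟩, ⟨1, 0⟩, ⟨0, 1⟩, ⟨0, 0⟩, ⟨-1, 1⟩, ⟨-1, -2⟩, ⟨1, 0⟩, ⟨-1, -2⟩⟩),
  W6 (2, ⟨⟨-2, -1⟩, ⟨1, 0⟩, ⟨-2, -1⟩, ⟨0, 0⟩, ⟨0, 0⟩, ⟨0, 1⟩, ⟨-1, -1⟩, ⟨0, 0⟩, ⟨-1, -2⟩⟩) (3, ⟨⟨-2, -1⟩, ⟨1, 0⟩, ⟨-2, -1⟩, ⟨0, 0⟩, ⟨0, 0⟩, ⟨0, 1⟩, ⟨-1, -1⟩, ⟨0, 0⟩, ⟨-1, -2⟩⟩) (4, ⟨⟨1, -1⟩, ⟨1, 0⟩, ⟨0, 0⟩, ⟨0, 0⟩, ⟨1, -1⟩, ⟨1, 0⟩, ⟨0, 1⟩, ⟨0, 0⟩, ⟨0, 0⟩⟩) (5, ⟨⟨1, -1⟩, ⟨1, 0⟩,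 ⟨0, 0⟩, ⟨0, 0⟩, ⟨1, -1⟩, ⟨1, 0⟩, ⟨0, 1⟩, ⟨0, 0⟩, ⟨0, 0⟩⟩) (0, ⟨⟨0, 0⟩, ⟨-2, 0⟩, ⟨-2, -1⟩, ⟨0, 0⟩, ⟨1, -1⟩, ⟨1, 0⟩, ⟨1, 0⟩, ⟨0, 3⟩, ⟨-1, 1⟩⟩) (1, ⟨⟨0, 0⟩, ⟨-2, 0⟩, ⟨-2, -1⟩, ⟨0, 0⟩, ⟨1, -1⟩, ⟨1, 0⟩, ⟨1, 0⟩, ⟨0, 3⟩, ⟨-1, 1⟩⟩),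
  W6 (3, ⟨⟨-2, -1⟩, ⟨1, 0⟩, ⟨-2, -1⟩, ⟨0, 0⟩, ⟨0, 0⟩, ⟨0, 1⟩, ⟨-1, -1⟩, ⟨0, 0⟩, ⟨-1, -2⟩⟩) (2, ⟨⟨0, 0⟩, ⟨1, 0⟩, ⟨0, 0⟩, ⟨2, 1⟩, ⟨0, 0⟩, ⟨2, 2⟩, ⟨-2, 0⟩, ⟨0, 0⟩, ⟨-2, -1⟩⟩) (5, ⟨⟨1, -1⟩, ⟨1, 0⟩, ⟨0, 0⟩, ⟨0, 0⟩, ⟨1, -1⟩, ⟨1, 0⟩, ⟨0, 1⟩, ⟨0, 0⟩, ⟨0, 0⟩⟩) (4, ⟨⟨0, 0⟩, ⟨0, 1⟩, ⟨0, 0⟩, ⟨-1, -2⟩, ⟨0, -3⟩, ⟨1, 0⟩, ⟨-1, -1⟩, ⟨-1, -2⟩, ⟨0, 0⟩⟩) (1, ⟨⟨0, 0⟩, ⟨-2, 0⟩, ⟨-2, -1⟩, ⟨0, 0⟩, ⟨1, -1⟩, ⟨1, 0⟩, ⟨1, 0⟩, ⟨0, 3⟩, ⟨-1, 1⟩⟩) (0,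 ⟨⟨0, 0⟩, ⟨0, 1⟩, ⟨0, 0⟩, ⟨0, 0⟩, ⟨0, 0⟩, ⟨0, 1⟩, ⟨1, 0⟩, ⟨-1, 1⟩, ⟨-2, -1⟩⟩),
  W6 (2, ⟨⟨0, 0⟩, ⟨1, 0⟩, ⟨0, 0⟩, ⟨2, 1⟩, ⟨0, 0⟩, ⟨2, 2⟩, ⟨-2, 0⟩, ⟨0, 0⟩, ⟨-2, -1⟩⟩) (3, ⟨⟨0, 0⟩, ⟨1, 0⟩, ⟨0, 0⟩, ⟨2, 1⟩, ⟨0, 0⟩, ⟨2, 2⟩, ⟨-2, 0⟩, ⟨0, 0⟩, ⟨-2, -1⟩⟩) (4, ⟨⟨0, 0⟩, ⟨0, 1⟩, ⟨0, 0⟩, ⟨-1, -2⟩, ⟨0, -3⟩, ⟨1, 0⟩, ⟨-1, -1⟩, ⟨-1, -2⟩, ⟨0, 0⟩⟩) (5, ⟨⟨0, 0⟩, ⟨0, 1⟩, ⟨0, 0⟩, ⟨-1, -2⟩, ⟨0, -3⟩, ⟨1, 0⟩, ⟨-1, -1⟩, ⟨-1, -2⟩, ⟨0, 0⟩⟩) (0, ⟨⟨0,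 0⟩, ⟨0, 1⟩, ⟨0, 0⟩, ⟨0, 0⟩, ⟨0, 0⟩, ⟨0, 1⟩, ⟨1, 0⟩, ⟨-1, 1⟩, ⟨-2, -1⟩⟩) (1, ⟨⟨0, 0⟩, ⟨0, 1⟩, ⟨0, 0⟩, ⟨0, 0⟩, ⟨0, 0⟩, ⟨0, 1⟩, ⟨1, 0⟩, ⟨-1, 1⟩, ⟨-2, -1⟩⟩)]

/-- the values for k = 5 -/
def rtab5 : List Wr := [
  W6 (2, ⟨⟨1, -1⟩, ⟨1, 0⟩, ⟨2, 1⟩, ⟨2, 2⟩, ⟨0, 0⟩, ⟨1, 2⟩, ⟨-2, -1⟩, ⟨0, 0⟩, ⟨-1, -1⟩⟩) (3, ⟨⟨1, -1⟩, ⟨1, 0⟩, ⟨2, 1⟩, ⟨2, 2⟩, ⟨0, 0⟩, ⟨1, 2⟩, ⟨-2, -1⟩, ⟨0, 0⟩, ⟨-1, -1⟩⟩) (0, ⟨⟨0, 0⟩, ⟨1, 0⟩, ⟨2, 1⟩, ⟨1, 0⟩, ⟨-3, 0⟩,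 ⟨-2, -1⟩, ⟨0, 0⟩, ⟨-1, 1⟩, ⟨-2, 0⟩⟩) (1, ⟨⟨0, 0⟩, ⟨1, 0⟩, ⟨2, 1⟩, ⟨1, 0⟩, ⟨-3, 0⟩, ⟨-2, -1⟩, ⟨0, 0⟩, ⟨-1, 1⟩, ⟨-2, 0⟩⟩) (4, ⟨⟨1, -1⟩, ⟨1, 0⟩, ⟨0, 0⟩, ⟨0, 1⟩, ⟨0, 0⟩, ⟨0, 0⟩, ⟨1, -1⟩, ⟨2, 1⟩, ⟨1, 0⟩⟩) (5, ⟨⟨1, -1⟩, ⟨1, 0⟩, ⟨0, 0⟩, ⟨0, 1⟩, ⟨0, 0⟩, ⟨0, 0⟩, ⟨1, -1⟩, ⟨2, 1⟩, ⟨1, 0⟩⟩),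
  W6 (3, ⟨⟨1, -1⟩, ⟨1, 0⟩, ⟨2, 1⟩, ⟨2, 2⟩, ⟨0, 0⟩, ⟨1, 2⟩, ⟨-2, -1⟩, ⟨0, 0⟩, ⟨-1, -1⟩⟩) (2, ⟨⟨0, -3⟩, ⟨1, 0⟩, ⟨1, -1⟩, ⟨1, 0⟩, ⟨0, 0⟩, ⟨0, 0⟩, ⟨0, 0⟩, ⟨0, 0⟩, ⟨1, 0⟩⟩) (1, ⟨⟨0, 0⟩, ⟨1, 0⟩, ⟨2, 1⟩, ⟨1, 0⟩, ⟨-3, 0⟩, ⟨-2, -1⟩, ⟨0, 0⟩, ⟨-1, 1⟩, ⟨-2, 0⟩⟩) (0, ⟨⟨0, 0⟩, ⟨0, -2⟩, ⟨1, -1⟩, ⟨1, 0⟩, ⟨-1, 1⟩, ⟨0, 0⟩, ⟨0, 0⟩, ⟨1, 2⟩, ⟨0, 1⟩⟩) (5, ⟨⟨1, -1⟩, ⟨1, 0⟩, ⟨0, 0⟩, ⟨0, 1⟩, ⟨0, 0⟩, ⟨0, 0⟩, ⟨1, -1⟩, ⟨2, 1⟩, ⟨1, 0⟩⟩) (4, ⟨⟨0, 0⟩,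 ⟨0, 1⟩, ⟨0, 0⟩, ⟨-1, -1⟩, ⟨-1, -2⟩, ⟨0, 0⟩, ⟨3, 0⟩, ⟨4, 2⟩, ⟨1, 0⟩⟩),
  W6 (2, ⟨⟨0, -3⟩, ⟨1, 0⟩, ⟨1, -1⟩, ⟨1, 0⟩, ⟨0, 0⟩, ⟨0, 0⟩, ⟨0, 0⟩, ⟨0, 0⟩, ⟨1, 0⟩⟩) (3, ⟨⟨0, -3⟩, ⟨1, 0⟩, ⟨1, -1⟩, ⟨1, 0⟩, ⟨0, 0⟩, ⟨0, 0⟩, ⟨0, 0⟩, ⟨0, 0⟩, ⟨1, 0⟩⟩) (0, ⟨⟨0, 0⟩, ⟨0, -2⟩, ⟨1, -1⟩, ⟨1, 0⟩, ⟨-1, 1⟩, ⟨0, 0⟩, ⟨0, 0⟩, ⟨1, 2⟩, ⟨0, 1⟩⟩) (1, ⟨⟨0, 0⟩, ⟨0, -2⟩, ⟨1, -1⟩, ⟨1, 0⟩, ⟨-1, 1⟩, ⟨0, 0⟩, ⟨0, 0⟩, ⟨1, 2⟩, ⟨0, 1⟩⟩) (4, ⟨⟨0, 0⟩, ⟨0, 1⟩, ⟨0,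 0⟩, ⟨-1, -1⟩, ⟨-1, -2⟩, ⟨0, 0⟩, ⟨3, 0⟩, ⟨4, 2⟩, ⟨1, 0⟩⟩) (5, ⟨⟨0, 0⟩, ⟨0, 1⟩, ⟨0, 0⟩, ⟨-1, -1⟩, ⟨-1, -2⟩, ⟨0, 0⟩, ⟨3, 0⟩, ⟨4, 2⟩, ⟨1, 0⟩⟩),
  W6 (0, ⟨⟨1, 0⟩, ⟨-2, -1⟩, ⟨-1, -2⟩, ⟨0, 0⟩, ⟨1, -1⟩, ⟨1, 0⟩, ⟨0, 0⟩, ⟨0, 1⟩, ⟨0, 0⟩⟩) (1, ⟨⟨1, 0⟩, ⟨-2, -1⟩, ⟨-1, -2⟩, ⟨0, 0⟩, ⟨1, -1⟩, ⟨1, 0⟩, ⟨0, 0⟩, ⟨0, 1⟩, ⟨0, 0⟩⟩) (4, ⟨⟨2, 2⟩, ⟨1, 2⟩, ⟨0, 0⟩, ⟨-1, -2⟩, ⟨1, -1⟩, ⟨1, 0⟩, ⟨-2, -1⟩, ⟨-1, -1⟩, ⟨0, 0⟩⟩) (5, ⟨⟨2, 2⟩, ⟨1, 2⟩, ⟨0, 0⟩,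 ⟨-1, -2⟩, ⟨1, -1⟩, ⟨1, 0⟩, ⟨-2, -1⟩, ⟨-1, -1⟩, ⟨0, 0⟩⟩) (2, ⟨⟨1, 0⟩, ⟨0, 0⟩, ⟨2, 1⟩, ⟨-1, 1⟩, ⟨0, 0⟩, ⟨-2, 0⟩, ⟨-2, -4⟩, ⟨1, 0⟩, ⟨0, -3⟩⟩) (3, ⟨⟨1, 0⟩, ⟨0, 0⟩, ⟨2, 1⟩, ⟨-1, 1⟩, ⟨0, 0⟩, ⟨-2, 0⟩, ⟨-2, -4⟩, ⟨1, 0⟩, ⟨0, -3⟩⟩),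
  W6 (1, ⟨⟨1, 0⟩, ⟨-2, -1⟩, ⟨-1, -2⟩, ⟨0, 0⟩, ⟨1, -1⟩, ⟨1, 0⟩, ⟨0, 0⟩, ⟨0, 1⟩, ⟨0, 0⟩⟩) (0, ⟨⟨1, 0⟩, ⟨-3, 0⟩, ⟨-2, -1⟩, ⟨0, 0⟩, ⟨0, 0⟩, ⟨0, 1⟩, ⟨0, 0⟩, ⟨-1, -1⟩, ⟨-1, -2⟩⟩) (5, ⟨⟨2, 2⟩, ⟨1, 2⟩, ⟨0, 0⟩, ⟨-1, -2⟩, ⟨1, -1⟩, ⟨1, 0⟩, ⟨-2, -1⟩, ⟨-1, -1⟩, ⟨0, 0⟩⟩) (4, ⟨⟨1, 0⟩, ⟨0, 0⟩, ⟨0, 0⟩, ⟨1, -1⟩, ⟨3, 0⟩, ⟨1, 0⟩, ⟨0, 0⟩, ⟨1, 0⟩, ⟨0, 0⟩⟩) (3, ⟨⟨1, 0⟩, ⟨0, 0⟩, ⟨2, 1⟩, ⟨-1, 1⟩, ⟨0, 0⟩, ⟨-2, 0⟩, ⟨-2, -4⟩, ⟨1, 0⟩, ⟨0, -3⟩⟩) (2,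 ⟨⟨0, -2⟩, ⟨0, 0⟩, ⟨1, -1⟩, ⟨1, 2⟩, ⟨0, 0⟩, ⟨0, 1⟩, ⟨-3, -3⟩, ⟨1, 0⟩, ⟨-1, -2⟩⟩),
  W6 (0, ⟨⟨1, 0⟩, ⟨-3, 0⟩, ⟨-2, -1⟩, ⟨0, 0⟩, ⟨0, 0⟩, ⟨0, 1⟩, ⟨0, 0⟩, ⟨-1, -1⟩, ⟨-1, -2⟩⟩) (1, ⟨⟨1, 0⟩, ⟨-3, 0⟩, ⟨-2, -1⟩, ⟨0, 0⟩, ⟨0, 0⟩, ⟨0, 1⟩, ⟨0, 0⟩, ⟨-1, -1⟩, ⟨-1, -2⟩⟩) (4, ⟨⟨1, 0⟩, ⟨0, 0⟩, ⟨0, 0⟩, ⟨1, -1⟩, ⟨3, 0⟩, ⟨1, 0⟩, ⟨0, 0⟩, ⟨1, 0⟩, ⟨0, 0⟩⟩) (5, ⟨⟨1, 0⟩, ⟨0, 0⟩, ⟨0, 0⟩, ⟨1, -1⟩, ⟨3, 0⟩, ⟨1, 0⟩, ⟨0, 0⟩, ⟨1, 0⟩, ⟨0, 0⟩⟩) (2, ⟨⟨0,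 -2⟩, ⟨0, 0⟩, ⟨1, -1⟩, ⟨1, 2⟩, ⟨0, 0⟩, ⟨0, 1⟩, ⟨-3, -3⟩, ⟨1, 0⟩, ⟨-1, -2⟩⟩) (3, ⟨⟨0, -2⟩, ⟨0, 0⟩, ⟨1, -1⟩, ⟨1, 2⟩, ⟨0, 0⟩, ⟨0, 1⟩, ⟨-3, -3⟩, ⟨1, 0⟩, ⟨-1, -2⟩⟩),
  W6 (4, ⟨⟨0, -3⟩, ⟨2, -2⟩, ⟨1, 0⟩, ⟨0, 0⟩, ⟨-1, -1⟩, ⟨0, 0⟩, ⟨1, 0⟩, ⟨2, 1⟩, ⟨0, 0⟩⟩) (5, ⟨⟨0, -3⟩, ⟨2, -2⟩, ⟨1, 0⟩, ⟨0, 0⟩, ⟨-1, -1⟩, ⟨0, 0⟩, ⟨1, 0⟩, ⟨2, 1⟩, ⟨0, 0⟩⟩) (2, ⟨⟨0, 0⟩, ⟨0, 0⟩, ⟨0, 1⟩, ⟨-3, -3⟩, ⟨1, 0⟩, ⟨-2, -4⟩, ⟨-1, -1⟩, ⟨0, 0⟩, ⟨-1, -2⟩⟩) (3, ⟨⟨0,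 0⟩, ⟨0, 0⟩, ⟨0, 1⟩, ⟨-3, -3⟩, ⟨1, 0⟩, ⟨-2, -4⟩, ⟨-1, -1⟩, ⟨0, 0⟩, ⟨-1, -2⟩⟩) (0, ⟨⟨0, 0⟩, ⟨-1, -2⟩, ⟨0, -2⟩, ⟨0, 0⟩, ⟨2, 2⟩, ⟨1, 2⟩, ⟨1, 0⟩, ⟨-4, 1⟩, ⟨-4, -2⟩⟩) (1, ⟨⟨0, 0⟩, ⟨-1, -2⟩, ⟨0, -2⟩, ⟨0, 0⟩, ⟨2, 2⟩, ⟨1, 2⟩, ⟨1, 0⟩, ⟨-4, 1⟩, ⟨-4, -2⟩⟩),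
  W6 (5, ⟨⟨0, -3⟩, ⟨2, -2⟩, ⟨1, 0⟩, ⟨0, 0⟩, ⟨-1, -1⟩, ⟨0, 0⟩, ⟨1, 0⟩, ⟨2, 1⟩, ⟨0, 0⟩⟩) (4, ⟨⟨-1, -2⟩, ⟨1, -1⟩, ⟨1, 0⟩, ⟨-1, 1⟩, ⟨-2, 0⟩, ⟨0, 0⟩, ⟨0, -2⟩, ⟨1, -1⟩, ⟨0, 0⟩⟩) (3, ⟨⟨0, 0⟩, ⟨0, 0⟩, ⟨0, 1⟩, ⟨-3, -3⟩, ⟨1, 0⟩, ⟨-2, -4⟩, ⟨-1, -1⟩, ⟨0, 0⟩, ⟨-1, -2⟩⟩) (2, ⟨⟨2, 1⟩, ⟨0, 0⟩, ⟨2, 2⟩, ⟨-4, -2⟩, ⟨1, 0⟩, ⟨-3, -3⟩, ⟨-2, 0⟩, ⟨0, 0⟩, ⟨-2, -1⟩⟩) (1, ⟨⟨0, 0⟩, ⟨-1, -2⟩, ⟨0, -2⟩, ⟨0, 0⟩, ⟨2, 2⟩, ⟨1, 2⟩, ⟨1, 0⟩, ⟨-4, 1⟩, ⟨-4, -2⟩⟩)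 (0, ⟨⟨0, 0⟩, ⟨-2, -1⟩, ⟨-1, -1⟩, ⟨0, 0⟩, ⟨1, 0⟩, ⟨0, 0⟩, ⟨1, 0⟩, ⟨-2, 2⟩, ⟨-2, -1⟩⟩),
  W6 (4, ⟨⟨-1, -2⟩, ⟨1, -1⟩, ⟨1, 0⟩, ⟨-1, 1⟩, ⟨-2, 0⟩, ⟨0, 0⟩, ⟨0, -2⟩, ⟨1, -1⟩, ⟨0, 0⟩⟩) (5, ⟨⟨-1, -2⟩, ⟨1, -1⟩, ⟨1, 0⟩, ⟨-1, 1⟩, ⟨-2, 0⟩, ⟨0, 0⟩, ⟨0, -2⟩, ⟨1, -1⟩, ⟨0, 0⟩⟩) (2, ⟨⟨2, 1⟩, ⟨0, 0⟩, ⟨2, 2⟩, ⟨-4, -2⟩, ⟨1, 0⟩, ⟨-3, -3⟩, ⟨-2, 0⟩, ⟨0, 0⟩, ⟨-2, -1⟩⟩) (3, ⟨⟨2, 1⟩, ⟨0, 0⟩, ⟨2, 2⟩, ⟨-4, -2⟩, ⟨1, 0⟩, ⟨-3, -3⟩, ⟨-2, 0⟩, ⟨0, 0⟩, ⟨-2,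 -1⟩⟩) (0, ⟨⟨0, 0⟩, ⟨-2, -1⟩, ⟨-1, -1⟩, ⟨0, 0⟩, ⟨1, 0⟩, ⟨0, 0⟩, ⟨1, 0⟩, ⟨-2, 2⟩, ⟨-2, -1⟩⟩) (1, ⟨⟨0, 0⟩, ⟨-2, -1⟩, ⟨-1, -1⟩, ⟨0, 0⟩, ⟨1, 0⟩, ⟨0, 0⟩, ⟨1, 0⟩, ⟨-2, 2⟩, ⟨-2, -1⟩⟩),
  W6 (0, ⟨⟨1, 0⟩, ⟨-1, -2⟩, ⟨1, -1⟩, ⟨0, 0⟩, ⟨1, -1⟩, ⟨1, 0⟩, ⟨0, 0⟩, ⟨0, 1⟩, ⟨0, 0⟩⟩) (1, ⟨⟨1, 0⟩, ⟨-1, -2⟩, ⟨1, -1⟩, ⟨0, 0⟩, ⟨1, -1⟩, ⟨1, 0⟩, ⟨0, 0⟩, ⟨0, 1⟩, ⟨0, 0⟩⟩) (4, ⟨⟨0, 1⟩, ⟨-1, 1⟩, ⟨0, 0⟩, ⟨1, -1⟩, ⟨1, -1⟩, ⟨1, 0⟩, ⟨-1, -2⟩, ⟨0, -2⟩, ⟨0,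 0⟩⟩) (5, ⟨⟨0, 1⟩, ⟨-1, 1⟩, ⟨0, 0⟩, ⟨1, -1⟩, ⟨1, -1⟩, ⟨1, 0⟩, ⟨-1, -2⟩, ⟨0, -2⟩, ⟨0, 0⟩⟩) (2, ⟨⟨0, -2⟩, ⟨0, 0⟩, ⟨1, -1⟩, ⟨1, 2⟩, ⟨0, 0⟩, ⟨0, 1⟩, ⟨-1, -2⟩, ⟨1, 0⟩, ⟨0, 0⟩⟩) (3, ⟨⟨0, -2⟩, ⟨0, 0⟩, ⟨1, -1⟩, ⟨1, 2⟩, ⟨0, 0⟩, ⟨0, 1⟩, ⟨-1, -2⟩, ⟨1, 0⟩, ⟨0, 0⟩⟩),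
  W6 (1, ⟨⟨1, 0⟩, ⟨-1, -2⟩, ⟨1, -1⟩, ⟨0, 0⟩, ⟨1, -1⟩, ⟨1, 0⟩, ⟨0, 0⟩, ⟨0, 1⟩, ⟨0, 0⟩⟩) (0, ⟨⟨1, 0⟩, ⟨-2, -1⟩, ⟨0, 0⟩, ⟨0, 0⟩, ⟨0, 0⟩, ⟨0, 1⟩, ⟨0, 0⟩, ⟨-1, -1⟩, ⟨-1, -2⟩⟩) (5, ⟨⟨0, 1⟩, ⟨-1, 1⟩, ⟨0, 0⟩, ⟨1, -1⟩, ⟨1, -1⟩, ⟨1, 0⟩, ⟨-1, -2⟩, ⟨0, -2⟩, ⟨0, 0⟩⟩) (4, ⟨⟨2, 2⟩, ⟨1, 2⟩, ⟨0, 0⟩, ⟨0, 0⟩, ⟨0, 0⟩, ⟨1, 0⟩, ⟨-2, -1⟩, ⟨-1, -1⟩, ⟨0, 0⟩⟩) (3, ⟨⟨0, -2⟩, ⟨0, 0⟩, ⟨1, -1⟩, ⟨1, 2⟩, ⟨0, 0⟩, ⟨0, 1⟩, ⟨-1, -2⟩, ⟨1, 0⟩, ⟨0, 0⟩⟩) (2,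 ⟨⟨-1, -1⟩, ⟨0, 0⟩, ⟨0, 0⟩, ⟨0, 0⟩, ⟨0, 0⟩, ⟨-1, -1⟩, ⟨1, -1⟩, ⟨1, 0⟩, ⟨2, 1⟩⟩),
  W6 (0, ⟨⟨1, 0⟩, ⟨-2, -1⟩, ⟨0, 0⟩, ⟨0, 0⟩, ⟨0, 0⟩, ⟨0, 1⟩, ⟨0, 0⟩, ⟨-1, -1⟩, ⟨-1, -2⟩⟩) (1, ⟨⟨1, 0⟩, ⟨-2, -1⟩, ⟨0, 0⟩, ⟨0, 0⟩, ⟨0, 0⟩, ⟨0, 1⟩, ⟨0, 0⟩, ⟨-1, -1⟩, ⟨-1, -2⟩⟩) (4, ⟨⟨2, 2⟩, ⟨1, 2⟩, ⟨0, 0⟩, ⟨0, 0⟩, ⟨0, 0⟩, ⟨1, 0⟩, ⟨-2, -1⟩, ⟨-1, -1⟩, ⟨0, 0⟩⟩) (5, ⟨⟨2, 2⟩, ⟨1, 2⟩, ⟨0, 0⟩, ⟨0, 0⟩, ⟨0, 0⟩, ⟨1, 0⟩, ⟨-2, -1⟩, ⟨-1, -1⟩, ⟨0, 0⟩⟩) (2, ⟨⟨-1,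 -1⟩, ⟨0, 0⟩, ⟨0, 0⟩, ⟨0, 0⟩, ⟨0, 0⟩, ⟨-1, -1⟩, ⟨1, -1⟩, ⟨1, 0⟩, ⟨2, 1⟩⟩) (3, ⟨⟨-1, -1⟩, ⟨0, 0⟩, ⟨0, 0⟩, ⟨0, 0⟩, ⟨0, 0⟩, ⟨-1, -1⟩, ⟨1, -1⟩, ⟨1, 0⟩, ⟨2, 1⟩⟩),
  W6 (5, ⟨⟨2, 1⟩, ⟨2, 1⟩, ⟨1, 0⟩, ⟨1, 2⟩, ⟨0, 1⟩, ⟨0, 0⟩, ⟨-1, -1⟩, ⟨0, 0⟩, ⟨0, 0⟩⟩) (4, ⟨⟨1, -1⟩, ⟨1, -1⟩, ⟨1, 0⟩, ⟨0, 0⟩, ⟨-1, -1⟩, ⟨0, 0⟩, ⟨1, 0⟩, ⟨2, 1⟩, ⟨0, 0⟩⟩) (3, ⟨⟨2, 1⟩, ⟨0, 0⟩, ⟨2, 2⟩, ⟨-2, -1⟩, ⟨1, 0⟩, ⟨-2, -1⟩, ⟨-2, 0⟩, ⟨0, 0⟩, ⟨-2, -1⟩⟩) (2, ⟨⟨1, -1⟩,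 ⟨0, 0⟩, ⟨1, 0⟩, ⟨0, 0⟩, ⟨1, 0⟩, ⟨0, 0⟩, ⟨0, 1⟩, ⟨0, 0⟩, ⟨0, 0⟩⟩) (1, ⟨⟨0, 0⟩, ⟨-1, -2⟩, ⟨0, -2⟩, ⟨0, 0⟩, ⟨2, 2⟩, ⟨1, 2⟩, ⟨1, 0⟩, ⟨-3, 0⟩, ⟨-2, -1⟩⟩) (0, ⟨⟨0, 0⟩, ⟨-2, -1⟩, ⟨-1, -1⟩, ⟨0, 0⟩, ⟨1, 0⟩, ⟨0, 0⟩, ⟨1, 0⟩, ⟨-1, 1⟩, ⟨0, 0⟩⟩),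
  W6 (4, ⟨⟨1, -1⟩, ⟨1, -1⟩, ⟨1, 0⟩, ⟨0, 0⟩, ⟨-1, -1⟩, ⟨0, 0⟩, ⟨1, 0⟩, ⟨2, 1⟩, ⟨0, 0⟩⟩) (5, ⟨⟨1, -1⟩, ⟨1, -1⟩, ⟨1, 0⟩, ⟨0, 0⟩, ⟨-1, -1⟩, ⟨0, 0⟩, ⟨1, 0⟩, ⟨2, 1⟩, ⟨0, 0⟩⟩) (2, ⟨⟨1, -1⟩, ⟨0, 0⟩, ⟨1, 0⟩, ⟨0, 0⟩, ⟨1, 0⟩, ⟨0, 0⟩, ⟨0, 1⟩, ⟨0, 0⟩, ⟨0, 0⟩⟩) (3, ⟨⟨1, -1⟩, ⟨0, 0⟩, ⟨1, 0⟩, ⟨0, 0⟩, ⟨1, 0⟩, ⟨0, 0⟩, ⟨0, 1⟩, ⟨0, 0⟩, ⟨0, 0⟩⟩) (0, ⟨⟨0, 0⟩, ⟨-2, -1⟩, ⟨-1, -1⟩, ⟨0, 0⟩, ⟨1, 0⟩, ⟨0, 0⟩, ⟨1, 0⟩, ⟨-1, 1⟩, ⟨0, 0⟩⟩) (1, ⟨⟨0, 0⟩,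 ⟨-2, -1⟩, ⟨-1, -1⟩, ⟨0, 0⟩, ⟨1, 0⟩, ⟨0, 0⟩, ⟨1, 0⟩, ⟨-1, 1⟩, ⟨0, 0⟩⟩),
  W6 (5, ⟨⟨1, -1⟩, ⟨1, -1⟩, ⟨1, 0⟩, ⟨0, 0⟩, ⟨-1, -1⟩, ⟨0, 0⟩, ⟨1, 0⟩, ⟨2, 1⟩, ⟨0, 0⟩⟩) (4, ⟨⟨0, 0⟩, ⟨0, 0⟩, ⟨1, 0⟩, ⟨-1, 1⟩, ⟨-2, 0⟩, ⟨0, 0⟩, ⟨0, -2⟩, ⟨1, -1⟩, ⟨0, 0⟩⟩) (3, ⟨⟨1, -1⟩, ⟨0, 0⟩, ⟨1, 0⟩, ⟨0, 0⟩, ⟨1, 0⟩, ⟨0, 0⟩, ⟨0, 1⟩, ⟨0, 0⟩, ⟨0, 0⟩⟩) (2, ⟨⟨0, 0⟩, ⟨0, 0⟩, ⟨0, 1⟩, ⟨-1, -2⟩, ⟨1, 0⟩, ⟨-1, -2⟩, ⟨-1, -1⟩, ⟨0, 0⟩, ⟨-1, -2⟩⟩) (1, ⟨⟨0, 0⟩, ⟨-2,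 -1⟩, ⟨-1, -1⟩, ⟨0, 0⟩, ⟨1, 0⟩, ⟨0, 0⟩, ⟨1, 0⟩, ⟨-1, 1⟩, ⟨0, 0⟩⟩) (0, ⟨⟨0, 0⟩, ⟨0, 0⟩, ⟨1, 0⟩, ⟨0, 0⟩, ⟨0, 1⟩, ⟨-1, 1⟩, ⟨1, 0⟩, ⟨-2, -1⟩, ⟨-1, -2⟩⟩),
  W6 (2, ⟨⟨-2, -1⟩, ⟨1, 0⟩, ⟨-2, -1⟩, ⟨0, 1⟩, ⟨0, 0⟩, ⟨-1, 1⟩, ⟨-1, -2⟩, ⟨0, 0⟩, ⟨0, -2⟩⟩) (3, ⟨⟨-2, -1⟩, ⟨1, 0⟩, ⟨-2, -1⟩, ⟨0, 1⟩, ⟨0, 0⟩, ⟨-1, 1⟩, ⟨-1, -2⟩, ⟨0, 0⟩, ⟨0, -2⟩⟩) (0, ⟨⟨0, 0⟩, ⟨0, -2⟩, ⟨1, -1⟩, ⟨1, 0⟩, ⟨0, 3⟩, ⟨-1, 1⟩, ⟨0, 0⟩, ⟨1, 2⟩, ⟨0, 1⟩⟩) (1, ⟨⟨0, 0⟩, ⟨0,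 -2⟩, ⟨1, -1⟩, ⟨1, 0⟩, ⟨0, 3⟩, ⟨-1, 1⟩, ⟨0, 0⟩, ⟨1, 2⟩, ⟨0, 1⟩⟩) (4, ⟨⟨1, -1⟩, ⟨1, 0⟩, ⟨0, 0⟩, ⟨0, 1⟩, ⟨0, 0⟩, ⟨0, 0⟩, ⟨-1, -2⟩, ⟨1, -1⟩, ⟨1, 0⟩⟩) (5, ⟨⟨1, -1⟩, ⟨1, 0⟩, ⟨0, 0⟩, ⟨0, 1⟩, ⟨0, 0⟩, ⟨0, 0⟩, ⟨-1, -2⟩, ⟨1, -1⟩, ⟨1, 0⟩⟩),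
  W6 (3, ⟨⟨-2, -1⟩, ⟨1, 0⟩, ⟨-2, -1⟩, ⟨0, 1⟩, ⟨0, 0⟩, ⟨-1, 1⟩, ⟨-1, -2⟩, ⟨0, 0⟩, ⟨0, -2⟩⟩) (2, ⟨⟨0, 0⟩, ⟨1, 0⟩, ⟨0, 0⟩, ⟨2, 2⟩, ⟨0, 0⟩, ⟨1, 2⟩, ⟨-2, -1⟩, ⟨0, 0⟩, ⟨-1, -1⟩⟩) (1, ⟨⟨0, 0⟩, ⟨0, -2⟩, ⟨1, -1⟩, ⟨1, 0⟩, ⟨0, 3⟩, ⟨-1, 1⟩, ⟨0, 0⟩, ⟨1, 2⟩, ⟨0, 1⟩⟩) (0, ⟨⟨0, 0⟩, ⟨-1, -1⟩, ⟨0, 0⟩, ⟨1, 0⟩, ⟨-1, 1⟩, ⟨-2, -1⟩, ⟨0, 0⟩, ⟨0, 0⟩, ⟨-1, -1⟩⟩) (5, ⟨⟨1, -1⟩, ⟨1, 0⟩, ⟨0, 0⟩, ⟨0, 1⟩, ⟨0, 0⟩, ⟨0, 0⟩, ⟨-1, -2⟩, ⟨1, -1⟩, ⟨1, 0⟩⟩) (4,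 ⟨⟨0, 0⟩, ⟨0, 1⟩, ⟨0, 0⟩, ⟨-1, -1⟩, ⟨-1, -2⟩, ⟨0, 0⟩, ⟨1, -1⟩, ⟨3, 0⟩, ⟨1, 0⟩⟩),
  W6 (2, ⟨⟨0, 0⟩, ⟨1, 0⟩, ⟨0, 0⟩, ⟨2, 2⟩, ⟨0, 0⟩, ⟨1, 2⟩, ⟨-2, -1⟩, ⟨0, 0⟩, ⟨-1, -1⟩⟩) (3, ⟨⟨0, 0⟩, ⟨1, 0⟩, ⟨0, 0⟩, ⟨2, 2⟩, ⟨0, 0⟩, ⟨1, 2⟩, ⟨-2, -1⟩, ⟨0, 0⟩, ⟨-1, -1⟩⟩) (0, ⟨⟨0, 0⟩, ⟨-1, -1⟩, ⟨0, 0⟩, ⟨1, 0⟩, ⟨-1, 1⟩, ⟨-2, -1⟩, ⟨0, 0⟩, ⟨0, 0⟩, ⟨-1, -1⟩⟩) (1, ⟨⟨0, 0⟩, ⟨-1, -1⟩, ⟨0, 0⟩, ⟨1, 0⟩, ⟨-1, 1⟩, ⟨-2, -1⟩, ⟨0, 0⟩, ⟨0, 0⟩, ⟨-1, -1⟩⟩) (4,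 ⟨⟨0, 0⟩, ⟨0, 1⟩, ⟨0, 0⟩, ⟨-1, -1⟩, ⟨-1, -2⟩, ⟨0, 0⟩, ⟨1, -1⟩, ⟨3, 0⟩, ⟨1, 0⟩⟩) (5, ⟨⟨0, 0⟩, ⟨0, 1⟩, ⟨0, 0⟩, ⟨-1, -1⟩, ⟨-1, -2⟩, ⟨0, 0⟩, ⟨1, -1⟩, ⟨3, 0⟩, ⟨1, 0⟩⟩),
  W6 (4, ⟨⟨3, 3⟩, ⟨1, 2⟩, ⟨1, 0⟩, ⟨1, 2⟩, ⟨0, 1⟩, ⟨0, 0⟩, ⟨-1, -1⟩, ⟨0, 0⟩, ⟨0, 0⟩⟩) (5, ⟨⟨3, 3⟩, ⟨1, 2⟩, ⟨1, 0⟩, ⟨1, 2⟩, ⟨0, 1⟩, ⟨0, 0⟩, ⟨-1, -1⟩, ⟨0, 0⟩, ⟨0, 0⟩⟩) (2, ⟨⟨0, 0⟩, ⟨0, 0⟩, ⟨0, 1⟩, ⟨1, -1⟩, ⟨1, 0⟩, ⟨0, 0⟩, ⟨-1, -1⟩, ⟨0, 0⟩, ⟨-1, -2⟩⟩) (3, ⟨⟨0, 0⟩,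 ⟨0, 0⟩, ⟨0, 1⟩, ⟨1, -1⟩, ⟨1, 0⟩, ⟨0, 0⟩, ⟨-1, -1⟩, ⟨0, 0⟩, ⟨-1, -2⟩⟩) (0, ⟨⟨0, 0⟩, ⟨-2, -1⟩, ⟨-1, -1⟩, ⟨0, 0⟩, ⟨1, 0⟩, ⟨0, 0⟩, ⟨1, 0⟩, ⟨0, 0⟩, ⟨2, 1⟩⟩) (1, ⟨⟨0, 0⟩, ⟨-2, -1⟩, ⟨-1, -1⟩, ⟨0, 0⟩, ⟨1, 0⟩, ⟨0, 0⟩, ⟨1, 0⟩, ⟨0, 0⟩, ⟨2, 1⟩⟩),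
  W6 (5, ⟨⟨3, 3⟩, ⟨1, 2⟩, ⟨1, 0⟩, ⟨1, 2⟩, ⟨0, 1⟩, ⟨0, 0⟩, ⟨-1, -1⟩, ⟨0, 0⟩, ⟨0, 0⟩⟩) (4, ⟨⟨2, 1⟩, ⟨0, 0⟩, ⟨1, 0⟩, ⟨0, 0⟩, ⟨-1, -1⟩, ⟨0, 0⟩, ⟨1, 0⟩, ⟨2, 1⟩, ⟨0, 0⟩⟩) (3, ⟨⟨0, 0⟩, ⟨0, 0⟩, ⟨0, 1⟩, ⟨1, -1⟩, ⟨1, 0⟩, ⟨0, 0⟩, ⟨-1, -1⟩, ⟨0, 0⟩, ⟨-1, -2⟩⟩) (2, ⟨⟨2, 1⟩, ⟨0, 0⟩, ⟨2, 2⟩, ⟨0, 0⟩, ⟨1, 0⟩, ⟨-1, 1⟩, ⟨-2, 0⟩, ⟨0, 0⟩, ⟨-2, -1⟩⟩) (1, ⟨⟨0, 0⟩, ⟨-2, -1⟩, ⟨-1, -1⟩, ⟨0, 0⟩, ⟨1, 0⟩, ⟨0, 0⟩, ⟨1, 0⟩, ⟨0, 0⟩, ⟨2, 1⟩⟩) (0, ⟨⟨0, 0⟩,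 ⟨0, 0⟩, ⟨1, 0⟩, ⟨0, 0⟩, ⟨0, 1⟩, ⟨-1, 1⟩, ⟨1, 0⟩, ⟨-1, -2⟩, ⟨1, -1⟩⟩),
  W6 (4, ⟨⟨2, 1⟩, ⟨0, 0⟩, ⟨1, 0⟩, ⟨0, 0⟩, ⟨-1, -1⟩, ⟨0, 0⟩, ⟨1, 0⟩, ⟨2, 1⟩, ⟨0, 0⟩⟩) (5, ⟨⟨2, 1⟩, ⟨0, 0⟩, ⟨1, 0⟩, ⟨0, 0⟩, ⟨-1, -1⟩, ⟨0, 0⟩, ⟨1, 0⟩, ⟨2, 1⟩, ⟨0, 0⟩⟩) (2, ⟨⟨2, 1⟩, ⟨0, 0⟩, ⟨2, 2⟩, ⟨0, 0⟩, ⟨1, 0⟩, ⟨-1, 1⟩, ⟨-2, 0⟩, ⟨0, 0⟩, ⟨-2, -1⟩⟩) (3, ⟨⟨2, 1⟩, ⟨0, 0⟩, ⟨2, 2⟩, ⟨0, 0⟩, ⟨1, 0⟩, ⟨-1, 1⟩, ⟨-2, 0⟩, ⟨0, 0⟩, ⟨-2, -1⟩⟩) (0, ⟨⟨0, 0⟩, ⟨0, 0⟩, ⟨1,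 0⟩, ⟨0, 0⟩, ⟨0, 1⟩, ⟨-1, 1⟩, ⟨1, 0⟩, ⟨-1, -2⟩, ⟨1, -1⟩⟩) (1, ⟨⟨0, 0⟩, ⟨0, 0⟩, ⟨1, 0⟩, ⟨0, 0⟩, ⟨0, 1⟩, ⟨-1, 1⟩, ⟨1, 0⟩, ⟨-1, -2⟩, ⟨1, -1⟩⟩),
  W6 (2, ⟨⟨1, -1⟩, ⟨1, 0⟩, ⟨0, 0⟩, ⟨1, 0⟩, ⟨0, 0⟩, ⟨0, 0⟩, ⟨0, 0⟩, ⟨0, 0⟩, ⟨1, 0⟩⟩) (3, ⟨⟨1, -1⟩, ⟨1, 0⟩, ⟨0, 0⟩, ⟨1, 0⟩, ⟨0, 0⟩, ⟨0, 0⟩, ⟨0, 0⟩, ⟨0, 0⟩, ⟨1, 0⟩⟩) (0, ⟨⟨0, 0⟩, ⟨-1, -1⟩, ⟨0, 0⟩, ⟨1, 0⟩, ⟨0, 0⟩, ⟨0, 0⟩, ⟨0, 0⟩, ⟨0, 0⟩, ⟨-1, -1⟩⟩) (1, ⟨⟨0, 0⟩, ⟨-1, -1⟩, ⟨0, 0⟩, ⟨1, 0⟩,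 ⟨0, 0⟩, ⟨0, 0⟩, ⟨0, 0⟩, ⟨0, 0⟩, ⟨-1, -1⟩⟩) (4, ⟨⟨1, -1⟩, ⟨1, 0⟩, ⟨0, 0⟩, ⟨0, 1⟩, ⟨0, 0⟩, ⟨0, 0⟩, ⟨0, 0⟩, ⟨0, 0⟩, ⟨1, 0⟩⟩) (5, ⟨⟨1, -1⟩, ⟨1, 0⟩, ⟨0, 0⟩, ⟨0, 1⟩, ⟨0, 0⟩, ⟨0, 0⟩, ⟨0, 0⟩, ⟨0, 0⟩, ⟨1, 0⟩⟩),
  W6 (3, ⟨⟨1, -1⟩, ⟨1, 0⟩, ⟨0, 0⟩, ⟨1, 0⟩, ⟨0, 0⟩, ⟨0, 0⟩, ⟨0, 0⟩, ⟨0, 0⟩, ⟨1, 0⟩⟩) (2, ⟨⟨0, 0⟩, ⟨1, 0⟩, ⟨-1, 1⟩, ⟨0, 1⟩, ⟨0, 0⟩, ⟨-1, 1⟩, ⟨-1, -2⟩, ⟨0, 0⟩, ⟨0, -2⟩⟩) (1, ⟨⟨0, 0⟩, ⟨-1, -1⟩, ⟨0, 0⟩, ⟨1, 0⟩, ⟨0, 0⟩, ⟨0, 0⟩,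 ⟨0, 0⟩, ⟨0, 0⟩, ⟨-1, -1⟩⟩) (0, ⟨⟨0, 0⟩, ⟨1, 0⟩, ⟨2, 1⟩, ⟨1, 0⟩, ⟨-1, 1⟩, ⟨-1, 1⟩, ⟨0, 0⟩, ⟨-1, 1⟩, ⟨-2, 0⟩⟩) (5, ⟨⟨1, -1⟩, ⟨1, 0⟩, ⟨0, 0⟩, ⟨0, 1⟩, ⟨0, 0⟩, ⟨0, 0⟩, ⟨0, 0⟩, ⟨0, 0⟩, ⟨1, 0⟩⟩) (4, ⟨⟨0, 0⟩, ⟨0, 1⟩, ⟨0, 0⟩, ⟨-1, -1⟩, ⟨-1, -2⟩, ⟨0, 0⟩, ⟨2, 1⟩, ⟨2, 1⟩, ⟨1, 0⟩⟩),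
  W6 (2, ⟨⟨0, 0⟩, ⟨1, 0⟩, ⟨-1, 1⟩, ⟨0, 1⟩, ⟨0, 0⟩, ⟨-1, 1⟩, ⟨-1, -2⟩, ⟨0, 0⟩, ⟨0, -2⟩⟩) (3, ⟨⟨0, 0⟩, ⟨1, 0⟩, ⟨-1, 1⟩, ⟨0, 1⟩, ⟨0, 0⟩, ⟨-1, 1⟩, ⟨-1, -2⟩, ⟨0, 0⟩, ⟨0, -2⟩⟩) (0, ⟨⟨0, 0⟩, ⟨1, 0⟩, ⟨2, 1⟩, ⟨1, 0⟩, ⟨-1, 1⟩, ⟨-1, 1⟩, ⟨0, 0⟩, ⟨-1, 1⟩, ⟨-2, 0⟩⟩) (1, ⟨⟨0, 0⟩, ⟨1, 0⟩, ⟨2, 1⟩, ⟨1, 0⟩, ⟨-1, 1⟩, ⟨-1, 1⟩, ⟨0, 0⟩, ⟨-1, 1⟩, ⟨-2, 0⟩⟩) (4, ⟨⟨0, 0⟩, ⟨0, 1⟩, ⟨0, 0⟩, ⟨-1, -1⟩, ⟨-1, -2⟩, ⟨0, 0⟩, ⟨2, 1⟩, ⟨2, 1⟩, ⟨1, 0⟩⟩) (5, ⟨⟨0,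 0⟩, ⟨0, 1⟩, ⟨0, 0⟩, ⟨-1, -1⟩, ⟨-1, -2⟩, ⟨0, 0⟩, ⟨2, 1⟩, ⟨2, 1⟩, ⟨1, 0⟩⟩),
  W6 (0, ⟨⟨1, 0⟩, ⟨0, 0⟩, ⟨0, 0⟩, ⟨0, 0⟩, ⟨1, -1⟩, ⟨1, 0⟩, ⟨0, 0⟩, ⟨0, 1⟩, ⟨0, 0⟩⟩) (1, ⟨⟨1, 0⟩, ⟨0, 0⟩, ⟨0, 0⟩, ⟨0, 0⟩, ⟨1, -1⟩, ⟨1, 0⟩, ⟨0, 0⟩, ⟨0, 1⟩, ⟨0, 0⟩⟩) (4, ⟨⟨1, 0⟩, ⟨0, 0⟩, ⟨0, 0⟩, ⟨0, 0⟩, ⟨1, -1⟩, ⟨1, 0⟩, ⟨0, 0⟩, ⟨1, 0⟩, ⟨0, 0⟩⟩) (5, ⟨⟨1, 0⟩, ⟨0, 0⟩, ⟨0, 0⟩, ⟨0, 0⟩, ⟨1, -1⟩, ⟨1, 0⟩, ⟨0, 0⟩, ⟨1, 0⟩, ⟨0, 0⟩⟩) (2, ⟨⟨-1, -1⟩, ⟨0, 0⟩, ⟨0,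 0⟩, ⟨0, 0⟩, ⟨0, 0⟩, ⟨-1, -1⟩, ⟨0, 0⟩, ⟨1, 0⟩, ⟨0, 0⟩⟩) (3, ⟨⟨-1, -1⟩, ⟨0, 0⟩, ⟨0, 0⟩, ⟨0, 0⟩, ⟨0, 0⟩, ⟨-1, -1⟩, ⟨0, 0⟩, ⟨1, 0⟩, ⟨0, 0⟩⟩),
  W6 (1, ⟨⟨1, 0⟩, ⟨0, 0⟩, ⟨0, 0⟩, ⟨0, 0⟩, ⟨1, -1⟩, ⟨1, 0⟩, ⟨0, 0⟩, ⟨0, 1⟩, ⟨0, 0⟩⟩) (0, ⟨⟨1, 0⟩, ⟨-1, 1⟩, ⟨-1, 1⟩, ⟨0, 0⟩, ⟨0, 0⟩, ⟨0, 1⟩, ⟨0, 0⟩, ⟨-1, -1⟩, ⟨-1, -2⟩⟩) (5, ⟨⟨1, 0⟩, ⟨0, 0⟩, ⟨0, 0⟩, ⟨0, 0⟩, ⟨1, -1⟩, ⟨1, 0⟩, ⟨0, 0⟩, ⟨1, 0⟩, ⟨0, 0⟩⟩) (4, ⟨⟨0, 1⟩, ⟨-1, 1⟩, ⟨0, 0⟩, ⟨-1, -2⟩,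 ⟨0, -3⟩, ⟨1, 0⟩, ⟨-1, -2⟩, ⟨0, -2⟩, ⟨0, 0⟩⟩) (3, ⟨⟨-1, -1⟩, ⟨0, 0⟩, ⟨0, 0⟩, ⟨0, 0⟩, ⟨0, 0⟩, ⟨-1, -1⟩, ⟨0, 0⟩, ⟨1, 0⟩, ⟨0, 0⟩⟩) (2, ⟨⟨1, 0⟩, ⟨0, 0⟩, ⟨2, 1⟩, ⟨-1, 1⟩, ⟨0, 0⟩, ⟨-2, 0⟩, ⟨-1, -2⟩, ⟨1, 0⟩, ⟨-1, -2⟩⟩),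
  W6 (0, ⟨⟨1, 0⟩, ⟨-1, 1⟩, ⟨-1, 1⟩, ⟨0, 0⟩, ⟨0, 0⟩, ⟨0, 1⟩, ⟨0, 0⟩, ⟨-1, -1⟩, ⟨-1, -2⟩⟩) (1, ⟨⟨1, 0⟩, ⟨-1, 1⟩, ⟨-1, 1⟩, ⟨0, 0⟩, ⟨0, 0⟩, ⟨0, 1⟩, ⟨0, 0⟩, ⟨-1, -1⟩, ⟨-1, -2⟩⟩) (4, ⟨⟨0, 1⟩, ⟨-1, 1⟩, ⟨0, 0⟩, ⟨-1, -2⟩, ⟨0, -3⟩, ⟨1, 0⟩, ⟨-1, -2⟩, ⟨0, -2⟩, ⟨0, 0⟩⟩) (5, ⟨⟨0, 1⟩, ⟨-1, 1⟩, ⟨0, 0⟩, ⟨-1, -2⟩, ⟨0, -3⟩, ⟨1, 0⟩, ⟨-1, -2⟩, ⟨0, -2⟩, ⟨0, 0⟩⟩) (2, ⟨⟨1, 0⟩, ⟨0, 0⟩, ⟨2, 1⟩, ⟨-1, 1⟩, ⟨0, 0⟩, ⟨-2, 0⟩, ⟨-1, -2⟩, ⟨1, 0⟩, ⟨-1, -2⟩⟩)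 (3, ⟨⟨1, 0⟩, ⟨0, 0⟩, ⟨2, 1⟩, ⟨-1, 1⟩, ⟨0, 0⟩, ⟨-2, 0⟩, ⟨-1, -2⟩, ⟨1, 0⟩, ⟨-1, -2⟩⟩)]

/-- table value -/
def rv (k : Fin 6) (z : Eis) (m : ℤ) : Wr := match k with
  | 0 => rtab0.getD (rix z m) 1
  | 1 => rtab1.getD (rix z m) 1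
  | 2 => rtab2.getD (rix z m) 1
  | 3 => rtab3.getD (rix z m) 1
  | 4 => rtab4.getD (rix z m) 1
  | 5 => rtab5.getD (rix z m) 1

/-- the box -/
def box3 : List ℤ := [-1, 0, 1]

theorem rv_ok0 : ∀ a ∈ box3, ∀ b ∈ box3, ∀ m ∈ box3, rinf 0 ⟨a, b⟩ m = rv 0 ⟨a, b⟩ m := by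
  decide +kernel

theorem rv_ok1 : ∀ a ∈ box3, ∀ b ∈ box3, ∀ m ∈ box3, rinf 1 ⟨a, b⟩ m = rv 1 ⟨a, b⟩ m := by
  decide +kernel

theorem rv_ok2 : ∀ a ∈ box3, ∀ b ∈ box3, ∀ m ∈ box3, rinf 2 ⟨a, b⟩ m = rv 2 ⟨a, b⟩ m := by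
  decide +kernel

theorem rv_ok3 : ∀ a ∈ box3, ∀ b ∈ box3, ∀ m ∈ box3, rinf 3 ⟨a, b⟩ m = rv 3 ⟨a, b⟩ m := by
  decide +kernel

theorem rv_ok4 : ∀ a ∈ box3, ∀ b ∈ box3, ∀ m ∈ box3, rinf 4 ⟨a, b⟩ m = rv 4 ⟨a, b⟩ m := by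
  decide +kernel

theorem rv_ok5 : ∀ a ∈ box3, ∀ b ∈ box3, ∀ m ∈ box3, rinf 5 ⟨a, b⟩ m = rv 5 ⟨a, b⟩ m := by
  decide +kernel

end Pool.Agent.H13.DM
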