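import Mathlib
import Pool.Agent.H13.DM.Types

/-!
MP_9d29f5_al, project DM, block B, file RhoInf (job DM-RINF).
Prove the theorems in place (helper lemmas welcome).

pmat u k z m = zeta^u * diag(1, zeta^k, 1) * T(z, m) are the elements of the stabiliser P of the cusp (1,0,0).
rinf k z m = Du^k * Xu^a * Yu^b * Zu^(m - a b) for z = a + b w, elements Du, Xu, Yu, Zu of the unit group of Wr.

PAPER PROOFS.
(1) pmat_mul: direct computation: T(z,m) T(z',m') = T(z+z', m+m'+(a d - b c)) for z = a + b w, z' = c + d w, and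
diag(1,zeta^-k,1) T(z,m) diag(1,zeta^k,1) = T(z zeta^k, m). For the units: Eis.unit (u + u') = Eis.unit u * Eis.unit u' (decide).
Compare the nine entries as polynomials in a, b, c, d, m, m' after fin_cases on u, u', k, k' or (better) after treating units abstractly with
unit k * conj (unit k) = 1.
(2) rinf_mul. Relations in the unit group of Wr (all by decide +kernel on the values, e.g. Units.ext):
 X Z = Z X, Y Z = Z Y, D Z = Z D, X Y = Y X Z^2, D^6 = 1, D^-1 X D = X Y Z^-1, D^-1 Y D = X^-1.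
From X Y = Y X Z^2 with Z central: Y^b X^a = X^a Y^b Z^(-2ab) for all integers a, b. (Two inductions, or: conjugation by Y^b is an automorphism sending X to X Z^(-2b).)
So with h(a,b,m) := X^a Y^b Z^(m - a b): h(a,b,m) h(c,d,m') = X^(a+c) Y^(b+d) Z^(m + m' - a b - c d - 2 b c) = h(a+c, b+d, m + m' + a d - b c).
 (since (a+c)(b+d) = ab + cd + ad + bc, and m+m'+ad-bc-(ab+cd+ad+bc) = m+m'-ab-cd-2bc.)
Conjugation: D^-1 h(a,b,m) D = (X Y Z^-1)^a (X^-1)^b Z^(m - a b) = h(1,1,0)^a h(-1,0,0)^b Z^(m-ab). By the product rule h(1,1,0)^a = h(a,a,0) and h(-1,0,0)^b = h(-b,0,0), so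
 = h(a,a,0) h(-b,0,0) Z^(m-ab) = h(a-b, a, 0 + a*0 - a*(-b)) Z^(m-ab) = h(a-b, a, m). And z zeta = (a + b w)(1 + w) = (a - b) + a w. So D^-1 h(z,m) D = h(z zeta, m), hence
D^-k h(z,m) D^k = h(z zeta^k, m). Together rinf k z m * rinf k' z' m' = D^k h(z,m) D^k' h(z',m') = D^(k+k') h(z zeta^k', m) h(z',m').
Exponent of D: (k + k' : Fin 6) versus the sum in N: use D^6 = 1.
(3) rinf_zero: values at 0.
-/
set_option autoImplicit false

namespace Pool.Agent.H13.DM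

theorem unit_add (u v : Fin 6) : Eis.unit (u + v) = Eis.unit u * Eis.unit v := by
  revert u v
  decide

theorem rhoInf_unit_conj (u : Fin 6) : Eis.unit u * (Eis.unit u).conj = 1 := by
  revert u
  decide

theorem rhoInf_conj_mul (x y : Eis) : (x * y).conj = x.conj * y.conj := by
  ext <;> simp <;> ring

theorem rhoInf_conj_add (x y : Eis) : (x + y).conj = x.conj + y.conj := by
  ext <;> simp <;> ring

theorem rhoInf_conj_conj (x : Eis) : x.conj.conj = x := by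
  ext <;> simp

theorem rhoInf_conj_zero : (0 : Eis).conj = 0 := by decide

theorem rhoInf_unit_inj : ∀ u v : Fin 6, Eis.unit u = Eis.unit v → u = v := by decide

theorem rhoInf_key (k' : Fin 6) (z z' : Eis) (m m' : ℤ) :
    (⟨m - z.nrm, 2 * m⟩ : Eis) + z * Eis.unit k' * (⟨-2, 0⟩ * z'.conj) + ⟨m' - z'.nrm, 2 * m'⟩ =
      ⟨(m + m' + ((z * Eis.unit k').a * z'.b - (z * Eis.unit k').b * z'.a)) -
        (z * Eis.unit k' + z').nrm,
        2 * (m + m' + ((z * Eis.unit k').a * z'.b - (z * Eis.unit k').b * z'.a))⟩ := by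
  have h : (z * Eis.unit k').nrm = z.nrm := by
    fin_cases k' <;> simp [Eis.unit, Eis.nrm] <;> ring
  rw [← h]
  generalize z * Eis.unit k' = y
  ext <;> simp [Eis.nrm] <;> ring

theorem pmat_mul (u k u' k' : Fin 6) (z z' : Eis) (m m' : ℤ) :
    pmat u k z m * pmat u' k' z' m'
      = pmat (u + u') (k + k') (z * Eis.unit k' + z')
        (m + m' + ((z * Eis.unit k').a * z'.b - (z * Eis.unit k').b * z'.a)) := by
  have hK := rhoInf_unit_conj k'
  have key := rhoInf_key k' z z' m m'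
  have hc : (z * Eis.unit k' + z').conj = z.conj * (Eis.unit k').conj + z'.conj := by
    rw [rhoInf_conj_add, rhoInf_conj_mul]
  simp only [pmat, M3.mul_def, unit_add]
  rw [← key, hc]
  generalize (⟨m - z.nrm, 2 * m⟩ : Eis) = A
  generalize (⟨m' - z'.nrm, 2 * m'⟩ : Eis) = B
  ext1 <;> dsimp only
  · ring
  · ring
  · ring
  · linear_combination (Eis.unit u * Eis.unit u' * Eis.unit k * (⟨-2, 0⟩ * z.conj)) * (-hK)
  · ring
  · ring
  · ring
  · ring
  · ring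

section
variable {G : Type*} [Group G] (X Y Z D : G)

/-- the normal form -/
def rhoInf_h (a b m : ℤ) : G := X ^ a * Y ^ b * Z ^ (m - a * b)

theorem rhoInf_comm (hXZ : X * Z = Z * X) (hYZ : Y * Z = Z * Y)
    (hXY : X * Y = Y * X * Z ^ 2) (b c : ℤ) :
    Y ^ b * X ^ c = X ^ c * Y ^ b * Z ^ (-2 * b * c) := by
  have cXZ : Commute X Z := hXZ
  have cYZ : Commute Y Z := hYZ
  have h1 : SemiconjBy Y X (X * Z ^ (-2 : ℤ)) := by
    change Y * X = X * Z ^ (-2 : ℤ) * Y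
    rw [mul_assoc, ← (cYZ.zpow_right (-2)).eq, ← mul_assoc, hXY]
    group
  have h2 : Y * X ^ c = X ^ c * Z ^ (-2 * c) * Y := by
    have := (h1.zpow_right c).eq
    rw [(cXZ.zpow_right (-2)).mul_zpow, ← zpow_mul] at this
    exact this
  have h3 : SemiconjBy (X ^ (-c)) Y (Y * Z ^ (-2 * c)) := by
    change X ^ (-c) * Y = Y * Z ^ (-2 * c) * X ^ (-c)
    rw [zpow_neg, inv_mul_eq_iff_eq_mul, ← mul_assoc, ← mul_assoc, eq_mul_inv_iff_mul_eq, h2,
      mul_assoc, mul_assoc, (cYZ.zpow_right (-2 * c)).eq]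
  have h4 := (h3.zpow_right b).eq
  rw [(cYZ.zpow_right (-2 * c)).mul_zpow, ← zpow_mul, zpow_neg, inv_mul_eq_iff_eq_mul,
    ← mul_assoc, ← mul_assoc, eq_mul_inv_iff_mul_eq] at h4
  rw [h4, show -2 * c * b = -2 * b * c by ring]

theorem rhoInf_h_mul (hXZ : X * Z = Z * X) (hYZ : Y * Z = Z * Y)
    (hXY : X * Y = Y * X * Z ^ 2) (a b m c d n : ℤ) :
    rhoInf_h X Y Z a b m * rhoInf_h X Y Z c d n =
      rhoInf_h X Y Z (a + c) (b + d) (m + n + (a * d - b * c)) := by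
  have cXZ : Commute X Z := hXZ
  have cYZ : Commute Y Z := hYZ
  unfold rhoInf_h
  have e1 : Z ^ (m - a * b) * X ^ c = X ^ c * Z ^ (m - a * b) :=
    ((cXZ.zpow_zpow c (m - a * b)).eq).symm
  have e2 : ∀ i : ℤ, Z ^ i * Y ^ d = Y ^ d * Z ^ i := fun i => ((cYZ.zpow_zpow d i).eq).symm
  calc X ^ a * Y ^ b * Z ^ (m - a * b) * (X ^ c * Y ^ d * Z ^ (n - c * d))
      = X ^ a * Y ^ b * (Z ^ (m - a * b) * X ^ c) * Y ^ d * Z ^ (n - c * d) := by group
    _ = X ^ a * (Y ^ b * X ^ c) * (Z ^ (m - a * b) * Y ^ d) * Z ^ (n - c * d) := by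
        rw [e1]; group
    _ = X ^ a * X ^ c * Y ^ b * (Z ^ (-2 * b * c) * Y ^ d) * Z ^ (m - a * b) * Z ^ (n - c * d) := by
        rw [rhoInf_comm X Y Z hXZ hYZ hXY, e2]; group
    _ = (X ^ a * X ^ c) * (Y ^ b * Y ^ d) *
          (Z ^ (-2 * b * c) * Z ^ (m - a * b) * Z ^ (n - c * d)) := by
        rw [e2]; group
    _ = _ := by
        rw [← zpow_add, ← zpow_add, ← zpow_add, ← zpow_add]
        congr 2
        ring

theorem rhoInf_h_zero : rhoInf_h X Y Z 0 0 0 = 1 := by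
  simp [rhoInf_h]

theorem rhoInf_h_pow (hXZ : X * Z = Z * X) (hYZ : Y * Z = Z * Y)
    (hXY : X * Y = Y * X * Z ^ 2) (a b n : ℤ) :
    rhoInf_h X Y Z a b 0 ^ n = rhoInf_h X Y Z (n * a) (n * b) 0 := by
  have hinv : (rhoInf_h X Y Z a b 0)⁻¹ = rhoInf_h X Y Z (-a) (-b) 0 := by
    rw [inv_eq_iff_mul_eq_one, rhoInf_h_mul X Y Z hXZ hYZ hXY, ← rhoInf_h_zero X Y Z]
    congr 1 <;> ring
  induction n using Int.induction_on with
  | zero => simp [rhoInf_h]
  | succ i ih =>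
    rw [zpow_add_one, ih, rhoInf_h_mul X Y Z hXZ hYZ hXY]
    congr 1 <;> ring
  | pred i ih =>
    rw [zpow_sub_one, ih, hinv, rhoInf_h_mul X Y Z hXZ hYZ hXY]
    congr 1 <;> ring

theorem rhoInf_h_D (hXZ : X * Z = Z * X) (hYZ : Y * Z = Z * Y)
    (hXY : X * Y = Y * X * Z ^ 2) (hDZ : D * Z = Z * D) (hDX : X * D = D * (X * Y * Z⁻¹))
    (hDY : Y * D = D * X⁻¹) (a b m : ℤ) :
    rhoInf_h X Y Z a b m * D = D * rhoInf_h X Y Z (a - b) a m := by
  have s1 : SemiconjBy D (X * Y * Z⁻¹) X := hDX.symm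
  have s2 : SemiconjBy D X⁻¹ Y := hDY.symm
  have s3 : SemiconjBy D Z Z := hDZ
  have s := ((s1.zpow_right a).mul_right (s2.zpow_right b)).mul_right (s3.zpow_right (m - a * b))
  have s' : D * ((X * Y * Z⁻¹) ^ a * X⁻¹ ^ b * Z ^ (m - a * b)) =
      X ^ a * Y ^ b * Z ^ (m - a * b) * D := s.eq
  have e1 : X * Y * Z⁻¹ = rhoInf_h X Y Z 1 1 0 := by simp [rhoInf_h]
  have e2 : X⁻¹ = rhoInf_h X Y Z (-1) 0 0 := by simp [rhoInf_h]
  have e3 : Z ^ (m - a * b) = rhoInf_h X Y Z 0 0 (m - a * b) := by simp [rhoInf_h]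
  rw [e1, e2, rhoInf_h_pow X Y Z hXZ hYZ hXY, rhoInf_h_pow X Y Z hXZ hYZ hXY,
    rhoInf_h_mul X Y Z hXZ hYZ hXY, e3, rhoInf_h_mul X Y Z hXZ hYZ hXY, ← e3] at s'
  rw [show rhoInf_h X Y Z a b m = X ^ a * Y ^ b * Z ^ (m - a * b) from rfl, ← s']
  congr 2 <;> ring

end

theorem rhoInf_XZ : Xu * Zu = Zu * Xu := Units.ext (by decide +kernel)
theorem rhoInf_YZ : Yu * Zu = Zu * Yu := Units.ext (by decide +kernel)
theorem rhoInf_XY : Xu * Yu = Yu * Xu * Zu ^ 2 := Units.ext (by decide +kernel)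
theorem rhoInf_DZ : Du * Zu = Zu * Du := Units.ext (by decide +kernel)
theorem rhoInf_DX : Xu * Du = Du * (Xu * Yu * Zu⁻¹) := Units.ext (by decide +kernel)
theorem rhoInf_DY : Yu * Du = Du * Xu⁻¹ := Units.ext (by decide +kernel)
theorem rhoInf_D6 : Du ^ 6 = 1 := Units.ext (by decide +kernel)

attribute [local irreducible] Xu Yu Zu Du

/-- the normal form for Eisenstein integers -/
noncomputable def rhoInf_H (z : Eis) (m : ℤ) : Wrˣ := rhoInf_h Xu Yu Zu z.a z.b m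

theorem rhoInf_H_mul (z z' : Eis) (m m' : ℤ) : rhoInf_H z m * rhoInf_H z' m' =
    rhoInf_H (z + z') (m + m' + (z.a * z'.b - z.b * z'.a)) := by
  unfold rhoInf_H
  rw [rhoInf_h_mul Xu Yu Zu rhoInf_XZ rhoInf_YZ rhoInf_XY z.a z.b m z'.a z'.b m', Eis.add_a,
    Eis.add_b]

theorem rhoInf_H_D (z : Eis) (m : ℤ) : rhoInf_H z m * Du = Du * rhoInf_H (z * ⟨1, 1⟩) m := by
  have h := rhoInf_h_D Xu Yu Zu Du rhoInf_XZ rhoInf_YZ rhoInf_XY rhoInf_DZ rhoInf_DX rhoInf_DY
    z.a z.b m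
  unfold rhoInf_H
  rw [h]
  congr 2 <;> simp

theorem rhoInf_H_Dpow (n : ℕ) (z : Eis) (m : ℤ) :
    rhoInf_H z m * Du ^ n = Du ^ n * rhoInf_H (z * ⟨1, 1⟩ ^ n) m := by
  induction n generalizing z with
  | zero => simp
  | succ n ih =>
    rw [pow_succ, ← mul_assoc, ih, mul_assoc, rhoInf_H_D, pow_succ, ← mul_assoc, ← mul_assoc]

theorem rhoInf_unit_pow (k : Fin 6) : Eis.unit k = ⟨1, 1⟩ ^ (k : ℕ) := by
  fin_cases k <;> decide

theorem rhoInf_eq (k : Fin 6) (z : Eis) (m : ℤ) :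
    rinf k z m = ((Du ^ (k : ℕ) * rhoInf_H z m : Wrˣ) : Wr) := by
  unfold rinf rhoInf_H rhoInf_h
  rw [mul_assoc, mul_assoc, mul_assoc]

theorem rinf_mul (k k' : Fin 6) (z z' : Eis) (m m' : ℤ) :
    rinf k z m * rinf k' z' m'
      = rinf (k + k') (z * Eis.unit k' + z')
        (m + m' + ((z * Eis.unit k').a * z'.b - (z * Eis.unit k').b * z'.a)) := by
  rw [rhoInf_eq, rhoInf_eq, rhoInf_eq, ← Units.val_mul]
  congr 1
  rw [← rhoInf_H_mul, mul_assoc, ← mul_assoc (rhoInf_H z m), rhoInf_H_Dpow, ← rhoInf_unit_pow,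
    mul_assoc, ← mul_assoc, ← pow_add, Fin.val_add, ← pow_eq_pow_mod _ rhoInf_D6]

theorem rinf_zero : rinf 0 0 0 = 1 := by
  simp [rinf]

theorem pmat_isU (u k : Fin 6) (z : Eis) (m : ℤ) : M3.IsU (pmat u k z m) := by
  have hU := rhoInf_unit_conj u
  have hK := rhoInf_unit_conj k
  have h3 : (⟨-2, 0⟩ : Eis) = -2 := by decide
  have h4 : (⟨m - z.nrm, 2 * m⟩ : Eis) + (⟨m - z.nrm, 2 * m⟩ : Eis).conj = -2 * (z * z.conj) := by
    rw [← h3]
    ext <;> simp [Eis.nrm] <;> ring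
  have h5 : (-2 : Eis).conj = -2 := by decide
  unfold M3.IsU
  simp only [pmat, M3.mul_def, M3.H, M3.adj, rhoInf_conj_mul, rhoInf_conj_zero,
    rhoInf_conj_conj, h3, h5]
  generalize (⟨m - z.nrm, 2 * m⟩ : Eis) = A at *
  ext1 <;> dsimp only
  · ring
  · ring
  · linear_combination hU
  · ring
  · linear_combination 2 * (Eis.unit k * (Eis.unit k).conj) * hU + 2 * hK
  · ring
  · linear_combination hU
  · ring
  · linear_combination (Eis.unit u * (Eis.unit u).conj) * h4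

theorem pmat_inj (u k u' k' : Fin 6) (z z' : Eis) (m m' : ℤ)
    (h : pmat u k z m = pmat u' k' z' m') : u = u' ∧ k = k' ∧ z = z' ∧ m = m' := by
  have hu : u = u' := rhoInf_unit_inj u u' (congrArg M3.x00 h)
  subst hu
  have hU := rhoInf_unit_conj u
  have hcancel : ∀ x y : Eis, Eis.unit u * x = Eis.unit u * y → x = y := by
    intro x y hxy
    calc x = (Eis.unit u * (Eis.unit u).conj) * x := by rw [hU, one_mul]
      _ = (Eis.unit u).conj * (Eis.unit u * x) := by ring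
      _ = (Eis.unit u).conj * (Eis.unit u * y) := by rw [hxy]
      _ = (Eis.unit u * (Eis.unit u).conj) * y := by ring
      _ = y := by rw [hU, one_mul]
  have hk : k = k' := rhoInf_unit_inj k k' (hcancel _ _ (congrArg M3.x11 h))
  have hz : z = z' := hcancel _ _ (congrArg M3.x21 h)
  have hm := congrArg Eis.b (hcancel _ _ (congrArg M3.x20 h))
  refine ⟨rfl, hk, hz, ?_⟩
  change 2 * m = 2 * m' at hm
  omega

end Pool.Agent.H13.DM
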