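import Mathlib
import Pool.Agent.H13.DM.RhoInf
import Pool.Agent.H13.DM.RTab

/-!
MP_9d29f5_al, project DM, block B, file Bound (job DM-BOUND).
Prove the theorem in place (helper lemmas welcome).

PAPER PROOF. The entry x02 of gM i * pmat 0 k z m * gM j is V = a y0 + b (-2 conj z zeta^k y0 + zeta^k y1) + c ((m - N(z) + 2 m w) y0 + z y1 + y2) where (a,b,c) = row 0 of gM i,
(y0,y1,y2) = column 2 of gM j. Rows: i=0 (0,0,1), 1 (1,0,-theta), 2 (1,0,theta), 3 (theta,0,-2), 4 (1,-1,-2zeta), 5 (1,zeta,2w).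
Columns: 0 (1,0,0), 1 (-theta,0,1), 2 (theta,0,1), 3 (-2,0,-theta), 4 (-2zeta,-2w,1), 5 (2w,-2,1).
For i, j <= 3 no k occurs and V is a function of N(z) and m, e.g. (0,0): V = -N(z) + m theta, N(V) = N(z)^2 + 3 m^2; (1,1): V = 3N(z) - (3m+2) theta.
General estimate: put x = (row 0 of gM i) * pmat 0 k z m, y = row 0 of (gM j)^-1; then V = <x,y> with the Hermitian form <x,y> = x0 conj y2 + 2 x1 conj y1 + x2 conj y0, both isotropic, and
Re( V conj(x2) y2 ) = - N(x1 y2 - x2 y1) exactly. So N(x1 y2 - x2 y1) <= |V| |x2| |y2|, N(x1 y2 - x2 y1)^2 <= 4 N(c) N(y0) <= 64, where x1 = b zeta^k + c z, x2 = c, and N(y2) = N(column entry y0).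
Since N(c y2 z) <= 2 N(x1 y2 - x2 y1) + 2 N(b zeta^k y2 - c y1): N(z) is at most 3 in all cases, so |z.a|, |z.b| <= 2. For fixed z (25 values) V is affine in m with coefficient c y0 theta, N(c y0 theta) >= 3,
so |m| is bounded (|m| <= 3 suffices); then a finite check (decide +kernel, or interval_cases + norm_num): 36 pairs, 6 values of k, 25 z, 7 m. One can also treat the 36 pairs (i,j) by nlinarith separately.
The claim was verified by machine on the box |z.a|,|z.b| <= 3, |m| <= 4.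
-/
set_option autoImplicit false

namespace Pool.Agent.H13.DM

/-- twice the real part -/
def Bound_tr (x : Eis) : ℤ := 2 * x.a - x.b

/-- the entry x02 of the product -/
def Bound_V (a b c y0 y1 y2 z : Eis) (m : ℤ) : Eis :=
  a * y0 + b * (⟨-2, 0⟩ * z.conj * y0 + y1) + c * (⟨m - z.nrm, 2 * m⟩ * y0 + z * y1 + y2)

theorem Bound_entry (P Q : M3) (k : Fin 6) (z : Eis) (m : ℤ) :
    (P * pmat 0 k z m * Q).x02 =
      Bound_V P.x00 (P.x01 * Eis.unit k) P.x02 Q.x02 Q.x12 Q.x22 z m := by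
  have h0 : Eis.unit 0 = 1 := rfl
  simp only [M3.mul_def, pmat, h0, Bound_V]
  ring

theorem Bound_nrm_mul (x y : Eis) : (x * y).nrm = x.nrm * y.nrm := by
  simp only [Eis.nrm, Eis.mul_a, Eis.mul_b]
  ring

theorem Bound_nrm_conj (x : Eis) : x.conj.nrm = x.nrm := by
  simp only [Eis.nrm, Eis.conj_a, Eis.conj_b]
  ring

theorem Bound_tr_sq (x : Eis) : Bound_tr x ^ 2 ≤ 4 * x.nrm := by
  simp only [Eis.nrm, Bound_tr]
  nlinarith [mul_self_nonneg x.b]

theorem Bound_nrm_nonneg (x : Eis) : 0 ≤ x.nrm := by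
  simp only [Eis.nrm]
  nlinarith [sq_nonneg (x.a - x.b), sq_nonneg (x.a + x.b), sq_nonneg x.a, sq_nonneg x.b]

theorem Bound_nrm_sub (x y : Eis) : (x - y).nrm ≤ 2 * x.nrm + 2 * y.nrm := by
  have h := Bound_nrm_nonneg (x + y)
  simp only [Eis.nrm, Eis.sub_a, Eis.sub_b, Eis.add_a, Eis.add_b] at *
  nlinarith

/-- the exact identity for the real part -/
theorem Bound_ident (a b c y0 y1 y2 z : Eis) (m : ℤ)
    (h1 : Bound_tr (a * c.conj) + 2 * b.nrm = 0)
    (h2 : 2 * Bound_tr (y0 * y2.conj) + y1.nrm = 0) :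
    (⟨2, 0⟩ * c * y0.conj * z + (⟨2, 0⟩ * b * y0.conj - c * y1.conj)).nrm =
      -2 * Bound_tr (Bound_V a b c y0 y1 y2 z m * (c * y0).conj) := by
  simp only [Eis.nrm, Bound_tr, Bound_V, Eis.mul_a, Eis.mul_b, Eis.add_a, Eis.add_b,
    Eis.conj_a, Eis.conj_b, Eis.sub_a, Eis.sub_b] at *
  linear_combination (2 * (y0.a * y0.a - y0.a * y0.b + y0.b * y0.b)) * h1 +
    (c.a * c.a - c.a * c.b + c.b * c.b) * h2

/-- constants of a pair -/
def Bound_D (i j : Fin 6) : ℤ := (gM i).x02.nrm * (gM j).x02.nrm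

def Bound_t (i j k : Fin 6) : Eis :=
  ⟨2, 0⟩ * ((gM i).x01 * Eis.unit k) * (gM j).x02.conj - (gM i).x02 * (gM j).x12.conj

theorem Bound_check0 : ∀ i j k : Fin 6,
    Bound_tr ((gM i).x00 * (gM i).x02.conj) + 2 * ((gM i).x01 * Eis.unit k).nrm = 0 ∧
    2 * Bound_tr ((gM j).x02 * (gM j).x22.conj) + (gM j).x12.nrm = 0 ∧ 0 < Bound_D i j ∧
    0 < 20 * Bound_D i j - 2 * (Bound_t i j k).nrm ∧
    256 * Bound_D i j < (20 * Bound_D i j - 2 * (Bound_t i j k).nrm) ^ 2 := by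
  decide +kernel

/-- the entry at `m = 0` -/
def Bound_V0 (i j k : Fin 6) (z : Eis) : Eis :=
  Bound_V (gM i).x00 ((gM i).x01 * Eis.unit k) (gM i).x02 (gM j).x02 (gM j).x12 (gM j).x22 z 0

def Bound_T (i j : Fin 6) : Eis := (gM i).x02 * (gM j).x02 * ⟨1, 2⟩

def Bound_l2 : List ℤ := [-2, -1, 0, 1, 2]
def Bound_l6 : List ℤ := [-6, -5, -4, -3, -2, 2, 3, 4, 5, 6]

def Bound_chk (i j k : Fin 6) (x y : ℤ) : Bool :=
  let D := Bound_D i j
  let V0 := Bound_V0 i j k ⟨x, y⟩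
  let N0 := V0.nrm
  let t1 := Bound_tr (V0 * (Bound_T i j).conj)
  decide (4 < x * x - x * y + y * y) || (
    decide (2 * t1 ≤ 33 * D) && decide (-(2 * t1) ≤ 33 * D) &&
    Bound_l6.all (fun m => decide (4 < N0 + t1 * m + 3 * D * m * m)) &&
    ((decide (x ∈ box3) && decide (y ∈ box3)) ||
      box3.all (fun m => decide (4 < N0 + t1 * m + 3 * D * m * m))))

theorem Bound_check_0 : ∀ j k : Fin 6, ∀ x ∈ Bound_l2, ∀ y ∈ Bound_l2,
    Bound_chk 0 j k x y = true := by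
  decide +kernel

theorem Bound_check_1 : ∀ j k : Fin 6, ∀ x ∈ Bound_l2, ∀ y ∈ Bound_l2,
    Bound_chk 1 j k x y = true := by
  decide +kernel

theorem Bound_check_2 : ∀ j k : Fin 6, ∀ x ∈ Bound_l2, ∀ y ∈ Bound_l2,
    Bound_chk 2 j k x y = true := by
  decide +kernel

theorem Bound_check_3 : ∀ j k : Fin 6, ∀ x ∈ Bound_l2, ∀ y ∈ Bound_l2,
    Bound_chk 3 j k x y = true := by
  decide +kernel

theorem Bound_check_4 : ∀ j k : Fin 6, ∀ x ∈ Bound_l2, ∀ y ∈ Bound_l2,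
    Bound_chk 4 j k x y = true := by
  decide +kernel

theorem Bound_check_5 : ∀ j k : Fin 6, ∀ x ∈ Bound_l2, ∀ y ∈ Bound_l2,
    Bound_chk 5 j k x y = true := by
  decide +kernel

theorem Bound_check : ∀ i j k : Fin 6, ∀ x ∈ Bound_l2, ∀ y ∈ Bound_l2,
    Bound_chk i j k x y = true := by
  intro i
  fin_cases i
  · exact Bound_check_0
  · exact Bound_check_1
  · exact Bound_check_2
  · exact Bound_check_3
  · exact Bound_check_4
  · exact Bound_check_5

theorem Bound_affine (a b c y0 y1 y2 z : Eis) (m : ℤ) :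
    (Bound_V a b c y0 y1 y2 z m).nrm = (Bound_V a b c y0 y1 y2 z 0).nrm +
      Bound_tr (Bound_V a b c y0 y1 y2 z 0 * (c * y0 * ⟨1, 2⟩).conj) * m +
      3 * (c.nrm * y0.nrm) * m * m := by
  simp only [Eis.nrm, Bound_tr, Bound_V, Eis.mul_a, Eis.mul_b, Eis.add_a, Eis.add_b,
    Eis.conj_a, Eis.conj_b]
  ring

theorem small_bound (i j k : Fin 6) (z : Eis) (m : ℤ)
    (h : (gM i * pmat 0 k z m * gM j).x02.nrm ≤ 4) :
    z.a ∈ box3 ∧ z.b ∈ box3 ∧ m ∈ box3 := by
  rw [Bound_entry] at h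
  obtain ⟨c1, c2, c3, c4, c5⟩ := Bound_check0 i j k
  -- the bound for z
  have hid := Bound_ident (gM i).x00 ((gM i).x01 * Eis.unit k) (gM i).x02 (gM j).x02 (gM j).x12
    (gM j).x22 z m c1 c2
  set V := Bound_V (gM i).x00 ((gM i).x01 * Eis.unit k) (gM i).x02 (gM j).x02 (gM j).x12
    (gM j).x22 z m with hV
  have hu := Bound_tr_sq (V * ((gM i).x02 * (gM j).x02).conj)
  rw [Bound_nrm_mul, Bound_nrm_conj, Bound_nrm_mul] at hu
  change Bound_tr (V * ((gM i).x02 * (gM j).x02).conj) ^ 2 ≤ 4 * (V.nrm * Bound_D i j) at hu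
  set tu := Bound_tr (V * ((gM i).x02 * (gM j).x02).conj) with htu
  have hs := Bound_nrm_sub (⟨2, 0⟩ * (gM i).x02 * (gM j).x02.conj * z +
    (⟨2, 0⟩ * ((gM i).x01 * Eis.unit k) * (gM j).x02.conj - (gM i).x02 * (gM j).x12.conj))
    (Bound_t i j k)
  rw [hid] at hs
  have he : (⟨2, 0⟩ * (gM i).x02 * (gM j).x02.conj * z +
    (⟨2, 0⟩ * ((gM i).x01 * Eis.unit k) * (gM j).x02.conj - (gM i).x02 * (gM j).x12.conj)) -
      Bound_t i j k = ⟨2, 0⟩ * (gM i).x02 * (gM j).x02.conj * z := by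
    rw [Bound_t]
    ring
  rw [he, Bound_nrm_mul, Bound_nrm_mul, Bound_nrm_mul, Bound_nrm_conj] at hs
  have h2n : (⟨2, 0⟩ : Eis).nrm = 4 := rfl
  rw [h2n] at hs
  have hs' : 4 * (Bound_D i j * z.nrm) ≤ 2 * (-2 * tu) + 2 * (Bound_t i j k).nrm := by
    calc 4 * (Bound_D i j * z.nrm) = 4 * (gM i).x02.nrm * (gM j).x02.nrm * z.nrm := by
          rw [Bound_D]; ring
      _ ≤ _ := hs
  have hVn : V.nrm * Bound_D i j ≤ 4 * Bound_D i j :=
    mul_le_mul_of_nonneg_right h c3.le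
  have hz : z.nrm ≤ 4 := by
    by_contra hcon
    have hz5 : 5 ≤ z.nrm := by omega
    have h1 : 20 * Bound_D i j ≤ 4 * (Bound_D i j * z.nrm) := by nlinarith
    have h3 : 20 * Bound_D i j - 2 * (Bound_t i j k).nrm ≤ -4 * tu := by linarith
    have h4 : (20 * Bound_D i j - 2 * (Bound_t i j k).nrm) ^ 2 ≤ (-4 * tu) ^ 2 :=
      pow_le_pow_left₀ c4.le h3 2
    have h5 : (-4 * tu) ^ 2 = 16 * tu ^ 2 := by ring
    nlinarith
  have hza : z.a ∈ Bound_l2 := by
    have h1 : z.a ^ 2 ≤ 5 := by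
      have : 3 * z.a ^ 2 ≤ 16 := by
        simp only [Eis.nrm] at hz
        nlinarith [sq_nonneg (2 * z.b - z.a)]
      omega
    have h2 : z.a ≤ 2 := by nlinarith
    have h3 : -2 ≤ z.a := by nlinarith
    generalize z.a = x at h2 h3
    interval_cases x <;> decide
  have hzb : z.b ∈ Bound_l2 := by
    have h1 : z.b ^ 2 ≤ 5 := by
      have : 3 * z.b ^ 2 ≤ 16 := by
        simp only [Eis.nrm] at hz
        nlinarith [sq_nonneg (2 * z.a - z.b)]
      omega
    have h2 : z.b ≤ 2 := by nlinarith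
    have h3 : -2 ≤ z.b := by nlinarith
    generalize z.b = x at h2 h3
    interval_cases x <;> decide
  -- the check
  have hc := Bound_check i j k z.a hza z.b hzb
  rw [hV, Bound_affine] at h
  have hN0 := Bound_nrm_nonneg (Bound_V0 i j k z)
  change (Bound_V0 i j k z).nrm + Bound_tr (Bound_V0 i j k z * (Bound_T i j).conj) * m +
      3 * Bound_D i j * m * m ≤ 4 at h
  simp only [Bound_chk, Bool.or_eq_true, decide_eq_true_eq, Bool.and_eq_true] at hc
  rcases hc with hc | ⟨⟨⟨hc1, hc2⟩, hc3⟩, hc4⟩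
  · exfalso
    simp only [Eis.nrm] at hz
    linarith
  change 2 * Bound_tr (Bound_V0 i j k z * (Bound_T i j).conj) ≤ 33 * Bound_D i j at hc1
  change -(2 * Bound_tr (Bound_V0 i j k z * (Bound_T i j).conj)) ≤ 33 * Bound_D i j at hc2
  change Bound_l6.all (fun m => decide (4 < (Bound_V0 i j k z).nrm +
    Bound_tr (Bound_V0 i j k z * (Bound_T i j).conj) * m + 3 * Bound_D i j * m * m)) = true at hc3
  change (z.a ∈ box3 ∧ z.b ∈ box3) ∨ box3.all (fun m => decide (4 < (Bound_V0 i j k z).nrm +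
    Bound_tr (Bound_V0 i j k z * (Bound_T i j).conj) * m + 3 * Bound_D i j * m * m)) = true at hc4
  generalize (Bound_V0 i j k z).nrm = N0 at *
  generalize Bound_tr (Bound_V0 i j k z * (Bound_T i j).conj) = t1 at *
  generalize Bound_D i j = D at *
  have hm1 : m < 7 := by
    by_contra hcon
    have hm : 7 ≤ m := not_lt.1 hcon
    have e1 : -(33 * D) * m ≤ 2 * t1 * m := by nlinarith
    have e2 : 9 * (D * m) ≤ D * m * (6 * m - 33) := by
      have : 0 < D * m := by positivity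
      nlinarith
    have e3 : 7 ≤ D * m := by nlinarith
    nlinarith
  have hm2 : -7 < m := by
    by_contra hcon
    have hm : m ≤ -7 := not_lt.1 hcon
    have e1 : -(33 * D) * (-m) ≤ 2 * t1 * m := by nlinarith
    have e2 : 9 * (D * (-m)) ≤ D * (-m) * (6 * (-m) - 33) := by
      have : 0 < D * (-m) := mul_pos c3 (by linarith)
      nlinarith
    have e3 : 7 ≤ D * (-m) := by nlinarith
    nlinarith
  have hm6 : m ∉ Bound_l6 := by
    intro hmem
    have := List.all_eq_true.1 hc3 m hmem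
    rw [decide_eq_true_eq] at this
    linarith
  have hmb : m ∈ box3 := by
    interval_cases m <;> first | decide | (exfalso; exact hm6 (by decide))
  rcases hc4 with hc4 | hc4
  · exact ⟨hc4.1, hc4.2, hmb⟩
  · exfalso
    have := List.all_eq_true.1 hc4 m hmb
    rw [decide_eq_true_eq] at this
    linarith

end Pool.Agent.H13.DM
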