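import Mathlib
import Pool.Agent.H13.DM.RhoInf

/-!
MP_9d29f5_al, project DM, block B, file Classify (job DM-CLASS).
Prove the theorems in place (helper lemmas welcome; RhoInf may be cited as a stub).

Write N = Eis.nrm, rows of g.m as r0, r1, r2, the form <x,y> = x0 conj y2 + 2 x1 conj y1 + x2 conj y0 (IsU says <r_i,r_j> = H_ij,
H = (0 0 1; 0 2 0; 1 0 0)), theta = 1 + 2w = Eis.th, conj theta = - theta. Norm facts: N(x) = 0 iff x = 0; N(x) = 1 iff x is one of the six Eis.unit k; N(x) = 3 iff x = unit * theta; N(x) = 4 iff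
x = unit * 2 (N(x) = a^2 - a b + b^2, so 4 N(x) = (2a-b)^2 + 3 b^2, |a|, |b| <= 2: finite check).

PAPER PROOFS.
(1) class_P: x02 = 0. <r0,r0> = 0 gives 2 N(x01) = 0, x01 = 0. <r0,r2> = 1: x00 conj x22 = 1, so N(x00) = 1, x00 = zeta^u and x22 = 1/conj x00 = x00. <r0,r1> = 0: x00 conj x12 = 0,
x12 = 0. <r1,r1> = 2: 2 N(x11) = 2 (as x12 = 0), x11 = unit =: zeta^(u+k). z := x21 / zeta^u. <r1,r2> = 0: x10 conj x22 + 2 x11 conj x21 = 0 gives x10 = -2 x11 conj x21 x22 =
-2 zeta^(u+k) conj z. <r2,r2> = 0: 2 Re(x20 conj x22) + 2 N(x21) = 0, so y := x20 / zeta^u = a + b w has 2a - b = -2 N(z), b = 2 m, a = m - N(z).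
(2) class_row: if g in UU and the row r0(g) = c * r0(g_i * q) with c a unit, q in P (ht q = 0), then g = p g_i q for some p in UU with ht p = 0: p := g q^-1 g_i^-1 has row 0 = c e, so x02 = 0.
(3) class_Sigma: let r0 = (a,b,c), N(c) in {1,3,4}, isotropic: a conj c + conj a c + 2 N(b) = 0.
 N(c) = 1: scale c = 1 (replace g by unit * g, or absorb the unit c in (2)): a = -N(b) + m theta as in (1) (2 Re a = - 2 N(b)), so r0 = (m - N(b) + 2 m w, b, 1) = r0(J * pmat 0 0 b m), J = g_0.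
 N(c) = 3: scale c = -theta. Re(a theta bar ..): a conj c + conj a c = -2N(b) with c = -theta, a = a1 + a2 w: a conj(-theta) + conj(a)(-theta) = a theta - conj(a) theta = (a - conj a) theta = a2 theta * theta = -3 a2,
   so 3 a2 = 2 N(b), hence 3 | N(b), hence b = - theta z for some z, N(b) = 3 N(z), a2 = 2 N(z). Compare with types 1 (3+) and 2 (3-): r0(g_1 pmat 0 0 z m) = (1 - theta (m - N(z) + 2 m w ...), - theta z, - theta): first entry
   1 - theta(-N(z) + m theta) = 1 + N(z) theta + 3 m = (1 + N(z) + 3m) + 2 N(z) w. So type 3+ occurs iff a1 = 1 + N(z) mod 3. g_2 has row (1,0,theta) = -1 * (-1,0,-theta): type 3- iff a1 = -1 + N(z) mod 3. If a1 = N(z) mod 3 then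
   a = 3 m' + N(z) theta is divisible by theta, and b, c too: then <r0,r2> = 1 would be divisible by theta, contradiction.
 N(c) = 4: scale c = -2: -2a - 2 conj a + 2 N(b) = 0: 2 Re a = N(b): 2 a1 - a2 = N(b).
   If 2 | b, b = -2z: a2 = 2 a1 - 4 N(z). r0(g_3 pmat 0 0 z m) = (theta - 2(-N(z) + m theta), -2z, -2) = (2N(z) + (1-2m) theta, ...): works with 1 - 2m = a1 - 2N(z) iff a1 is odd; if a1 is even, then a, b, c are all divisible by 2: contradiction as before.
   If 2 does not divide b: then b = - zeta^s ... : r0(g_4) = (1,-1,-2 zeta), scaled by zeta^-1: (zeta^-1, -zeta^-1, -2). r0(g_4 pmat 0 k z m) scaled = (zeta^-1 + 2 zeta^(k-1) conj z - 2(-N(z) + m theta), -zeta^(k-1) - 2 z, -2). Choose k (one of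
   0,1,2) with b = zeta^(k-1) mod 2 (1, w, 1+w represent the nonzero classes mod 2), then z, then the condition on a: both rows are isotropic with the same b and c so the difference of the first entries is (purely) an integer multiple s of theta/1:
   a - a' = s theta (2 Re (a - a') = 0). It works iff s is even; type 5 (4b-), r0(g_5) = (1, 1 + w, 2 w): treat similarly, it gives the other parity. (In practice: for type 4b the entries a1 mod 2 decide; check by explicit formulas.)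
It is fine to organise this differently (e.g. a finite check modulo 2 or modulo 3 after translating by T(z,m), by multiplying g on the right by elements of P so that b and a become reduced).
-/
set_option autoImplicit false

namespace Pool.Agent.H13.DM

theorem nrm4 (x : Eis) : 4 * x.nrm = (2 * x.a - x.b) ^ 2 + 3 * x.b ^ 2 := by
  simp only [Eis.nrm]; ring

theorem nrm4' (x : Eis) : 4 * x.nrm = (2 * x.b - x.a) ^ 2 + 3 * x.a ^ 2 := by
  simp only [Eis.nrm]; ring

theorem nrm_nn (x : Eis) : 0 ≤ x.nrm := by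
  have := nrm4 x
  nlinarith [sq_nonneg (2 * x.a - x.b), sq_nonneg x.b]

theorem nrm_mul' (x y : Eis) : (x * y).nrm = x.nrm * y.nrm := by
  simp only [Eis.nrm, Eis.mul_a, Eis.mul_b]; ring

theorem nrm_conj' (x : Eis) : x.conj.nrm = x.nrm := by
  simp only [Eis.nrm, Eis.conj_a, Eis.conj_b]; ring

theorem mul_conj' (x : Eis) : x * x.conj = ⟨x.nrm, 0⟩ := by
  ext
  · simp [Eis.nrm]; ring
  · simp; ring

theorem conj_mul' (x y : Eis) : (x * y).conj = x.conj * y.conj := by
  ext <;> simp <;> ring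

theorem nrm_zero {x : Eis} (h : x.nrm = 0) : x = 0 := by
  have h1 := nrm4 x
  have h2 := nrm4' x
  have hb : x.b ^ 2 = 0 := by nlinarith [sq_nonneg (2 * x.a - x.b), sq_nonneg x.b]
  have ha : x.a ^ 2 = 0 := by nlinarith [sq_nonneg (2 * x.b - x.a), sq_nonneg x.a]
  have hb' : x.b = 0 := by simpa using hb
  have ha' : x.a = 0 := by simpa using ha
  exact Eis.ext ha' hb'

theorem eis_bd {x : Eis} {n : ℤ} (hn : n ≤ 4) (h : x.nrm = n) :
    -2 ≤ x.a ∧ x.a ≤ 2 ∧ -2 ≤ x.b ∧ x.b ≤ 2 := by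
  have h1 := nrm4 x
  have h2 := nrm4' x
  have hb : x.b ^ 2 ≤ 5 := by nlinarith [sq_nonneg (2 * x.a - x.b), sq_nonneg x.b]
  have ha : x.a ^ 2 ≤ 5 := by nlinarith [sq_nonneg (2 * x.b - x.a), sq_nonneg x.a]
  refine ⟨?_, ?_, ?_, ?_⟩ <;> nlinarith

theorem box_unit : ∀ a ∈ Finset.Icc (-2 : ℤ) 2, ∀ b ∈ Finset.Icc (-2 : ℤ) 2,
    (a * a - a * b + b * b = 1 → ∃ u : Fin 6, (⟨a, b⟩ : Eis) = Eis.unit u) ∧
    (a * a - a * b + b * b = 3 → ∃ u : Fin 6, (⟨a, b⟩ : Eis) = Eis.unit u * -Eis.th) ∧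
    (a * a - a * b + b * b = 4 → ∃ u : Fin 6, (⟨a, b⟩ : Eis) = Eis.unit u * ⟨-2, 0⟩) := by
  decide +kernel

theorem nrm_one {x : Eis} (h : x.nrm = 1) : ∃ u : Fin 6, x = Eis.unit u := by
  obtain ⟨h1, h2, h3, h4⟩ := eis_bd (by norm_num) h
  exact (box_unit x.a (by rw [Finset.mem_Icc]; omega) x.b (by rw [Finset.mem_Icc]; omega)).1 h

theorem nrm_three {x : Eis} (h : x.nrm = 3) : ∃ u : Fin 6, x = Eis.unit u * -Eis.th := by
  obtain ⟨h1, h2, h3, h4⟩ := eis_bd (by norm_num) h
  exact (box_unit x.a (by rw [Finset.mem_Icc]; omega) x.b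
    (by rw [Finset.mem_Icc]; omega)).2.1 h

theorem nrm_four {x : Eis} (h : x.nrm = 4) : ∃ u : Fin 6, x = Eis.unit u * ⟨-2, 0⟩ := by
  obtain ⟨h1, h2, h3, h4⟩ := eis_bd (by norm_num) h
  exact (box_unit x.a (by rw [Finset.mem_Icc]; omega) x.b
    (by rw [Finset.mem_Icc]; omega)).2.2 h

theorem nrm_unit : ∀ u : Fin 6, (Eis.unit u).nrm = 1 := by decide +kernel

theorem unit_conj (u : Fin 6) : Eis.unit u * (Eis.unit u).conj = 1 := by
  rw [mul_conj', nrm_unit]; rfl

theorem UU.rel (g : UU) : g.m * M3.H * M3.adj g.m = M3.H := g.h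

theorem UU.e00 (g : UU) : g.m.x00 * g.m.x02.conj + 2 * g.m.x01 * g.m.x01.conj +
    g.m.x02 * g.m.x00.conj = 0 := by
  have := congrArg M3.x00 g.rel
  simp only [M3.mul_def, M3.H, M3.adj] at this
  rw [← this]; ring

theorem UU.e01 (g : UU) : g.m.x00 * g.m.x12.conj + 2 * g.m.x01 * g.m.x11.conj +
    g.m.x02 * g.m.x10.conj = 0 := by
  have := congrArg M3.x01 g.rel
  simp only [M3.mul_def, M3.H, M3.adj] at this
  rw [← this]; ring

theorem UU.e02 (g : UU) : g.m.x00 * g.m.x22.conj + 2 * g.m.x01 * g.m.x21.conj +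
    g.m.x02 * g.m.x20.conj = 1 := by
  have := congrArg M3.x02 g.rel
  simp only [M3.mul_def, M3.H, M3.adj] at this
  rw [← this]; ring

theorem UU.e11 (g : UU) : g.m.x10 * g.m.x12.conj + 2 * g.m.x11 * g.m.x11.conj +
    g.m.x12 * g.m.x10.conj = 2 := by
  have := congrArg M3.x11 g.rel
  simp only [M3.mul_def, M3.H, M3.adj] at this
  linear_combination this

theorem UU.e12 (g : UU) : g.m.x10 * g.m.x22.conj + 2 * g.m.x11 * g.m.x21.conj +
    g.m.x12 * g.m.x20.conj = 0 := by
  have := congrArg M3.x12 g.rel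
  simp only [M3.mul_def, M3.H, M3.adj] at this
  rw [← this]; ring

theorem UU.e22 (g : UU) : g.m.x20 * g.m.x22.conj + 2 * g.m.x21 * g.m.x21.conj +
    g.m.x22 * g.m.x20.conj = 0 := by
  have := congrArg M3.x22 g.rel
  simp only [M3.mul_def, M3.H, M3.adj] at this
  rw [← this]; ring

theorem two_a : (2 : Eis).a = 2 := rfl
theorem two_b : (2 : Eis).b = 0 := rfl

theorem class_P (g : UU) (h : g.ht = 0) :
    ∃ (u k : Fin 6) (z : Eis) (m : ℤ), g.m = pmat u k z m := by
  have hx02 : g.m.x02 = 0 := by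
    apply nrm_zero
    have := nrm_nn g.m.x02
    unfold UU.ht at h
    omega
  have e00 := g.e00
  have e01 := g.e01
  have e02 := g.e02
  have e11 := g.e11
  have e12 := g.e12
  have e22 := g.e22
  rw [hx02] at e00 e01 e02
  have c0 : (0 : Eis).conj = 0 := rfl
  have hx01 : g.m.x01 = 0 := by
    apply nrm_zero
    rw [c0, mul_zero, zero_mul, zero_add, add_zero, mul_assoc, mul_conj'] at e00
    have := congrArg Eis.a e00
    simp [two_a, two_b] at this
    exact this
  rw [hx01] at e01 e02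
  simp only [mul_zero, zero_mul, add_zero] at e01 e02
  have hn0 : g.m.x00.nrm = 1 := by
    have h1 : (g.m.x00 * g.m.x22.conj).nrm = 1 := by rw [e02]; rfl
    rw [nrm_mul'] at h1
    exact Int.eq_one_of_mul_eq_one_right (nrm_nn _) h1
  obtain ⟨u, hu⟩ := nrm_one hn0
  have huc := unit_conj u
  have hx22 : g.m.x22 = Eis.unit u := by
    have h1 : g.m.x22.conj = (Eis.unit u).conj := by
      rw [hu] at e02
      calc g.m.x22.conj = (Eis.unit u * (Eis.unit u).conj) * g.m.x22.conj := by rw [huc, one_mul]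
        _ = (Eis.unit u).conj * (Eis.unit u * g.m.x22.conj) := by ring
        _ = _ := by rw [e02, mul_one]
    have h2 := congrArg Eis.conj h1
    have cc : ∀ x : Eis, x.conj.conj = x := fun x => by simp [Eis.conj]
    rw [cc] at h2
    first
      | exact h2
      | (rw [cc] at h2; exact h2)
  have hx12 : g.m.x12 = 0 := by
    have h1 : g.m.x12.conj = 0 := by
      rw [hu] at e01
      calc g.m.x12.conj = (Eis.unit u * (Eis.unit u).conj) * g.m.x12.conj := by rw [huc, one_mul]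
        _ = (Eis.unit u).conj * (Eis.unit u * g.m.x12.conj) := by ring
        _ = _ := by rw [e01, mul_zero]
    have h2 := congrArg Eis.conj h1
    have cc : ∀ x : Eis, x.conj.conj = x := fun x => by simp [Eis.conj]
    rw [cc] at h2
    first
      | exact h2
      | (rw [cc] at h2; exact h2)
  rw [hx12] at e11 e12
  simp only [c0, mul_zero, zero_mul, add_zero, zero_add] at e11 e12
  have hn1 : g.m.x11.nrm = 1 := by
    rw [mul_assoc, mul_conj'] at e11
    have := congrArg Eis.a e11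
    simp [two_a, two_b] at this
    exact this
  obtain ⟨j, hj⟩ := nrm_one hn1
  have huk : Eis.unit u * Eis.unit (j - u) = Eis.unit j := by
    rw [← unit_add, add_sub_cancel]
  rw [hx22] at e12 e22
  set U := Eis.unit u with hU
  set z : Eis := U.conj * g.m.x21 with hz
  have hx21 : g.m.x21 = U * z := by
    rw [hz, ← mul_assoc, huc, one_mul]
  set y : Eis := U.conj * g.m.x20 with hy
  have hx20 : g.m.x20 = U * y := by
    rw [hy, ← mul_assoc, huc, one_mul]
  have hyz : y + 2 * (z * z.conj) + y.conj = 0 := by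
    rw [hx21, hx20, conj_mul' U z, conj_mul' U y] at e22
    calc y + 2 * (z * z.conj) + y.conj = (U * U.conj) * (y + 2 * (z * z.conj) + y.conj) := by
          rw [huc, one_mul]
      _ = U * y * U.conj + 2 * (U * z) * (U.conj * z.conj) + U * (U.conj * y.conj) := by ring
      _ = 0 := e22
  have hya := congrArg Eis.a hyz
  have hyb := congrArg Eis.b hyz
  rw [mul_conj'] at hya
  simp [two_a, two_b] at hya
  have hx10 : g.m.x10 = Eis.unit j * (⟨-2, 0⟩ * z.conj) := by
    have h1 : g.m.x10 * U.conj = - (2 * g.m.x11 * g.m.x21.conj) := eq_neg_of_add_eq_zero_left e12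
    calc g.m.x10 = g.m.x10 * (U * U.conj) := by rw [huc, mul_one]
      _ = U * (g.m.x10 * U.conj) := by ring
      _ = U * (- (2 * Eis.unit j * (U * z).conj)) := by rw [h1, hj, ← hx21]
      _ = (U * U.conj) * (Eis.unit j * (-2 * z.conj)) := by rw [conj_mul']; ring
      _ = _ := by rw [huc, one_mul]; rfl
  refine ⟨u, j - u, z, y.a + z.nrm, ?_⟩
  ext1
  · exact hu
  · exact hx01
  · exact hx02
  · simp only [pmat]
    rw [huk]; exact hx10
  · simp only [pmat]
    rw [huk]; exact hj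
  · exact hx12
  · simp only [pmat]
    rw [hx20]
    congr 1
    ext
    · simp
    · simp only; omega
  · exact hx21
  · exact hx22

theorem ht_pmat {g : UU} {u k : Fin 6} {z : Eis} {m : ℤ} (h : g.m = pmat u k z m) :
    g.ht = 0 := by
  unfold UU.ht
  rw [h]
  rfl

/-- first row of gM i * pmat 0 k z m, up to a scalar -/
def RowOf (A B C : Eis) : Prop :=
  ∃ (i : Fin 6) (c : Eis) (k : Fin 6) (z : Eis) (m : ℤ),
    A = c * (gM i * pmat 0 k z m).x00 ∧ B = c * (gM i * pmat 0 k z m).x01 ∧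
      C = c * (gM i * pmat 0 k z m).x02

theorem rowOf_scale {A B C : Eis} (u : Eis) (h : RowOf A B C) :
    RowOf (u * A) (u * B) (u * C) := by
  obtain ⟨i, c, k, z, m, h1, h2, h3⟩ := h
  exact ⟨i, u * c, k, z, m, by rw [h1]; ring, by rw [h2]; ring, by rw [h3]; ring⟩

/-- the isotropy equation -/
def Iso (A B C : Eis) : Prop := A * C.conj + 2 * B * B.conj + C * A.conj = 0

theorem row1 {A B : Eis} (h : Iso A B 1) : RowOf A B 1 := by
  have hA := congrArg Eis.a h
  simp [two_a, two_b] at hA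
  refine ⟨0, 1, 0, B, A.a + B.nrm, ?_, ?_, ?_⟩
  · ext
    · simp [M3.mul_def, gM, pmat, Eis.unit]
    · simp [M3.mul_def, gM, pmat, Eis.unit, Eis.nrm]
      linarith
  · ext <;> simp [M3.mul_def, gM, pmat, Eis.unit]
  · ext <;> simp [M3.mul_def, gM, pmat, Eis.unit]

theorem row3 {A B : Eis} (h : Iso A B (-Eis.th))
    (hp : ¬ ∃ A' B' : Eis, A = Eis.th * A' ∧ B = Eis.th * B') : RowOf A B (-Eis.th) := by
  have hA := congrArg Eis.a h
  simp [two_a, two_b, Eis.th] at hA
  obtain ⟨a1, a2⟩ := A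
  obtain ⟨b1, b2⟩ := B
  simp only at hA
  have h3 : 3 ∣ b1 + b2 := by
    have h4 : (3 : ℤ) ∣ (b1 + b2) ^ 2 := by
      have : (b1 + b2) ^ 2 = (b1 * b1 - b1 * b2 + b2 * b2) + 3 * (b1 * b2) := by ring
      rw [this]
      refine dvd_add ?_ (dvd_mul_right _ _)
      have h5 : 2 * (b1 * b1 - b1 * b2 + b2 * b2) = 3 * a2 := by linarith
      omega
    exact Int.Prime.dvd_pow' Nat.prime_three h4
  obtain ⟨s, hs⟩ := h3
  have hb1 : b1 = 3 * s - b2 := by linarith
  subst hb1
  set z : Eis := ⟨s - b2, 2 * s - b2⟩ with hz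
  have ha2 : a2 = 2 * z.nrm := by
    simp only [hz, Eis.nrm]
    linarith
  have hmod : (a1 - 1 - z.nrm) % 3 = 0 ∨ (a1 + 1 - z.nrm) % 3 = 0 ∨ (a1 - z.nrm) % 3 = 0 := by
    omega
  rcases hmod with h0 | h0 | h0
  · obtain ⟨m, hm⟩ := Int.dvd_of_emod_eq_zero h0
    refine ⟨1, 1, 0, z, m, ?_, ?_, ?_⟩
    · ext
      · simp [M3.mul_def, gM, pmat, Eis.unit]
        linarith
      · simp [M3.mul_def, gM, pmat, Eis.unit]
        linarith
    · ext
      · simp [M3.mul_def, gM, pmat, Eis.unit, hz]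
        ring
      · simp [M3.mul_def, gM, pmat, Eis.unit, hz]
        ring
    · ext <;> simp [M3.mul_def, gM, pmat, Eis.unit, Eis.th]
  · obtain ⟨m, hm⟩ := Int.dvd_of_emod_eq_zero h0
    refine ⟨2, -1, 0, z, m, ?_, ?_, ?_⟩
    · ext
      · simp [M3.mul_def, gM, pmat, Eis.unit]
        linarith
      · simp [M3.mul_def, gM, pmat, Eis.unit]
        linarith
    · ext
      · simp [M3.mul_def, gM, pmat, Eis.unit, hz]
        ring
      · simp [M3.mul_def, gM, pmat, Eis.unit, hz]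
        ring
    · ext <;> simp [M3.mul_def, gM, pmat, Eis.unit, Eis.th]
  · exfalso
    obtain ⟨m, hm⟩ := Int.dvd_of_emod_eq_zero h0
    apply hp
    refine ⟨⟨z.nrm - m, -2 * m⟩, -z, ?_, ?_⟩
    · ext
      · simp [Eis.th]
        linarith
      · simp [Eis.th]
        linarith
    · ext
      · simp [Eis.th, hz]
        ring
      · simp [Eis.th, hz]
        ring

theorem row4 {A B : Eis} (h : Iso A B ⟨-2, 0⟩)
    (hp : ¬ ∃ A' B' : Eis, A = 2 * A' ∧ B = 2 * B') : RowOf A B ⟨-2, 0⟩ := by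
  have hA := congrArg Eis.a h
  simp [two_a, two_b] at hA
  obtain ⟨a1, a2⟩ := A
  obtain ⟨b1, b2⟩ := B
  simp only at hA
  have hpar : a1 % 2 = 0 ∨ a1 % 2 = 1 := by omega
  by_cases hB : b1 % 2 = 0 ∧ b2 % 2 = 0
  · obtain ⟨s, hs⟩ := Int.dvd_of_emod_eq_zero hB.1
    obtain ⟨t, ht⟩ := Int.dvd_of_emod_eq_zero hB.2
    subst hs ht
    rcases hpar with h0 | h0
    · exfalso
      obtain ⟨m, hm⟩ := Int.dvd_of_emod_eq_zero h0
      subst hm
      apply hp
      refine ⟨⟨m, 2 * m - 2 * (s * s - s * t + t * t)⟩, ⟨s, t⟩, ?_, ?_⟩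
      · ext
        · simp [two_a, two_b]
        · simp [two_a, two_b]
          linarith
      · ext <;> simp [two_a, two_b]
    · have h1 : (1 + 2 * (s * s - s * t + t * t) - a1) % 2 = 0 := by omega
      obtain ⟨m, hm⟩ := Int.dvd_of_emod_eq_zero h1
      refine ⟨3, 1, 0, ⟨-s, -t⟩, m, ?_, ?_, ?_⟩
      · ext
        · simp [M3.mul_def, gM, pmat, Eis.unit, Eis.nrm]
          linarith
        · simp [M3.mul_def, gM, pmat, Eis.unit, Eis.nrm]
          linarith
      · ext <;> simp [M3.mul_def, gM, pmat, Eis.unit]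
      · ext <;> simp [M3.mul_def, gM, pmat, Eis.unit]
  · have hcl : (b1 % 2 = 0 ∧ b2 % 2 = 1) ∨ (b1 % 2 = 1 ∧ b2 % 2 = 0) ∨
        (b1 % 2 = 1 ∧ b2 % 2 = 1) := by omega
    rcases hcl with ⟨k1, k2⟩ | ⟨k1, k2⟩ | ⟨k1, k2⟩
    · obtain ⟨s, hs⟩ : ∃ s, b1 = 2 * s + 0 := ⟨b1 / 2, by omega⟩
      obtain ⟨t, ht⟩ : ∃ t, b2 = 2 * t + 1 := ⟨b2 / 2, by omega⟩
      subst hs ht
      rcases hpar with h0 | h0
      · obtain ⟨r, hr⟩ : ∃ r, a1 = 2 * r := ⟨a1 / 2, by omega⟩
        subst hr
        refine ⟨4, Eis.unit 5, 0, ⟨-s, -t⟩,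
          (Eis.unit 5 * Eis.unit 0 * ⟨-s + t, t⟩).a + (s * s - s * t + t * t) - r, ?_, ?_, ?_⟩
        · ext
          · simp [M3.mul_def, gM, pmat, Eis.unit, Eis.nrm]
            linarith
          · simp [M3.mul_def, gM, pmat, Eis.unit, Eis.nrm]
            linarith
        · ext
          · simp [M3.mul_def, gM, pmat, Eis.unit, Eis.nrm]
            try ring
          · simp [M3.mul_def, gM, pmat, Eis.unit, Eis.nrm]
            try ring
        · ext <;> simp [M3.mul_def, gM, pmat, Eis.unit]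
      · obtain ⟨r, hr⟩ : ∃ r, a1 = 2 * r + 1 := ⟨a1 / 2, by omega⟩
        subst hr
        refine ⟨5, Eis.unit 1, 0, ⟨-s, -t⟩,
          -(Eis.unit 2 * Eis.unit 0 * ⟨-s + t, t⟩).a + (s * s - s * t + t * t) - r, ?_, ?_, ?_⟩
        · ext
          · simp [M3.mul_def, gM, pmat, Eis.unit, Eis.nrm]
            linarith
          · simp [M3.mul_def, gM, pmat, Eis.unit, Eis.nrm]
            linarith
        · ext
          · simp [M3.mul_def, gM, pmat, Eis.unit, Eis.nrm]
            try ring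
          · simp [M3.mul_def, gM, pmat, Eis.unit, Eis.nrm]
            try ring
        · ext <;> simp [M3.mul_def, gM, pmat, Eis.unit]
    · obtain ⟨s, hs⟩ : ∃ s, b1 = 2 * s + 1 := ⟨b1 / 2, by omega⟩
      obtain ⟨t, ht⟩ : ∃ t, b2 = 2 * t + 0 := ⟨b2 / 2, by omega⟩
      subst hs ht
      rcases hpar with h0 | h0
      · obtain ⟨r, hr⟩ : ∃ r, a1 = 2 * r := ⟨a1 / 2, by omega⟩
        subst hr
        refine ⟨4, Eis.unit 5, 4, ⟨-s, -t⟩,
          (Eis.unit 5 * Eis.unit 4 * ⟨-s + t, t⟩).a + (s * s - s * t + t * t) - r, ?_, ?_, ?_⟩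
        · ext
          · simp [M3.mul_def, gM, pmat, Eis.unit, Eis.nrm]
            linarith
          · simp [M3.mul_def, gM, pmat, Eis.unit, Eis.nrm]
            linarith
        · ext
          · simp [M3.mul_def, gM, pmat, Eis.unit, Eis.nrm]
            try ring
          · simp [M3.mul_def, gM, pmat, Eis.unit, Eis.nrm]
            try ring
        · ext <;> simp [M3.mul_def, gM, pmat, Eis.unit]
      · obtain ⟨r, hr⟩ : ∃ r, a1 = 2 * r + 1 := ⟨a1 / 2, by omega⟩
        subst hr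
        refine ⟨5, Eis.unit 1, 4, ⟨-s, -t⟩,
          -(Eis.unit 2 * Eis.unit 4 * ⟨-s + t, t⟩).a + (s * s - s * t + t * t) - r, ?_, ?_, ?_⟩
        · ext
          · simp [M3.mul_def, gM, pmat, Eis.unit, Eis.nrm]
            linarith
          · simp [M3.mul_def, gM, pmat, Eis.unit, Eis.nrm]
            linarith
        · ext
          · simp [M3.mul_def, gM, pmat, Eis.unit, Eis.nrm]
            try ring
          · simp [M3.mul_def, gM, pmat, Eis.unit, Eis.nrm]
            try ring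
        · ext <;> simp [M3.mul_def, gM, pmat, Eis.unit]
    · obtain ⟨s, hs⟩ : ∃ s, b1 = 2 * s + 1 := ⟨b1 / 2, by omega⟩
      obtain ⟨t, ht⟩ : ∃ t, b2 = 2 * t + 1 := ⟨b2 / 2, by omega⟩
      subst hs ht
      rcases hpar with h0 | h0
      · obtain ⟨r, hr⟩ : ∃ r, a1 = 2 * r := ⟨a1 / 2, by omega⟩
        subst hr
        refine ⟨4, Eis.unit 5, 5, ⟨-s, -t⟩,
          (Eis.unit 5 * Eis.unit 5 * ⟨-s + t, t⟩).a + (s * s - s * t + t * t) - r, ?_, ?_, ?_⟩
        · ext
          · simp [M3.mul_def, gM, pmat, Eis.unit, Eis.nrm]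
            linarith
          · simp [M3.mul_def, gM, pmat, Eis.unit, Eis.nrm]
            linarith
        · ext
          · simp [M3.mul_def, gM, pmat, Eis.unit, Eis.nrm]
            try ring
          · simp [M3.mul_def, gM, pmat, Eis.unit, Eis.nrm]
            try ring
        · ext <;> simp [M3.mul_def, gM, pmat, Eis.unit]
      · obtain ⟨r, hr⟩ : ∃ r, a1 = 2 * r + 1 := ⟨a1 / 2, by omega⟩
        subst hr
        refine ⟨5, Eis.unit 1, 5, ⟨-s, -t⟩,
          -(Eis.unit 2 * Eis.unit 5 * ⟨-s + t, t⟩).a + (s * s - s * t + t * t) - r, ?_, ?_, ?_⟩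
        · ext
          · simp [M3.mul_def, gM, pmat, Eis.unit, Eis.nrm]
            linarith
          · simp [M3.mul_def, gM, pmat, Eis.unit, Eis.nrm]
            linarith
        · ext
          · simp [M3.mul_def, gM, pmat, Eis.unit, Eis.nrm]
            try ring
          · simp [M3.mul_def, gM, pmat, Eis.unit, Eis.nrm]
            try ring
        · ext <;> simp [M3.mul_def, gM, pmat, Eis.unit]

theorem class_row (g : UU) (h : RowOf g.m.x00 g.m.x01 g.m.x02) :
    ∃ (i : Fin 6) (p q : UU), p.ht = 0 ∧ q.ht = 0 ∧ g = p * gi i * q := by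
  obtain ⟨i, c, k, z, m, h1, h2, h3⟩ := h
  set q : UU := ⟨pmat 0 k z m, pmat_isU 0 k z m⟩ with hq
  set M : UU := gi i * q with hM
  have hMm : M.m = gM i * pmat 0 k z m := rfl
  refine ⟨i, g * M⁻¹, q, ?_, ht_pmat (g := q) rfl, ?_⟩
  · have h4 : (g * M⁻¹).m.x02 = 0 := by
      have h5 : (M * M⁻¹).m.x02 = 0 := by rw [mul_inv_cancel]; rfl
      simp only [UU.mul_m, M3.mul_def] at h5 ⊢
      rw [hMm] at h5
      rw [h1, h2, h3]
      linear_combination c * h5
    unfold UU.ht
    rw [h4]; rfl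
  · rw [mul_assoc, ← hM]
    group

theorem class_Sigma (g : UU) (h : g.ht = 1 ∨ g.ht = 3 ∨ g.ht = 4) :
    ∃ (i : Fin 6) (p q : UU), p.ht = 0 ∧ q.ht = 0 ∧ g = p * gi i * q := by
  apply class_row
  have e00 := g.e00
  have e02 := g.e02
  have hnn := nrm_nn g.m.x02
  have hN : g.m.x02.nrm = 1 ∨ g.m.x02.nrm = 3 ∨ g.m.x02.nrm = 4 := by
    unfold UU.ht at h
    omega
  have key : ∀ (u : Fin 6) (c : Eis), g.m.x02 = Eis.unit u * c →
      Iso ((Eis.unit u).conj * g.m.x00) ((Eis.unit u).conj * g.m.x01) c ∧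
      (RowOf ((Eis.unit u).conj * g.m.x00) ((Eis.unit u).conj * g.m.x01) c →
        RowOf g.m.x00 g.m.x01 g.m.x02) := by
    intro u c hc
    have huc := unit_conj u
    set U := Eis.unit u with hU
    constructor
    · unfold Iso
      rw [hc] at e00
      have hcc : U.conj.conj = U := by simp [Eis.conj]
      rw [conj_mul', conj_mul', hcc]
      rw [conj_mul'] at e00
      linear_combination e00 + 2 * g.m.x01 * g.m.x01.conj * huc
    · intro hr
      have := rowOf_scale U hr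
      have e : ∀ x : Eis, U * (U.conj * x) = x := by
        intro x; rw [← mul_assoc, huc, one_mul]
      rw [e, e, ← hc] at this
      exact this
  have prim : ∀ (u : Fin 6) (c d : Eis), g.m.x02 = Eis.unit u * c → (∃ c', c = d * c') →
      1 < d.nrm → ¬ ∃ A' B' : Eis, (Eis.unit u).conj * g.m.x00 = d * A' ∧
        (Eis.unit u).conj * g.m.x01 = d * B' := by
    rintro u c d hc ⟨c', hc'⟩ hd ⟨A', B', hA, hB⟩
    have huc := unit_conj u
    set U := Eis.unit u with hU
    have hA2 : g.m.x00 = d * (U * A') := by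
      calc g.m.x00 = (U * U.conj) * g.m.x00 := by rw [huc, one_mul]
        _ = U * (U.conj * g.m.x00) := by ring
        _ = _ := by rw [hA]; ring
    have hB2 : g.m.x01 = d * (U * B') := by
      calc g.m.x01 = (U * U.conj) * g.m.x01 := by rw [huc, one_mul]
        _ = U * (U.conj * g.m.x01) := by ring
        _ = _ := by rw [hB]; ring
    have h1 : d * (U * A' * g.m.x22.conj + 2 * (U * B') * g.m.x21.conj +
        U * c' * g.m.x20.conj) = 1 := by
      rw [← e02, hA2, hB2, hc, hc']; ring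
    have h2 := congrArg Eis.nrm h1
    rw [nrm_mul'] at h2
    have h3 : (1 : Eis).nrm = 1 := rfl
    rw [h3] at h2
    have h4 : d.nrm = 1 := Int.eq_one_of_mul_eq_one_right (nrm_nn _) h2
    omega
  rcases hN with hN | hN | hN
  · obtain ⟨u, hu⟩ := nrm_one hN
    have hu' : g.m.x02 = Eis.unit u * 1 := by rw [mul_one]; exact hu
    obtain ⟨h1, h2⟩ := key u 1 hu'
    exact h2 (row1 h1)
  · obtain ⟨u, hu⟩ := nrm_three hN
    obtain ⟨h1, h2⟩ := key u _ hu
    exact h2 (row3 h1 (prim u _ Eis.th hu ⟨-1, by ring⟩ (by decide)))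
  · obtain ⟨u, hu⟩ := nrm_four hN
    obtain ⟨h1, h2⟩ := key u _ hu
    exact h2 (row4 h1 (prim u _ 2 hu ⟨-1, by decide⟩ (by decide)))

end Pool.Agent.H13.DM
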