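import Mathlib
import Pool.Agent.H13.DM.Types

/-!
MP_9d29f5_al, project DM, block B, part E (descending links): data of the 85 cusps near the fundamental
region, the adjacency table, the box certificate. Generated by a script, except for the definitions.
A cusp is a row vector u = row 0 of gM i * pmat 0 k z m. Its position is (x, y, t) with
u1/u2 = x + i sqrt3 y, Im (u0/u2) = sqrt3 t. All coordinates are scaled by SS = 3072.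
-/
set_option autoImplicit false

namespace Pool.Agent.H13.DM

/-- row vectors -/
@[ext] structure V3 where
  (x0 x1 x2 : Eis)
deriving DecidableEq

/-- row 0 of a matrix -/
def M3.row0 (p : M3) : V3 := ⟨p.x00, p.x01, p.x02⟩

/-- the Hermitian form <x, y> = x0 y2' + 2 x1 y1' + x2 y0' -/
def hf (x y : V3) : Eis := x.x0 * y.x2.conj + ⟨2, 0⟩ * (x.x1 * y.x1.conj) + x.x2 * y.x0.conj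

/-- the cusp vector with parameters i, k, z, m -/
def cuspV (i k : Fin 6) (z : Eis) (m : ℤ) : V3 := (gM i * pmat 0 k z m).row0

/-- scale -/
def SS : ℤ := 3072
/-- 16 SS^4 -/
def ONE4 : ℤ := 16 * SS ^ 4

/-- position data: n = norm of u2, X4 = 4 x, Y4 = 4 y, Ts = SS t, Xs = SS x, Ys = SS y -/
structure CD where
  (n X4 Y4 Ts Xs Ys : ℤ)
deriving DecidableEq

/-- CD belongs to the vector u: with u1 conj(u2) = A + B w, u0 conj(u2) = C + D w, n = |u2|^2: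
x = (2A - B)/(2n), y = B/(2n), t = D/(2n). -/
def CD.ok (c : CD) (u : V3) : Prop :=
  c.n = u.x2.nrm ∧ 0 < c.n ∧
  c.X4 * c.n = 2 * (2 * (u.x1 * u.x2.conj).a - (u.x1 * u.x2.conj).b) ∧
  c.Y4 * c.n = 2 * (u.x1 * u.x2.conj).b ∧
  2 * c.Ts * c.n = SS * (u.x0 * u.x2.conj).b ∧
  4 * c.Xs = SS * c.X4 ∧ 4 * c.Ys = SS * c.Y4

instance (c : CD) (u : V3) : Decidable (c.ok u) := by unfold CD.ok; infer_instance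

/-- boxes -/
structure Bx where
  (xl xh yl yh tl th : ℤ)

/-- lower bound for squares on an interval -/
def sqL (l h : ℤ) : ℤ := if l ≤ 0 ∧ 0 ≤ h then 0 else min (l * l) (h * h)
/-- upper bound for squares on an interval -/
def sqH (l h : ℤ) : ℤ := max (l * l) (h * h)
/-- lower bound of c v on an interval -/
def liL (c l h : ℤ) : ℤ := min (c * l) (c * h)
/-- upper bound of c v on an interval -/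
def liH (c l h : ℤ) : ℤ := max (c * l) (c * h)

/-- the scaled function 16 SS^4 F, F = n ((|z - zu|^2)^2 + (im)^2), in scaled coordinates X = SS x, Y = SS y, T = SS t -/
def Fq (c : CD) (X Y T : ℚ) : ℚ :=
  c.n * (16 * ((X - c.Xs) ^ 2 + 3 * (Y - c.Ys) ^ 2) ^ 2
    + 3 * SS ^ 2 * (4 * (c.Ts - T) + 2 * c.Y4 * X - 2 * c.X4 * Y) ^ 2)

/-- lower bound of Fq on a box -/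
def FL (c : CD) (b : Bx) : ℤ :=
  let r := sqL (b.xl - c.Xs) (b.xh - c.Xs) + 3 * sqL (b.yl - c.Ys) (b.yh - c.Ys)
  let il := 4 * (c.Ts - b.th) + liL (2 * c.Y4) b.xl b.xh + liL (-2 * c.X4) b.yl b.yh
  let ih := 4 * (c.Ts - b.tl) + liH (2 * c.Y4) b.xl b.xh + liH (-2 * c.X4) b.yl b.yh
  c.n * (16 * (r * r) + 3 * (SS * SS) * sqL il ih)

/-- upper bound of Fq on a box -/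
def FH (c : CD) (b : Bx) : ℤ :=
  let r := sqH (b.xl - c.Xs) (b.xh - c.Xs) + 3 * sqH (b.yl - c.Ys) (b.yh - c.Ys)
  let il := 4 * (c.Ts - b.th) + liL (2 * c.Y4) b.xl b.xh + liL (-2 * c.X4) b.yl b.yh
  let ih := 4 * (c.Ts - b.tl) + liH (2 * c.Y4) b.xl b.xh + liH (-2 * c.X4) b.yl b.yh
  c.n * (16 * (r * r) + 3 * (SS * SS) * sqH il ih)

/-- the whole region -/
def WB : Bx := ⟨0, 1536, -512, 512, -1536, 1536⟩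

/-- certificate trees -/
inductive BT where
  | out : BT
  | leaf (c : ℕ) (ms : List ℕ) : BT
  | sx (l r : BT) : BT
  | sy (l r : BT) : BT
  | st (l r : BT) : BT

/-- parameters (i, k, z, m) of the 85 cusps -/
def cParam : List (Fin 6 × Fin 6 × Eis × ℤ) := [
  (0, 0, ⟨0, 1⟩, 1),
  (0, 0, ⟨-1, -1⟩, -1),
  (0, 0, ⟨1, 1⟩, 1),
  (0, 0, ⟨0, -1⟩, -1),
  (0, 0, ⟨1, 0⟩, 1),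
  (0, 0, ⟨0, 1⟩, -1),
  (0, 0, ⟨-1, -1⟩, 1),
  (0, 0, ⟨1, 0⟩, -1),
  (0, 0, ⟨0, -1⟩, 1),
  (0, 0, ⟨1, 1⟩, -1),
  (0, 0, ⟨0, 0⟩, -1),
  (0, 0, ⟨0, 0⟩, 1),
  (0, 0, ⟨-1, 0⟩, 0),
  (0, 0, ⟨0, 1⟩, 0),
  (0, 0, ⟨-1, -1⟩, 0),
  (0, 0, ⟨1, 1⟩, 0),
  (0, 0, ⟨0, -1⟩, 0),
  (0, 0, ⟨1, 0⟩, 0),
  (0, 0, ⟨0, 0⟩, 0),
  (1, 0, ⟨0, -1⟩, 1),
  (1, 0, ⟨0, -1⟩, -1),
  (1, 0, ⟨1, 0⟩, -1),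
  (1, 0, ⟨1, 1⟩, -1),
  (1, 0, ⟨1, 1⟩, 0),
  (1, 0, ⟨0, 0⟩, -1),
  (1, 0, ⟨1, 0⟩, 0),
  (1, 0, ⟨0, -1⟩, 0),
  (1, 0, ⟨0, 0⟩, 0),
  (2, 0, ⟨1, 1⟩, -1),
  (2, 0, ⟨1, 1⟩, 1),
  (2, 0, ⟨1, 0⟩, 1),
  (2, 0, ⟨0, -1⟩, 1),
  (2, 0, ⟨0, 0⟩, 1),
  (2, 0, ⟨0, -1⟩, 0),
  (2, 0, ⟨1, 1⟩, 0),
  (2, 0, ⟨1, 0⟩, 0),
  (2, 0, ⟨0, 0⟩, 0),
  (3, 0, ⟨0, -1⟩, 0),
  (3, 0, ⟨1, 0⟩, 0),
  (3, 0, ⟨1, 1⟩, 0),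
  (3, 0, ⟨1, 1⟩, 1),
  (3, 0, ⟨0, -1⟩, 1),
  (3, 0, ⟨1, 0⟩, 1),
  (3, 0, ⟨0, 0⟩, 0),
  (3, 0, ⟨0, 0⟩, 1),
  (4, 0, ⟨1, 1⟩, -2),
  (4, 0, ⟨1, 1⟩, 0),
  (4, 2, ⟨0, -1⟩, 1),
  (4, 1, ⟨-1, -1⟩, 1),
  (4, 0, ⟨0, 0⟩, -1),
  (4, 2, ⟨-1, -1⟩, -1),
  (4, 1, ⟨0, 0⟩, -1),
  (4, 1, ⟨-1, 0⟩, -1),
  (4, 2, ⟨0, 0⟩, -1),
  (4, 0, ⟨0, 1⟩, -1),
  (4, 1, ⟨-1, -1⟩, 0),
  (4, 2, ⟨0, -1⟩, 0),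
  (4, 1, ⟨0, 1⟩, -1),
  (4, 0, ⟨1, 1⟩, -1),
  (4, 0, ⟨0, 1⟩, 0),
  (4, 2, ⟨0, 0⟩, 0),
  (4, 1, ⟨-1, 0⟩, 0),
  (4, 1, ⟨0, 0⟩, 0),
  (4, 2, ⟨-1, -1⟩, 0),
  (4, 0, ⟨0, 0⟩, 0),
  (5, 2, ⟨0, -1⟩, 2),
  (5, 2, ⟨0, -1⟩, 0),
  (5, 1, ⟨0, 1⟩, -1),
  (5, 0, ⟨1, 1⟩, -1),
  (5, 0, ⟨0, 1⟩, 1),
  (5, 2, ⟨0, 0⟩, 1),
  (5, 1, ⟨-1, 0⟩, 1),
  (5, 1, ⟨0, 0⟩, 1),
  (5, 2, ⟨-1, -1⟩, 1),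
  (5, 0, ⟨0, 0⟩, 1),
  (5, 1, ⟨0, 1⟩, 0),
  (5, 1, ⟨-1, -1⟩, 1),
  (5, 0, ⟨1, 1⟩, 0),
  (5, 2, ⟨0, -1⟩, 1),
  (5, 2, ⟨-1, -1⟩, 0),
  (5, 1, ⟨-1, 0⟩, 0),
  (5, 0, ⟨0, 0⟩, 0),
  (5, 0, ⟨0, 1⟩, 0),
  (5, 1, ⟨0, 0⟩, 0),
  (5, 2, ⟨0, 0⟩, 0)]

/-- the vectors -/
def cVec : List V3 := [
  ⟨⟨0, 2⟩, ⟨0, 1⟩, ⟨1, 0⟩⟩,
  ⟨⟨-2, -2⟩, ⟨-1, -1⟩, ⟨1, 0⟩⟩,
  ⟨⟨0, 2⟩, ⟨1, 1⟩, ⟨1, 0⟩⟩,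
  ⟨⟨-2, -2⟩, ⟨0, -1⟩, ⟨1, 0⟩⟩,
  ⟨⟨0, 2⟩, ⟨1, 0⟩, ⟨1, 0⟩⟩,
  ⟨⟨-2, -2⟩, ⟨0, 1⟩, ⟨1, 0⟩⟩,
  ⟨⟨0, 2⟩, ⟨-1, -1⟩, ⟨1, 0⟩⟩,
  ⟨⟨-2, -2⟩, ⟨1, 0⟩, ⟨1, 0⟩⟩,
  ⟨⟨0, 2⟩, ⟨0, -1⟩, ⟨1, 0⟩⟩,
  ⟨⟨-2, -2⟩, ⟨1, 1⟩, ⟨1, 0⟩⟩,
  ⟨⟨-1, -2⟩, ⟨0, 0⟩, ⟨1, 0⟩⟩,
  ⟨⟨1, 2⟩, ⟨0, 0⟩, ⟨1, 0⟩⟩,
  ⟨⟨-1, 0⟩, ⟨-1, 0⟩, ⟨1, 0⟩⟩,
  ⟨⟨-1, 0⟩, ⟨0, 1⟩, ⟨1, 0⟩⟩,
  ⟨⟨-1, 0⟩, ⟨-1, -1⟩, ⟨1, 0⟩⟩,
  ⟨⟨-1, 0⟩, ⟨1, 1⟩, ⟨1, 0⟩⟩,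
  ⟨⟨-1, 0⟩, ⟨0, -1⟩, ⟨1, 0⟩⟩,
  ⟨⟨-1, 0⟩, ⟨1, 0⟩, ⟨1, 0⟩⟩,
  ⟨⟨0, 0⟩, ⟨0, 0⟩, ⟨1, 0⟩⟩,
  ⟨⟨5, 2⟩, ⟨-2, -1⟩, ⟨-1, -2⟩⟩,
  ⟨⟨-1, 2⟩, ⟨-2, -1⟩, ⟨-1, -2⟩⟩,
  ⟨⟨-1, 2⟩, ⟨-1, -2⟩, ⟨-1, -2⟩⟩,
  ⟨⟨-1, 2⟩, ⟨1, -1⟩, ⟨-1, -2⟩⟩,
  ⟨⟨2, 2⟩, ⟨1, -1⟩, ⟨-1, -2⟩⟩,
  ⟨⟨-2, 0⟩, ⟨0, 0⟩, ⟨-1, -2⟩⟩,
  ⟨⟨2, 2⟩, ⟨-1, -2⟩, ⟨-1, -2⟩⟩,
  ⟨⟨2, 2⟩, ⟨-2, -1⟩, ⟨-1, -2⟩⟩,
  ⟨⟨1, 0⟩, ⟨0, 0⟩, ⟨-1, -2⟩⟩,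
  ⟨⟨3, -2⟩, ⟨-1, 1⟩, ⟨1, 2⟩⟩,
  ⟨⟨-3, -2⟩, ⟨-1, 1⟩, ⟨1, 2⟩⟩,
  ⟨⟨-3, -2⟩, ⟨1, 2⟩, ⟨1, 2⟩⟩,
  ⟨⟨-3, -2⟩, ⟨2, 1⟩, ⟨1, 2⟩⟩,
  ⟨⟨-2, 0⟩, ⟨0, 0⟩, ⟨1, 2⟩⟩,
  ⟨⟨0, -2⟩, ⟨2, 1⟩, ⟨1, 2⟩⟩,
  ⟨⟨0, -2⟩, ⟨-1, 1⟩, ⟨1, 2⟩⟩,
  ⟨⟨0, -2⟩, ⟨1, 2⟩, ⟨1, 2⟩⟩,
  ⟨⟨1, 0⟩, ⟨0, 0⟩, ⟨1, 2⟩⟩,
  ⟨⟨3, 2⟩, ⟨0, 2⟩, ⟨-2, 0⟩⟩,
  ⟨⟨3, 2⟩, ⟨-2, 0⟩, ⟨-2, 0⟩⟩,
  ⟨⟨3, 2⟩, ⟨-2, -2⟩, ⟨-2, 0⟩⟩,
  ⟨⟨1, -2⟩, ⟨-2, -2⟩, ⟨-2, 0⟩⟩,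
  ⟨⟨1, -2⟩, ⟨0, 2⟩, ⟨-2, 0⟩⟩,
  ⟨⟨1, -2⟩, ⟨-2, 0⟩, ⟨-2, 0⟩⟩,
  ⟨⟨1, 2⟩, ⟨0, 0⟩, ⟨-2, 0⟩⟩,
  ⟨⟨-1, -2⟩, ⟨0, 0⟩, ⟨-2, 0⟩⟩,
  ⟨⟨-1, 4⟩, ⟨-1, -2⟩, ⟨-2, -2⟩⟩,
  ⟨⟨3, 0⟩, ⟨-1, -2⟩, ⟨-2, -2⟩⟩,
  ⟨⟨3, 0⟩, ⟨-2, -1⟩, ⟨-2, -2⟩⟩,
  ⟨⟨3, 0⟩, ⟨-1, 1⟩, ⟨-2, -2⟩⟩,
  ⟨⟨-1, 2⟩, ⟨-1, 0⟩, ⟨-2, -2⟩⟩,
  ⟨⟨-1, 2⟩, ⟨0, 1⟩, ⟨-2, -2⟩⟩,
  ⟨⟨-1, 2⟩, ⟨-1, -1⟩, ⟨-2, -2⟩⟩,
  ⟨⟨-1, 2⟩, ⟨1, 1⟩, ⟨-2, -2⟩⟩,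
  ⟨⟨-1, 2⟩, ⟨0, -1⟩, ⟨-2, -2⟩⟩,
  ⟨⟨-1, 2⟩, ⟨1, 0⟩, ⟨-2, -2⟩⟩,
  ⟨⟨1, 2⟩, ⟨-1, 1⟩, ⟨-2, -2⟩⟩,
  ⟨⟨1, 2⟩, ⟨-2, -1⟩, ⟨-2, -2⟩⟩,
  ⟨⟨1, 2⟩, ⟨1, -1⟩, ⟨-2, -2⟩⟩,
  ⟨⟨1, 2⟩, ⟨-1, -2⟩, ⟨-2, -2⟩⟩,
  ⟨⟨1, 0⟩, ⟨1, 0⟩, ⟨-2, -2⟩⟩,
  ⟨⟨1, 0⟩, ⟨0, -1⟩, ⟨-2, -2⟩⟩,
  ⟨⟨1, 0⟩, ⟨1, 1⟩, ⟨-2, -2⟩⟩,
  ⟨⟨1, 0⟩, ⟨-1, -1⟩, ⟨-2, -2⟩⟩,
  ⟨⟨1, 0⟩, ⟨0, 1⟩, ⟨-2, -2⟩⟩,
  ⟨⟨1, 0⟩, ⟨-1, 0⟩, ⟨-2, -2⟩⟩,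
  ⟨⟨-5, -4⟩, ⟨1, 2⟩, ⟨0, 2⟩⟩,
  ⟨⟨3, 0⟩, ⟨1, 2⟩, ⟨0, 2⟩⟩,
  ⟨⟨3, 0⟩, ⟨-2, -1⟩, ⟨0, 2⟩⟩,
  ⟨⟨3, 0⟩, ⟨-1, 1⟩, ⟨0, 2⟩⟩,
  ⟨⟨-3, -2⟩, ⟨-1, -1⟩, ⟨0, 2⟩⟩,
  ⟨⟨-3, -2⟩, ⟨-1, 0⟩, ⟨0, 2⟩⟩,
  ⟨⟨-3, -2⟩, ⟨0, -1⟩, ⟨0, 2⟩⟩,
  ⟨⟨-3, -2⟩, ⟨0, 1⟩, ⟨0, 2⟩⟩,
  ⟨⟨-3, -2⟩, ⟨1, 0⟩, ⟨0, 2⟩⟩,
  ⟨⟨-3, -2⟩, ⟨1, 1⟩, ⟨0, 2⟩⟩,
  ⟨⟨-1, -2⟩, ⟨-2, -1⟩, ⟨0, 2⟩⟩,
  ⟨⟨-1, -2⟩, ⟨2, 1⟩, ⟨0, 2⟩⟩,
  ⟨⟨-1, -2⟩, ⟨-1, 1⟩, ⟨0, 2⟩⟩,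
  ⟨⟨-1, -2⟩, ⟨1, 2⟩, ⟨0, 2⟩⟩,
  ⟨⟨1, 0⟩, ⟨1, 0⟩, ⟨0, 2⟩⟩,
  ⟨⟨1, 0⟩, ⟨0, -1⟩, ⟨0, 2⟩⟩,
  ⟨⟨1, 0⟩, ⟨1, 1⟩, ⟨0, 2⟩⟩,
  ⟨⟨1, 0⟩, ⟨-1, -1⟩, ⟨0, 2⟩⟩,
  ⟨⟨1, 0⟩, ⟨0, 1⟩, ⟨0, 2⟩⟩,
  ⟨⟨1, 0⟩, ⟨-1, 0⟩, ⟨0, 2⟩⟩]

/-- the positions -/
def cDat : List CD := [
  ⟨1, -2, 2, 3072, -1536, 1536⟩,
  ⟨1, -2, -2, -3072, -1536, -1536⟩,
  ⟨1, 2, 2, 3072, 1536, 1536⟩,
  ⟨1, 2, -2, -3072, 1536, -1536⟩,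
  ⟨1, 4, 0, 3072, 3072, 0⟩,
  ⟨1, -2, 2, -3072, -1536, 1536⟩,
  ⟨1, -2, -2, 3072, -1536, -1536⟩,
  ⟨1, 4, 0, -3072, 3072, 0⟩,
  ⟨1, 2, -2, 3072, 1536, -1536⟩,
  ⟨1, 2, 2, -3072, 1536, 1536⟩,
  ⟨1, 0, 0, -3072, 0, 0⟩,
  ⟨1, 0, 0, 3072, 0, 0⟩,
  ⟨1, -4, 0, 0, -3072, 0⟩,
  ⟨1, -2, 2, 0, -1536, 1536⟩,
  ⟨1, -2, -2, 0, -1536, -1536⟩,
  ⟨1, 2, 2, 0, 1536, 1536⟩,
  ⟨1, 2, -2, 0, 1536, -1536⟩,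
  ⟨1, 4, 0, 0, 3072, 0⟩,
  ⟨1, 0, 0, 0, 0, 0⟩,
  ⟨3, 2, -2, 4096, 1536, -1536⟩,
  ⟨3, 2, -2, -2048, 1536, -1536⟩,
  ⟨3, 4, 0, -2048, 3072, 0⟩,
  ⟨3, 2, 2, -2048, 1536, 1536⟩,
  ⟨3, 2, 2, 1024, 1536, 1536⟩,
  ⟨3, 0, 0, -2048, 0, 0⟩,
  ⟨3, 4, 0, 1024, 3072, 0⟩,
  ⟨3, 2, -2, 1024, 1536, -1536⟩,
  ⟨3, 0, 0, 1024, 0, 0⟩,
  ⟨3, 2, 2, -4096, 1536, 1536⟩,
  ⟨3, 2, 2, 2048, 1536, 1536⟩,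
  ⟨3, 4, 0, 2048, 3072, 0⟩,
  ⟨3, 2, -2, 2048, 1536, -1536⟩,
  ⟨3, 0, 0, 2048, 0, 0⟩,
  ⟨3, 2, -2, -1024, 1536, -1536⟩,
  ⟨3, 2, 2, -1024, 1536, 1536⟩,
  ⟨3, 4, 0, -1024, 3072, 0⟩,
  ⟨3, 0, 0, -1024, 0, 0⟩,
  ⟨4, 2, -2, -1536, 1536, -1536⟩,
  ⟨4, 4, 0, -1536, 3072, 0⟩,
  ⟨4, 2, 2, -1536, 1536, 1536⟩,
  ⟨4, 2, 2, 1536, 1536, 1536⟩,
  ⟨4, 2, -2, 1536, 1536, -1536⟩,
  ⟨4, 4, 0, 1536, 3072, 0⟩,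
  ⟨4, 0, 0, -1536, 0, 0⟩,
  ⟨4, 0, 0, 1536, 0, 0⟩,
  ⟨4, 3, 1, -3840, 2304, 768⟩,
  ⟨4, 3, 1, 2304, 2304, 768⟩,
  ⟨4, 3, -1, 2304, 2304, -768⟩,
  ⟨4, 0, -2, 2304, 0, -1536⟩,
  ⟨4, 1, -1, -2304, 768, -768⟩,
  ⟨4, -1, -1, -2304, -768, -768⟩,
  ⟨4, 2, 0, -2304, 1536, 0⟩,
  ⟨4, -2, 0, -2304, -1536, 0⟩,
  ⟨4, 1, 1, -2304, 768, 768⟩,
  ⟨4, -1, 1, -2304, -768, 768⟩,
  ⟨4, 0, -2, -768, 0, -1536⟩,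
  ⟨4, 3, -1, -768, 2304, -768⟩,
  ⟨4, 0, 2, -768, 0, 1536⟩,
  ⟨4, 3, 1, -768, 2304, 768⟩,
  ⟨4, -1, 1, 768, -768, 768⟩,
  ⟨4, 1, 1, 768, 768, 768⟩,
  ⟨4, -2, 0, 768, -1536, 0⟩,
  ⟨4, 2, 0, 768, 1536, 0⟩,
  ⟨4, -1, -1, 768, -768, -768⟩,
  ⟨4, 1, -1, 768, 768, -768⟩,
  ⟨4, 3, -1, 3840, 2304, -768⟩,
  ⟨4, 3, -1, -2304, 2304, -768⟩,
  ⟨4, 0, 2, -2304, 0, 1536⟩,
  ⟨4, 3, 1, -2304, 2304, 768⟩,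
  ⟨4, -1, 1, 2304, -768, 768⟩,
  ⟨4, 1, 1, 2304, 768, 768⟩,
  ⟨4, -2, 0, 2304, -1536, 0⟩,
  ⟨4, 2, 0, 2304, 1536, 0⟩,
  ⟨4, -1, -1, 2304, -768, -768⟩,
  ⟨4, 1, -1, 2304, 768, -768⟩,
  ⟨4, 0, 2, 768, 0, 1536⟩,
  ⟨4, 0, -2, 768, 0, -1536⟩,
  ⟨4, 3, 1, 768, 2304, 768⟩,
  ⟨4, 3, -1, 768, 2304, -768⟩,
  ⟨4, -1, -1, -768, -768, -768⟩,
  ⟨4, -2, 0, -768, -1536, 0⟩,
  ⟨4, 1, -1, -768, 768, -768⟩,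
  ⟨4, -1, 1, -768, -768, 768⟩,
  ⟨4, 2, 0, -768, 1536, 0⟩,
  ⟨4, 1, 1, -768, 768, 768⟩]

/-- adjacency bit masks -/
def cAdj : List ℕ := [
  2953784894807037196293,
  1208925825244128725980170,
  39550395755889934247989,
  604462947525107513640138,
  157056732039857110944532,
  19342960858923459517130276,
  103910509648693833320776,
  2417925501113399278765960,
  325847899147001362581968,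
  9671702004312189589423792,
  516544343960410650282,
  37225530050927458777429,
  1813981908662032745659395,
  6083590355442746375060517,
  3024687298084869655321674,
  24334507986989086750977588,
  12174362324523635715821000,
  29335659095304600120430480,
  38647884153291048512651263,
  140737489012992,
  36591893002404872,
  74344887463642240,
  297238142346495488,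
  1297108161484062772,
  35474711895082666,
  4900061531221656336,
  18519085343962366400,
  36317044991731431424,
  295147905179621393920,
  38959523484774629943300,
  155874987427244865128464,
  321120920837337112578304,
  37188636070195071551829,
  2493483289931613541302472,
  19494076415239052058722864,
  9973933159726179284288384,
  38081163317869683833041920,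
  2493483326523360513425416,
  9973933234070757507727488,
  19494076712476627464913408,
  38960820591836056813572,
  321139439920479836635392,
  155879887484376932548624,
  38081163353335530898326528,
  37224953097590187231232,
  2287259065779328,
  5904111096559927592976,
  23616444245502222534912,
  28352645924965647976512,
  604536736761989668291720,
  1208925825815874772145162,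
  2418220658034530962179712,
  4835703302111210852328450,
  9671849596287922026448416,
  19342960863435838048994336,
  3022323809000494204207112,
  12089276717202233278922880,
  24178517707344774206619680,
  29014224579679641867256320,
  1247889378341162192220164,
  5029326789528696150859792,
  605065311311063985442817,
  19815074261865732101275904,
  2495800698202116613029888,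
  10058672962673333722611776,
  4759259975416184571920,
  2417925429020448983680128,
  19342960714808821171651616,
  9671701716081521325114880,
  4134376533116634273797,
  44272762326720501000212,
  12405435407166154491905,
  175946198129648143993104,
  106271692907712184649792,
  335292632411773354510656,
  4874664531325548230877188,
  2502881906037168556802112,
  19498656972381254177816592,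
  9992550536184771817898240,
  4231242711094823110332424,
  6649092585475977483923458,
  12769362090375054063124608,
  25425222445319326953414656,
  31734616728837612393398784,
  34001191312669448128069664]

/-- vector number j -/
def cv (j : ℕ) : V3 := cVec.getD j ⟨0, 0, 0⟩
/-- data number j -/
def cd (j : ℕ) : CD := cDat.getD j ⟨0, 0, 0, 0, 0, 0⟩
/-- adjacency from the table -/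
def cadj (i j : ℕ) : Bool := (cAdj.getD i 0).testBit j

/-- the check of a certificate tree on a box -/
def BT.check : BT → Bx → Bool
  | .out, b => decide (b.xh < 3 * b.yl) || decide (b.xh < -(3 * b.yh))
  | .leaf c ms, b => decide (c < 85) && decide (FH (cd c) b < ONE4) &&
      ms.all (fun m => decide (m < 85) && decide (FH (cd m) b < ONE4) && cadj m c) &&
      (List.range 85).all (fun u => decide (ONE4 < FL (cd u) b) || cadj u c ||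
        ms.any (fun m => cadj u m))
  | .sx l r, b => l.check { b with xh := (b.xl + b.xh) / 2 } &&
      r.check { b with xl := (b.xl + b.xh) / 2 }
  | .sy l r, b => l.check { b with yh := (b.yl + b.yh) / 2 } &&
      r.check { b with yl := (b.yl + b.yh) / 2 }
  | .st l r, b => l.check { b with th := (b.tl + b.th) / 2 } &&
      r.check { b with tl := (b.tl + b.th) / 2 }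

/-- subtree -/
def bt0 : BT := (.sy (.st (.sx .out (.sy .out (.st (.leaf 18 [10, 81]) (.leaf 43 [81])))) (.sx .out (.leaf 18 [16, 43]))) (.st (.sx (.leaf 18 [24]) (.sy (.st (.leaf 10 [18]) (.leaf 18 [24])) (.st (.leaf 10 [18]) (.leaf 43 [83])))) (.leaf 18 [43, 83])))

/-- subtree -/
def bt1 : BT := (.sy (.leaf 16 [18, 51]) (.st (.leaf 51 [81]) (.sx (.sy (.leaf 51 [81]) (.leaf 7 [18, 24])) (.sy (.leaf 51 [81]) (.leaf 24 [7, 18, 53])))))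

/-- subtree -/
def bt2 : BT := (.sy (.leaf 51 [81]) (.st (.leaf 7 [18, 51]) (.sx (.sy (.leaf 7 [18, 51]) (.leaf 7 [18, 24, 38])) (.sy (.leaf 7 [18, 51]) (.st (.leaf 7 [18, 51]) (.leaf 16 [83, 7]))))))

/-- subtree -/
def bt3 : BT := (.sx (.sy (.st (.leaf 18 [7, 43]) (.leaf 18 [56])) (.leaf 16 [83, 18])) (.sy (.st (.sx (.leaf 18 [7, 43]) (.sy (.leaf 7 [18]) (.leaf 16 [83, 7]))) (.leaf 16 [83])) (.leaf 16 [83, 18])))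

/-- subtree -/
def bt4 : BT := (.st (.sx (.sy (.st (.leaf 10 [18, 51]) (.leaf 16 [83, 18])) (.st (.sx (.sy (.st (.leaf 10 [18, 51]) (.leaf 16 [83, 18])) (.leaf 18 [10, 83])) (.leaf 18 [10, 56])) (.leaf 83 [43, 16]))) (.sy (.st (.leaf 7 [18, 51]) (.leaf 16 [83, 18])) (.leaf 18 [9, 56]))) (.sx (.leaf 16 [18, 83]) (.leaf 16 [83, 18])))

/-- subtree -/
def bt5 : BT := (.sx (.sy (.st (.leaf 18 [81]) (.leaf 18 [])) (.leaf 18 [])) (.sy (.leaf 16 [83, 18]) (.leaf 17 [18])))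

/-- subtree -/
def bt6 : BT := (.sy (.st (.sx (.leaf 18 [24]) (.leaf 18 [24, 83])) (.leaf 18 [43])) (.st (.sx .out (.sy (.st (.sx .out (.leaf 10 [18, 53])) (.leaf 17 [18, 84])) .out)) (.sx .out (.leaf 17 [18, 84]))))

/-- subtree -/
def bt7 : BT := (.st (.sx (.sy (.st (.leaf 18 [10, 83]) (.leaf 18 [17, 24])) (.leaf 18 [17, 24])) (.leaf 17 [18, 53])) (.sx (.leaf 18 [17, 43]) (.sy (.leaf 17 [18]) (.st (.leaf 18 [17, 43]) (.leaf 17 [18])))))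

/-- subtree -/
def bt8 : BT := (.sx (.sy (.st (.leaf 53 [83]) (.sx (.sy (.leaf 18 [17, 24]) (.st (.leaf 9 [18, 53]) (.leaf 17 [84, 18]))) (.leaf 53 [83]))) (.st (.leaf 9 [10, 18]) (.sx .out (.sy (.st (.leaf 9 [18, 53]) (.leaf 17 [84, 18])) .out)))) (.leaf 9 [83, 53]))

/-- subtree -/
def bt9 : BT := (.sx (.leaf 17 [84, 18]) (.sy (.st (.leaf 18 [9, 43]) (.leaf 17 [84, 18])) (.st (.sx (.leaf 17 [84, 18]) (.leaf 18 [9, 43])) (.leaf 17 [84]))))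

/-- subtree -/
def bt10 : BT := (.sx (.sy (.leaf 18 []) (.st (.leaf 18 [84]) (.leaf 18 []))) (.sy (.st (.sx (.leaf 17 [18]) (.leaf 17 [18])) (.leaf 17 [18])) (.leaf 17 [84, 18])))

/-- subtree -/
def bt11 : BT := (.sx (.sy (.st (.leaf 18 []) (.leaf 18 [64])) (.leaf 18 [])) (.sy (.leaf 17 [64, 18]) (.st (.leaf 17 [18]) (.sx (.leaf 17 [18]) (.leaf 17 [18])))))

/-- subtree -/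
def bt12 : BT := (.sy (.st (.sx .out (.leaf 17 [18, 64])) (.sx .out (.sy .out (.st (.leaf 17 [18, 64]) (.sx .out (.leaf 11 [18, 74])))))) (.st (.leaf 18 [44]) (.sx (.leaf 18 [32]) (.leaf 18 [32, 62]))))

/-- subtree -/
def bt13 : BT := (.sx (.leaf 17 [64, 18]) (.sy (.st (.leaf 17 [64]) (.sx (.leaf 17 [64, 18]) (.leaf 18 [8, 44]))) (.st (.leaf 17 [64, 18]) (.leaf 18 [8, 44]))))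

/-- subtree -/
def bt14 : BT := (.sx (.sy (.st (.sx .out (.sy .out (.st (.leaf 17 [64, 18]) (.leaf 8 [18, 74])))) (.leaf 8 [11, 18])) (.st (.sx (.sy (.st (.leaf 17 [64, 18]) (.leaf 8 [18, 74])) (.leaf 18 [17, 32])) (.leaf 62 [74])) (.leaf 62 [74]))) (.leaf 8 [62, 74]))

/-- subtree -/
def bt15 : BT := (.st (.sx (.leaf 18 [17, 44]) (.sy (.st (.leaf 17 [18]) (.leaf 18 [17, 44])) (.leaf 17 [18]))) (.sx (.sy (.leaf 18 [17, 32]) (.st (.leaf 18 [17, 32]) (.leaf 18 [11, 62]))) (.leaf 17 [18, 74])))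

/-- subtree -/
def bt16 : BT := (.sx (.sy (.leaf 18 []) (.st (.leaf 18 []) (.leaf 18 [60]))) (.sy (.leaf 17 [18]) (.leaf 15 [62, 18])))

/-- subtree -/
def bt17 : BT := (.sy (.st (.leaf 18 [44, 62]) (.sx (.leaf 18 [32]) (.sy (.st (.leaf 44 [62]) (.leaf 11 [18])) (.st (.leaf 18 [32]) (.leaf 11 [18]))))) (.st (.sx .out (.leaf 18 [15, 44])) (.sx .out (.sy (.st (.leaf 44 [60]) (.leaf 18 [11, 60])) .out))))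

/-- subtree -/
def bt18 : BT := (.st (.sx (.leaf 15 [18, 62]) (.leaf 15 [62, 18])) (.sx (.sy (.st (.leaf 62 [44, 15]) (.sx (.sy (.leaf 18 [11, 62]) (.st (.leaf 15 [62, 18]) (.leaf 11 [18, 72]))) (.leaf 18 [11, 77]))) (.st (.leaf 15 [62, 18]) (.leaf 11 [18, 72]))) (.sy (.leaf 18 [8, 77]) (.st (.leaf 15 [62, 18]) (.leaf 4 [18, 72])))))

/-- subtree -/
def bt19 : BT := (.sx (.sy (.leaf 15 [62, 18]) (.st (.leaf 18 [77]) (.leaf 18 [4, 44]))) (.sy (.leaf 15 [62, 18]) (.st (.leaf 15 [62]) (.sx (.leaf 18 [4, 44]) (.sy (.leaf 15 [62, 4]) (.leaf 4 [18]))))))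

/-- subtree -/
def bt20 : BT := (.sy (.st (.sx (.sy (.leaf 4 [18, 32]) (.leaf 60 [72])) (.sy (.leaf 32 [4, 18, 74]) (.leaf 60 [72]))) (.leaf 60 [72])) (.leaf 15 [18, 72]))

/-- subtree -/
def bt21 : BT := (.sy (.st (.sx (.sy (.leaf 4 [18, 32, 42]) (.leaf 4 [18, 72])) (.sy (.st (.leaf 15 [62, 4]) (.leaf 4 [18, 72])) (.leaf 4 [18, 72]))) (.leaf 4 [18, 72])) (.leaf 60 [72]))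

/-- the certificate tree -/
def btree : BT := (.st (.sy (.st (.sx bt0 (.sy (.st (.sx bt1 bt2) bt3) bt4)) bt5) (.st (.sx bt6 (.sy bt7 (.st bt8 bt9))) bt10)) (.sy (.st bt11 (.sx bt12 (.sy (.st bt13 bt14) bt15))) (.st bt16 (.sx bt17 (.sy bt18 (.st bt19 (.sx bt20 bt21)))))))

end Pool.Agent.H13.DM
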