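import Mathlib
import Pool.Agent.H13.DM.EBox

/-!
MP_9d29f5_al, project DM, block B, part E: kernel checks of the box certificate.
-/
set_option autoImplicit false

namespace Pool.Agent.H13.DM

theorem cv_ok : ∀ j < 85, (cd j).ok (cv j) ∧
    cv j = cuspV (cParam.getD j (0, 0, 0, 0)).1 (cParam.getD j (0, 0, 0, 0)).2.1
      (cParam.getD j (0, 0, 0, 0)).2.2.1 (cParam.getD j (0, 0, 0, 0)).2.2.2 := by
  decide +kernel

theorem cadj_ok0 : ∀ i < 17, ∀ j < 85, cadj i j = true →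
    (hf (cv i) (cv j)).nrm = 0 ∨ (hf (cv i) (cv j)).nrm = 1 ∨
      (hf (cv i) (cv j)).nrm = 3 ∨ (hf (cv i) (cv j)).nrm = 4 := by
  decide +kernel

theorem cadj_ok1 : ∀ i < 17, ∀ j < 85, cadj (i + 17) j = true →
    (hf (cv (i + 17)) (cv j)).nrm = 0 ∨ (hf (cv (i + 17)) (cv j)).nrm = 1 ∨
      (hf (cv (i + 17)) (cv j)).nrm = 3 ∨ (hf (cv (i + 17)) (cv j)).nrm = 4 := by
  decide +kernel

theorem cadj_ok2 : ∀ i < 17, ∀ j < 85, cadj (i + 34) j = true →
    (hf (cv (i + 34)) (cv j)).nrm = 0 ∨ (hf (cv (i + 34)) (cv j)).nrm = 1 ∨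
      (hf (cv (i + 34)) (cv j)).nrm = 3 ∨ (hf (cv (i + 34)) (cv j)).nrm = 4 := by
  decide +kernel

theorem cadj_ok3 : ∀ i < 17, ∀ j < 85, cadj (i + 51) j = true →
    (hf (cv (i + 51)) (cv j)).nrm = 0 ∨ (hf (cv (i + 51)) (cv j)).nrm = 1 ∨
      (hf (cv (i + 51)) (cv j)).nrm = 3 ∨ (hf (cv (i + 51)) (cv j)).nrm = 4 := by
  decide +kernel

theorem cadj_ok4 : ∀ i < 17, ∀ j < 85, cadj (i + 68) j = true →
    (hf (cv (i + 68)) (cv j)).nrm = 0 ∨ (hf (cv (i + 68)) (cv j)).nrm = 1 ∨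
      (hf (cv (i + 68)) (cv j)).nrm = 3 ∨ (hf (cv (i + 68)) (cv j)).nrm = 4 := by
  decide +kernel

theorem cadj_ok : ∀ i < 85, ∀ j < 85, cadj i j = true →
    (hf (cv i) (cv j)).nrm = 0 ∨ (hf (cv i) (cv j)).nrm = 1 ∨ (hf (cv i) (cv j)).nrm = 3 ∨
      (hf (cv i) (cv j)).nrm = 4 := by
  intro i hi j hj
  by_cases h0 : i < 17
  · exact cadj_ok0 i h0 j hj
  by_cases h1 : i < 34
  · obtain ⟨k, rfl⟩ : ∃ k, i = k + 17 := ⟨i - 17, by omega⟩
    exact cadj_ok1 k (by omega) j hj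
  by_cases h2 : i < 51
  · obtain ⟨k, rfl⟩ : ∃ k, i = k + 34 := ⟨i - 34, by omega⟩
    exact cadj_ok2 k (by omega) j hj
  by_cases h3 : i < 68
  · obtain ⟨k, rfl⟩ : ∃ k, i = k + 51 := ⟨i - 51, by omega⟩
    exact cadj_ok3 k (by omega) j hj
  · obtain ⟨k, rfl⟩ : ∃ k, i = k + 68 := ⟨i - 68, by omega⟩
    exact cadj_ok4 k (by omega) j hj

theorem cadj_refl : ∀ i < 85, cadj i i = true := by
  decide +kernel

theorem BT.check_sx (l r : BT) (b : Bx) (hl : l.check { b with xh := (b.xl + b.xh) / 2 } = true)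
    (hr : r.check { b with xl := (b.xl + b.xh) / 2 } = true) : (BT.sx l r).check b = true := by
  rw [BT.check, hl, hr]; rfl

theorem BT.check_sy (l r : BT) (b : Bx) (hl : l.check { b with yh := (b.yl + b.yh) / 2 } = true)
    (hr : r.check { b with yl := (b.yl + b.yh) / 2 } = true) : (BT.sy l r).check b = true := by
  rw [BT.check, hl, hr]; rfl

theorem BT.check_st (l r : BT) (b : Bx) (hl : l.check { b with th := (b.tl + b.th) / 2 } = true)
    (hr : r.check { b with tl := (b.tl + b.th) / 2 } = true) : (BT.st l r).check b = true := by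
  rw [BT.check, hl, hr]; rfl

theorem bt0_ok : bt0.check ⟨0, 768, -512, 0, -1536, -768⟩ = true := by decide +kernel
theorem bt1_ok : bt1.check ⟨768, 1152, -512, -256, -1536, -1152⟩ = true := by decide +kernel
theorem bt2_ok : bt2.check ⟨1152, 1536, -512, -256, -1536, -1152⟩ = true := by decide +kernel
theorem bt3_ok : bt3.check ⟨768, 1536, -512, -256, -1152, -768⟩ = true := by decide +kernel
theorem bt4_ok : bt4.check ⟨768, 1536, -256, 0, -1536, -768⟩ = true := by decide +kernel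
theorem bt5_ok : bt5.check ⟨0, 1536, -512, 0, -768, 0⟩ = true := by decide +kernel
theorem bt6_ok : bt6.check ⟨0, 768, 0, 512, -1536, -768⟩ = true := by decide +kernel
theorem bt7_ok : bt7.check ⟨768, 1536, 0, 256, -1536, -768⟩ = true := by decide +kernel
theorem bt8_ok : bt8.check ⟨768, 1536, 256, 512, -1536, -1152⟩ = true := by decide +kernel
theorem bt9_ok : bt9.check ⟨768, 1536, 256, 512, -1152, -768⟩ = true := by decide +kernel
theorem bt10_ok : bt10.check ⟨0, 1536, 0, 512, -768, 0⟩ = true := by decide +kernel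
theorem bt11_ok : bt11.check ⟨0, 1536, -512, 0, 0, 768⟩ = true := by decide +kernel
theorem bt12_ok : bt12.check ⟨0, 768, -512, 0, 768, 1536⟩ = true := by decide +kernel
theorem bt13_ok : bt13.check ⟨768, 1536, -512, -256, 768, 1152⟩ = true := by decide +kernel
theorem bt14_ok : bt14.check ⟨768, 1536, -512, -256, 1152, 1536⟩ = true := by decide +kernel
theorem bt15_ok : bt15.check ⟨768, 1536, -256, 0, 768, 1536⟩ = true := by decide +kernel
theorem bt16_ok : bt16.check ⟨0, 1536, 0, 512, 0, 768⟩ = true := by decide +kernel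
theorem bt17_ok : bt17.check ⟨0, 768, 0, 512, 768, 1536⟩ = true := by decide +kernel
theorem bt18_ok : bt18.check ⟨768, 1536, 0, 256, 768, 1536⟩ = true := by decide +kernel
theorem bt19_ok : bt19.check ⟨768, 1536, 256, 512, 768, 1152⟩ = true := by decide +kernel
theorem bt20_ok : bt20.check ⟨768, 1152, 256, 512, 1152, 1536⟩ = true := by decide +kernel
theorem bt21_ok : bt21.check ⟨1152, 1536, 256, 512, 1152, 1536⟩ = true := by decide +kernel

theorem btree_ok : btree.check WB = true :=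
  (BT.check_st _ _ _ (BT.check_sy _ _ _ (BT.check_st _ _ _ (BT.check_sx _ _ _ bt0_ok
    (BT.check_sy _ _ _ (BT.check_st _ _ _ (BT.check_sx _ _ _ bt1_ok
    bt2_ok)
    bt3_ok)
    bt4_ok))
    bt5_ok)
    (BT.check_st _ _ _ (BT.check_sx _ _ _ bt6_ok
    (BT.check_sy _ _ _ bt7_ok
    (BT.check_st _ _ _ bt8_ok
    bt9_ok)))
    bt10_ok))
    (BT.check_sy _ _ _ (BT.check_st _ _ _ bt11_ok
    (BT.check_sx _ _ _ bt12_ok
    (BT.check_sy _ _ _ (BT.check_st _ _ _ bt13_ok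
    bt14_ok)
    bt15_ok)))
    (BT.check_st _ _ _ bt16_ok
    (BT.check_sx _ _ _ bt17_ok
    (BT.check_sy _ _ _ bt18_ok
    (BT.check_st _ _ _ bt19_ok
    (BT.check_sx _ _ _ bt20_ok
    bt21_ok)))))))

end Pool.Agent.H13.DM
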