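import Mathlib
import Pool.Agent.H13.DM.EBox
import Pool.Agent.H13.DM.EBoxCheck

/-!
MP_9d29f5_al, project DM, block B, part E, file ESound (job DM-ESOUND): soundness of the box certificate.
Prove the theorems in place (helper lemmas welcome).

PAPER PROOFS. (1) FL_le, le_FH: interval arithmetic. sqL l h <= v^2 <= sqH l h for l <= v <= h; liL c l h <= c v <= liH c l h. The number r in FL is >= 0, so r^2 <= (..)^2. Needs c.n >= 0.
(2) tree_sound: induction on the tree. out: then xh < 3 yl or xh < -3 yh contradicts |3 Y| <= X. leaf c ms: c < 85 and FH (cd c) b < ONE4, so Fq (cd c) < ONE4. For u < 85 with Fq (cd u) <= ONE4: not ONE4 < FL, so cadj u c (take m = c, cadj_refl) or some m in ms with cadj u m (then m < 85,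
Fq (cd m) < ONE4, cadj m c). Splits: any integer cut point works (X <= cut or cut <= X). c.n >= 0 for the entries of the table (cv_ok). cadj_refl etc. are in EBoxCheck.
-/
set_option autoImplicit false

namespace Pool.Agent.H13.DM

theorem esound_sqL {l h : ℤ} {v : ℚ} (h1 : (l : ℚ) ≤ v) (h2 : v ≤ h) : (sqL l h : ℚ) ≤ v ^ 2 := by
  unfold sqL
  split_ifs with hc
  · push_cast; positivity
  · rw [not_and_or, not_le, not_le] at hc
    push_cast
    rcases hc with hc | hc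
    · have h3 : (0 : ℚ) < l := by exact_mod_cast hc
      refine (min_le_left _ _).trans ?_
      nlinarith
    · have h3 : (h : ℚ) < 0 := by exact_mod_cast hc
      refine (min_le_right _ _).trans ?_
      nlinarith

theorem esound_sqL_nonneg (l h : ℤ) : (0 : ℚ) ≤ sqL l h := by
  have : 0 ≤ sqL l h := by
    unfold sqL
    split_ifs with hc
    · exact le_rfl
    · exact le_min (mul_self_nonneg l) (mul_self_nonneg h)
  exact_mod_cast this

theorem esound_sqH {l h : ℤ} {v : ℚ} (h1 : (l : ℚ) ≤ v) (h2 : v ≤ h) : v ^ 2 ≤ (sqH l h : ℚ) := by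
  unfold sqH
  push_cast
  rcases le_total 0 v with h0 | h0
  · refine le_trans ?_ (le_max_right _ _)
    nlinarith
  · refine le_trans ?_ (le_max_left _ _)
    nlinarith

theorem esound_liL {c l h : ℤ} {v : ℚ} (h1 : (l : ℚ) ≤ v) (h2 : v ≤ h) :
    (liL c l h : ℚ) ≤ c * v := by
  unfold liL
  push_cast
  rcases le_total (0 : ℚ) c with h0 | h0
  · exact (min_le_left _ _).trans (mul_le_mul_of_nonneg_left h1 h0)
  · exact (min_le_right _ _).trans (mul_le_mul_of_nonpos_left h2 h0)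

theorem esound_liH {c l h : ℤ} {v : ℚ} (h1 : (l : ℚ) ≤ v) (h2 : v ≤ h) :
    c * v ≤ (liH c l h : ℚ) := by
  unfold liH
  push_cast
  rcases le_total (0 : ℚ) c with h0 | h0
  · exact (mul_le_mul_of_nonneg_left h2 h0).trans (le_max_right _ _)
  · exact (mul_le_mul_of_nonpos_left h1 h0).trans (le_max_left _ _)

theorem FL_le (c : CD) (b : Bx) (hn : 0 ≤ c.n) (X Y T : ℚ) (h1 : b.xl ≤ X) (h2 : X ≤ b.xh)
    (h3 : b.yl ≤ Y) (h4 : Y ≤ b.yh) (h5 : b.tl ≤ T) (h6 : T ≤ b.th) :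
    (FL c b : ℚ) ≤ Fq c X Y T := by
  have hn' : (0 : ℚ) ≤ c.n := by exact_mod_cast hn
  have a1 := esound_sqL (l := b.xl - c.Xs) (h := b.xh - c.Xs) (v := X - c.Xs)
    (by push_cast; linarith) (by push_cast; linarith)
  have a2 := esound_sqL (l := b.yl - c.Ys) (h := b.yh - c.Ys) (v := Y - c.Ys)
    (by push_cast; linarith) (by push_cast; linarith)
  have b1 := esound_sqL_nonneg (b.xl - c.Xs) (b.xh - c.Xs)
  have b2 := esound_sqL_nonneg (b.yl - c.Ys) (b.yh - c.Ys)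
  have l1 := esound_liL (c := 2 * c.Y4) h1 h2
  have l2 := esound_liL (c := -2 * c.X4) h3 h4
  have l3 := esound_liH (c := 2 * c.Y4) h1 h2
  have l4 := esound_liH (c := -2 * c.X4) h3 h4
  push_cast at l1 l2 l3 l4
  have a3 := esound_sqL
    (l := 4 * (c.Ts - b.th) + liL (2 * c.Y4) b.xl b.xh + liL (-2 * c.X4) b.yl b.yh)
    (h := 4 * (c.Ts - b.tl) + liH (2 * c.Y4) b.xl b.xh + liH (-2 * c.X4) b.yl b.yh)
    (v := 4 * (c.Ts - T) + 2 * c.Y4 * X - 2 * c.X4 * Y)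
    (by push_cast; linarith) (by push_cast; linarith)
  unfold FL Fq
  push_cast at a1 a2 a3 b1 b2 ⊢
  set r1 : ℚ := (sqL (b.xl - c.Xs) (b.xh - c.Xs) : ℚ)
  set r2 : ℚ := (sqL (b.yl - c.Ys) (b.yh - c.Ys) : ℚ)
  have hr : (r1 + 3 * r2) * (r1 + 3 * r2) ≤ ((X - c.Xs) ^ 2 + 3 * (Y - c.Ys) ^ 2) ^ 2 := by
    rw [← sq]
    have : r1 + 3 * r2 ≤ (X - c.Xs) ^ 2 + 3 * (Y - c.Ys) ^ 2 := by linarith
    have h0 : 0 ≤ r1 + 3 * r2 := by linarith
    gcongr
  have hS : (0 : ℚ) ≤ 3 * ((SS : ℚ) * SS) := by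
    have := mul_self_nonneg ((SS : ℤ) : ℚ)
    linarith
  refine mul_le_mul_of_nonneg_left ?_ hn'
  have := mul_le_mul_of_nonneg_left a3 hS
  have e : 3 * (SS : ℚ) ^ 2 = 3 * ((SS : ℚ) * SS) := by ring
  rw [e]
  linarith

theorem le_FH (c : CD) (b : Bx) (hn : 0 ≤ c.n) (X Y T : ℚ) (h1 : b.xl ≤ X) (h2 : X ≤ b.xh)
    (h3 : b.yl ≤ Y) (h4 : Y ≤ b.yh) (h5 : b.tl ≤ T) (h6 : T ≤ b.th) :
    Fq c X Y T ≤ (FH c b : ℚ) := by
  have hn' : (0 : ℚ) ≤ c.n := by exact_mod_cast hn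
  have a1 := esound_sqH (l := b.xl - c.Xs) (h := b.xh - c.Xs) (v := X - c.Xs)
    (by push_cast; linarith) (by push_cast; linarith)
  have a2 := esound_sqH (l := b.yl - c.Ys) (h := b.yh - c.Ys) (v := Y - c.Ys)
    (by push_cast; linarith) (by push_cast; linarith)
  have l1 := esound_liL (c := 2 * c.Y4) h1 h2
  have l2 := esound_liL (c := -2 * c.X4) h3 h4
  have l3 := esound_liH (c := 2 * c.Y4) h1 h2
  have l4 := esound_liH (c := -2 * c.X4) h3 h4
  push_cast at l1 l2 l3 l4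
  have a3 := esound_sqH
    (l := 4 * (c.Ts - b.th) + liL (2 * c.Y4) b.xl b.xh + liL (-2 * c.X4) b.yl b.yh)
    (h := 4 * (c.Ts - b.tl) + liH (2 * c.Y4) b.xl b.xh + liH (-2 * c.X4) b.yl b.yh)
    (v := 4 * (c.Ts - T) + 2 * c.Y4 * X - 2 * c.X4 * Y)
    (by push_cast; linarith) (by push_cast; linarith)
  unfold FH Fq
  push_cast at a1 a2 a3 ⊢
  set r1 : ℚ := (sqH (b.xl - c.Xs) (b.xh - c.Xs) : ℚ)
  set r2 : ℚ := (sqH (b.yl - c.Ys) (b.yh - c.Ys) : ℚ)
  have hr : ((X - c.Xs) ^ 2 + 3 * (Y - c.Ys) ^ 2) ^ 2 ≤ (r1 + 3 * r2) * (r1 + 3 * r2) := by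
    rw [← sq]
    have : (X - c.Xs) ^ 2 + 3 * (Y - c.Ys) ^ 2 ≤ r1 + 3 * r2 := by linarith
    have h0 : 0 ≤ (X - c.Xs) ^ 2 + 3 * (Y - c.Ys) ^ 2 := by positivity
    gcongr
  have hS : (0 : ℚ) ≤ 3 * ((SS : ℚ) * SS) := by
    have := mul_self_nonneg ((SS : ℤ) : ℚ)
    linarith
  refine mul_le_mul_of_nonneg_left ?_ hn'
  have := mul_le_mul_of_nonneg_left a3 hS
  have e : 3 * (SS : ℚ) ^ 2 = 3 * ((SS : ℚ) * SS) := by ring
  rw [e]
  linarith

theorem tree_sound (t : BT) (b : Bx) (h : t.check b = true) (X Y T : ℚ)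
    (h1 : b.xl ≤ X) (h2 : X ≤ b.xh) (h3 : b.yl ≤ Y) (h4 : Y ≤ b.yh)
    (h5 : b.tl ≤ T) (h6 : T ≤ b.th) (hreg : |3 * Y| ≤ X) :
    ∃ c < 85, Fq (cd c) X Y T < ONE4 ∧ ∀ u < 85, Fq (cd u) X Y T ≤ ONE4 →
      ∃ m < 85, Fq (cd m) X Y T < ONE4 ∧ cadj u m = true ∧ cadj m c = true := by
  induction t generalizing b with
  | out =>
    exfalso
    simp only [BT.check, Bool.or_eq_true, decide_eq_true_eq] at h
    obtain ⟨g1, g2⟩ := abs_le.1 hreg
    rcases h with h | h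
    · have h' : (b.xh : ℚ) < 3 * b.yl := by exact_mod_cast h
      linarith
    · have h' : (b.xh : ℚ) < -(3 * b.yh) := by exact_mod_cast h
      linarith
  | leaf c ms =>
    simp only [BT.check, Bool.and_eq_true, decide_eq_true_eq, List.all_eq_true,
      List.any_eq_true, Bool.or_eq_true, List.mem_range] at h
    obtain ⟨⟨⟨hc, hcF⟩, hms⟩, hall⟩ := h
    have hlt : ∀ m < 85, FH (cd m) b < ONE4 → Fq (cd m) X Y T < ONE4 := by
      intro m hm hF
      have hF' : (FH (cd m) b : ℚ) < ONE4 := by exact_mod_cast hF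
      exact (le_FH (cd m) b (cv_ok m hm).1.2.1.le X Y T h1 h2 h3 h4 h5 h6).trans_lt hF'
    refine ⟨c, hc, hlt c hc hcF, fun u hu hle => ?_⟩
    rcases hall u hu with (hF | hadj) | ⟨m, hm, hadj⟩
    · exfalso
      have hF' : (ONE4 : ℚ) < FL (cd u) b := by exact_mod_cast hF
      have := FL_le (cd u) b (cv_ok u hu).1.2.1.le X Y T h1 h2 h3 h4 h5 h6
      linarith
    · exact ⟨c, hc, hlt c hc hcF, hadj, cadj_refl c hc⟩
    · obtain ⟨⟨hm1, hm2⟩, hm3⟩ := hms m hm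
      exact ⟨m, hm1, hlt m hm1 hm2, hadj, hm3⟩
  | sx l r ihl ihr =>
    simp only [BT.check, Bool.and_eq_true] at h
    rcases le_total X (((b.xl + b.xh) / 2 : ℤ) : ℚ) with hX | hX
    · exact ihl _ h.1 h1 hX h3 h4 h5 h6
    · exact ihr _ h.2 hX h2 h3 h4 h5 h6
  | sy l r ihl ihr =>
    simp only [BT.check, Bool.and_eq_true] at h
    rcases le_total Y (((b.yl + b.yh) / 2 : ℤ) : ℚ) with hX | hX
    · exact ihl _ h.1 h1 h2 h3 hX h5 h6
    · exact ihr _ h.2 h1 h2 hX h4 h5 h6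
  | st l r ihl ihr =>
    simp only [BT.check, Bool.and_eq_true] at h
    rcases le_total T (((b.tl + b.th) / 2 : ℤ) : ℚ) with hX | hX
    · exact ihl _ h.1 h1 h2 h3 h4 h5 hX
    · exact ihr _ h.2 h1 h2 h3 h4 hX h6

end Pool.Agent.H13.DM
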