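import Mathlib
import Pool.Agent.H13.DM.EBox
import Pool.Agent.H13.DM.EBoxCheck
import Pool.Agent.H13.DM.ESound

/-!
MP_9d29f5_al, project DM, block B, part E, file EComplete (job DM-ECOMP): the list of 85 cusps is complete.
Prove the theorems in place (helper lemmas welcome; ESound may be cited as a stub).

cuspV i k z m = row 0 of gM i * pmat 0 k z m = (a,b,c) * pmat 0 k z m = (a - 2 b zeta^k conj z + c (m - N(z) + 2 m w), b zeta^k + c z, c) where (a,b,c) = row 0 of gM i: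
i=0 (0,0,1), 1 (1,0,-theta), 2 (1,0,theta), 3 (theta,0,-2), 4 (1,-1,-2 zeta), 5 (1,zeta,2w). For i <= 3 it does not depend on k.
Positions (x,y,t) (u1/u2 = x + i sqrt3 y, Im(u0/u2) = sqrt3 t): i=0: x = z.a - z.b/2, y = z.b/2, t = m. i = 1: the same x, y and t = m + 1/3; i = 2: t = m - 1/3; i = 3: t = m + 1/2 or m - 1/2 (compute); i = 4, 5: u1/u2 = z + (b/c) zeta^k, |b/c| = 1/2, t = m +- 1/4 + 2(..) (term
linear in z: compute; it is bounded by 2 in absolute value for z in the relevant range).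
PAPER PROOF. (1) exists_cd: n = 1, 3 or 4; define the entries by the formulas; divisibility: for n = 3: u1 conj u2 = z u2 conj u2 divisible by 3, SS divisible by 3*2; for n = 4: 2 u1 conj(u2) is divisible by 4 since u2 is twice a unit; SS divisible by 8.
(2) complete: suppose (X,Y,T) in the region and Fq c X Y T <= ONE4. In unscaled terms n ((dx^2 + 3 dy^2)^2 + 3 im^2) <= 1 with dx = X/SS - x, dy = Y/SS - y, im = t - T/SS + 2 y X/SS - 2 x Y/SS. So dx^2 + 3 dy^2 <= 1: |dx| <= 1, |dy| <= 3/5; since 0 <= X/SS <= 1/2, |Y/SS| <= 1/6: -1 <= x <= 3/2, |y| <= 23/30;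
for i <= 3: |z.b| = 2|y| <= 46/30 so |z.b| <= 1, z.a = x + y in [-1.77, 2.27] so -1 <= z.a <= 2. For i = 4, 5 (n = 4): dx^2+3dy^2 <= 1/2, position = z + unit/2, similar: |z.a|, |z.b| <= 2. And |im| <= 3/5, so t is in a bounded range: |m| <= 3. (Larger bounds are fine as long as the finite check stays feasible.)
Finite check (decide +kernel, split by i and k if slow): for all (i,k,z,m) in that box either ONE4 < FL (cdOf ..) WB (then FL_le gives a contradiction) or there are j < 85 and a unit zeta^e with cuspV i k z m = zeta^e * cv j (componentwise). Verified by machine for |z.a|,|z.b| <= 3, |m| <= 4: exactly the 85 cusps (up to units) have FL <= ONE4,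
with |z.a|, |z.b| <= 1, |m| <= 2. For an efficient check first test ONE4 < FL and only otherwise search j (or use List.findIdx / a precomputed index).
-/
set_option autoImplicit false

namespace Pool.Agent.H13.DM

/-- unit multiple of a row vector -/
def V3.us (e : Fin 6) (v : V3) : V3 := ⟨Eis.unit e * v.x0, Eis.unit e * v.x1, Eis.unit e * v.x2⟩

/-- number of the case -/
def ecompN (i : Fin 6) : ℤ := match i with
  | 0 => 1 | 1 => 3 | 2 => 3 | 3 => 4 | 4 => 4 | 5 => 4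
/-- constant of the third coordinate -/
def ecompS (i : Fin 6) : ℤ := match i with
  | 0 => 0 | 1 => 1024 | 2 => -1024 | 3 => -1536 | 4 => 768 | 5 => -768
/-- unit -/
def ecompE (i k : Fin 6) : Eis := match i with
  | 0 => 0 | 1 => 0 | 2 => 0 | 3 => 0 | 4 => Eis.unit (k + 5) | 5 => Eis.unit (k + 5)
/-- unit -/
def ecompQ (i k : Fin 6) : Eis := match i with
  | 0 => 0 | 1 => 0 | 2 => 0 | 3 => 0 | 4 => Eis.unit (k + 2) | 5 => Eis.unit (k + 2)

/-- the position data by formulas -/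
def ecompCd (i k : Fin 6) (z : Eis) (m : ℤ) : CD :=
  ⟨ecompN i, 2 * (2 * z.a - z.b) + (2 * (ecompE i k).a - (ecompE i k).b),
    2 * z.b + (ecompE i k).b, 3072 * m + ecompS i + 1536 * (ecompQ i k * z.conj).b,
    768 * (2 * (2 * z.a - z.b) + (2 * (ecompE i k).a - (ecompE i k).b)),
    768 * (2 * z.b + (ecompE i k).b)⟩

theorem ecomp_ok (i k : Fin 6) (z : Eis) (m : ℤ) : (ecompCd i k z m).ok (cuspV i k z m) := by
  obtain ⟨a, b⟩ := z
  fin_cases i <;> fin_cases k <;>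
  · simp only [CD.ok, ecompCd, cuspV, M3.row0, M3.mul_def, gM, pmat, ecompN, ecompS, ecompE,
      ecompQ, Eis.unit, Eis.nrm, SS, Fin.isValue, Eis.mul_a, Eis.mul_b, Eis.add_a, Eis.add_b,
      Eis.conj_a, Eis.conj_b, Eis.zero_a, Eis.zero_b, Fin.reduceAdd, Fin.reduceFinMk]
    refine ⟨?_, ?_, ?_, ?_, ?_, ?_, ?_⟩ <;> first | ring1 | norm_num

theorem exists_cd (i k : Fin 6) (z : Eis) (m : ℤ) : ∃ c : CD, c.ok (cuspV i k z m) :=
  ⟨_, ecomp_ok i k z m⟩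

theorem ecomp_unique {u : V3} {c c' : CD} (h : c.ok u) (h' : c'.ok u) : c = c' := by
  obtain ⟨n, X4, Y4, Ts, Xs, Ys⟩ := c
  obtain ⟨n', X4', Y4', Ts', Xs', Ys'⟩ := c'
  obtain ⟨h1, h2, h3, h4, h5, h6, h7⟩ := h
  obtain ⟨h1', h2', h3', h4', h5', h6', h7'⟩ := h'
  simp only at *
  have e1 : n = n' := h1.trans h1'.symm
  subst e1
  have e2 : X4 = X4' := mul_right_cancel₀ h2.ne' (h3.trans h3'.symm)
  have e3 : Y4 = Y4' := mul_right_cancel₀ h2.ne' (h4.trans h4'.symm)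
  have e4 : 2 * Ts = 2 * Ts' := mul_right_cancel₀ h2.ne' (h5.trans h5'.symm)
  subst e2
  subst e3
  have e5 : Ts = Ts' := by linarith
  have e6 : Xs = Xs' := by linarith
  have e7 : Ys = Ys' := by linarith
  rw [e5, e6, e7]

theorem ecomp_prod {x y a b : ℚ} (ha : -a ≤ x ∧ x ≤ a) (hb : -b ≤ y ∧ y ≤ b) :
    -(a * b) ≤ x * y ∧ x * y ≤ a * b := by
  have h : |x * y| ≤ a * b := by
    rw [abs_mul]
    exact mul_le_mul (abs_le.2 ha) (abs_le.2 hb) (abs_nonneg _) ((abs_nonneg _).trans (abs_le.2 ha))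
  exact abs_le.1 h

theorem ecomp_real (n x y t X Y T : ℚ) (hn : 1 ≤ n) (h1 : 0 ≤ X) (h2 : X ≤ 1536)
    (h3 : -X ≤ 3 * Y ∧ 3 * Y ≤ X)
    (hF : n * (16 * ((X - 768 * x) ^ 2 + 3 * (Y - 768 * y) ^ 2) ^ 2 +
      3 * 3072 ^ 2 * (4 * (t - T) + 2 * y * X - 2 * x * Y) ^ 2) ≤ 16 * 3072 ^ 4) :
    (-4 ≤ x ∧ x ≤ 6) ∧ (-3 < y ∧ y < 3) ∧
      (-7095 ≤ 4 * (t - T) + 2 * y * X - 2 * x * Y ∧
        4 * (t - T) + 2 * y * X - 2 * x * Y ≤ 7095) := by
  set A : ℚ := (X - 768 * x) ^ 2 + 3 * (Y - 768 * y) ^ 2 with hA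
  set I : ℚ := 4 * (t - T) + 2 * y * X - 2 * x * Y with hI
  have hA0 : 0 ≤ A := by positivity
  have hA2 : 0 ≤ A ^ 2 := sq_nonneg A
  have hI0 : 0 ≤ I ^ 2 := sq_nonneg I
  have hF2 : 16 * A ^ 2 + 3 * 3072 ^ 2 * I ^ 2 ≤ 16 * (3072 : ℚ) ^ 4 := by
    refine le_trans ?_ hF
    have h0 : 0 ≤ 16 * A ^ 2 + 3 * 3072 ^ 2 * I ^ 2 := by positivity
    exact le_mul_of_one_le_left h0 hn
  have hA1 : A ≤ 3072 ^ 2 := by
    apply le_of_sq_le_sq _ (by positivity)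
    linarith
  have hI1 : I ^ 2 ≤ 7095 ^ 2 := by linarith
  have hI2 := abs_le_of_sq_le_sq' hI1 (by norm_num)
  have hX0 : 0 ≤ (X - 768 * x) ^ 2 := sq_nonneg _
  have hY0 : 0 ≤ (Y - 768 * y) ^ 2 := sq_nonneg _
  have hX1 : (X - 768 * x) ^ 2 ≤ 3072 ^ 2 := by linarith
  have hX2 := abs_le_of_sq_le_sq' hX1 (by norm_num)
  have hY1 : (Y - 768 * y) ^ 2 ≤ 1774 ^ 2 := by linarith
  have hY2 := abs_le_of_sq_le_sq' hY1 (by norm_num)
  refine ⟨⟨?_, ?_⟩, ⟨?_, ?_⟩, hI2⟩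
  · linarith [hX2.2]
  · linarith [hX2.1]
  · linarith [hY2.2, h3.1, h3.2]
  · linarith [hY2.1, h3.1, h3.2]

theorem ecomp_real2 (x y t X Y T : ℚ) (h1 : 0 ≤ X) (h2 : X ≤ 1536)
    (h3 : -X ≤ 3 * Y ∧ 3 * Y ≤ X) (h4 : -1536 ≤ T ∧ T ≤ 1536)
    (hx : -4 ≤ x ∧ x ≤ 6) (hy : -2 ≤ y ∧ y ≤ 2)
    (hI : -7095 ≤ 4 * (t - T) + 2 * y * X - 2 * x * Y ∧
        4 * (t - T) + 2 * y * X - 2 * x * Y ≤ 7095) : -6382 < t ∧ t < 6382 := by
  have p := ecomp_prod (x := y) (y := X) (a := 2) (b := 1536) hy ⟨by linarith, h2⟩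
  have q := ecomp_prod (x := x) (y := Y) (a := 6) (b := 512) ⟨by linarith [hx.1], hx.2⟩
    ⟨by linarith [h3.1], by linarith [h3.2]⟩
  constructor
  · linarith [hI.1, h4.1, p.1, p.2, q.1, q.2]
  · linarith [hI.2, h4.2, p.1, p.2, q.1, q.2]

theorem ecomp_bounds (c : CD) (hn : 1 ≤ c.n) (hXs : c.Xs = 768 * c.X4)
    (hYs : c.Ys = 768 * c.Y4) (X Y T : ℚ) (h1 : 0 ≤ X) (h2 : X ≤ 1536) (h3 : |3 * Y| ≤ X)
    (h4 : |T| ≤ 1536) (hF : Fq c X Y T ≤ ONE4) :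
    (-4 ≤ c.X4 ∧ c.X4 ≤ 6) ∧ (-2 ≤ c.Y4 ∧ c.Y4 ≤ 2) ∧ (-6381 ≤ c.Ts ∧ c.Ts ≤ 6381) := by
  have hn' : (1 : ℚ) ≤ c.n := by exact_mod_cast hn
  have hone : (ONE4 : ℚ) = 16 * (3072 : ℚ) ^ 4 := by
    unfold ONE4 SS
    norm_num
  have hSS : ((SS : ℤ) : ℚ) = 3072 := by
    unfold SS
    norm_num
  unfold Fq at hF
  rw [hone, hSS, hXs, hYs, Int.cast_mul, Int.cast_mul, Int.cast_ofNat] at hF
  rw [abs_le] at h3 h4
  obtain ⟨⟨a1, a2⟩, ⟨b1, b2⟩, hI⟩ := ecomp_real _ _ _ _ X Y T hn' h1 h2 h3 hF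
  have a1' : -4 ≤ c.X4 := by exact_mod_cast a1
  have a2' : c.X4 ≤ 6 := by exact_mod_cast a2
  have b1' : -3 < c.Y4 := by exact_mod_cast b1
  have b2' : c.Y4 < 3 := by exact_mod_cast b2
  have b1q : (-2 : ℚ) ≤ c.Y4 := by exact_mod_cast (show -2 ≤ c.Y4 by omega)
  have b2q : (c.Y4 : ℚ) ≤ 2 := by exact_mod_cast (show c.Y4 ≤ 2 by omega)
  obtain ⟨c2, c1⟩ := ecomp_real2 _ _ _ X Y T h1 h2 h3 h4 ⟨a1, a2⟩ ⟨b1q, b2q⟩ hI
  have c1' : c.Ts < 6382 := by exact_mod_cast c1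
  have c2' : -6382 < c.Ts := by exact_mod_cast c2
  refine ⟨⟨a1', a2'⟩, ⟨by omega, by omega⟩, by omega, by omega⟩

/-- the check of one cusp -/
def ecompOne (i k : Fin 6) (a b m : ℤ) : Bool :=
  decide (ONE4 < FL (ecompCd i k ⟨a, b⟩ m) WB) ||
    (List.range 85).any (fun j => (List.finRange 6).any (fun e =>
      decide (cuspV i k ⟨a, b⟩ m = V3.us e (cv j))))

/-- the check of all cusps -/
def ecompAll (i : Fin 6) : Bool :=
  (List.finRange 6).all (fun k => ([-2, -1, 0, 1, 2] : List ℤ).all (fun a =>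
    ([-1, 0, 1] : List ℤ).all (fun b =>
      ([-4, -3, -2, -1, 0, 1, 2, 3, 4] : List ℤ).all (fun m => ecompOne i k a b m))))

theorem ecompAll0 : ecompAll 0 = true := by decide +kernel
theorem ecompAll1 : ecompAll 1 = true := by decide +kernel
theorem ecompAll2 : ecompAll 2 = true := by decide +kernel
theorem ecompAll3 : ecompAll 3 = true := by decide +kernel
theorem ecompAll4 : ecompAll 4 = true := by decide +kernel
theorem ecompAll5 : ecompAll 5 = true := by decide +kernel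

theorem ecomp_all (i : Fin 6) : ecompAll i = true := by
  fin_cases i
  · exact ecompAll0
  · exact ecompAll1
  · exact ecompAll2
  · exact ecompAll3
  · exact ecompAll4
  · exact ecompAll5

theorem ecomp_one (i k : Fin 6) (a b m : ℤ) (ha : -2 ≤ a ∧ a ≤ 2) (hb : -1 ≤ b ∧ b ≤ 1)
    (hm : -4 ≤ m ∧ m ≤ 4) : ecompOne i k a b m = true := by
  have h := ecomp_all i
  unfold ecompAll at h
  rw [List.all_eq_true] at h
  have h1 := h k (List.mem_finRange k)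
  rw [List.all_eq_true] at h1
  have h2 := h1 a (by
    simp only [List.mem_cons, List.not_mem_nil, or_false]
    omega)
  rw [List.all_eq_true] at h2
  have h3 := h2 b (by
    simp only [List.mem_cons, List.not_mem_nil, or_false]
    omega)
  rw [List.all_eq_true] at h3
  exact h3 m (by
    simp only [List.mem_cons, List.not_mem_nil, or_false]
    omega)

theorem ecomp_E : ∀ i k : Fin 6, -2 ≤ 2 * (ecompE i k).a - (ecompE i k).b ∧
    2 * (ecompE i k).a - (ecompE i k).b ≤ 2 ∧ -1 ≤ (ecompE i k).b ∧ (ecompE i k).b ≤ 1 := by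
  decide

theorem ecomp_Q : ∀ i k : Fin 6, -1 ≤ (ecompQ i k).a ∧ (ecompQ i k).a ≤ 1 ∧
    -1 ≤ (ecompQ i k).b ∧ (ecompQ i k).b ≤ 1 := by
  decide

theorem ecomp_S : ∀ i : Fin 6, -1536 ≤ ecompS i ∧ ecompS i ≤ 1536 := by
  decide

theorem ecomp_q (p r a b : ℤ) (hp : -1 ≤ p ∧ p ≤ 1) (hr : -1 ≤ r ∧ r ≤ 1)
    (ha : -2 ≤ a ∧ a ≤ 2) (hb : -1 ≤ b ∧ b ≤ 1) :
    -3 ≤ ((⟨p, r⟩ : Eis) * (⟨a, b⟩ : Eis).conj).b ∧
      ((⟨p, r⟩ : Eis) * (⟨a, b⟩ : Eis).conj).b ≤ 3 := by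
  simp only [Eis.mul_b, Eis.conj_a, Eis.conj_b]
  obtain ⟨p1, p2⟩ := hp
  obtain ⟨r1, r2⟩ := hr
  interval_cases p <;> interval_cases r <;> constructor <;> omega

theorem complete (i k : Fin 6) (z : Eis) (m : ℤ) (c : CD) (hc : c.ok (cuspV i k z m))
    (X Y T : ℚ) (h1 : 0 ≤ X) (h2 : X ≤ 1536) (h3 : |3 * Y| ≤ X) (h4 : |T| ≤ 1536)
    (hF : Fq c X Y T ≤ ONE4) :
    ∃ j < 85, ∃ e : Fin 6, cuspV i k z m = V3.us e (cv j) := by
  have hce : c = ecompCd i k z m := ecomp_unique hc (ecomp_ok i k z m)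
  subst hce
  have hn : 1 ≤ (ecompCd i k z m).n := hc.2.1
  obtain ⟨⟨x1, x2⟩, ⟨y1, y2⟩, t1, t2⟩ := ecomp_bounds (ecompCd i k z m) hn rfl rfl X Y T
    h1 h2 h3 h4 hF
  obtain ⟨za, zb⟩ := z
  obtain ⟨e1, e2, e3, e4⟩ := ecomp_E i k
  obtain ⟨q1, q2, q3, q4⟩ := ecomp_Q i k
  obtain ⟨s1, s2⟩ := ecomp_S i
  simp only [ecompCd] at x1 x2 y1 y2 t1 t2
  have hb : -1 ≤ zb ∧ zb ≤ 1 := by constructor <;> omega
  have ha : -2 ≤ za ∧ za ≤ 2 := by constructor <;> omega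
  have hq := ecomp_q (ecompQ i k).a (ecompQ i k).b za zb ⟨q1, q2⟩ ⟨q3, q4⟩ ha hb
  have hQ : (⟨(ecompQ i k).a, (ecompQ i k).b⟩ : Eis) = ecompQ i k := rfl
  rw [hQ] at hq
  have hm : -4 ≤ m ∧ m ≤ 4 := by constructor <;> omega
  have hone := ecomp_one i k za zb m ha hb hm
  unfold ecompOne at hone
  rw [Bool.or_eq_true, decide_eq_true_eq, List.any_eq_true] at hone
  rcases hone with hone | ⟨j, hj, hj2⟩
  · exfalso
    rw [abs_le] at h3 h4
    have hle := FL_le (ecompCd i k ⟨za, zb⟩ m) WB (by omega) X Y T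
      (by change ((0 : ℤ) : ℚ) ≤ X; simpa using h1)
      (by change X ≤ ((1536 : ℤ) : ℚ); push_cast; exact h2)
      (by change ((-512 : ℤ) : ℚ) ≤ Y; push_cast; linarith [h3.1])
      (by change Y ≤ ((512 : ℤ) : ℚ); push_cast; linarith [h3.2])
      (by change ((-1536 : ℤ) : ℚ) ≤ T; push_cast; linarith [h4.1])
      (by change T ≤ ((1536 : ℤ) : ℚ); push_cast; linarith [h4.2])
    have h5 : (FL (ecompCd i k ⟨za, zb⟩ m) WB : ℚ) ≤ (ONE4 : ℚ) := hle.trans hF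
    have h6 : FL (ecompCd i k ⟨za, zb⟩ m) WB ≤ ONE4 := by exact_mod_cast h5
    exact absurd hone (not_lt.2 h6)
  · rw [List.any_eq_true] at hj2
    obtain ⟨e, _, he⟩ := hj2
    exact ⟨j, List.mem_range.1 hj, e, of_decide_eq_true he⟩

end Pool.Agent.H13.DM
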