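import Mathlib
import Pool.Agent.H13.DM.EBox
import Pool.Agent.H13.DM.RhoInf

/-!
MP_9d29f5_al, project DM, block B, part E, file EForm (job DM-EFORM).
Prove the theorems in place (helper lemmas welcome).

PAPER PROOFS. hf x y = x0 y2' + 2 x1 y1' + x2 y0'.
(1) ht_inv: from p H adj p = H: H adj p = p^-1 H; entry (0,0): (adj p)20 = conj (p x02) = (p^-1) x02. nrm conj = nrm.
(2) iso_row0: entry (0,0) of p H adj p = H. More generally hf (row0 g) (row0 g) = 0.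
(3) ht_hf: (t^-1 g) x02 = hf (row0 t^-1) (row0 g^-1): use g = (g^-1)^-1 and (1)'s formula g H = H adj (g^-1) ... : column 2 of g is: g_i2 = sum .. ; concretely g = H adj(g^-1) H^-1, so with b = row0 (g^-1), column 2 of g is (conj b2, 2 conj b1 / ... ) = : g = H * adj (g^-1) * H^-1 means
g H = H adj(g^-1): (g H)_{i0} = g_i2; (H adj(g^-1))_{i0} = entries of H applied to the column (conj b0, conj b1, conj b2) = (conj b2, 2 conj b1, conj b0). So column 2 of g is (conj b2, 2 conj b1, conj b0), and (t^-1 g)_02 = sum_i (t^-1)_0i g_i2 = hf (row0 t^-1) b.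
(4) Fq_form: for isotropic u, q with u2, q2 /= 0 divide hf u q by u2 conj(q2): hf u q / (u2 conj q2) = u0/u2 + 2 (u1/u2) conj(q1/q2) + conj(q0/q2); with u1/u2 = x + i sqrt3 y, Im(u0/u2) = sqrt3 t and Re(u0/u2) = -|u1/u2|^2 (isotropy), and similarly X, Y, T for q:
real part -((x-X)^2 + 3 (y-Y)^2), imaginary part sqrt3 (t - T + 2 (y X - x Y)). So nrm (hf u q) = nrm u2 nrm q2 [ ((x-X)^2+3(y-Y)^2)^2 + 3 (t-T+2yX-2xY)^2 ]. In integers avoid division: multiply by nrm(u2)^2 nrm(q2)^2; (work with (hf u q) * conj(u2) * q2 = real polynomial identities in the components a, b; nrm is multiplicative).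
Here pX q = SS X etc. and c.Xs = SS x, c.X4 = 4 x, ... from CD.ok.
-/
set_option autoImplicit false

namespace Pool.Agent.H13.DM

/-- scaled position of q: SS x -/
def pX (q : V3) : ℚ := SS * (2 * (q.x1 * q.x2.conj).a - (q.x1 * q.x2.conj).b) / (2 * q.x2.nrm)
/-- scaled position of q: SS y -/
def pY (q : V3) : ℚ := SS * (q.x1 * q.x2.conj).b / (2 * q.x2.nrm)
/-- scaled position of q: SS t -/
def pT (q : V3) : ℚ := SS * (q.x0 * q.x2.conj).b / (2 * q.x2.nrm)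

/-- the elements of height 0, 1, 3, 4 -/
def Sg : Set UU := {g | g.ht = 0 ∨ g.ht = 1 ∨ g.ht = 3 ∨ g.ht = 4}

theorem nrm_mul (x y : Eis) : (x * y).nrm = x.nrm * y.nrm := by
  simp only [Eis.nrm, Eis.mul_a, Eis.mul_b]
  ring

theorem nrm_conj (x : Eis) : x.conj.nrm = x.nrm := by
  simp only [Eis.nrm, Eis.conj_a, Eis.conj_b]
  ring

theorem nrm_nonneg (x : Eis) : 0 ≤ x.nrm := by
  simp only [Eis.nrm]
  nlinarith [sq_nonneg (x.a - x.b), sq_nonneg x.a, sq_nonneg x.b]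

theorem nrm_eq_zero (x : Eis) : x.nrm = 0 ↔ x = 0 := by
  constructor
  · intro h
    simp only [Eis.nrm] at h
    have h1 : x.a ^ 2 + x.b ^ 2 + (x.a - x.b) ^ 2 = 0 := by linear_combination 2 * h
    have ha : x.a = 0 := by
      have : x.a ^ 2 = 0 := by
        nlinarith [sq_nonneg (x.a - x.b), sq_nonneg x.a, sq_nonneg x.b]
      exact pow_eq_zero_iff two_ne_zero |>.1 this
    have hb : x.b = 0 := by
      have : x.b ^ 2 = 0 := by
        nlinarith [sq_nonneg (x.a - x.b), sq_nonneg x.a, sq_nonneg x.b]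
      exact pow_eq_zero_iff two_ne_zero |>.1 this
    exact Eis.ext ha hb
  · rintro rfl
    rfl

/-- `g⁻¹ H = H g*` -/
theorem eform_inv (g : UU) : (g⁻¹).m * M3.H = M3.H * M3.adj g.m := by
  have h1 : (g⁻¹).m * g.m = 1 := by
    rw [← UU.mul_m, inv_mul_cancel]
    rfl
  have h2 : g.m * M3.H * M3.adj g.m = M3.H := g.h
  calc (g⁻¹).m * M3.H = (g⁻¹).m * (g.m * M3.H * M3.adj g.m) := by rw [h2]
    _ = ((g⁻¹).m * g.m) * M3.H * M3.adj g.m := by simp only [mul_assoc]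
    _ = M3.H * M3.adj g.m := by rw [h1, one_mul]

theorem eform_x02 (g : UU) : (g⁻¹).m.x02 = g.m.x02.conj := by
  have h := congrArg M3.x00 (eform_inv g)
  simp only [M3.mul_def, M3.H, M3.adj] at h
  simpa using h

theorem eform_x12 (g : UU) : (g⁻¹).m.x12 = ⟨2, 0⟩ * g.m.x01.conj := by
  have h := congrArg M3.x10 (eform_inv g)
  simp only [M3.mul_def, M3.H, M3.adj] at h
  have h2 : (2 : Eis) = ⟨2, 0⟩ := by decide
  rw [h2] at h
  simpa using h

theorem eform_x22 (g : UU) : (g⁻¹).m.x22 = g.m.x00.conj := by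
  have h := congrArg M3.x20 (eform_inv g)
  simp only [M3.mul_def, M3.H, M3.adj] at h
  simpa using h

theorem ht_inv (g : UU) : (g⁻¹).ht = g.ht := by
  unfold UU.ht
  rw [eform_x02, nrm_conj]

theorem iso_row0 (g : UU) : hf g.m.row0 g.m.row0 = 0 := by
  have h1 : g.m * M3.H * M3.adj g.m = M3.H := g.h
  have h := congrArg M3.x00 h1
  simp only [M3.mul_def, M3.H, M3.adj] at h
  have h2 : (2 : Eis) = ⟨2, 0⟩ := by decide
  rw [h2] at h
  unfold hf M3.row0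
  simp only
  linear_combination h

theorem ht_hf (g t : UU) : (t⁻¹ * g).ht = (hf (t⁻¹).m.row0 (g⁻¹).m.row0).nrm.toNat := by
  have h0 := eform_x02 g⁻¹
  have h1 := eform_x12 g⁻¹
  have h2 := eform_x22 g⁻¹
  rw [inv_inv] at h0 h1 h2
  unfold UU.ht
  congr 2
  rw [UU.mul_m]
  unfold hf M3.row0
  simp only [M3.mul_def]
  rw [h0, h1, h2]
  ring

theorem ht_eq_nrm (g : UU) : (g.ht : ℤ) = (g⁻¹).m.row0.x2.nrm := by
  change ((g.m.x02.nrm.toNat : ℕ) : ℤ) = ((g⁻¹).m.x02).nrm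
  rw [eform_x02, nrm_conj, Int.toNat_of_nonneg (nrm_nonneg _)]

theorem ht_left_P (p g : UU) (hp : p.ht = 0) : (p * g).ht = g.ht := by
  have h02 : p.m.x02 = 0 := by
    rw [← nrm_eq_zero]
    have h1 : p.m.x02.nrm.toNat = 0 := hp
    have h2 := nrm_nonneg p.m.x02
    omega
  have h1 : p.m * M3.H * M3.adj p.m = M3.H := p.h
  have h01 : p.m.x01 = 0 := by
    have h := iso_row0 p
    unfold hf M3.row0 at h
    simp only [h02] at h
    have h3 : (⟨2, 0⟩ : Eis) * (p.m.x01 * p.m.x01.conj) = 0 := by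
      have h4 : (0 : Eis).conj = 0 := rfl
      rw [h4] at h
      linear_combination h
    have h5 := congrArg Eis.nrm h3
    rw [nrm_mul, nrm_mul, nrm_conj] at h5
    have h6 : (⟨2, 0⟩ : Eis).nrm = 4 := rfl
    have h7 : (0 : Eis).nrm = 0 := rfl
    rw [h6, h7] at h5
    rw [← nrm_eq_zero]
    have h8 : p.m.x01.nrm * p.m.x01.nrm = 0 := by omega
    exact mul_self_eq_zero.1 h8
  have h00 : p.m.x00.nrm = 1 := by
    have h := congrArg M3.x02 h1
    simp only [M3.mul_def, M3.H, M3.adj, h01, h02] at h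
    have h3 : p.m.x00 * p.m.x22.conj = 1 := by
      linear_combination h
    have h4 := congrArg Eis.nrm h3
    rw [nrm_mul, nrm_conj] at h4
    have h5 : (1 : Eis).nrm = 1 := rfl
    rw [h5] at h4
    have h6 := nrm_nonneg p.m.x00
    exact Int.eq_one_of_mul_eq_one_right h6 h4
  unfold UU.ht
  rw [UU.mul_m]
  simp only [M3.mul_def, h01, h02]
  have h9 : p.m.x00 * g.m.x02 + 0 * g.m.x12 + 0 * g.m.x22 = p.m.x00 * g.m.x02 := by ring
  rw [h9, nrm_mul, h00, one_mul]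

theorem ht_right_P (p g : UU) (hp : p.ht = 0) : (g * p).ht = g.ht := by
  rw [← ht_inv (g * p), mul_inv_rev, ht_left_P _ _ ((ht_inv p).trans hp), ht_inv]

theorem eform_conj_mul (x y : Eis) : (x * y).conj = x.conj * y.conj := by
  ext <;> simp <;> ring

theorem eform_conj_conj (x : Eis) : x.conj.conj = x := by
  ext <;> simp

theorem eform_mul_conj (x : Eis) : x * x.conj = ⟨x.nrm, 0⟩ := by
  ext <;> simp [Eis.nrm] <;> ring

theorem eform_id (u q : V3) : hf u q * u.x2.conj * q.x2 =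
    (u.x0 * u.x2.conj) * ⟨q.x2.nrm, 0⟩ +
      ⟨2, 0⟩ * ((u.x1 * u.x2.conj) * (q.x1 * q.x2.conj).conj) +
      ⟨u.x2.nrm, 0⟩ * (q.x0 * q.x2.conj).conj := by
  rw [← eform_mul_conj, ← eform_mul_conj, eform_conj_mul, eform_conj_mul, eform_conj_conj]
  unfold hf
  ring

theorem eform_nrm (u q : V3) (A B C D A' B' C' D' : ℤ) (h1 : u.x1 * u.x2.conj = ⟨A, B⟩)
    (h2 : u.x0 * u.x2.conj = ⟨C, D⟩) (h3 : q.x1 * q.x2.conj = ⟨A', B'⟩)
    (h4 : q.x0 * q.x2.conj = ⟨C', D'⟩) :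
    hf u q * u.x2.conj * q.x2 =
      ⟨q.x2.nrm * C + 2 * (A * A' - A * B' + B * B') + u.x2.nrm * (C' - D'),
        q.x2.nrm * D + 2 * (B * A' - A * B') - u.x2.nrm * D'⟩ := by
  rw [eform_id, h1, h2, h3, h4]
  ext <;> simp <;> ring

theorem eform_iso {u : V3} (hu : hf u u = 0) {A B C D : ℤ} (h1 : u.x1 * u.x2.conj = ⟨A, B⟩)
    (h2 : u.x0 * u.x2.conj = ⟨C, D⟩) :
    (2 * C - D) * u.x2.nrm = -2 * (A ^ 2 - A * B + B ^ 2) := by
  have h := eform_nrm u u A B C D A B C D h1 h2 h1 h2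
  rw [hu] at h
  have h3 := congrArg Eis.a h
  simp at h3
  linear_combination (-1 : ℤ) * h3

theorem Fq_form (u q : V3) (hu : hf u u = 0) (hq : hf q q = 0) (hq2 : q.x2 ≠ 0) (c : CD)
    (hc : c.ok u) :
    Fq c (pX q) (pY q) (pT q) * q.x2.nrm = ONE4 * (hf u q).nrm := by
  obtain ⟨c1, c2, c3, c4, c5, c6, c7⟩ := hc
  obtain ⟨A, hA⟩ : ∃ A, A = (u.x1 * u.x2.conj).a := ⟨_, rfl⟩
  obtain ⟨B, hB⟩ : ∃ B, B = (u.x1 * u.x2.conj).b := ⟨_, rfl⟩
  obtain ⟨C, hC⟩ : ∃ C, C = (u.x0 * u.x2.conj).a := ⟨_, rfl⟩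
  obtain ⟨D, hD⟩ : ∃ D, D = (u.x0 * u.x2.conj).b := ⟨_, rfl⟩
  obtain ⟨A', hA'⟩ : ∃ A, A = (q.x1 * q.x2.conj).a := ⟨_, rfl⟩
  obtain ⟨B', hB'⟩ : ∃ B, B = (q.x1 * q.x2.conj).b := ⟨_, rfl⟩
  obtain ⟨C', hC'⟩ : ∃ C, C = (q.x0 * q.x2.conj).a := ⟨_, rfl⟩
  obtain ⟨D', hD'⟩ : ∃ D, D = (q.x0 * q.x2.conj).b := ⟨_, rfl⟩
  have e1 : u.x1 * u.x2.conj = ⟨A, B⟩ := by rw [hA, hB]
  have e2 : u.x0 * u.x2.conj = ⟨C, D⟩ := by rw [hC, hD]
  have e3 : q.x1 * q.x2.conj = ⟨A', B'⟩ := by rw [hA', hB']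
  have e4 : q.x0 * q.x2.conj = ⟨C', D'⟩ := by rw [hC', hD']
  have i1 := eform_iso hu e1 e2
  have i2 := eform_iso hq e3 e4
  have e5 := congrArg Eis.nrm (eform_nrm u q A B C D A' B' C' D' e1 e2 e3 e4)
  rw [nrm_mul, nrm_mul, nrm_conj] at e5
  rw [← hA, ← hB] at c3
  rw [← hB] at c4
  rw [← hD] at c5
  rw [← c1] at e5 i1
  have hN : 0 < q.x2.nrm := by
    have h1 := nrm_nonneg q.x2
    have h2 : q.x2.nrm ≠ 0 := fun h => hq2 ((nrm_eq_zero _).1 h)
    omega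
  unfold Fq pX pY pT ONE4
  rw [← hA', ← hB', ← hD']
  obtain ⟨N, hNe⟩ : ∃ N, N = q.x2.nrm := ⟨_, rfl⟩
  obtain ⟨F, hF⟩ : ∃ F, F = (hf u q).nrm := ⟨_, rfl⟩
  rw [← hNe] at e5 i2 hN ⊢
  rw [← hF] at e5 ⊢
  simp only [Eis.nrm] at e5
  have hNq : (N : ℚ) ≠ 0 := by
    have : (N : ℚ) > 0 := by exact_mod_cast hN
    exact this.ne'
  have hnq : (c.n : ℚ) ≠ 0 := by
    have : (c.n : ℚ) > 0 := by exact_mod_cast c2
    exact this.ne'
  have hS : (SS : ℚ) = 3072 := by norm_num [SS]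
  have d3 : (c.X4 : ℚ) = 2 * (2 * A - B) / c.n := by
    rw [eq_div_iff hnq]
    exact_mod_cast c3
  have d4 : (c.Y4 : ℚ) = 2 * B / c.n := by
    rw [eq_div_iff hnq]
    exact_mod_cast c4
  have d5 : (c.Ts : ℚ) = SS * D / (2 * c.n) := by
    rw [eq_div_iff (by positivity)]
    have : (2 * c.Ts * c.n : ℚ) = SS * D := by exact_mod_cast c5
    linear_combination this
  have d6 : (c.Xs : ℚ) = SS * c.X4 / 4 := by
    rw [eq_div_iff (by norm_num)]
    have : (4 * c.Xs : ℚ) = SS * c.X4 := by exact_mod_cast c6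
    linear_combination this
  have d7 : (c.Ys : ℚ) = SS * c.Y4 / 4 := by
    rw [eq_div_iff (by norm_num)]
    have : (4 * c.Ys : ℚ) = SS * c.Y4 := by exact_mod_cast c7
    linear_combination this
  have dC : (C : ℚ) = (D - 2 * (A ^ 2 - A * B + B ^ 2) / c.n) / 2 := by
    have : ((2 * C - D) * c.n : ℚ) = -2 * (A ^ 2 - A * B + B ^ 2) := by exact_mod_cast i1
    field_simp
    linear_combination this
  have dC' : (C' : ℚ) = (D' - 2 * (A' ^ 2 - A' * B' + B' ^ 2) / N) / 2 := by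
    have : ((2 * C' - D') * N : ℚ) = -2 * (A' ^ 2 - A' * B' + B' ^ 2) := by exact_mod_cast i2
    field_simp
    linear_combination this
  have dF : (F : ℚ) = ((N * C + 2 * (A * A' - A * B' + B * B') + c.n * (C' - D')) *
      (N * C + 2 * (A * A' - A * B' + B * B') + c.n * (C' - D')) -
      (N * C + 2 * (A * A' - A * B' + B * B') + c.n * (C' - D')) *
        (N * D + 2 * (B * A' - A * B') - c.n * D') +
      (N * D + 2 * (B * A' - A * B') - c.n * D') *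
        (N * D + 2 * (B * A' - A * B') - c.n * D')) / (c.n * N) := by
    rw [eq_div_iff (mul_ne_zero hnq hNq)]
    have e6 := congrArg (Int.cast : ℤ → ℚ) e5
    push_cast at e6
    linear_combination e6
  rw [dF, dC, dC', d6, d7, d3, d4, d5]
  push_cast
  field_simp
  ring

end Pool.Agent.H13.DM
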