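import Mathlib
import Pool.Agent.H13.DM.EBox
import Pool.Agent.H13.DM.EForm

/-!
MP_9d29f5_al, project DM, block B, part E, file ENorm (job DM-ENORM): normalisation of a cusp.
Prove exists_norm in place (helper lemmas welcome; EForm may be cited as a stub).

PAPER PROOF. q = row0 (g^-1), q2 /= 0 (ht g = nrm q2 > 0). For p in P (ht p = 0), row0 ((p g)^-1) = row0 (g^-1) * p^-1. So we may multiply q from the right by any element P of the form pmat 0 k z m.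
Right multiplication by pmat 0 0 z m = T(z,m): q1 -> q1 + q2 z, q2 -> q2, q0 -> q0 - 2 q1 conj z + q2 (m - N(z) + 2 m w). Position zeta_q = q1/q2 -> zeta_q + z; T(0,m): t -> t + m (scaled: pT -> pT + m SS).
Right multiplication by pmat 0 k 0 0: q1 -> q1 zeta^k, rotation of the position by 60 k degrees, pT unchanged.
Step 1: choose z in Z[w] such that the norm of the position N' = x^2 + 3 y^2 (x = pX/SS, y = pY/SS) is minimal (the values are N(q1 + q2 z)/N(q2), nonnegative rationals with fixed denominator, so a minimum exists: choose z minimizing the natural number N(q1 + q2 z)).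
Then for every unit e: N(q1 + q2 (z + e)) >= N(q1 + q2 z), i.e. 2 Re(zeta conj e) >= -1 for all six units e, in coordinates x, y: |2x| <= 1, |x + 3y| <= 1, |x - 3y| <= 1 (Re(zeta * conj(e)) for e = 1, zeta, w: x, (x + 3 y)/2, (-x + 3y)/2).
Step 2: rotate by zeta^k so that |3 y| <= x (sector of 60 degrees around the positive real axis: y sqrt3 = Im, |Im| <= Re/sqrt3): the six rotations of the sector cover the plane: multiplication by zeta: (x,y) -> ((x - 3y)/2, (x+y)/2). The three inequalities of step 1 are invariant under rotation, so x <= 1/2, pX <= 1536 = SS/2.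
(x >= 0 from |3y| <= x.)
Step 3: translate by T(0,m) with |t| <= 1/2. Combine: the product of the three elements of P is q -> ..., take p = the inverse product; ht p = 0 (ht_right_P etc. or pmat_mul, the elements of P as elements of UU via pmat_isU; ht of an element with x02 = 0 is 0).
-/
set_option autoImplicit false

namespace Pool.Agent.H13.DM

/-- row vector times matrix -/
def enVM (v : V3) (p : M3) : V3 :=
  ⟨v.x0 * p.x00 + v.x1 * p.x10 + v.x2 * p.x20, v.x0 * p.x01 + v.x1 * p.x11 + v.x2 * p.x21,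
    v.x0 * p.x02 + v.x1 * p.x12 + v.x2 * p.x22⟩

theorem enVM_row0 (p q : M3) : (p * q).row0 = enVM p.row0 q := rfl

/-- the elements of the stabiliser of the cusp -/
def enP (k : Fin 6) (z : Eis) (m : ℤ) : UU := ⟨pmat 0 k z m, pmat_isU 0 k z m⟩

theorem enP_ht (k : Fin 6) (z : Eis) (m : ℤ) : (enP k z m).ht = 0 := rfl

theorem en_unit0 : Eis.unit 0 = 1 := rfl

theorem enVM_T (v : V3) (z : Eis) : (enVM v (enP 0 z 0).m).x1 = v.x1 + v.x2 * z ∧
    (enVM v (enP 0 z 0).m).x2 = v.x2 := by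
  constructor
  · simp only [enVM, enP, pmat, en_unit0]; ring
  · simp only [enVM, enP, pmat, en_unit0]; ring

theorem enVM_D (v : V3) (k : Fin 6) : (enVM v (enP k 0 0).m).x1 = v.x1 * Eis.unit k ∧
    (enVM v (enP k 0 0).m).x2 = v.x2 := by
  constructor
  · simp only [enVM, enP, pmat, en_unit0]; ring
  · simp only [enVM, enP, pmat, en_unit0]; ring

theorem enVM_M (v : V3) (m : ℤ) : (enVM v (enP 0 0 m).m).x0 = v.x0 + v.x2 * ⟨m, 2 * m⟩ ∧
    (enVM v (enP 0 0 m).m).x1 = v.x1 ∧ (enVM v (enP 0 0 m).m).x2 = v.x2 := by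
  have hc : (0 : Eis).conj = 0 := by decide
  have hn : (0 : Eis).nrm = 0 := by decide
  refine ⟨?_, ?_, ?_⟩
  · simp only [enVM, enP, pmat, en_unit0, hc, hn, sub_zero]; ring
  · simp only [enVM, enP, pmat, en_unit0]; ring
  · simp only [enVM, enP, pmat, en_unit0]; ring

theorem en_exists_min (a b : Eis) : ∃ z : Eis, ∀ z' : Eis, (a + b * z).nrm ≤ (a + b * z').nrm := by
  classical
  have hex : ∃ n : ℕ, ∃ z : Eis, (a + b * z).nrm.toNat = n := ⟨_, 0, rfl⟩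
  obtain ⟨z, hz⟩ := Nat.find_spec hex
  refine ⟨z, fun z' => ?_⟩
  have h1 : Nat.find hex ≤ (a + b * z').nrm.toNat := Nat.find_min' hex ⟨z', rfl⟩
  rw [← hz] at h1
  have h2 := nrm_nonneg (a + b * z)
  have h3 := nrm_nonneg (a + b * z')
  omega

theorem en_nrm_add (x y e : Eis) : (x + y * e).nrm =
    x.nrm + (2 * (x * y.conj * e.conj).a - (x * y.conj * e.conj).b) + y.nrm * e.nrm := by
  simp only [Eis.nrm, Eis.add_a, Eis.add_b, Eis.mul_a, Eis.mul_b, Eis.conj_a, Eis.conj_b]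
  ring

/-- the six inequalities -/
theorem en_ineq (x y : Eis) (h : ∀ e : Eis, x.nrm ≤ (x + y * e).nrm) :
    |2 * (x * y.conj).a - (x * y.conj).b| ≤ y.nrm ∧
    |(x * y.conj).a + (x * y.conj).b| ≤ y.nrm ∧
    |2 * (x * y.conj).b - (x * y.conj).a| ≤ y.nrm := by
  have h' : ∀ e : Eis, e.nrm = 1 → 0 ≤ (2 * (x * y.conj * e.conj).a -
      (x * y.conj * e.conj).b) + y.nrm := by
    intro e he
    have := h e
    rw [en_nrm_add, he] at this
    linarith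
  have a1 := h' ⟨1, 0⟩ rfl
  have a2 := h' ⟨-1, 0⟩ rfl
  have a3 := h' ⟨1, 1⟩ rfl
  have a4 := h' ⟨-1, -1⟩ rfl
  have a5 := h' ⟨0, 1⟩ rfl
  have a6 := h' ⟨0, -1⟩ rfl
  generalize x * y.conj = B at *
  simp only [Eis.mul_a, Eis.mul_b, Eis.conj_a, Eis.conj_b] at a1 a2 a3 a4 a5 a6
  refine ⟨abs_le.2 ⟨?_, ?_⟩, abs_le.2 ⟨?_, ?_⟩, abs_le.2 ⟨?_, ?_⟩⟩ <;> linarith

/-- rotation into the sector -/
theorem en_sector (B : Eis) (N : ℤ) (h1 : |2 * B.a - B.b| ≤ N) (h2 : |B.a + B.b| ≤ N)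
    (h3 : |2 * B.b - B.a| ≤ N) : ∃ k : Fin 6,
      2 * (B * Eis.unit k).a - (B * Eis.unit k).b ≤ N ∧
      |3 * (B * Eis.unit k).b| ≤ 2 * (B * Eis.unit k).a - (B * Eis.unit k).b := by
  rw [abs_le] at h1 h2 h3
  simp only [abs_le]
  rcases le_or_gt 0 (B.a - 2 * B.b) with hR | hR
  · rcases le_or_gt 0 (B.a + B.b) with hP | hP
    · refine ⟨0, ?_, ?_, ?_⟩ <;> simp [Eis.unit] <;> omega
    · rcases le_or_gt 0 (2 * B.a - B.b) with hQ | hQ
      · refine ⟨1, ?_, ?_, ?_⟩ <;> simp [Eis.unit] <;> omega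
      · refine ⟨2, ?_, ?_, ?_⟩ <;> simp [Eis.unit] <;> omega
  · rcases le_or_gt (B.a + B.b) 0 with hP | hP
    · refine ⟨3, ?_, ?_, ?_⟩ <;> simp [Eis.unit] <;> omega
    · rcases le_or_gt 0 (2 * B.a - B.b) with hQ | hQ
      · refine ⟨5, ?_, ?_, ?_⟩ <;> simp [Eis.unit] <;> omega
      · refine ⟨4, ?_, ?_, ?_⟩ <;> simp [Eis.unit] <;> omega

theorem en_pos (q : V3) (hN : 0 < q.x2.nrm)
    (h1 : 2 * (q.x1 * q.x2.conj).a - (q.x1 * q.x2.conj).b ≤ q.x2.nrm)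
    (h2 : |3 * (q.x1 * q.x2.conj).b| ≤ 2 * (q.x1 * q.x2.conj).a - (q.x1 * q.x2.conj).b) :
    0 ≤ pX q ∧ pX q ≤ 1536 ∧ |3 * pY q| ≤ pX q := by
  have hNq : (0 : ℚ) < q.x2.nrm := by exact_mod_cast hN
  have h1q : (2 * (q.x1 * q.x2.conj).a - (q.x1 * q.x2.conj).b : ℚ) ≤ q.x2.nrm := by
    exact_mod_cast h1
  have h2q : |(3 * (q.x1 * q.x2.conj).b : ℚ)| ≤
      2 * (q.x1 * q.x2.conj).a - (q.x1 * q.x2.conj).b := by
    exact_mod_cast h2
  have h0q : (0 : ℚ) ≤ 2 * (q.x1 * q.x2.conj).a - (q.x1 * q.x2.conj).b :=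
    (abs_nonneg _).trans h2q
  have hS : ((SS : ℤ) : ℚ) = 3072 := by norm_num [SS]
  refine ⟨?_, ?_, ?_⟩
  · rw [pX, hS]
    positivity
  · rw [pX, hS, div_le_iff₀ (by positivity)]
    linarith
  · have e : 3 * pY q = 3072 * (3 * (q.x1 * q.x2.conj).b) / (2 * q.x2.nrm) := by
      rw [pY, hS]; ring
    rw [e, pX, hS, abs_div, abs_mul, abs_of_pos (show (0 : ℚ) < 3072 by norm_num),
      abs_of_pos (show (0 : ℚ) < 2 * q.x2.nrm by positivity)]
    gcongr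

theorem en_t (v : V3) (hN : 0 < v.x2.nrm) : ∃ m : ℤ, |pT (enVM v (enP 0 0 m).m)| ≤ 1536 := by
  have hNq : (0 : ℚ) < v.x2.nrm := by exact_mod_cast hN
  refine ⟨-round (((v.x0 * v.x2.conj).b : ℚ) / (2 * v.x2.nrm)), ?_⟩
  set m : ℤ := -round (((v.x0 * v.x2.conj).b : ℚ) / (2 * v.x2.nrm)) with hm
  obtain ⟨e0, e1, e2⟩ := enVM_M v m
  have hS : ((SS : ℤ) : ℚ) = 3072 := by norm_num [SS]
  have e3 : ((v.x0 + v.x2 * ⟨m, 2 * m⟩) * v.x2.conj).b = (v.x0 * v.x2.conj).b + 2 * m * v.x2.nrm := by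
    simp only [Eis.nrm, Eis.add_a, Eis.add_b, Eis.mul_a, Eis.mul_b, Eis.conj_a, Eis.conj_b]
    ring
  rw [pT, e0, e2, e3, hS]
  have e4 : (3072 : ℚ) * (((v.x0 * v.x2.conj).b + 2 * m * v.x2.nrm : ℤ) : ℚ) / (2 * v.x2.nrm) =
      3072 * (((v.x0 * v.x2.conj).b : ℚ) / (2 * v.x2.nrm) -
        round (((v.x0 * v.x2.conj).b : ℚ) / (2 * v.x2.nrm))) := by
    have : (m : ℚ) = -round (((v.x0 * v.x2.conj).b : ℚ) / (2 * v.x2.nrm)) := by
      rw [hm]; push_cast; ring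
    push_cast
    rw [this]
    field_simp
    ring
  rw [e4, abs_mul, abs_of_pos (show (0 : ℚ) < 3072 by norm_num)]
  have := abs_sub_round (((v.x0 * v.x2.conj).b : ℚ) / (2 * v.x2.nrm))
  linarith

theorem exists_norm (g : UU) (hg : 0 < g.ht) : ∃ p : UU, p.ht = 0 ∧
    0 ≤ pX ((p * g)⁻¹).m.row0 ∧ pX ((p * g)⁻¹).m.row0 ≤ 1536 ∧
    |3 * pY ((p * g)⁻¹).m.row0| ≤ pX ((p * g)⁻¹).m.row0 ∧
    |pT ((p * g)⁻¹).m.row0| ≤ 1536 := by
  have hN : 0 < (g⁻¹).m.row0.x2.nrm := by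
    rw [← ht_eq_nrm]; exact_mod_cast hg
  generalize hv0 : (g⁻¹).m.row0 = v0 at hN
  obtain ⟨z, hz⟩ := en_exists_min v0.x1 v0.x2
  have hz' : ∀ e : Eis, (v0.x1 + v0.x2 * z).nrm ≤ ((v0.x1 + v0.x2 * z) + v0.x2 * e).nrm := by
    intro e
    have := hz (z + e)
    rwa [mul_add, ← add_assoc] at this
  obtain ⟨i1, i2, i3⟩ := en_ineq _ _ hz'
  obtain ⟨k, k1, k2⟩ := en_sector _ _ i1 i2 i3
  obtain ⟨a1, a2⟩ := enVM_T v0 z
  obtain ⟨b1, b2⟩ := enVM_D (enVM v0 (enP 0 z 0).m) k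
  obtain ⟨m, hm⟩ := en_t (enVM (enVM v0 (enP 0 z 0).m) (enP k 0 0).m) (by rw [b2, a2]; exact hN)
  obtain ⟨-, c1, c2⟩ := enVM_M (enVM (enVM v0 (enP 0 z 0).m) (enP k 0 0).m) m
  refine ⟨(enP 0 z 0 * enP k 0 0 * enP 0 0 m)⁻¹, ?_, ?_⟩
  · rw [ht_inv, ht_right_P _ _ (enP_ht _ _ _), ht_right_P _ _ (enP_ht _ _ _)]
    exact enP_ht _ _ _
  · have e : (((enP 0 z 0 * enP k 0 0 * enP 0 0 m)⁻¹ * g)⁻¹).m.row0 =
        enVM (enVM (enVM v0 (enP 0 z 0).m) (enP k 0 0).m) (enP 0 0 m).m := by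
      rw [mul_inv_rev, inv_inv, ← mul_assoc, ← mul_assoc, UU.mul_m, UU.mul_m, UU.mul_m, enVM_row0,
        enVM_row0, enVM_row0, hv0]
    rw [e]
    have f : (v0.x1 + v0.x2 * z) * Eis.unit k * v0.x2.conj =
      (v0.x1 + v0.x2 * z) * v0.x2.conj * Eis.unit k := by ring
    obtain ⟨d1, d2, d3⟩ := en_pos (enVM (enVM (enVM v0 (enP 0 z 0).m) (enP k 0 0).m) (enP 0 0 m).m)
      (by rw [c2, b2, a2]; exact hN) (by rw [c1, c2, b1, b2, a1, a2, f]; exact k1)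
      (by rw [c1, c2, b1, b2, a1, a2, f]; exact k2)
    exact ⟨d1, d2, d3, hm⟩

end Pool.Agent.H13.DM
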