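import Mathlib
import Pool.Agent.H13.DM.EBox
import Pool.Agent.H13.DM.EBoxCheck
import Pool.Agent.H13.DM.EForm
import Pool.Agent.H13.DM.ENorm
import Pool.Agent.H13.DM.ESound
import Pool.Agent.H13.DM.EComplete
import Pool.Agent.H13.DM.Classify

/-!
MP_9d29f5_al, project DM, block B, part E, file ECond (job DM-ECOND): condition (E).
Prove cond_E in place (helper lemmas welcome; all imported files may be cited as stubs).

PAPER PROOF. Sg is invariant under inversion (ht_inv) and under multiplication by P = {ht = 0} on both sides (ht_left_P, ht_right_P).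
Let 0 < ht g. Take p from exists_norm, g' = p g, ht g' = ht g. q = row0 (g'^-1), X = pX q etc. in the region. tree_sound btree WB btree_ok at (X,Y,T) gives c < 85 etc.
For j < 85 let tau_j in UU be the inverse of gi i * P(k,z,m), (i,k,z,m) = cParam j, P(k,z,m) = the element of UU with matrix pmat 0 k z m (pmat_isU). Then row0 (tau_j^-1) = cv j (cv_ok) and
ht (tau_j^-1 g') = nrm (hf (cv j) q) (ht_hf), and Fq (cd j) X Y T * nrm q2 = ONE4 * nrm (hf (cv j) q) (Fq_form, iso_row0), nrm q2 = ht g' (ht_eq_nrm). So Fq (cd j) < ONE4 iff ht (tau_j^-1 g') < ht g'.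
tau_j in Sg: ht of gi i is 1, 3 or 4.
(*) for i, j < 85 with cadj i j: ht (tau_i^-1 tau_j) = nrm (hf (row0 tau_i^-1) (row0 tau_j^-1)) = nrm (hf (cv i) (cv j)) in {0,1,3,4} by cadj_ok, so tau_i^-1 tau_j in Sg.
The claim for g': c' := tau_c. Let t in Sg with ht (t^-1 g') <= ht g'. If ht t = 0 take m' = tau_c: t^-1 tau_c in Sg, tau_c^-1 tau_c = 1. Otherwise t^-1 in Sg, ht t^-1 in {1,3,4}, class_Sigma: t^-1 = p1 gi(i) q1, q1 has matrix pmat u k z m (class_P), p1 has matrix pmat u1 .. ;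
row0 (t^-1) = unit * cuspV i k z m (first row of p1 is a unit times (1,0,0); pmat u k z m = unit * pmat 0 k z m). nrm (hf ..) does not change under units. With exists_cd and Fq_form: Fq c0 X Y T <= ONE4 for the data c0 of cuspV i k z m, so complete gives j < 85 with cuspV i k z m = unit * cv j. Hence
row0 (t^-1) = unit * cv j, so ht (tau_j^-1 g') = ht (t^-1 g') <= ht g', so Fq (cd j) <= ONE4, and the certificate gives m < 85 with Fq (cd m) < ONE4, cadj j m, cadj m c. Take m' = tau_m: ht (t^-1 tau_m) = nrm (hf (row0 t^-1) (cv m)) = nrm (hf (cv j) (cv m)) in {0,1,3,4}; tau_m^-1 tau_c in Sg.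
Back to g: multiply by p^-1: c := p^-1 tau_c; (p^-1 tau_c)^-1 g = tau_c^-1 g'. For t in Sg use p t in Sg, (p t)^-1 g' = t^-1 g, m := p^-1 m', t^-1 m = (p t)^-1 m', m^-1 c = m'^-1 c'.
-/
set_option autoImplicit false

namespace Pool.Agent.H13.DM

/-! ### unit multiples -/

theorem hf_us_left (e : Fin 6) (x y : V3) : hf (V3.us e x) y = Eis.unit e * hf x y := by
  simp only [hf, V3.us]; ring

theorem econd_conj_conj (x : Eis) : x.conj.conj = x := by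
  ext <;> simp

theorem econd_conj_add (x y : Eis) : (x + y).conj = x.conj + y.conj := by
  ext <;> simp <;> ring

theorem hf_symm (x y : V3) : hf y x = (hf x y).conj := by
  have h2 : (⟨2, 0⟩ : Eis).conj = ⟨2, 0⟩ := by decide
  simp only [hf, econd_conj_add, conj_mul', econd_conj_conj, h2]
  ring

theorem nrm_us_left (e : Fin 6) (x y : V3) : (hf (V3.us e x) y).nrm = (hf x y).nrm := by
  rw [hf_us_left, nrm_mul', nrm_unit, one_mul]

theorem us_us (e e' : Fin 6) (x : V3) : V3.us e (V3.us e' x) = V3.us (e + e') x := by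
  have h : Eis.unit (e + e') = Eis.unit e * Eis.unit e' := unit_add e e'
  simp only [V3.us, h, mul_assoc]

theorem econd_smul (u k : Fin 6) (z : Eis) (m : ℤ) :
    pmat u k z m = M3.smul (Eis.unit u) (pmat 0 k z m) := by
  have h1 : Eis.unit 0 = 1 := rfl
  ext1 <;> simp only [pmat, M3.smul, h1] <;> ring

theorem row0_prod (u1 k1 u k : Fin 6) (z1 z : Eis) (m1 m : ℤ) (A : M3) :
    (pmat u1 k1 z1 m1 * A * pmat u k z m).row0 = V3.us (u1 + u) (A * pmat 0 k z m).row0 := by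
  have h : Eis.unit (u1 + u) = Eis.unit u1 * Eis.unit u := unit_add u1 u
  have h1 : Eis.unit 0 = 1 := rfl
  ext1 <;> simp only [M3.row0, V3.us, M3.mul_def, pmat, h, h1] <;> ring

/-! ### the elements tau -/

/-- the element of the unitary group with matrix pmat 0 k z m -/
def Pel (k : Fin 6) (z : Eis) (m : ℤ) : UU := ⟨pmat 0 k z m, pmat_isU 0 k z m⟩

theorem Pel_ht (k : Fin 6) (z : Eis) (m : ℤ) : (Pel k z m).ht = 0 :=
  ht_pmat (g := Pel k z m) rfl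

/-- inverse of the element with first row cuspV i k z m -/
def tauE (i k : Fin 6) (z : Eis) (m : ℤ) : UU := (gi i * Pel k z m)⁻¹

theorem tauE_row (i k : Fin 6) (z : Eis) (m : ℤ) : (tauE i k z m)⁻¹.m.row0 = cuspV i k z m := by
  unfold tauE
  rw [inv_inv]
  rfl

theorem gi_ht (i : Fin 6) : (gi i).ht = 1 ∨ (gi i).ht = 3 ∨ (gi i).ht = 4 := by
  revert i
  decide +kernel

theorem tauE_ht (i k : Fin 6) (z : Eis) (m : ℤ) : (tauE i k z m).ht = 1 ∨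
    (tauE i k z m).ht = 3 ∨ (tauE i k z m).ht = 4 := by
  unfold tauE
  rw [ht_inv, ht_right_P _ _ (Pel_ht k z m)]
  exact gi_ht i

theorem tauE_Sg (i k : Fin 6) (z : Eis) (m : ℤ) : tauE i k z m ∈ Sg := Or.inr (tauE_ht i k z m)

/-- the element of number j in the table -/
def tau (j : ℕ) : UU := tauE (cParam.getD j (0, 0, 0, 0)).1 (cParam.getD j (0, 0, 0, 0)).2.1
      (cParam.getD j (0, 0, 0, 0)).2.2.1 (cParam.getD j (0, 0, 0, 0)).2.2.2

theorem tau_row {j : ℕ} (hj : j < 85) : (tau j)⁻¹.m.row0 = cv j := by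
  unfold tau
  rw [tauE_row]
  exact ((cv_ok j hj).2).symm

theorem tau_Sg (j : ℕ) : tau j ∈ Sg := tauE_Sg _ _ _ _

theorem tau_iso {j : ℕ} (hj : j < 85) : hf (cv j) (cv j) = 0 := by
  rw [← tau_row hj]
  exact iso_row0 _

theorem cusp_iso (i k : Fin 6) (z : Eis) (m : ℤ) : hf (cuspV i k z m) (cuspV i k z m) = 0 := by
  rw [← tauE_row]
  exact iso_row0 _

theorem mem_Sg_of_nrm {g : UU} {n : ℤ} (h : g.ht = n.toNat)
    (hn : n = 0 ∨ n = 1 ∨ n = 3 ∨ n = 4) : g ∈ Sg := by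
  change g.ht = 0 ∨ g.ht = 1 ∨ g.ht = 3 ∨ g.ht = 4
  omega

theorem tau_tau {i j : ℕ} (hi : i < 85) (hj : j < 85) (h : cadj i j = true) :
    (tau i)⁻¹ * tau j ∈ Sg := by
  have h1 := ht_hf (tau j) (tau i)
  rw [tau_row hi, tau_row hj] at h1
  exact mem_Sg_of_nrm h1 (cadj_ok i hi j hj h)

theorem one_Sg : (1 : UU) ∈ Sg := Or.inl rfl

/-! ### the function Fq and the height -/

theorem Fq_iff (g : UU) (hg : 0 < g.ht) (u : V3) (hu : hf u u = 0) (c : CD) (hc : c.ok u) :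
    (Fq c (pX g⁻¹.m.row0) (pY g⁻¹.m.row0) (pT g⁻¹.m.row0) < ONE4 ↔
      (hf u g⁻¹.m.row0).nrm < g.ht) ∧
    (Fq c (pX g⁻¹.m.row0) (pY g⁻¹.m.row0) (pT g⁻¹.m.row0) ≤ ONE4 ↔
      (hf u g⁻¹.m.row0).nrm ≤ g.ht) := by
  have hN := ht_eq_nrm g
  have hq2 : (g⁻¹).m.row0.x2 ≠ 0 := by
    intro h0
    rw [h0] at hN
    have h1 : (0 : Eis).nrm = 0 := rfl
    rw [h1] at hN
    omega
  have hF := Fq_form u g⁻¹.m.row0 hu (iso_row0 g⁻¹) hq2 c hc
  rw [← hN] at hF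
  set F := Fq c (pX g⁻¹.m.row0) (pY g⁻¹.m.row0) (pT g⁻¹.m.row0) with hFdef
  set M := (hf u g⁻¹.m.row0).nrm with hM
  have hO : (0 : ℚ) < ONE4 := by
    have : (0 : ℤ) < ONE4 := by unfold ONE4 SS; norm_num
    exact_mod_cast this
  have hg' : (0 : ℚ) < ((g.ht : ℤ) : ℚ) := by exact_mod_cast hg
  constructor
  · rw [← mul_lt_mul_iff_left₀ hg', hF, mul_lt_mul_iff_right₀ hO]
    exact_mod_cast Iff.rfl
  · rw [← mul_le_mul_iff_left₀ hg', hF, mul_le_mul_iff_right₀ hO]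
    exact_mod_cast Iff.rfl

/-- the heights in terms of vectors -/
theorem ht_lt_iff (g t : UU) : (t⁻¹ * g).ht < g.ht ↔
    (hf t⁻¹.m.row0 g⁻¹.m.row0).nrm < g.ht := by
  rw [ht_hf g t]
  have h := nrm_nn (hf t⁻¹.m.row0 g⁻¹.m.row0)
  omega

theorem ht_le_iff (g t : UU) : (t⁻¹ * g).ht ≤ g.ht ↔
    (hf t⁻¹.m.row0 g⁻¹.m.row0).nrm ≤ g.ht := by
  rw [ht_hf g t]
  have h := nrm_nn (hf t⁻¹.m.row0 g⁻¹.m.row0)
  omega

/-- an element of height 1, 3, 4 whose inverse is a unit multiple of a cusp vector -/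
theorem row_of_Sg (t : UU) (h : t.ht = 1 ∨ t.ht = 3 ∨ t.ht = 4) :
    ∃ (e i k : Fin 6) (z : Eis) (m : ℤ), t⁻¹.m.row0 = V3.us e (cuspV i k z m) := by
  obtain ⟨i, p, q, hp, hq, hpq⟩ := class_Sigma t⁻¹ (by rw [ht_inv]; exact h)
  obtain ⟨u, k, z, m, hu⟩ := class_P q hq
  obtain ⟨u1, k1, z1, m1, hu1⟩ := class_P p hp
  refine ⟨u1 + u, i, k, z, m, ?_⟩
  rw [hpq]
  change (p.m * gM i * q.m).row0 = _
  rw [hu, hu1, row0_prod]
  rfl

theorem cond_norm (g : UU) (hg : 0 < g.ht)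
    (h1 : 0 ≤ pX g⁻¹.m.row0) (h2 : pX g⁻¹.m.row0 ≤ 1536)
    (h3 : |3 * pY g⁻¹.m.row0| ≤ pX g⁻¹.m.row0) (h4 : |pT g⁻¹.m.row0| ≤ 1536) :
    ∃ c ∈ Sg, (c⁻¹ * g).ht < g.ht ∧
    ∀ t ∈ Sg, (t⁻¹ * g).ht ≤ g.ht →
      ∃ m ∈ Sg, (m⁻¹ * g).ht < g.ht ∧ t⁻¹ * m ∈ Sg ∧ m⁻¹ * c ∈ Sg := by
  have h5 := abs_le.mp h4
  have h6 := abs_le.mp h3
  have b1 : ((WB.xl : ℤ) : ℚ) ≤ pX g⁻¹.m.row0 := by
    change ((0 : ℤ) : ℚ) ≤ _
    push_cast; exact h1
  have b2 : pX g⁻¹.m.row0 ≤ ((WB.xh : ℤ) : ℚ) := by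
    change _ ≤ ((1536 : ℤ) : ℚ)
    push_cast; exact h2
  have b3 : ((WB.yl : ℤ) : ℚ) ≤ pY g⁻¹.m.row0 := by
    change ((-512 : ℤ) : ℚ) ≤ _
    push_cast; linarith [h6.1]
  have b4 : pY g⁻¹.m.row0 ≤ ((WB.yh : ℤ) : ℚ) := by
    change _ ≤ ((512 : ℤ) : ℚ)
    push_cast; linarith [h6.2]
  have b5 : ((WB.tl : ℤ) : ℚ) ≤ pT g⁻¹.m.row0 := by
    change ((-1536 : ℤ) : ℚ) ≤ _
    push_cast; exact h5.1
  have b6 : pT g⁻¹.m.row0 ≤ ((WB.th : ℤ) : ℚ) := by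
    change _ ≤ ((1536 : ℤ) : ℚ)
    push_cast; exact h5.2
  obtain ⟨c, hc, hcF, hall⟩ := tree_sound btree WB btree_ok _ _ _ b1 b2 b3 b4 b5 b6 h3
  have key : ∀ j < 85, Fq (cd j) (pX g⁻¹.m.row0) (pY g⁻¹.m.row0) (pT g⁻¹.m.row0) < ONE4 →
      ((tau j)⁻¹ * g).ht < g.ht := by
    intro j hj hF
    rw [ht_lt_iff, tau_row hj]
    exact (Fq_iff g hg (cv j) (tau_iso hj) (cd j) (cv_ok j hj).1).1.mp hF
  refine ⟨tau c, tau_Sg c, key c hc hcF, ?_⟩
  intro t ht hle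
  by_cases h0 : t.ht = 0
  · refine ⟨tau c, tau_Sg c, key c hc hcF, ?_, ?_⟩
    · have e : (t⁻¹ * tau c).ht = (tau c).ht := ht_left_P _ _ (by rw [ht_inv]; exact h0)
      have h := tau_Sg c
      change (t⁻¹ * tau c).ht = 0 ∨ _
      rw [e]
      exact h
    · rw [inv_mul_cancel]
      exact one_Sg
  · have ht1 : t.ht = 1 ∨ t.ht = 3 ∨ t.ht = 4 := by
      rcases ht with ht | ht
      · exact absurd ht h0
      · exact ht
    obtain ⟨e, i, k, z, m, hrow⟩ := row_of_Sg t ht1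
    obtain ⟨c0, hc0⟩ := exists_cd i k z m
    rw [ht_le_iff, hrow, nrm_us_left] at hle
    have hF0 := (Fq_iff g hg _ (cusp_iso i k z m) c0 hc0).2.mpr hle
    obtain ⟨j, hj, e', hje⟩ := complete i k z m c0 hc0 _ _ _ h1 h2 h3 h4 hF0
    rw [hje, nrm_us_left] at hle
    have hFj := (Fq_iff g hg (cv j) (tau_iso hj) (cd j) (cv_ok j hj).1).2.mpr hle
    obtain ⟨n, hn, hnF, hjn, hnc⟩ := hall j hj hFj
    refine ⟨tau n, tau_Sg n, key n hn hnF, ?_, tau_tau hn hc hnc⟩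
    have h7 := ht_hf (tau n) t
    rw [hrow, hje, us_us, nrm_us_left, tau_row hn] at h7
    exact mem_Sg_of_nrm h7 (cadj_ok j hj n hn hjn)

theorem Sg_left {p t : UU} (hp : p.ht = 0) (ht : t ∈ Sg) : p * t ∈ Sg := by
  change (p * t).ht = 0 ∨ _
  rw [ht_left_P p t hp]
  exact ht

theorem cond_E (g : UU) (hg : 0 < g.ht) : ∃ c ∈ Sg, (c⁻¹ * g).ht < g.ht ∧
    ∀ t ∈ Sg, (t⁻¹ * g).ht ≤ g.ht →
      ∃ m ∈ Sg, (m⁻¹ * g).ht < g.ht ∧ t⁻¹ * m ∈ Sg ∧ m⁻¹ * c ∈ Sg := by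
  obtain ⟨p, hp, h1, h2, h3, h4⟩ := exists_norm g hg
  have hpg : (p * g).ht = g.ht := ht_left_P p g hp
  have hpi : (p⁻¹).ht = 0 := by rw [ht_inv]; exact hp
  obtain ⟨c, hc, hcl, hall⟩ := cond_norm (p * g) (by rw [hpg]; exact hg) h1 h2 h3 h4
  refine ⟨p⁻¹ * c, Sg_left hpi hc, ?_, ?_⟩
  · have e : (p⁻¹ * c)⁻¹ * g = c⁻¹ * (p * g) := by group
    rw [e, ← hpg]
    exact hcl
  · intro t ht hle
    have e : (p * t)⁻¹ * (p * g) = t⁻¹ * g := by group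
    obtain ⟨m, hm, hml, h5, h6⟩ := hall (p * t) (Sg_left hp ht) (by rw [e, hpg]; exact hle)
    refine ⟨p⁻¹ * m, Sg_left hpi hm, ?_, ?_, ?_⟩
    · have e : (p⁻¹ * m)⁻¹ * g = m⁻¹ * (p * g) := by group
      rw [e, ← hpg]
      exact hml
    · have e : t⁻¹ * (p⁻¹ * m) = (p * t)⁻¹ * m := by group
      rw [e]
      exact h5
    · have e : (p⁻¹ * m)⁻¹ * (p⁻¹ * c) = m⁻¹ * c := by group
      rw [e]
      exact h6

end Pool.Agent.H13.DM
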