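import Mathlib
import Pool.Agent.H13.DM.RTab

/-!
MP_9d29f5_al, project DM, block B: type of table entries for the products g_i r g_j of height at most 4
(r in the cusp group).
-/
set_option autoImplicit false

namespace Pool.Agent.H13.DM

/-- entry: g_i * pmat 0 k z m * g_j = pmat su sk sz sm * g_l * pmat 0 tk tz tm (g_none = 1) -/
structure Ent where
  (i j k : Fin 6) (z : Eis) (m : ℤ) (l : Option (Fin 6)) (su sk : Fin 6) (sz : Eis) (sm : ℤ)
  (tk : Fin 6) (tz : Eis) (tm : ℤ)
deriving DecidableEq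

/-- g_l, with g_none = 1 -/
def gO : Option (Fin 6) → M3
  | none => 1
  | some l => gM l
/-- w_l, with w_none = 1 -/
def wO : Option (Fin 6) → Wr
  | none => 1
  | some l => wi l

/-- in the box -1..1 -/
def inB (z : Eis) (m : ℤ) : Prop := z.a ∈ box3 ∧ z.b ∈ box3 ∧ m ∈ box3

/-- the two identities, in terms of the table rv, and the range of the parameters -/
def Ent.ok (e : Ent) : Prop :=
  gM e.i * pmat 0 e.k e.z e.m * gM e.j = pmat e.su e.sk e.sz e.sm * gO e.l * pmat 0 e.tk e.tz e.tm ∧
  wi e.i * rv e.k e.z e.m * wi e.j = rv e.sk e.sz e.sm * wO e.l * rv e.tk e.tz e.tm ∧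
  inB e.z e.m ∧ inB e.sz e.sm ∧ inB e.tz e.tm

instance : DecidablePred Ent.ok := fun e => by
  unfold Ent.ok inB; infer_instance

/-- a check of a list in two parts (used to keep the kernel checks small) -/
theorem ok_split (l : List Ent) (n : ℕ) (h1 : ∀ e ∈ l.take n, e.ok) (h2 : ∀ e ∈ l.drop n, e.ok) :
    ∀ e ∈ l, e.ok := by
  intro e he
  rw [← List.take_append_drop n l, List.mem_append] at he
  exact he.elim (h1 e) (h2 e)

end Pool.Agent.H13.DM
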