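import Mathlib
import Pool.Agent.H13.DM.RhoInf
import Pool.Agent.H13.DM.Classify
import Pool.Agent.H13.DM.RTab

/-!
MP_9d29f5_al, project DM, block B, file Stab (job DM-STAB).
Prove the theorems in place (helper lemmas welcome; RhoInf, Classify may be cited as stubs).

PAPER PROOFS.
(1) stab: suppose g_j = s g_i q with s, q in P, in matrices gM j = S * gM i * Q, S = pmat su sk sz sm, Q = pmat qu qk qz qm. Row 0: r0(gM j) = zeta^su * r0(gM i) * Q. So with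
r0(gM i) = (a,b,c): c_j = zeta^(su+qu) c_i: norms agree, so the heights agree: i = j = 0, or i, j in {1,2}, or i, j in {3,4,5}. Second entry: b_j = zeta^(su+qu) (b_i zeta^qk + c_i qz), first entry a_j = zeta^(su+qu)(a_i + b_i zeta^qk (-2 conj qz) + c_i (qm - N(qz) + 2 qm w)).
 i = j = 0: (0,0,1): unit = 1, qz = 0, qm = 0.
 i, j in {1,2}: rows (1,0,-theta), (1,0,theta): i /= j would need unit = -1 and -(1 -+ theta (...)) = 1 with qz = 0: 1 + 3 qm = -1 impossible. i = j: unit 1, qz = 0, 3 qm = 0.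
 3 (row (theta,0,-2)) against 4, 5 (rows (1,-1,-2 zeta), (1,zeta,2w)): second entry not divisible by 2, impossible. 3,3: qz = 0, then -2 qm theta = 0.
 4,4: -zeta^qk - 2 zeta qz = -1 forces qk = 0, qz = 0 or qk = 3, qz = zeta^-1 = -w; then qm = 0. 5,5 similarly: qk = 0, qz = 0, qm = 0 or qk = 3, qz = -w, qm = 0 (computed by machine). 4,5 and 5,4: impossible (bounded qz by the second entry: finitely many cases; then the
 first entry is wrong modulo 2 theta).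
(2) rho_stab: for these finitely many (i, Q) one has S = gM i * Q^-1 * gM i^-1 explicit and wi i = rinf S * wi i * rinf Q (table check by decide +kernel; the commutation Du * wi i etc.). Machine checked: for i <= 3: gM i * pmat 0 k 0 0 = pmat 0 k 0 0 * gM i (all k), wi i commutes with rinf k 0 0;
 for i = 4, 5: gM i * pmat 0 3 (-w) 0 = pmat 0 3 (-w) 0 * gM i and the same in Wr.
So the conclusion: if gM j = pmat su sk sz sm * gM i * pmat qu qk qz qm then i = j and wi j = rinf sk sz sm * wi i * rinf qk qz qm.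
-/
set_option autoImplicit false

namespace Pool.Agent.H13.DM

theorem stab_row (p : M3) (su sk qu qk : Fin 6) (sz qz : Eis) (sm qm : ℤ) :
    (pmat su sk sz sm * p * pmat qu qk qz qm).x02 = Eis.unit (su + qu) * p.x02 ∧
    (pmat su sk sz sm * p * pmat qu qk qz qm).x01 =
      Eis.unit (su + qu) * (p.x01 * Eis.unit qk + p.x02 * qz) ∧
    (pmat su sk sz sm * p * pmat qu qk qz qm).x00 =
      Eis.unit (su + qu) * (p.x00 + p.x01 * Eis.unit qk * (⟨-2, 0⟩ * qz.conj) +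
        p.x02 * ⟨qm - qz.nrm, 2 * qm⟩) := by
  rw [unit_add]
  refine ⟨?_, ?_, ?_⟩ <;> simp only [M3.mul_def, pmat] <;> ring

theorem stab_v : ∀ i j v : Fin 6, (gM j).x02 = Eis.unit v * (gM i).x02 →
    (i, j, v) ∈ ([(0, 0, 0), (1, 1, 0), (2, 2, 0), (1, 2, 3), (2, 1, 3), (3, 3, 0), (4, 4, 0),
      (5, 5, 0), (3, 4, 1), (4, 3, 5), (3, 5, 5), (5, 3, 1), (4, 5, 4), (5, 4, 2)] :
      List (Fin 6 × Fin 6 × Fin 6)) := by
  decide +kernel

theorem stab_core (i j v qk : Fin 6) (qz : Eis) (qm : ℤ)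
    (h2 : (gM j).x02 = Eis.unit v * (gM i).x02)
    (h1 : (gM j).x01 = Eis.unit v * ((gM i).x01 * Eis.unit qk + (gM i).x02 * qz))
    (h0 : (gM j).x00 = Eis.unit v * ((gM i).x00 + (gM i).x01 * Eis.unit qk *
      (⟨-2, 0⟩ * qz.conj) + (gM i).x02 * ⟨qm - qz.nrm, 2 * qm⟩)) :
    i = j ∧ qm = 0 ∧ ((qz = ⟨0, 0⟩ ∧ ((i : ℕ) ≤ 3 ∨ qk = 0)) ∨
      (4 ≤ (i : ℕ) ∧ qk = 3 ∧ qz = ⟨0, -1⟩)) := by
  have hv := stab_v i j v h2
  clear h2
  obtain ⟨x, y⟩ := qz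
  have h1a := congrArg Eis.a h1
  have h1b := congrArg Eis.b h1
  have h0a := congrArg Eis.a h0
  have h0b := congrArg Eis.b h0
  clear h1 h0
  simp only [List.mem_cons, Prod.mk.injEq, List.not_mem_nil, or_false] at hv
  rcases hv with ⟨rfl, rfl, rfl⟩ | ⟨rfl, rfl, rfl⟩ | ⟨rfl, rfl, rfl⟩ | ⟨rfl, rfl, rfl⟩ |
    ⟨rfl, rfl, rfl⟩ | ⟨rfl, rfl, rfl⟩ | ⟨rfl, rfl, rfl⟩ | ⟨rfl, rfl, rfl⟩ | ⟨rfl, rfl, rfl⟩ |
    ⟨rfl, rfl, rfl⟩ | ⟨rfl, rfl, rfl⟩ | ⟨rfl, rfl, rfl⟩ | ⟨rfl, rfl, rfl⟩ | ⟨rfl, rfl, rfl⟩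
  all_goals
    fin_cases qk <;>
    simp [gM, Eis.unit] at h1a h1b <;>
    (try (exfalso; omega)) <;>
    (have hxy : (x = 0 ∧ y = 0) ∨ (x = 0 ∧ y = -1) := by omega) <;>
    rcases hxy with ⟨rfl, rfl⟩ | ⟨rfl, rfl⟩ <;>
    (try (exfalso; omega)) <;>
    simp [gM, Eis.unit, Eis.nrm, Eis.conj] at h0a h0b ⊢ <;>
    omega

theorem stab_tab1 : ∀ i : Fin 6, (i : ℕ) ≤ 3 → ∀ k : Fin 6,
    gM i * pmat 0 k 0 0 = pmat 0 k 0 0 * gM i ∧ wi i * rinf k 0 0 = rinf k 0 0 * wi i := by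
  decide +kernel

theorem stab_tab2 : ∀ i : Fin 6, 4 ≤ (i : ℕ) →
    gM i * pmat 0 3 ⟨0, -1⟩ 0 = pmat 0 3 ⟨0, -1⟩ 0 * gM i ∧
      wi i * rinf 3 ⟨0, -1⟩ 0 = rinf 3 ⟨0, -1⟩ 0 * wi i := by
  decide +kernel

theorem stab_tab3 : ∀ i : Fin 6,
    gM i * pmat 0 0 0 0 = pmat 0 0 0 0 * gM i ∧
      wi i * rinf 0 0 0 = rinf 0 0 0 * wi i := by
  decide +kernel

theorem stab_pmat_one : pmat 0 0 0 0 = 1 := by decide +kernel

theorem stab_smul (u k : Fin 6) (z : Eis) (m : ℤ) :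
    pmat u k z m = M3.smul (Eis.unit u) (pmat 0 k z m) := by
  have h1 : Eis.unit 0 = 1 := rfl
  ext1 <;> simp only [pmat, M3.smul, h1] <;> ring

theorem stab_comm (i su sk qu qk : Fin 6) (sz qz : Eis) (sm qm : ℤ)
    (h : gM i = pmat su sk sz sm * gM i * pmat qu qk qz qm)
    (hc : gM i * pmat 0 qk qz qm = pmat 0 qk qz qm * gM i)
    (hw : wi i * rinf qk qz qm = rinf qk qz qm * wi i) :
    wi i = rinf sk sz sm * wi i * rinf qk qz qm := by
  have h1 : gM i = pmat su sk sz sm * pmat qu qk qz qm * gM i := by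
    conv_lhs => rw [h]
    rw [stab_smul qu, M3.mul_smul', M3.mul_smul', M3.smul_mul, mul_assoc, hc, mul_assoc]
  have h2 : pmat su sk sz sm * pmat qu qk qz qm = 1 := by
    have h3 := congrArg (fun x => x * M3.inv3 (gM i)) h1
    simp only [mul_assoc, M3.mul_inv3 (gM_isU i), mul_one] at h3
    exact h3.symm
  rw [pmat_mul, ← stab_pmat_one] at h2
  obtain ⟨-, h4, h5, h6⟩ := pmat_inj _ _ _ _ _ _ _ _ h2
  rw [mul_assoc, hw, ← mul_assoc, rinf_mul, h4, h5, h6, rinf_zero, one_mul]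

theorem rho_stab (i j su sk qu qk : Fin 6) (sz qz : Eis) (sm qm : ℤ)
    (h : gM j = pmat su sk sz sm * gM i * pmat qu qk qz qm) :
    i = j ∧ wi j = rinf sk sz sm * wi i * rinf qk qz qm := by
  obtain ⟨h2, h1, h0⟩ := stab_row (gM i) su sk qu qk sz qz sm qm
  rw [← h] at h2 h1 h0
  obtain ⟨rfl, rfl, hq⟩ := stab_core i j (su + qu) qk qz qm h2 h1 h0
  refine ⟨rfl, ?_⟩
  rcases hq with ⟨rfl, hi⟩ | ⟨hi, rfl, rfl⟩
  · rcases hi with hi | rfl
    · exact stab_comm i su sk qu qk sz _ sm 0 h (stab_tab1 i hi qk).1 (stab_tab1 i hi qk).2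
    · exact stab_comm i su sk qu 0 sz _ sm 0 h (stab_tab3 i).1 (stab_tab3 i).2
  · exact stab_comm i su sk qu 3 sz _ sm 0 h (stab_tab2 i hi).1 (stab_tab2 i hi).2

end Pool.Agent.H13.DM
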