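import Mathlib
import Pool.Agent.H13.DM.Ent

/-!
MP_9d29f5_al, project DM, block B: table of products g_i r g_j, rows i = 0. Generated by a script.
-/
set_option autoImplicit false

namespace Pool.Agent.H13.DM


/-- rows 0, part 0 -/
def tbl0_0 : List Ent := [
  ⟨0, 0, 0, ⟨-1, -1⟩, -1, some 4, 0, 0, ⟨0, -1⟩, 0, 1, ⟨-1, 0⟩, 0⟩,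
  ⟨0, 0, 0, ⟨-1, -1⟩, 0, some 0, 3, 3, ⟨1, 1⟩, 0, 0, ⟨-1, -1⟩, 0⟩,
  ⟨0, 0, 0, ⟨-1, -1⟩, 1, some 5, 0, 5, ⟨0, 0⟩, 0, 0, ⟨0, 0⟩, 0⟩,
  ⟨0, 0, 0, ⟨-1, 0⟩, -1, some 4, 0, 1, ⟨0, -1⟩, 0, 0, ⟨0, 1⟩, 0⟩,
  ⟨0, 0, 0, ⟨-1, 0⟩, 0, some 0, 3, 3, ⟨1, 0⟩, 0, 0, ⟨-1, 0⟩, 0⟩,
  ⟨0, 0, 0, ⟨-1, 0⟩, 1, some 5, 0, 3, ⟨0, -1⟩, 0, 2, ⟨-1, -1⟩, 0⟩,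
  ⟨0, 0, 0, ⟨0, -1⟩, -1, some 4, 0, 5, ⟨0, -1⟩, 0, 2, ⟨-1, -1⟩, 0⟩,
  ⟨0, 0, 0, ⟨0, -1⟩, 0, some 0, 3, 3, ⟨0, 1⟩, 0, 0, ⟨0, -1⟩, 0⟩,
  ⟨0, 0, 0, ⟨0, -1⟩, 1, some 5, 0, 4, ⟨0, 0⟩, 0, 1, ⟨0, 0⟩, 0⟩,
  ⟨0, 0, 0, ⟨0, 0⟩, -1, some 1, 0, 0, ⟨0, 0⟩, 0, 0, ⟨0, 0⟩, 0⟩,
  ⟨0, 0, 0, ⟨0, 0⟩, 0, none, 0, 0, ⟨0, 0⟩, 0, 0, ⟨0, 0⟩, 0⟩,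
  ⟨0, 0, 0, ⟨0, 0⟩, 1, some 2, 0, 0, ⟨0, 0⟩, 0, 0, ⟨0, 0⟩, 0⟩,
  ⟨0, 0, 0, ⟨0, 1⟩, -1, some 4, 0, 5, ⟨0, 0⟩, 0, 2, ⟨0, 0⟩, 0⟩,
  ⟨0, 0, 0, ⟨0, 1⟩, 0, some 0, 3, 3, ⟨0, -1⟩, 0, 0, ⟨0, 1⟩, 0⟩,
  ⟨0, 0, 0, ⟨0, 1⟩, 1, some 5, 0, 4, ⟨0, -1⟩, 0, 1, ⟨-1, 0⟩, 0⟩,
  ⟨0, 0, 0, ⟨1, 0⟩, -1, some 4, 0, 1, ⟨0, 0⟩, 0, 0, ⟨0, 0⟩, 0⟩,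
  ⟨0, 0, 0, ⟨1, 0⟩, 0, some 0, 3, 3, ⟨-1, 0⟩, 0, 0, ⟨1, 0⟩, 0⟩,
  ⟨0, 0, 0, ⟨1, 0⟩, 1, some 5, 0, 3, ⟨0, 0⟩, 0, 2, ⟨0, 0⟩, 0⟩,
  ⟨0, 0, 0, ⟨1, 1⟩, -1, some 4, 0, 0, ⟨0, 0⟩, 0, 1, ⟨0, 0⟩, 0⟩,
  ⟨0, 0, 0, ⟨1, 1⟩, 0, some 0, 3, 3, ⟨-1, -1⟩, 0, 0, ⟨1, 1⟩, 0⟩,
  ⟨0, 0, 0, ⟨1, 1⟩, 1, some 5, 0, 5, ⟨0, -1⟩, 0, 0, ⟨0, 1⟩, 0⟩,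
  ⟨0, 0, 1, ⟨-1, -1⟩, -1, some 4, 0, 1, ⟨0, -1⟩, 0, 1, ⟨-1, 0⟩, 0⟩,
  ⟨0, 0, 1, ⟨-1, -1⟩, 0, some 0, 3, 4, ⟨1, 1⟩, 0, 0, ⟨-1, -1⟩, 0⟩,
  ⟨0, 0, 1, ⟨-1, -1⟩, 1, some 5, 0, 0, ⟨0, 0⟩, 0, 0, ⟨0, 0⟩, 0⟩,
  ⟨0, 0, 1, ⟨-1, 0⟩, -1, some 4, 0, 2, ⟨0, -1⟩, 0, 0, ⟨0, 1⟩, 0⟩,
  ⟨0, 0, 1, ⟨-1, 0⟩, 0, some 0, 3, 4, ⟨1, 0⟩, 0, 0, ⟨-1, 0⟩, 0⟩,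
  ⟨0, 0, 1, ⟨-1, 0⟩, 1, some 5, 0, 4, ⟨0, -1⟩, 0, 2, ⟨-1, -1⟩, 0⟩,
  ⟨0, 0, 1, ⟨0, -1⟩, -1, some 4, 0, 0, ⟨0, -1⟩, 0, 2, ⟨-1, -1⟩, 0⟩,
  ⟨0, 0, 1, ⟨0, -1⟩, 0, some 0, 3, 4, ⟨0, 1⟩, 0, 0, ⟨0, -1⟩, 0⟩,
  ⟨0, 0, 1, ⟨0, -1⟩, 1, some 5, 0, 5, ⟨0, 0⟩, 0, 1, ⟨0, 0⟩, 0⟩,
  ⟨0, 0, 1, ⟨0, 0⟩, -1, some 1, 0, 1, ⟨0, 0⟩, 0, 0, ⟨0, 0⟩, 0⟩,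
  ⟨0, 0, 1, ⟨0, 0⟩, 0, none, 0, 1, ⟨0, 0⟩, 0, 0, ⟨0, 0⟩, 0⟩,
  ⟨0, 0, 1, ⟨0, 0⟩, 1, some 2, 0, 1, ⟨0, 0⟩, 0, 0, ⟨0, 0⟩, 0⟩,
  ⟨0, 0, 1, ⟨0, 1⟩, -1, some 4, 0, 0, ⟨0, 0⟩, 0, 2, ⟨0, 0⟩, 0⟩,
  ⟨0, 0, 1, ⟨0, 1⟩, 0, some 0, 3, 4, ⟨0, -1⟩, 0, 0, ⟨0, 1⟩, 0⟩,
  ⟨0, 0, 1, ⟨0, 1⟩, 1, some 5, 0, 5, ⟨0, -1⟩, 0, 1, ⟨-1, 0⟩, 0⟩,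
  ⟨0, 0, 1, ⟨1, 0⟩, -1, some 4, 0, 2, ⟨0, 0⟩, 0, 0, ⟨0, 0⟩, 0⟩,
  ⟨0, 0, 1, ⟨1, 0⟩, 0, some 0, 3, 4, ⟨-1, 0⟩, 0, 0, ⟨1, 0⟩, 0⟩,
  ⟨0, 0, 1, ⟨1, 0⟩, 1, some 5, 0, 4, ⟨0, 0⟩, 0, 2, ⟨0, 0⟩, 0⟩,
  ⟨0, 0, 1, ⟨1, 1⟩, -1, some 4, 0, 1, ⟨0, 0⟩, 0, 1, ⟨0, 0⟩, 0⟩,
  ⟨0, 0, 1, ⟨1, 1⟩, 0, some 0, 3, 4, ⟨-1, -1⟩, 0, 0, ⟨1, 1⟩, 0⟩,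
  ⟨0, 0, 1, ⟨1, 1⟩, 1, some 5, 0, 0, ⟨0, -1⟩, 0, 0, ⟨0, 1⟩, 0⟩,
  ⟨0, 0, 2, ⟨-1, -1⟩, -1, some 4, 0, 2, ⟨0, -1⟩, 0, 1, ⟨-1, 0⟩, 0⟩,
  ⟨0, 0, 2, ⟨-1, -1⟩, 0, some 0, 3, 5, ⟨1, 1⟩, 0, 0, ⟨-1, -1⟩, 0⟩,
  ⟨0, 0, 2, ⟨-1, -1⟩, 1, some 5, 0, 1, ⟨0, 0⟩, 0, 0, ⟨0, 0⟩, 0⟩,
  ⟨0, 0, 2, ⟨-1, 0⟩, -1, some 4, 0, 3, ⟨0, -1⟩, 0, 0, ⟨0, 1⟩, 0⟩,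
  ⟨0, 0, 2, ⟨-1, 0⟩, 0, some 0, 3, 5, ⟨1, 0⟩, 0, 0, ⟨-1, 0⟩, 0⟩,
  ⟨0, 0, 2, ⟨-1, 0⟩, 1, some 5, 0, 5, ⟨0, -1⟩, 0, 2, ⟨-1, -1⟩, 0⟩,
  ⟨0, 0, 2, ⟨0, -1⟩, -1, some 4, 0, 1, ⟨0, -1⟩, 0, 2, ⟨-1, -1⟩, 0⟩,
  ⟨0, 0, 2, ⟨0, -1⟩, 0, some 0, 3, 5, ⟨0, 1⟩, 0, 0, ⟨0, -1⟩, 0⟩]

theorem tbl0_0_ok0 : ∀ e ∈ tbl0_0.take 13, e.ok := by decide +kernel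

theorem tbl0_0_ok1 : ∀ e ∈ (tbl0_0.drop 13).take 13, e.ok := by decide +kernel

theorem tbl0_0_ok2 : ∀ e ∈ ((tbl0_0.drop 13).drop 13).take 13, e.ok := by decide +kernel

theorem tbl0_0_ok3 : ∀ e ∈ ((tbl0_0.drop 13).drop 13).drop 13, e.ok := by decide +kernel

theorem tbl0_0_ok : ∀ e ∈ tbl0_0, e.ok :=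
  (ok_split _ 13 tbl0_0_ok0 (ok_split _ 13 tbl0_0_ok1 (ok_split _ 13 tbl0_0_ok2 tbl0_0_ok3)))

/-- rows 0, part 1 -/
def tbl0_1 : List Ent := [
  ⟨0, 0, 2, ⟨0, -1⟩, 1, some 5, 0, 0, ⟨0, 0⟩, 0, 1, ⟨0, 0⟩, 0⟩,
  ⟨0, 0, 2, ⟨0, 0⟩, -1, some 1, 0, 2, ⟨0, 0⟩, 0, 0, ⟨0, 0⟩, 0⟩,
  ⟨0, 0, 2, ⟨0, 0⟩, 0, none, 0, 2, ⟨0, 0⟩, 0, 0, ⟨0, 0⟩, 0⟩,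
  ⟨0, 0, 2, ⟨0, 0⟩, 1, some 2, 0, 2, ⟨0, 0⟩, 0, 0, ⟨0, 0⟩, 0⟩,
  ⟨0, 0, 2, ⟨0, 1⟩, -1, some 4, 0, 1, ⟨0, 0⟩, 0, 2, ⟨0, 0⟩, 0⟩,
  ⟨0, 0, 2, ⟨0, 1⟩, 0, some 0, 3, 5, ⟨0, -1⟩, 0, 0, ⟨0, 1⟩, 0⟩,
  ⟨0, 0, 2, ⟨0, 1⟩, 1, some 5, 0, 0, ⟨0, -1⟩, 0, 1, ⟨-1, 0⟩, 0⟩,
  ⟨0, 0, 2, ⟨1, 0⟩, -1, some 4, 0, 3, ⟨0, 0⟩, 0, 0, ⟨0, 0⟩, 0⟩,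
  ⟨0, 0, 2, ⟨1, 0⟩, 0, some 0, 3, 5, ⟨-1, 0⟩, 0, 0, ⟨1, 0⟩, 0⟩,
  ⟨0, 0, 2, ⟨1, 0⟩, 1, some 5, 0, 5, ⟨0, 0⟩, 0, 2, ⟨0, 0⟩, 0⟩,
  ⟨0, 0, 2, ⟨1, 1⟩, -1, some 4, 0, 2, ⟨0, 0⟩, 0, 1, ⟨0, 0⟩, 0⟩,
  ⟨0, 0, 2, ⟨1, 1⟩, 0, some 0, 3, 5, ⟨-1, -1⟩, 0, 0, ⟨1, 1⟩, 0⟩,
  ⟨0, 0, 2, ⟨1, 1⟩, 1, some 5, 0, 1, ⟨0, -1⟩, 0, 0, ⟨0, 1⟩, 0⟩,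
  ⟨0, 0, 3, ⟨-1, -1⟩, -1, some 4, 0, 3, ⟨0, -1⟩, 0, 1, ⟨-1, 0⟩, 0⟩,
  ⟨0, 0, 3, ⟨-1, -1⟩, 0, some 0, 3, 0, ⟨1, 1⟩, 0, 0, ⟨-1, -1⟩, 0⟩,
  ⟨0, 0, 3, ⟨-1, -1⟩, 1, some 5, 0, 2, ⟨0, 0⟩, 0, 0, ⟨0, 0⟩, 0⟩,
  ⟨0, 0, 3, ⟨-1, 0⟩, -1, some 4, 0, 4, ⟨0, -1⟩, 0, 0, ⟨0, 1⟩, 0⟩,
  ⟨0, 0, 3, ⟨-1, 0⟩, 0, some 0, 3, 0, ⟨1, 0⟩, 0, 0, ⟨-1, 0⟩, 0⟩,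
  ⟨0, 0, 3, ⟨-1, 0⟩, 1, some 5, 0, 0, ⟨0, -1⟩, 0, 2, ⟨-1, -1⟩, 0⟩,
  ⟨0, 0, 3, ⟨0, -1⟩, -1, some 4, 0, 2, ⟨0, -1⟩, 0, 2, ⟨-1, -1⟩, 0⟩,
  ⟨0, 0, 3, ⟨0, -1⟩, 0, some 0, 3, 0, ⟨0, 1⟩, 0, 0, ⟨0, -1⟩, 0⟩,
  ⟨0, 0, 3, ⟨0, -1⟩, 1, some 5, 0, 1, ⟨0, 0⟩, 0, 1, ⟨0, 0⟩, 0⟩,
  ⟨0, 0, 3, ⟨0, 0⟩, -1, some 1, 0, 3, ⟨0, 0⟩, 0, 0, ⟨0, 0⟩, 0⟩,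
  ⟨0, 0, 3, ⟨0, 0⟩, 0, none, 0, 3, ⟨0, 0⟩, 0, 0, ⟨0, 0⟩, 0⟩,
  ⟨0, 0, 3, ⟨0, 0⟩, 1, some 2, 0, 3, ⟨0, 0⟩, 0, 0, ⟨0, 0⟩, 0⟩,
  ⟨0, 0, 3, ⟨0, 1⟩, -1, some 4, 0, 2, ⟨0, 0⟩, 0, 2, ⟨0, 0⟩, 0⟩,
  ⟨0, 0, 3, ⟨0, 1⟩, 0, some 0, 3, 0, ⟨0, -1⟩, 0, 0, ⟨0, 1⟩, 0⟩,
  ⟨0, 0, 3, ⟨0, 1⟩, 1, some 5, 0, 1, ⟨0, -1⟩, 0, 1, ⟨-1, 0⟩, 0⟩,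
  ⟨0, 0, 3, ⟨1, 0⟩, -1, some 4, 0, 4, ⟨0, 0⟩, 0, 0, ⟨0, 0⟩, 0⟩,
  ⟨0, 0, 3, ⟨1, 0⟩, 0, some 0, 3, 0, ⟨-1, 0⟩, 0, 0, ⟨1, 0⟩, 0⟩,
  ⟨0, 0, 3, ⟨1, 0⟩, 1, some 5, 0, 0, ⟨0, 0⟩, 0, 2, ⟨0, 0⟩, 0⟩,
  ⟨0, 0, 3, ⟨1, 1⟩, -1, some 4, 0, 3, ⟨0, 0⟩, 0, 1, ⟨0, 0⟩, 0⟩,
  ⟨0, 0, 3, ⟨1, 1⟩, 0, some 0, 3, 0, ⟨-1, -1⟩, 0, 0, ⟨1, 1⟩, 0⟩,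
  ⟨0, 0, 3, ⟨1, 1⟩, 1, some 5, 0, 2, ⟨0, -1⟩, 0, 0, ⟨0, 1⟩, 0⟩,
  ⟨0, 0, 4, ⟨-1, -1⟩, -1, some 4, 0, 4, ⟨0, -1⟩, 0, 1, ⟨-1, 0⟩, 0⟩,
  ⟨0, 0, 4, ⟨-1, -1⟩, 0, some 0, 3, 1, ⟨1, 1⟩, 0, 0, ⟨-1, -1⟩, 0⟩,
  ⟨0, 0, 4, ⟨-1, -1⟩, 1, some 5, 0, 3, ⟨0, 0⟩, 0, 0, ⟨0, 0⟩, 0⟩,
  ⟨0, 0, 4, ⟨-1, 0⟩, -1, some 4, 0, 5, ⟨0, -1⟩, 0, 0, ⟨0, 1⟩, 0⟩,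
  ⟨0, 0, 4, ⟨-1, 0⟩, 0, some 0, 3, 1, ⟨1, 0⟩, 0, 0, ⟨-1, 0⟩, 0⟩,
  ⟨0, 0, 4, ⟨-1, 0⟩, 1, some 5, 0, 1, ⟨0, -1⟩, 0, 2, ⟨-1, -1⟩, 0⟩,
  ⟨0, 0, 4, ⟨0, -1⟩, -1, some 4, 0, 3, ⟨0, -1⟩, 0, 2, ⟨-1, -1⟩, 0⟩,
  ⟨0, 0, 4, ⟨0, -1⟩, 0, some 0, 3, 1, ⟨0, 1⟩, 0, 0, ⟨0, -1⟩, 0⟩,
  ⟨0, 0, 4, ⟨0, -1⟩, 1, some 5, 0, 2, ⟨0, 0⟩, 0, 1, ⟨0, 0⟩, 0⟩,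
  ⟨0, 0, 4, ⟨0, 0⟩, -1, some 1, 0, 4, ⟨0, 0⟩, 0, 0, ⟨0, 0⟩, 0⟩,
  ⟨0, 0, 4, ⟨0, 0⟩, 0, none, 0, 4, ⟨0, 0⟩, 0, 0, ⟨0, 0⟩, 0⟩,
  ⟨0, 0, 4, ⟨0, 0⟩, 1, some 2, 0, 4, ⟨0, 0⟩, 0, 0, ⟨0, 0⟩, 0⟩,
  ⟨0, 0, 4, ⟨0, 1⟩, -1, some 4, 0, 3, ⟨0, 0⟩, 0, 2, ⟨0, 0⟩, 0⟩,
  ⟨0, 0, 4, ⟨0, 1⟩, 0, some 0, 3, 1, ⟨0, -1⟩, 0, 0, ⟨0, 1⟩, 0⟩,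
  ⟨0, 0, 4, ⟨0, 1⟩, 1, some 5, 0, 2, ⟨0, -1⟩, 0, 1, ⟨-1, 0⟩, 0⟩,
  ⟨0, 0, 4, ⟨1, 0⟩, -1, some 4, 0, 5, ⟨0, 0⟩, 0, 0, ⟨0, 0⟩, 0⟩]

theorem tbl0_1_ok0 : ∀ e ∈ tbl0_1.take 13, e.ok := by decide +kernel

theorem tbl0_1_ok1 : ∀ e ∈ (tbl0_1.drop 13).take 13, e.ok := by decide +kernel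

theorem tbl0_1_ok2 : ∀ e ∈ ((tbl0_1.drop 13).drop 13).take 13, e.ok := by decide +kernel

theorem tbl0_1_ok3 : ∀ e ∈ ((tbl0_1.drop 13).drop 13).drop 13, e.ok := by decide +kernel

theorem tbl0_1_ok : ∀ e ∈ tbl0_1, e.ok :=
  (ok_split _ 13 tbl0_1_ok0 (ok_split _ 13 tbl0_1_ok1 (ok_split _ 13 tbl0_1_ok2 tbl0_1_ok3)))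

/-- rows 0, part 2 -/
def tbl0_2 : List Ent := [
  ⟨0, 0, 4, ⟨1, 0⟩, 0, some 0, 3, 1, ⟨-1, 0⟩, 0, 0, ⟨1, 0⟩, 0⟩,
  ⟨0, 0, 4, ⟨1, 0⟩, 1, some 5, 0, 1, ⟨0, 0⟩, 0, 2, ⟨0, 0⟩, 0⟩,
  ⟨0, 0, 4, ⟨1, 1⟩, -1, some 4, 0, 4, ⟨0, 0⟩, 0, 1, ⟨0, 0⟩, 0⟩,
  ⟨0, 0, 4, ⟨1, 1⟩, 0, some 0, 3, 1, ⟨-1, -1⟩, 0, 0, ⟨1, 1⟩, 0⟩,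
  ⟨0, 0, 4, ⟨1, 1⟩, 1, some 5, 0, 3, ⟨0, -1⟩, 0, 0, ⟨0, 1⟩, 0⟩,
  ⟨0, 0, 5, ⟨-1, -1⟩, -1, some 4, 0, 5, ⟨0, -1⟩, 0, 1, ⟨-1, 0⟩, 0⟩,
  ⟨0, 0, 5, ⟨-1, -1⟩, 0, some 0, 3, 2, ⟨1, 1⟩, 0, 0, ⟨-1, -1⟩, 0⟩,
  ⟨0, 0, 5, ⟨-1, -1⟩, 1, some 5, 0, 4, ⟨0, 0⟩, 0, 0, ⟨0, 0⟩, 0⟩,
  ⟨0, 0, 5, ⟨-1, 0⟩, -1, some 4, 0, 0, ⟨0, -1⟩, 0, 0, ⟨0, 1⟩, 0⟩,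
  ⟨0, 0, 5, ⟨-1, 0⟩, 0, some 0, 3, 2, ⟨1, 0⟩, 0, 0, ⟨-1, 0⟩, 0⟩,
  ⟨0, 0, 5, ⟨-1, 0⟩, 1, some 5, 0, 2, ⟨0, -1⟩, 0, 2, ⟨-1, -1⟩, 0⟩,
  ⟨0, 0, 5, ⟨0, -1⟩, -1, some 4, 0, 4, ⟨0, -1⟩, 0, 2, ⟨-1, -1⟩, 0⟩,
  ⟨0, 0, 5, ⟨0, -1⟩, 0, some 0, 3, 2, ⟨0, 1⟩, 0, 0, ⟨0, -1⟩, 0⟩,
  ⟨0, 0, 5, ⟨0, -1⟩, 1, some 5, 0, 3, ⟨0, 0⟩, 0, 1, ⟨0, 0⟩, 0⟩,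
  ⟨0, 0, 5, ⟨0, 0⟩, -1, some 1, 0, 5, ⟨0, 0⟩, 0, 0, ⟨0, 0⟩, 0⟩,
  ⟨0, 0, 5, ⟨0, 0⟩, 0, none, 0, 5, ⟨0, 0⟩, 0, 0, ⟨0, 0⟩, 0⟩,
  ⟨0, 0, 5, ⟨0, 0⟩, 1, some 2, 0, 5, ⟨0, 0⟩, 0, 0, ⟨0, 0⟩, 0⟩,
  ⟨0, 0, 5, ⟨0, 1⟩, -1, some 4, 0, 4, ⟨0, 0⟩, 0, 2, ⟨0, 0⟩, 0⟩,
  ⟨0, 0, 5, ⟨0, 1⟩, 0, some 0, 3, 2, ⟨0, -1⟩, 0, 0, ⟨0, 1⟩, 0⟩,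
  ⟨0, 0, 5, ⟨0, 1⟩, 1, some 5, 0, 3, ⟨0, -1⟩, 0, 1, ⟨-1, 0⟩, 0⟩,
  ⟨0, 0, 5, ⟨1, 0⟩, -1, some 4, 0, 0, ⟨0, 0⟩, 0, 0, ⟨0, 0⟩, 0⟩,
  ⟨0, 0, 5, ⟨1, 0⟩, 0, some 0, 3, 2, ⟨-1, 0⟩, 0, 0, ⟨1, 0⟩, 0⟩,
  ⟨0, 0, 5, ⟨1, 0⟩, 1, some 5, 0, 2, ⟨0, 0⟩, 0, 2, ⟨0, 0⟩, 0⟩,
  ⟨0, 0, 5, ⟨1, 1⟩, -1, some 4, 0, 5, ⟨0, 0⟩, 0, 1, ⟨0, 0⟩, 0⟩,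
  ⟨0, 0, 5, ⟨1, 1⟩, 0, some 0, 3, 2, ⟨-1, -1⟩, 0, 0, ⟨1, 1⟩, 0⟩,
  ⟨0, 0, 5, ⟨1, 1⟩, 1, some 5, 0, 4, ⟨0, -1⟩, 0, 0, ⟨0, 1⟩, 0⟩,
  ⟨0, 1, 0, ⟨-1, -1⟩, 0, some 4, 3, 3, ⟨1, 0⟩, -1, 1, ⟨-1, 0⟩, 0⟩,
  ⟨0, 1, 0, ⟨-1, 0⟩, 0, some 4, 3, 4, ⟨1, 0⟩, -1, 0, ⟨0, 1⟩, 0⟩,
  ⟨0, 1, 0, ⟨0, -1⟩, 0, some 4, 3, 2, ⟨1, 0⟩, -1, 2, ⟨-1, -1⟩, 0⟩,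
  ⟨0, 1, 0, ⟨0, 0⟩, -1, some 3, 0, 3, ⟨0, 0⟩, 0, 0, ⟨0, 0⟩, 1⟩,
  ⟨0, 1, 0, ⟨0, 0⟩, 0, some 0, 0, 0, ⟨0, 0⟩, -1, 0, ⟨0, 0⟩, 0⟩,
  ⟨0, 1, 0, ⟨0, 1⟩, 0, some 4, 3, 2, ⟨-1, -1⟩, 0, 2, ⟨0, 0⟩, 0⟩,
  ⟨0, 1, 0, ⟨1, 0⟩, 0, some 4, 3, 4, ⟨-1, -1⟩, 0, 0, ⟨0, 0⟩, 0⟩,
  ⟨0, 1, 0, ⟨1, 1⟩, 0, some 4, 3, 3, ⟨-1, -1⟩, 0, 1, ⟨0, 0⟩, 0⟩,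
  ⟨0, 1, 1, ⟨-1, -1⟩, 0, some 4, 3, 4, ⟨1, 0⟩, -1, 1, ⟨-1, 0⟩, 0⟩,
  ⟨0, 1, 1, ⟨-1, 0⟩, 0, some 4, 3, 5, ⟨1, 0⟩, -1, 0, ⟨0, 1⟩, 0⟩,
  ⟨0, 1, 1, ⟨0, -1⟩, 0, some 4, 3, 3, ⟨1, 0⟩, -1, 2, ⟨-1, -1⟩, 0⟩,
  ⟨0, 1, 1, ⟨0, 0⟩, -1, some 3, 0, 4, ⟨0, 0⟩, 0, 0, ⟨0, 0⟩, 1⟩,
  ⟨0, 1, 1, ⟨0, 0⟩, 0, some 0, 0, 1, ⟨0, 0⟩, -1, 0, ⟨0, 0⟩, 0⟩,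
  ⟨0, 1, 1, ⟨0, 1⟩, 0, some 4, 3, 3, ⟨-1, -1⟩, 0, 2, ⟨0, 0⟩, 0⟩,
  ⟨0, 1, 1, ⟨1, 0⟩, 0, some 4, 3, 5, ⟨-1, -1⟩, 0, 0, ⟨0, 0⟩, 0⟩,
  ⟨0, 1, 1, ⟨1, 1⟩, 0, some 4, 3, 4, ⟨-1, -1⟩, 0, 1, ⟨0, 0⟩, 0⟩,
  ⟨0, 1, 2, ⟨-1, -1⟩, 0, some 4, 3, 5, ⟨1, 0⟩, -1, 1, ⟨-1, 0⟩, 0⟩,
  ⟨0, 1, 2, ⟨-1, 0⟩, 0, some 4, 3, 0, ⟨1, 0⟩, -1, 0, ⟨0, 1⟩, 0⟩,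
  ⟨0, 1, 2, ⟨0, -1⟩, 0, some 4, 3, 4, ⟨1, 0⟩, -1, 2, ⟨-1, -1⟩, 0⟩,
  ⟨0, 1, 2, ⟨0, 0⟩, -1, some 3, 0, 5, ⟨0, 0⟩, 0, 0, ⟨0, 0⟩, 1⟩,
  ⟨0, 1, 2, ⟨0, 0⟩, 0, some 0, 0, 2, ⟨0, 0⟩, -1, 0, ⟨0, 0⟩, 0⟩,
  ⟨0, 1, 2, ⟨0, 1⟩, 0, some 4, 3, 4, ⟨-1, -1⟩, 0, 2, ⟨0, 0⟩, 0⟩,
  ⟨0, 1, 2, ⟨1, 0⟩, 0, some 4, 3, 0, ⟨-1, -1⟩, 0, 0, ⟨0, 0⟩, 0⟩,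
  ⟨0, 1, 2, ⟨1, 1⟩, 0, some 4, 3, 5, ⟨-1, -1⟩, 0, 1, ⟨0, 0⟩, 0⟩]

theorem tbl0_2_ok0 : ∀ e ∈ tbl0_2.take 13, e.ok := by decide +kernel

theorem tbl0_2_ok1 : ∀ e ∈ (tbl0_2.drop 13).take 13, e.ok := by decide +kernel

theorem tbl0_2_ok2 : ∀ e ∈ ((tbl0_2.drop 13).drop 13).take 13, e.ok := by decide +kernel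

theorem tbl0_2_ok3 : ∀ e ∈ ((tbl0_2.drop 13).drop 13).drop 13, e.ok := by decide +kernel

theorem tbl0_2_ok : ∀ e ∈ tbl0_2, e.ok :=
  (ok_split _ 13 tbl0_2_ok0 (ok_split _ 13 tbl0_2_ok1 (ok_split _ 13 tbl0_2_ok2 tbl0_2_ok3)))

/-- rows 0, part 3 -/
def tbl0_3 : List Ent := [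
  ⟨0, 1, 3, ⟨-1, -1⟩, 0, some 4, 3, 0, ⟨1, 0⟩, -1, 1, ⟨-1, 0⟩, 0⟩,
  ⟨0, 1, 3, ⟨-1, 0⟩, 0, some 4, 3, 1, ⟨1, 0⟩, -1, 0, ⟨0, 1⟩, 0⟩,
  ⟨0, 1, 3, ⟨0, -1⟩, 0, some 4, 3, 5, ⟨1, 0⟩, -1, 2, ⟨-1, -1⟩, 0⟩,
  ⟨0, 1, 3, ⟨0, 0⟩, -1, some 3, 0, 0, ⟨0, 0⟩, 0, 0, ⟨0, 0⟩, 1⟩,
  ⟨0, 1, 3, ⟨0, 0⟩, 0, some 0, 0, 3, ⟨0, 0⟩, -1, 0, ⟨0, 0⟩, 0⟩,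
  ⟨0, 1, 3, ⟨0, 1⟩, 0, some 4, 3, 5, ⟨-1, -1⟩, 0, 2, ⟨0, 0⟩, 0⟩,
  ⟨0, 1, 3, ⟨1, 0⟩, 0, some 4, 3, 1, ⟨-1, -1⟩, 0, 0, ⟨0, 0⟩, 0⟩,
  ⟨0, 1, 3, ⟨1, 1⟩, 0, some 4, 3, 0, ⟨-1, -1⟩, 0, 1, ⟨0, 0⟩, 0⟩,
  ⟨0, 1, 4, ⟨-1, -1⟩, 0, some 4, 3, 1, ⟨1, 0⟩, -1, 1, ⟨-1, 0⟩, 0⟩,
  ⟨0, 1, 4, ⟨-1, 0⟩, 0, some 4, 3, 2, ⟨1, 0⟩, -1, 0, ⟨0, 1⟩, 0⟩,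
  ⟨0, 1, 4, ⟨0, -1⟩, 0, some 4, 3, 0, ⟨1, 0⟩, -1, 2, ⟨-1, -1⟩, 0⟩,
  ⟨0, 1, 4, ⟨0, 0⟩, -1, some 3, 0, 1, ⟨0, 0⟩, 0, 0, ⟨0, 0⟩, 1⟩,
  ⟨0, 1, 4, ⟨0, 0⟩, 0, some 0, 0, 4, ⟨0, 0⟩, -1, 0, ⟨0, 0⟩, 0⟩,
  ⟨0, 1, 4, ⟨0, 1⟩, 0, some 4, 3, 0, ⟨-1, -1⟩, 0, 2, ⟨0, 0⟩, 0⟩,
  ⟨0, 1, 4, ⟨1, 0⟩, 0, some 4, 3, 2, ⟨-1, -1⟩, 0, 0, ⟨0, 0⟩, 0⟩,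
  ⟨0, 1, 4, ⟨1, 1⟩, 0, some 4, 3, 1, ⟨-1, -1⟩, 0, 1, ⟨0, 0⟩, 0⟩,
  ⟨0, 1, 5, ⟨-1, -1⟩, 0, some 4, 3, 2, ⟨1, 0⟩, -1, 1, ⟨-1, 0⟩, 0⟩,
  ⟨0, 1, 5, ⟨-1, 0⟩, 0, some 4, 3, 3, ⟨1, 0⟩, -1, 0, ⟨0, 1⟩, 0⟩,
  ⟨0, 1, 5, ⟨0, -1⟩, 0, some 4, 3, 1, ⟨1, 0⟩, -1, 2, ⟨-1, -1⟩, 0⟩,
  ⟨0, 1, 5, ⟨0, 0⟩, -1, some 3, 0, 2, ⟨0, 0⟩, 0, 0, ⟨0, 0⟩, 1⟩,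
  ⟨0, 1, 5, ⟨0, 0⟩, 0, some 0, 0, 5, ⟨0, 0⟩, -1, 0, ⟨0, 0⟩, 0⟩,
  ⟨0, 1, 5, ⟨0, 1⟩, 0, some 4, 3, 1, ⟨-1, -1⟩, 0, 2, ⟨0, 0⟩, 0⟩,
  ⟨0, 1, 5, ⟨1, 0⟩, 0, some 4, 3, 3, ⟨-1, -1⟩, 0, 0, ⟨0, 0⟩, 0⟩,
  ⟨0, 1, 5, ⟨1, 1⟩, 0, some 4, 3, 2, ⟨-1, -1⟩, 0, 1, ⟨0, 0⟩, 0⟩,
  ⟨0, 2, 0, ⟨-1, -1⟩, 0, some 5, 3, 2, ⟨1, 0⟩, 0, 0, ⟨0, 0⟩, 0⟩,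
  ⟨0, 2, 0, ⟨-1, 0⟩, 0, some 5, 3, 0, ⟨-1, -1⟩, 1, 2, ⟨-1, -1⟩, 0⟩,
  ⟨0, 2, 0, ⟨0, -1⟩, 0, some 5, 3, 1, ⟨1, 0⟩, 0, 1, ⟨0, 0⟩, 0⟩,
  ⟨0, 2, 0, ⟨0, 0⟩, 0, some 0, 0, 0, ⟨0, 0⟩, 1, 0, ⟨0, 0⟩, 0⟩,
  ⟨0, 2, 0, ⟨0, 0⟩, 1, some 3, 0, 3, ⟨0, 0⟩, -1, 0, ⟨0, 0⟩, 0⟩,
  ⟨0, 2, 0, ⟨0, 1⟩, 0, some 5, 3, 1, ⟨-1, -1⟩, 1, 1, ⟨-1, 0⟩, 0⟩,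
  ⟨0, 2, 0, ⟨1, 0⟩, 0, some 5, 3, 0, ⟨1, 0⟩, 0, 2, ⟨0, 0⟩, 0⟩,
  ⟨0, 2, 0, ⟨1, 1⟩, 0, some 5, 3, 2, ⟨-1, -1⟩, 1, 0, ⟨0, 1⟩, 0⟩,
  ⟨0, 2, 1, ⟨-1, -1⟩, 0, some 5, 3, 3, ⟨1, 0⟩, 0, 0, ⟨0, 0⟩, 0⟩,
  ⟨0, 2, 1, ⟨-1, 0⟩, 0, some 5, 3, 1, ⟨-1, -1⟩, 1, 2, ⟨-1, -1⟩, 0⟩,
  ⟨0, 2, 1, ⟨0, -1⟩, 0, some 5, 3, 2, ⟨1, 0⟩, 0, 1, ⟨0, 0⟩, 0⟩,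
  ⟨0, 2, 1, ⟨0, 0⟩, 0, some 0, 0, 1, ⟨0, 0⟩, 1, 0, ⟨0, 0⟩, 0⟩,
  ⟨0, 2, 1, ⟨0, 0⟩, 1, some 3, 0, 4, ⟨0, 0⟩, -1, 0, ⟨0, 0⟩, 0⟩,
  ⟨0, 2, 1, ⟨0, 1⟩, 0, some 5, 3, 2, ⟨-1, -1⟩, 1, 1, ⟨-1, 0⟩, 0⟩,
  ⟨0, 2, 1, ⟨1, 0⟩, 0, some 5, 3, 1, ⟨1, 0⟩, 0, 2, ⟨0, 0⟩, 0⟩,
  ⟨0, 2, 1, ⟨1, 1⟩, 0, some 5, 3, 3, ⟨-1, -1⟩, 1, 0, ⟨0, 1⟩, 0⟩,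
  ⟨0, 2, 2, ⟨-1, -1⟩, 0, some 5, 3, 4, ⟨1, 0⟩, 0, 0, ⟨0, 0⟩, 0⟩,
  ⟨0, 2, 2, ⟨-1, 0⟩, 0, some 5, 3, 2, ⟨-1, -1⟩, 1, 2, ⟨-1, -1⟩, 0⟩,
  ⟨0, 2, 2, ⟨0, -1⟩, 0, some 5, 3, 3, ⟨1, 0⟩, 0, 1, ⟨0, 0⟩, 0⟩,
  ⟨0, 2, 2, ⟨0, 0⟩, 0, some 0, 0, 2, ⟨0, 0⟩, 1, 0, ⟨0, 0⟩, 0⟩,
  ⟨0, 2, 2, ⟨0, 0⟩, 1, some 3, 0, 5, ⟨0, 0⟩, -1, 0, ⟨0, 0⟩, 0⟩,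
  ⟨0, 2, 2, ⟨0, 1⟩, 0, some 5, 3, 3, ⟨-1, -1⟩, 1, 1, ⟨-1, 0⟩, 0⟩,
  ⟨0, 2, 2, ⟨1, 0⟩, 0, some 5, 3, 2, ⟨1, 0⟩, 0, 2, ⟨0, 0⟩, 0⟩,
  ⟨0, 2, 2, ⟨1, 1⟩, 0, some 5, 3, 4, ⟨-1, -1⟩, 1, 0, ⟨0, 1⟩, 0⟩,
  ⟨0, 2, 3, ⟨-1, -1⟩, 0, some 5, 3, 5, ⟨1, 0⟩, 0, 0, ⟨0, 0⟩, 0⟩,
  ⟨0, 2, 3, ⟨-1, 0⟩, 0, some 5, 3, 3, ⟨-1, -1⟩, 1, 2, ⟨-1, -1⟩, 0⟩]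

theorem tbl0_3_ok0 : ∀ e ∈ tbl0_3.take 13, e.ok := by decide +kernel

theorem tbl0_3_ok1 : ∀ e ∈ (tbl0_3.drop 13).take 13, e.ok := by decide +kernel

theorem tbl0_3_ok2 : ∀ e ∈ ((tbl0_3.drop 13).drop 13).take 13, e.ok := by decide +kernel

theorem tbl0_3_ok3 : ∀ e ∈ ((tbl0_3.drop 13).drop 13).drop 13, e.ok := by decide +kernel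

theorem tbl0_3_ok : ∀ e ∈ tbl0_3, e.ok :=
  (ok_split _ 13 tbl0_3_ok0 (ok_split _ 13 tbl0_3_ok1 (ok_split _ 13 tbl0_3_ok2 tbl0_3_ok3)))

/-- rows 0, part 4 -/
def tbl0_4 : List Ent := [
  ⟨0, 2, 3, ⟨0, -1⟩, 0, some 5, 3, 4, ⟨1, 0⟩, 0, 1, ⟨0, 0⟩, 0⟩,
  ⟨0, 2, 3, ⟨0, 0⟩, 0, some 0, 0, 3, ⟨0, 0⟩, 1, 0, ⟨0, 0⟩, 0⟩,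
  ⟨0, 2, 3, ⟨0, 0⟩, 1, some 3, 0, 0, ⟨0, 0⟩, -1, 0, ⟨0, 0⟩, 0⟩,
  ⟨0, 2, 3, ⟨0, 1⟩, 0, some 5, 3, 4, ⟨-1, -1⟩, 1, 1, ⟨-1, 0⟩, 0⟩,
  ⟨0, 2, 3, ⟨1, 0⟩, 0, some 5, 3, 3, ⟨1, 0⟩, 0, 2, ⟨0, 0⟩, 0⟩,
  ⟨0, 2, 3, ⟨1, 1⟩, 0, some 5, 3, 5, ⟨-1, -1⟩, 1, 0, ⟨0, 1⟩, 0⟩,
  ⟨0, 2, 4, ⟨-1, -1⟩, 0, some 5, 3, 0, ⟨1, 0⟩, 0, 0, ⟨0, 0⟩, 0⟩,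
  ⟨0, 2, 4, ⟨-1, 0⟩, 0, some 5, 3, 4, ⟨-1, -1⟩, 1, 2, ⟨-1, -1⟩, 0⟩,
  ⟨0, 2, 4, ⟨0, -1⟩, 0, some 5, 3, 5, ⟨1, 0⟩, 0, 1, ⟨0, 0⟩, 0⟩,
  ⟨0, 2, 4, ⟨0, 0⟩, 0, some 0, 0, 4, ⟨0, 0⟩, 1, 0, ⟨0, 0⟩, 0⟩,
  ⟨0, 2, 4, ⟨0, 0⟩, 1, some 3, 0, 1, ⟨0, 0⟩, -1, 0, ⟨0, 0⟩, 0⟩,
  ⟨0, 2, 4, ⟨0, 1⟩, 0, some 5, 3, 5, ⟨-1, -1⟩, 1, 1, ⟨-1, 0⟩, 0⟩,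
  ⟨0, 2, 4, ⟨1, 0⟩, 0, some 5, 3, 4, ⟨1, 0⟩, 0, 2, ⟨0, 0⟩, 0⟩,
  ⟨0, 2, 4, ⟨1, 1⟩, 0, some 5, 3, 0, ⟨-1, -1⟩, 1, 0, ⟨0, 1⟩, 0⟩,
  ⟨0, 2, 5, ⟨-1, -1⟩, 0, some 5, 3, 1, ⟨1, 0⟩, 0, 0, ⟨0, 0⟩, 0⟩,
  ⟨0, 2, 5, ⟨-1, 0⟩, 0, some 5, 3, 5, ⟨-1, -1⟩, 1, 2, ⟨-1, -1⟩, 0⟩,
  ⟨0, 2, 5, ⟨0, -1⟩, 0, some 5, 3, 0, ⟨1, 0⟩, 0, 1, ⟨0, 0⟩, 0⟩,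
  ⟨0, 2, 5, ⟨0, 0⟩, 0, some 0, 0, 5, ⟨0, 0⟩, 1, 0, ⟨0, 0⟩, 0⟩,
  ⟨0, 2, 5, ⟨0, 0⟩, 1, some 3, 0, 2, ⟨0, 0⟩, -1, 0, ⟨0, 0⟩, 0⟩,
  ⟨0, 2, 5, ⟨0, 1⟩, 0, some 5, 3, 0, ⟨-1, -1⟩, 1, 1, ⟨-1, 0⟩, 0⟩,
  ⟨0, 2, 5, ⟨1, 0⟩, 0, some 5, 3, 5, ⟨1, 0⟩, 0, 2, ⟨0, 0⟩, 0⟩,
  ⟨0, 2, 5, ⟨1, 1⟩, 0, some 5, 3, 1, ⟨-1, -1⟩, 1, 0, ⟨0, 1⟩, 0⟩,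
  ⟨0, 3, 0, ⟨0, 0⟩, -1, some 2, 0, 3, ⟨0, 0⟩, 1, 0, ⟨0, 0⟩, 0⟩,
  ⟨0, 3, 0, ⟨0, 0⟩, 0, some 1, 0, 3, ⟨0, 0⟩, -1, 0, ⟨0, 0⟩, -1⟩,
  ⟨0, 3, 1, ⟨0, 0⟩, -1, some 2, 0, 4, ⟨0, 0⟩, 1, 0, ⟨0, 0⟩, 0⟩,
  ⟨0, 3, 1, ⟨0, 0⟩, 0, some 1, 0, 4, ⟨0, 0⟩, -1, 0, ⟨0, 0⟩, -1⟩,
  ⟨0, 3, 2, ⟨0, 0⟩, -1, some 2, 0, 5, ⟨0, 0⟩, 1, 0, ⟨0, 0⟩, 0⟩,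
  ⟨0, 3, 2, ⟨0, 0⟩, 0, some 1, 0, 5, ⟨0, 0⟩, -1, 0, ⟨0, 0⟩, -1⟩,
  ⟨0, 3, 3, ⟨0, 0⟩, -1, some 2, 0, 0, ⟨0, 0⟩, 1, 0, ⟨0, 0⟩, 0⟩,
  ⟨0, 3, 3, ⟨0, 0⟩, 0, some 1, 0, 0, ⟨0, 0⟩, -1, 0, ⟨0, 0⟩, -1⟩,
  ⟨0, 3, 4, ⟨0, 0⟩, -1, some 2, 0, 1, ⟨0, 0⟩, 1, 0, ⟨0, 0⟩, 0⟩,
  ⟨0, 3, 4, ⟨0, 0⟩, 0, some 1, 0, 1, ⟨0, 0⟩, -1, 0, ⟨0, 0⟩, -1⟩,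
  ⟨0, 3, 5, ⟨0, 0⟩, -1, some 2, 0, 2, ⟨0, 0⟩, 1, 0, ⟨0, 0⟩, 0⟩,
  ⟨0, 3, 5, ⟨0, 0⟩, 0, some 1, 0, 2, ⟨0, 0⟩, -1, 0, ⟨0, 0⟩, -1⟩,
  ⟨0, 4, 0, ⟨-1, -1⟩, 0, some 1, 3, 2, ⟨1, 0⟩, 0, 0, ⟨0, 0⟩, 0⟩,
  ⟨0, 4, 0, ⟨0, -1⟩, 0, some 0, 0, 5, ⟨-1, 0⟩, -1, 0, ⟨0, -1⟩, 0⟩,
  ⟨0, 4, 0, ⟨0, 0⟩, 0, some 0, 0, 5, ⟨1, 0⟩, -1, 0, ⟨0, 0⟩, 0⟩,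
  ⟨0, 4, 0, ⟨1, 0⟩, -1, some 1, 3, 2, ⟨-1, 0⟩, 0, 0, ⟨0, -1⟩, 0⟩,
  ⟨0, 4, 1, ⟨-1, -1⟩, 0, some 1, 3, 3, ⟨1, 0⟩, 0, 0, ⟨0, 0⟩, 0⟩,
  ⟨0, 4, 1, ⟨0, -1⟩, 0, some 0, 0, 0, ⟨-1, 0⟩, -1, 0, ⟨0, -1⟩, 0⟩,
  ⟨0, 4, 1, ⟨0, 0⟩, 0, some 0, 0, 0, ⟨1, 0⟩, -1, 0, ⟨0, 0⟩, 0⟩,
  ⟨0, 4, 1, ⟨1, 0⟩, -1, some 1, 3, 3, ⟨-1, 0⟩, 0, 0, ⟨0, -1⟩, 0⟩,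
  ⟨0, 4, 2, ⟨-1, -1⟩, 0, some 1, 3, 4, ⟨1, 0⟩, 0, 0, ⟨0, 0⟩, 0⟩,
  ⟨0, 4, 2, ⟨0, -1⟩, 0, some 0, 0, 1, ⟨-1, 0⟩, -1, 0, ⟨0, -1⟩, 0⟩,
  ⟨0, 4, 2, ⟨0, 0⟩, 0, some 0, 0, 1, ⟨1, 0⟩, -1, 0, ⟨0, 0⟩, 0⟩,
  ⟨0, 4, 2, ⟨1, 0⟩, -1, some 1, 3, 4, ⟨-1, 0⟩, 0, 0, ⟨0, -1⟩, 0⟩,
  ⟨0, 4, 3, ⟨-1, -1⟩, 0, some 1, 3, 5, ⟨1, 0⟩, 0, 0, ⟨0, 0⟩, 0⟩,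
  ⟨0, 4, 3, ⟨0, -1⟩, 0, some 0, 0, 2, ⟨-1, 0⟩, -1, 0, ⟨0, -1⟩, 0⟩,
  ⟨0, 4, 3, ⟨0, 0⟩, 0, some 0, 0, 2, ⟨1, 0⟩, -1, 0, ⟨0, 0⟩, 0⟩,
  ⟨0, 4, 3, ⟨1, 0⟩, -1, some 1, 3, 5, ⟨-1, 0⟩, 0, 0, ⟨0, -1⟩, 0⟩]

theorem tbl0_4_ok0 : ∀ e ∈ tbl0_4.take 13, e.ok := by decide +kernel

theorem tbl0_4_ok1 : ∀ e ∈ (tbl0_4.drop 13).take 13, e.ok := by decide +kernel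

theorem tbl0_4_ok2 : ∀ e ∈ ((tbl0_4.drop 13).drop 13).take 13, e.ok := by decide +kernel

theorem tbl0_4_ok3 : ∀ e ∈ ((tbl0_4.drop 13).drop 13).drop 13, e.ok := by decide +kernel

theorem tbl0_4_ok : ∀ e ∈ tbl0_4, e.ok :=
  (ok_split _ 13 tbl0_4_ok0 (ok_split _ 13 tbl0_4_ok1 (ok_split _ 13 tbl0_4_ok2 tbl0_4_ok3)))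

/-- rows 0, part 5 -/
def tbl0_5 : List Ent := [
  ⟨0, 4, 4, ⟨-1, -1⟩, 0, some 1, 3, 0, ⟨1, 0⟩, 0, 0, ⟨0, 0⟩, 0⟩,
  ⟨0, 4, 4, ⟨0, -1⟩, 0, some 0, 0, 3, ⟨-1, 0⟩, -1, 0, ⟨0, -1⟩, 0⟩,
  ⟨0, 4, 4, ⟨0, 0⟩, 0, some 0, 0, 3, ⟨1, 0⟩, -1, 0, ⟨0, 0⟩, 0⟩,
  ⟨0, 4, 4, ⟨1, 0⟩, -1, some 1, 3, 0, ⟨-1, 0⟩, 0, 0, ⟨0, -1⟩, 0⟩,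
  ⟨0, 4, 5, ⟨-1, -1⟩, 0, some 1, 3, 1, ⟨1, 0⟩, 0, 0, ⟨0, 0⟩, 0⟩,
  ⟨0, 4, 5, ⟨0, -1⟩, 0, some 0, 0, 4, ⟨-1, 0⟩, -1, 0, ⟨0, -1⟩, 0⟩,
  ⟨0, 4, 5, ⟨0, 0⟩, 0, some 0, 0, 4, ⟨1, 0⟩, -1, 0, ⟨0, 0⟩, 0⟩,
  ⟨0, 4, 5, ⟨1, 0⟩, -1, some 1, 3, 1, ⟨-1, 0⟩, 0, 0, ⟨0, -1⟩, 0⟩,
  ⟨0, 5, 0, ⟨-1, -1⟩, 1, some 2, 3, 4, ⟨1, 1⟩, 0, 0, ⟨0, -1⟩, 0⟩,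
  ⟨0, 5, 0, ⟨0, -1⟩, 0, some 0, 0, 1, ⟨1, 1⟩, 1, 0, ⟨0, -1⟩, 0⟩,
  ⟨0, 5, 0, ⟨0, 0⟩, 0, some 0, 0, 1, ⟨-1, -1⟩, 1, 0, ⟨0, 0⟩, 0⟩,
  ⟨0, 5, 0, ⟨1, 0⟩, 0, some 2, 3, 4, ⟨-1, -1⟩, 0, 0, ⟨0, 0⟩, 0⟩,
  ⟨0, 5, 1, ⟨-1, -1⟩, 1, some 2, 3, 5, ⟨1, 1⟩, 0, 0, ⟨0, -1⟩, 0⟩,
  ⟨0, 5, 1, ⟨0, -1⟩, 0, some 0, 0, 2, ⟨1, 1⟩, 1, 0, ⟨0, -1⟩, 0⟩,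
  ⟨0, 5, 1, ⟨0, 0⟩, 0, some 0, 0, 2, ⟨-1, -1⟩, 1, 0, ⟨0, 0⟩, 0⟩,
  ⟨0, 5, 1, ⟨1, 0⟩, 0, some 2, 3, 5, ⟨-1, -1⟩, 0, 0, ⟨0, 0⟩, 0⟩,
  ⟨0, 5, 2, ⟨-1, -1⟩, 1, some 2, 3, 0, ⟨1, 1⟩, 0, 0, ⟨0, -1⟩, 0⟩,
  ⟨0, 5, 2, ⟨0, -1⟩, 0, some 0, 0, 3, ⟨1, 1⟩, 1, 0, ⟨0, -1⟩, 0⟩,
  ⟨0, 5, 2, ⟨0, 0⟩, 0, some 0, 0, 3, ⟨-1, -1⟩, 1, 0, ⟨0, 0⟩, 0⟩,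
  ⟨0, 5, 2, ⟨1, 0⟩, 0, some 2, 3, 0, ⟨-1, -1⟩, 0, 0, ⟨0, 0⟩, 0⟩,
  ⟨0, 5, 3, ⟨-1, -1⟩, 1, some 2, 3, 1, ⟨1, 1⟩, 0, 0, ⟨0, -1⟩, 0⟩,
  ⟨0, 5, 3, ⟨0, -1⟩, 0, some 0, 0, 4, ⟨1, 1⟩, 1, 0, ⟨0, -1⟩, 0⟩,
  ⟨0, 5, 3, ⟨0, 0⟩, 0, some 0, 0, 4, ⟨-1, -1⟩, 1, 0, ⟨0, 0⟩, 0⟩,
  ⟨0, 5, 3, ⟨1, 0⟩, 0, some 2, 3, 1, ⟨-1, -1⟩, 0, 0, ⟨0, 0⟩, 0⟩,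
  ⟨0, 5, 4, ⟨-1, -1⟩, 1, some 2, 3, 2, ⟨1, 1⟩, 0, 0, ⟨0, -1⟩, 0⟩,
  ⟨0, 5, 4, ⟨0, -1⟩, 0, some 0, 0, 5, ⟨1, 1⟩, 1, 0, ⟨0, -1⟩, 0⟩,
  ⟨0, 5, 4, ⟨0, 0⟩, 0, some 0, 0, 5, ⟨-1, -1⟩, 1, 0, ⟨0, 0⟩, 0⟩,
  ⟨0, 5, 4, ⟨1, 0⟩, 0, some 2, 3, 2, ⟨-1, -1⟩, 0, 0, ⟨0, 0⟩, 0⟩,
  ⟨0, 5, 5, ⟨-1, -1⟩, 1, some 2, 3, 3, ⟨1, 1⟩, 0, 0, ⟨0, -1⟩, 0⟩,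
  ⟨0, 5, 5, ⟨0, -1⟩, 0, some 0, 0, 0, ⟨1, 1⟩, 1, 0, ⟨0, -1⟩, 0⟩,
  ⟨0, 5, 5, ⟨0, 0⟩, 0, some 0, 0, 0, ⟨-1, -1⟩, 1, 0, ⟨0, 0⟩, 0⟩,
  ⟨0, 5, 5, ⟨1, 0⟩, 0, some 2, 3, 3, ⟨-1, -1⟩, 0, 0, ⟨0, 0⟩, 0⟩]

theorem tbl0_5_ok0 : ∀ e ∈ tbl0_5.take 13, e.ok := by decide +kernel

theorem tbl0_5_ok1 : ∀ e ∈ (tbl0_5.drop 13).take 13, e.ok := by decide +kernel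

theorem tbl0_5_ok2 : ∀ e ∈ (tbl0_5.drop 13).drop 13, e.ok := by decide +kernel

theorem tbl0_5_ok : ∀ e ∈ tbl0_5, e.ok :=
  (ok_split _ 13 tbl0_5_ok0 (ok_split _ 13 tbl0_5_ok1 tbl0_5_ok2))

/-- rows 0 -/
def tbl0 : List Ent := tbl0_0 ++ tbl0_1 ++ tbl0_2 ++ tbl0_3 ++ tbl0_4 ++ tbl0_5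

theorem tbl0_ok : ∀ e ∈ tbl0, e.ok := by
  intro e he
  simp only [tbl0, List.mem_append] at he
  rcases he with ((((h | h) | h) | h) | h) | h
  · exact tbl0_0_ok e h
  · exact tbl0_1_ok e h
  · exact tbl0_2_ok e h
  · exact tbl0_3_ok e h
  · exact tbl0_4_ok e h
  · exact tbl0_5_ok e h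

end Pool.Agent.H13.DM
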