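import Mathlib
import Pool.Agent.H13.DM.Ent

/-!
MP_9d29f5_al, project DM, block B: table of products g_i r g_j, rows i = 4. Generated by a script.
-/
set_option autoImplicit false

namespace Pool.Agent.H13.DM


/-- rows 4, part 0 -/
def tbl4_0 : List Ent := [
  ⟨4, 0, 0, ⟨-1, 0⟩, 0, some 1, 3, 2, ⟨0, 0⟩, 0, 0, ⟨-1, 0⟩, 0⟩,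
  ⟨4, 0, 0, ⟨0, 0⟩, 0, some 0, 0, 5, ⟨0, 0⟩, 0, 0, ⟨1, 0⟩, -1⟩,
  ⟨4, 0, 0, ⟨0, 1⟩, 0, some 0, 0, 5, ⟨1, 1⟩, 0, 0, ⟨-1, 0⟩, -1⟩,
  ⟨4, 0, 0, ⟨1, 1⟩, -1, some 1, 3, 2, ⟨-1, -1⟩, 0, 0, ⟨1, 0⟩, 0⟩,
  ⟨4, 0, 1, ⟨-1, -1⟩, 0, some 1, 3, 3, ⟨0, 0⟩, 0, 0, ⟨-1, -1⟩, 0⟩,
  ⟨4, 0, 1, ⟨-1, 0⟩, 0, some 0, 0, 0, ⟨0, 1⟩, 0, 0, ⟨-1, -1⟩, -1⟩,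
  ⟨4, 0, 1, ⟨0, 0⟩, 0, some 0, 0, 0, ⟨0, 0⟩, 0, 0, ⟨1, 1⟩, -1⟩,
  ⟨4, 0, 1, ⟨0, 1⟩, -1, some 1, 3, 3, ⟨0, -1⟩, 0, 0, ⟨1, 1⟩, 0⟩,
  ⟨4, 0, 2, ⟨-1, -1⟩, 0, some 0, 0, 1, ⟨-1, 0⟩, 0, 0, ⟨0, -1⟩, -1⟩,
  ⟨4, 0, 2, ⟨-1, 0⟩, -1, some 1, 3, 4, ⟨1, 0⟩, 0, 0, ⟨0, 1⟩, 0⟩,
  ⟨4, 0, 2, ⟨0, -1⟩, 0, some 1, 3, 4, ⟨0, 0⟩, 0, 0, ⟨0, -1⟩, 0⟩,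
  ⟨4, 0, 2, ⟨0, 0⟩, 0, some 0, 0, 1, ⟨0, 0⟩, 0, 0, ⟨0, 1⟩, -1⟩,
  ⟨4, 0, 3, ⟨-1, -1⟩, -1, some 1, 3, 5, ⟨1, 1⟩, 0, 0, ⟨-1, 0⟩, 0⟩,
  ⟨4, 0, 3, ⟨0, -1⟩, 0, some 0, 0, 2, ⟨-1, -1⟩, 0, 0, ⟨1, 0⟩, -1⟩,
  ⟨4, 0, 3, ⟨0, 0⟩, 0, some 0, 0, 2, ⟨0, 0⟩, 0, 0, ⟨-1, 0⟩, -1⟩,
  ⟨4, 0, 3, ⟨1, 0⟩, 0, some 1, 3, 5, ⟨0, 0⟩, 0, 0, ⟨1, 0⟩, 0⟩,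
  ⟨4, 0, 4, ⟨0, -1⟩, -1, some 1, 3, 0, ⟨0, 1⟩, 0, 0, ⟨-1, -1⟩, 0⟩,
  ⟨4, 0, 4, ⟨0, 0⟩, 0, some 0, 0, 3, ⟨0, 0⟩, 0, 0, ⟨-1, -1⟩, -1⟩,
  ⟨4, 0, 4, ⟨1, 0⟩, 0, some 0, 0, 3, ⟨0, -1⟩, 0, 0, ⟨1, 1⟩, -1⟩,
  ⟨4, 0, 4, ⟨1, 1⟩, 0, some 1, 3, 0, ⟨0, 0⟩, 0, 0, ⟨1, 1⟩, 0⟩,
  ⟨4, 0, 5, ⟨0, 0⟩, 0, some 0, 0, 4, ⟨0, 0⟩, 0, 0, ⟨0, -1⟩, -1⟩,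
  ⟨4, 0, 5, ⟨0, 1⟩, 0, some 1, 3, 1, ⟨0, 0⟩, 0, 0, ⟨0, 1⟩, 0⟩,
  ⟨4, 0, 5, ⟨1, 0⟩, -1, some 1, 3, 1, ⟨-1, 0⟩, 0, 0, ⟨0, -1⟩, 0⟩,
  ⟨4, 0, 5, ⟨1, 1⟩, 0, some 0, 0, 4, ⟨1, 0⟩, 0, 0, ⟨0, 1⟩, -1⟩,
  ⟨4, 2, 0, ⟨0, 0⟩, 0, some 0, 3, 2, ⟨-1, 0⟩, 0, 0, ⟨1, 0⟩, 0⟩,
  ⟨4, 2, 0, ⟨0, 1⟩, 0, some 0, 3, 2, ⟨0, -1⟩, 1, 0, ⟨-1, 0⟩, 0⟩,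
  ⟨4, 2, 1, ⟨-1, 0⟩, 0, some 0, 3, 3, ⟨1, 0⟩, 1, 0, ⟨-1, -1⟩, 0⟩,
  ⟨4, 2, 1, ⟨0, 0⟩, 0, some 0, 3, 3, ⟨-1, -1⟩, 0, 0, ⟨1, 1⟩, 0⟩,
  ⟨4, 2, 2, ⟨-1, -1⟩, 0, some 0, 3, 4, ⟨1, 1⟩, 1, 0, ⟨0, -1⟩, 0⟩,
  ⟨4, 2, 2, ⟨0, 0⟩, 0, some 0, 3, 4, ⟨0, -1⟩, 0, 0, ⟨0, 1⟩, 0⟩,
  ⟨4, 2, 3, ⟨0, -1⟩, 0, some 0, 3, 5, ⟨0, 1⟩, 1, 0, ⟨1, 0⟩, 0⟩,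
  ⟨4, 2, 3, ⟨0, 0⟩, 0, some 0, 3, 5, ⟨1, 0⟩, 0, 0, ⟨-1, 0⟩, 0⟩,
  ⟨4, 2, 4, ⟨0, 0⟩, 0, some 0, 3, 0, ⟨1, 1⟩, 0, 0, ⟨-1, -1⟩, 0⟩,
  ⟨4, 2, 4, ⟨1, 0⟩, 0, some 0, 3, 0, ⟨-1, 0⟩, 1, 0, ⟨1, 1⟩, 0⟩,
  ⟨4, 2, 5, ⟨0, 0⟩, 0, some 0, 3, 1, ⟨0, 1⟩, 0, 0, ⟨0, -1⟩, 0⟩,
  ⟨4, 2, 5, ⟨1, 1⟩, 0, some 0, 3, 1, ⟨-1, -1⟩, 1, 0, ⟨0, 1⟩, 0⟩,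
  ⟨4, 3, 0, ⟨0, 0⟩, -1, some 5, 3, 2, ⟨-1, -1⟩, 1, 2, ⟨-1, -1⟩, 0⟩,
  ⟨4, 3, 0, ⟨0, 1⟩, -1, some 5, 3, 2, ⟨0, -1⟩, 1, 2, ⟨0, 0⟩, 0⟩,
  ⟨4, 3, 1, ⟨-1, 0⟩, -1, some 5, 3, 5, ⟨0, 0⟩, 1, 0, ⟨0, 1⟩, 0⟩,
  ⟨4, 3, 1, ⟨0, 0⟩, -1, some 5, 3, 5, ⟨1, 0⟩, 0, 0, ⟨0, 0⟩, 0⟩,
  ⟨4, 3, 2, ⟨-1, -1⟩, -1, some 5, 3, 5, ⟨0, 0⟩, 1, 1, ⟨-1, 0⟩, 0⟩,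
  ⟨4, 3, 2, ⟨0, 0⟩, -1, some 5, 3, 5, ⟨1, 0⟩, 0, 1, ⟨0, 0⟩, 0⟩,
  ⟨4, 3, 3, ⟨0, -1⟩, -1, some 5, 3, 5, ⟨0, 0⟩, 1, 2, ⟨-1, -1⟩, 0⟩,
  ⟨4, 3, 3, ⟨0, 0⟩, -1, some 5, 3, 5, ⟨1, 0⟩, 0, 2, ⟨0, 0⟩, 0⟩,
  ⟨4, 3, 4, ⟨0, 0⟩, -1, some 5, 3, 2, ⟨-1, -1⟩, 1, 0, ⟨0, 1⟩, 0⟩,
  ⟨4, 3, 4, ⟨1, 0⟩, -1, some 5, 3, 2, ⟨0, -1⟩, 1, 0, ⟨0, 0⟩, 0⟩,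
  ⟨4, 3, 5, ⟨0, 0⟩, -1, some 5, 3, 2, ⟨-1, -1⟩, 1, 1, ⟨-1, 0⟩, 0⟩,
  ⟨4, 3, 5, ⟨1, 1⟩, -1, some 5, 3, 2, ⟨0, -1⟩, 1, 1, ⟨0, 0⟩, 0⟩,
  ⟨4, 4, 1, ⟨-1, -1⟩, 0, some 3, 3, 5, ⟨0, 0⟩, 0, 0, ⟨0, 0⟩, 1⟩,
  ⟨4, 4, 1, ⟨0, 0⟩, -1, some 3, 3, 5, ⟨1, 1⟩, 0, 0, ⟨0, -1⟩, 1⟩]

theorem tbl4_0_ok0 : ∀ e ∈ tbl4_0.take 13, e.ok := by decide +kernel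

theorem tbl4_0_ok1 : ∀ e ∈ (tbl4_0.drop 13).take 13, e.ok := by decide +kernel

theorem tbl4_0_ok2 : ∀ e ∈ ((tbl4_0.drop 13).drop 13).take 13, e.ok := by decide +kernel

theorem tbl4_0_ok3 : ∀ e ∈ ((tbl4_0.drop 13).drop 13).drop 13, e.ok := by decide +kernel

theorem tbl4_0_ok : ∀ e ∈ tbl4_0, e.ok :=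
  (ok_split _ 13 tbl4_0_ok0 (ok_split _ 13 tbl4_0_ok1 (ok_split _ 13 tbl4_0_ok2 tbl4_0_ok3)))

/-- rows 4, part 1 -/
def tbl4_1 : List Ent := [
  ⟨4, 4, 2, ⟨-1, -1⟩, 0, some 4, 0, 5, ⟨1, 0⟩, -1, 2, ⟨-1, -1⟩, 0⟩,
  ⟨4, 4, 2, ⟨0, -1⟩, 0, some 4, 0, 5, ⟨0, 0⟩, 0, 2, ⟨0, -1⟩, 0⟩,
  ⟨4, 4, 4, ⟨0, -1⟩, -1, some 3, 3, 2, ⟨-1, -1⟩, 0, 0, ⟨0, 0⟩, 1⟩,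
  ⟨4, 4, 4, ⟨1, 0⟩, -1, some 3, 3, 2, ⟨0, 0⟩, 0, 0, ⟨0, -1⟩, 1⟩,
  ⟨4, 4, 5, ⟨0, 0⟩, 0, some 4, 0, 2, ⟨0, -1⟩, 0, 2, ⟨-1, -1⟩, 0⟩,
  ⟨4, 4, 5, ⟨1, 0⟩, -1, some 4, 0, 2, ⟨-1, -1⟩, 0, 2, ⟨0, -1⟩, 0⟩,
  ⟨4, 5, 0, ⟨0, 0⟩, 0, none, 0, 0, ⟨0, 0⟩, 0, 0, ⟨0, 0⟩, 0⟩,
  ⟨4, 5, 1, ⟨-1, -1⟩, 1, some 5, 0, 4, ⟨1, 0⟩, 0, 2, ⟨0, -1⟩, 0⟩,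
  ⟨4, 5, 1, ⟨0, 0⟩, 0, some 5, 0, 4, ⟨0, -1⟩, 0, 2, ⟨-1, -1⟩, 0⟩,
  ⟨4, 5, 2, ⟨-1, -1⟩, 0, some 4, 0, 1, ⟨-1, -1⟩, 1, 2, ⟨-1, -1⟩, 0⟩,
  ⟨4, 5, 2, ⟨0, -1⟩, 0, some 4, 0, 1, ⟨0, 0⟩, 0, 2, ⟨0, -1⟩, 0⟩,
  ⟨4, 5, 3, ⟨0, -1⟩, 0, none, 0, 3, ⟨0, -1⟩, 0, 0, ⟨0, 0⟩, 0⟩,
  ⟨4, 5, 4, ⟨0, -1⟩, 0, some 5, 0, 1, ⟨0, 0⟩, 0, 2, ⟨0, -1⟩, 0⟩,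
  ⟨4, 5, 4, ⟨1, 0⟩, 0, some 5, 0, 1, ⟨-1, -1⟩, 1, 2, ⟨-1, -1⟩, 0⟩,
  ⟨4, 5, 5, ⟨0, 0⟩, 0, some 4, 0, 4, ⟨0, -1⟩, 0, 2, ⟨-1, -1⟩, 0⟩,
  ⟨4, 5, 5, ⟨1, 0⟩, -1, some 4, 0, 4, ⟨1, 0⟩, 0, 2, ⟨0, -1⟩, 0⟩]

theorem tbl4_1_ok0 : ∀ e ∈ tbl4_1.take 13, e.ok := by decide +kernel

theorem tbl4_1_ok1 : ∀ e ∈ tbl4_1.drop 13, e.ok := by decide +kernel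

theorem tbl4_1_ok : ∀ e ∈ tbl4_1, e.ok :=
  (ok_split _ 13 tbl4_1_ok0 tbl4_1_ok1)

/-- rows 4 -/
def tbl4 : List Ent := tbl4_0 ++ tbl4_1

theorem tbl4_ok : ∀ e ∈ tbl4, e.ok := by
  intro e he
  simp only [tbl4, List.mem_append] at he
  rcases he with h | h
  · exact tbl4_0_ok e h
  · exact tbl4_1_ok e h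

end Pool.Agent.H13.DM
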