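import Mathlib
import Pool.Agent.H13.DM.Tab0
import Pool.Agent.H13.DM.Tab1
import Pool.Agent.H13.DM.Tab2
import Pool.Agent.H13.DM.Tab3
import Pool.Agent.H13.DM.Tab4
import Pool.Agent.H13.DM.Tab5

/-!
MP_9d29f5_al, project DM, block B: the table of products is complete (kernel check).
-/
set_option autoImplicit false

namespace Pool.Agent.H13.DM

/-- the whole table -/
def tblAll : Fin 6 → List Ent
  | 0 => tbl0 | 1 => tbl1 | 2 => tbl2 | 3 => tbl3 | 4 => tbl4 | 5 => tbl5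

/-- key of an entry -/
def Ent.key (e : Ent) : Fin 6 × Fin 6 × ℤ × ℤ × ℤ := (e.j, e.k, e.z.a, e.z.b, e.m)

/-- all keys, in order -/
def allKeys : List (Fin 6 × Fin 6 × ℤ × ℤ × ℤ) :=
  [(0 : Fin 6), 1, 2, 3, 4, 5].flatMap fun j => [(0 : Fin 6), 1, 2, 3, 4, 5].flatMap fun k =>
    box3.flatMap fun a => box3.flatMap fun b => box3.map fun m => (j, k, a, b, m)

/-- height condition -/
def condH (n : ℤ) : Bool := n == 0 || n == 1 || n == 3 || n == 4

theorem tab_keys0 : allKeys.filter (fun x =>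
    condH (gM 0 * pmat 0 x.2.1 ⟨x.2.2.1, x.2.2.2.1⟩ x.2.2.2.2 * gM x.1).x02.nrm)
      = (tblAll 0).map Ent.key := by
  decide +kernel

theorem tab_keys1 : allKeys.filter (fun x =>
    condH (gM 1 * pmat 0 x.2.1 ⟨x.2.2.1, x.2.2.2.1⟩ x.2.2.2.2 * gM x.1).x02.nrm)
      = (tblAll 1).map Ent.key := by
  decide +kernel

theorem tab_keys2 : allKeys.filter (fun x =>
    condH (gM 2 * pmat 0 x.2.1 ⟨x.2.2.1, x.2.2.2.1⟩ x.2.2.2.2 * gM x.1).x02.nrm)
      = (tblAll 2).map Ent.key := by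
  decide +kernel

theorem tab_keys3 : allKeys.filter (fun x =>
    condH (gM 3 * pmat 0 x.2.1 ⟨x.2.2.1, x.2.2.2.1⟩ x.2.2.2.2 * gM x.1).x02.nrm)
      = (tblAll 3).map Ent.key := by
  decide +kernel

theorem tab_keys4 : allKeys.filter (fun x =>
    condH (gM 4 * pmat 0 x.2.1 ⟨x.2.2.1, x.2.2.2.1⟩ x.2.2.2.2 * gM x.1).x02.nrm)
      = (tblAll 4).map Ent.key := by
  decide +kernel

theorem tab_keys5 : allKeys.filter (fun x =>
    condH (gM 5 * pmat 0 x.2.1 ⟨x.2.2.1, x.2.2.2.1⟩ x.2.2.2.2 * gM x.1).x02.nrm)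
      = (tblAll 5).map Ent.key := by
  decide +kernel

theorem tab_keys : ∀ i : Fin 6, allKeys.filter (fun x =>
    condH (gM i * pmat 0 x.2.1 ⟨x.2.2.1, x.2.2.2.1⟩ x.2.2.2.2 * gM x.1).x02.nrm)
      = (tblAll i).map Ent.key := by
  intro i
  fin_cases i
  · exact tab_keys0
  · exact tab_keys1
  · exact tab_keys2
  · exact tab_keys3
  · exact tab_keys4
  · exact tab_keys5

theorem tab_i : ∀ i : Fin 6, ∀ e ∈ tblAll i, e.i = i := by
  decide +kernel

theorem tblAll_ok : ∀ i : Fin 6, ∀ e ∈ tblAll i, e.ok := by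
  intro i
  fin_cases i
  · exact tbl0_ok
  · exact tbl1_ok
  · exact tbl2_ok
  · exact tbl3_ok
  · exact tbl4_ok
  · exact tbl5_ok

end Pool.Agent.H13.DM
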