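import Mathlib
import Pool.Agent.H13.DM.TabAll
import Pool.Agent.H13.DM.EForm
import Pool.Agent.H13.DM.Classify
import Pool.Agent.H13.DM.Stab
import Pool.Agent.H13.DM.Bound

/-!
MP_9d29f5_al, project DM, block B, file FDef (job DM-FDEF): the local homomorphism on the elements of height 0, 1, 3, 4.
Prove exists_f in place (helper lemmas welcome; all imported files may be cited as stubs).

PAPER PROOF. Let gO, wO be as in Ent.lean (gO none = 1, wO none = 1). Relation Fr g w: there are l : Option (Fin 6) and parameters with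
 g.m = pmat su sk sz sm * gO l * pmat tu tk tz tm and w = rinf sk sz sm * wO l * rinf tk tz tm.
(a) every g in Sg has some w with Fr g w: ht 0: class_P (l = none, second factor pmat 0 0 0 0 = 1, rinf 0 0 0 = 1). ht 1, 3, 4: class_Sigma, and class_P for the two factors.
(b) if Fr g w, Fr h w', Fr (g h) w'', and g h in Sg, then w'' = w w'. Write g = S1 gO(l1) Q1, h = S2 gO(l2) Q2, g h = S3 gO(l3) Q3 with S, Q of the form pmat. The elements pmat form a group (pmat_mul; inverses: class_P applied to the inverse, or the formula) and rinf is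
multiplicative on them and ignores the scalar unit (rinf_mul). R := Q1 S2, S := S1^-1 S3, Q := Q3 Q2^-1: gO(l1) R gO(l2) = S gO(l3) Q. It suffices to show (**) wO(l1) rinf(R) wO(l2) = rinf(S) wO(l3) rinf(Q).
 l1 = none, l2 = none: height of the left side is 0 so l3 = none (gM i has x02 of norm 1, 3, 4; multiplication by pmat on both sides does not change the norm of x02), R = S Q.
 l1 = none, l2 = some j: l3 = some i, gM j = (R^-1 S) gM i Q: rho_stab. l1 = some i, l2 = none: similar.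
 l1 = some i, l2 = some j: R = zeta^u pmat 0 rk rz rm; (gM i * pmat 0 rk rz rm * gM j).x02 has norm in {0,1,3,4} (norm of x02 of g h up to P factors), so small_bound puts rz, rm in the box, and by tab_keys the key (j, rk, rz, rm) belongs to an entry e of tblAll i; e.ok gives
   gM i * pmat 0 rk rz rm * gM j = pmat e.su e.sk e.sz e.sm * gO e.l * pmat 0 e.tk e.tz e.tm and the identity in Wr with rv = rinf (rv_ok0..5, parameters in the box). So S gO(l3) Q = (zeta^u pmat e.s) gO(e.l) (pmat e.t). If l3 = none then e.l = none (norm of x02) and S Q = zeta^u pmat e.s pmat e.t,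
   so rinf S rinf Q = rinf e.s rinf e.t (pmat_inj, pmat_mul, rinf_mul). If l3 = some l then e.l = some l', gM l = (S^-1 zeta^u pmat e.s) gM l' (pmat e.t Q^-1) and rho_stab gives wi l = rinf(..) wi l' rinf(..), which is (**).
(c) Uniqueness: Fr g w and Fr g w'' imply w'' = w (take h = 1, w' = 1 in (b)). Let f g = the w with Fr g w for g in Sg, 1 otherwise.
-/
set_option autoImplicit false

namespace Pool.Agent.H13.DM

theorem gO_none : gO none = 1 := rfl
theorem wO_none : wO none = 1 := rfl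
theorem gO_some (i : Fin 6) : gO (some i) = gM i := rfl
theorem wO_some (i : Fin 6) : wO (some i) = wi i := rfl

/-- p is the matrix of an element of the cusp group with image r -/
def PRel (p : M3) (r : Wr) : Prop :=
  ∃ (u k : Fin 6) (z : Eis) (m : ℤ), p = pmat u k z m ∧ r = rinf k z m

theorem PRel_pmat (u k : Fin 6) (z : Eis) (m : ℤ) : PRel (pmat u k z m) (rinf k z m) :=
  ⟨u, k, z, m, rfl, rfl⟩

theorem PRel_mul {p p' : M3} {r r' : Wr} (h : PRel p r) (h' : PRel p' r') :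
    PRel (p * p') (r * r') := by
  obtain ⟨u, k, z, m, rfl, rfl⟩ := h
  obtain ⟨u', k', z', m', rfl, rfl⟩ := h'
  exact ⟨_, _, _, _, pmat_mul u k u' k' z z' m m', rinf_mul k k' z z' m m'⟩

theorem PRel_one : PRel 1 1 := ⟨0, 0, 0, 0, stab_pmat_one.symm, rinf_zero.symm⟩

theorem PRel_uniq {p : M3} {r r' : Wr} (h : PRel p r) (h' : PRel p r') : r = r' := by
  obtain ⟨u, k, z, m, rfl, rfl⟩ := h
  obtain ⟨u', k', z', m', h1, rfl⟩ := h'
  obtain ⟨-, h2, h3, h4⟩ := pmat_inj _ _ _ _ _ _ _ _ h1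
  rw [h2, h3, h4]

theorem PRel_inv {p : M3} {r : Wr} (h : PRel p r) : ∃ (p' : M3) (r' : Wr), PRel p' r' ∧
    p * p' = 1 ∧ p' * p = 1 ∧ r * r' = 1 ∧ r' * r = 1 := by
  obtain ⟨u, k, z, m, rfl, rfl⟩ := h
  set g : UU := ⟨pmat u k z m, pmat_isU u k z m⟩ with hg
  have hg0 : g.ht = 0 := ht_pmat (g := g) rfl
  obtain ⟨u', k', z', m', h'⟩ := class_P g⁻¹ (by rw [ht_inv]; exact hg0)
  have e1 : pmat u k z m * pmat u' k' z' m' = 1 := by
    rw [← h']
    exact congrArg UU.m (mul_inv_cancel g)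
  have e2 : pmat u' k' z' m' * pmat u k z m = 1 := by
    rw [← h']
    exact congrArg UU.m (inv_mul_cancel g)
  refine ⟨_, _, PRel_pmat u' k' z' m', e1, e2, ?_, ?_⟩
  · have h1 := PRel_mul (PRel_pmat u k z m) (PRel_pmat u' k' z' m')
    rw [e1] at h1
    exact PRel_uniq h1 PRel_one
  · have h1 := PRel_mul (PRel_pmat u' k' z' m') (PRel_pmat u k z m)
    rw [e2] at h1
    exact PRel_uniq h1 PRel_one

theorem PRel_of_ht {g : UU} (h : g.ht = 0) : ∃ r : Wr, PRel g.m r := by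
  obtain ⟨u, k, z, m, h'⟩ := class_P g h
  exact ⟨_, u, k, z, m, h', rfl⟩

theorem PRel_nrm {s t p : M3} {σ τ : Wr} (hs : PRel s σ) (ht : PRel t τ) :
    (s * p * t).x02.nrm = p.x02.nrm := by
  obtain ⟨u, k, z, m, rfl, rfl⟩ := hs
  obtain ⟨u', k', z', m', rfl, rfl⟩ := ht
  rw [(stab_row p u k u' k' z z' m m').1, nrm_mul', nrm_unit, one_mul]

theorem gM_nrm_ne (i : Fin 6) : (gM i).x02.nrm ≠ 0 := by
  revert i
  decide +kernel

theorem one_nrm_zero : (1 : M3).x02.nrm = 0 := by decide +kernel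

/-- the stabiliser lemma in terms of the relation -/
theorem PRel_stab {l l' : Option (Fin 6)} {s t : M3} {σ τ : Wr} (hs : PRel s σ) (ht : PRel t τ)
    (h : gO l' = s * gO l * t) : wO l' = σ * wO l * τ := by
  have hn : (gO l').x02.nrm = (gO l).x02.nrm := by
    rw [h]; exact PRel_nrm hs ht
  match l, l' with
  | none, none =>
    rw [gO_none, mul_one] at h
    have h2 := PRel_mul hs ht
    rw [← h] at h2
    rw [wO_none, mul_one]
    exact PRel_uniq PRel_one h2
  | none, some j =>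
    exfalso
    apply gM_nrm_ne j
    rw [gO_none, gO_some, one_nrm_zero] at hn
    exact hn
  | some i, none =>
    exfalso
    apply gM_nrm_ne i
    rw [gO_none, gO_some, one_nrm_zero] at hn
    exact hn.symm
  | some i, some j =>
    obtain ⟨u, k, z, m, rfl, rfl⟩ := hs
    obtain ⟨u', k', z', m', rfl, rfl⟩ := ht
    rw [gO_some, gO_some] at h
    rw [wO_some, wO_some]
    exact (rho_stab i j u k u' k' z z' m m' h).2

/-- the relation between an element of Sg and its image -/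
def Fr (g : M3) (w : Wr) : Prop :=
  ∃ (l : Option (Fin 6)) (s : M3) (σ : Wr) (t : M3) (τ : Wr), PRel s σ ∧ PRel t τ ∧
    g = s * gO l * t ∧ w = σ * wO l * τ

theorem Fr_uniq {g : M3} {w w' : Wr} (h : Fr g w) (h' : Fr g w') : w = w' := by
  obtain ⟨l, s, σ, t, τ, hs, ht, hg, rfl⟩ := h
  obtain ⟨l', s', σ', t', τ', hs', ht', hg', rfl⟩ := h'
  obtain ⟨a, α, ha, a1, a2, a3, a4⟩ := PRel_inv hs'
  obtain ⟨b, β, hb, b1, b2, b3, b4⟩ := PRel_inv ht'
  have e : gO l' = (a * s) * gO l * (t * b) := by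
    calc gO l' = (a * s') * gO l' * (t' * b) := by rw [a2, b1, one_mul, mul_one]
      _ = a * (s' * gO l' * t') * b := by simp only [mul_assoc]
      _ = a * (s * gO l * t) * b := by rw [← hg', ← hg]
      _ = _ := by simp only [mul_assoc]
  have h1 := PRel_stab (PRel_mul ha hs) (PRel_mul ht hb) e
  calc σ * wO l * τ = (σ' * α) * σ * wO l * τ * (β * τ') := by
        rw [a3, b4, one_mul, mul_one]
    _ = σ' * (α * σ * wO l * (τ * β)) * τ' := by simp only [mul_assoc]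
    _ = _ := by rw [← h1]

theorem Fr_PRel {p : M3} {r : Wr} (h : PRel p r) : Fr p r := by
  refine ⟨none, p, r, 1, 1, h, PRel_one, ?_, ?_⟩
  · rw [gO_none, mul_one, mul_one]
  · rw [wO_none, mul_one, mul_one]

theorem Fr_gi (i : Fin 6) : Fr (gM i) (wi i) := by
  refine ⟨some i, 1, 1, 1, 1, PRel_one, PRel_one, ?_, ?_⟩
  · rw [gO_some, mul_one, one_mul]
  · rw [wO_some, mul_one, one_mul]

theorem Fr_mul_PRel {g s t : M3} {w σ τ : Wr} (hs : PRel s σ) (ht : PRel t τ) (h : Fr g w) :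
    Fr (s * g * t) (σ * w * τ) := by
  obtain ⟨l, a, α, b, β, ha, hb, rfl, rfl⟩ := h
  refine ⟨l, s * a, σ * α, b * t, β * τ, PRel_mul hs ha, PRel_mul hb ht, ?_, ?_⟩
  · simp only [mul_assoc]
  · simp only [mul_assoc]

theorem rv_ok (k : Fin 6) (z : Eis) (m : ℤ) (h : inB z m) : rinf k z m = rv k z m := by
  obtain ⟨ha, hb, hm⟩ := h
  have hz : z = ⟨z.a, z.b⟩ := rfl
  rw [hz]
  match k with
  | 0 => exact rv_ok0 _ ha _ hb _ hm
  | 1 => exact rv_ok1 _ ha _ hb _ hm
  | 2 => exact rv_ok2 _ ha _ hb _ hm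
  | 3 => exact rv_ok3 _ ha _ hb _ hm
  | 4 => exact rv_ok4 _ ha _ hb _ hm
  | 5 => exact rv_ok5 _ ha _ hb _ hm

theorem mem_allKeys (j k : Fin 6) (z : Eis) (m : ℤ) (h : inB z m) :
    ((j, k, z.a, z.b, m) : Fin 6 × Fin 6 × ℤ × ℤ × ℤ) ∈ allKeys := by
  obtain ⟨ha, hb, hm⟩ := h
  have h6 : ∀ x : Fin 6, x ∈ [(0 : Fin 6), 1, 2, 3, 4, 5] := by decide
  unfold allKeys
  rw [List.mem_flatMap]
  refine ⟨j, h6 j, ?_⟩
  rw [List.mem_flatMap]
  refine ⟨k, h6 k, ?_⟩
  rw [List.mem_flatMap]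
  refine ⟨z.a, ha, ?_⟩
  rw [List.mem_flatMap]
  refine ⟨z.b, hb, ?_⟩
  rw [List.mem_map]
  exact ⟨m, hm, rfl⟩

/-- products of two representatives with an element of the cusp group in between -/
theorem Fr_mid_some (i j k : Fin 6) (z : Eis) (m : ℤ)
    (h : (gM i * pmat 0 k z m * gM j).x02.nrm = 0 ∨ (gM i * pmat 0 k z m * gM j).x02.nrm = 1 ∨
      (gM i * pmat 0 k z m * gM j).x02.nrm = 3 ∨ (gM i * pmat 0 k z m * gM j).x02.nrm = 4) :
    Fr (gM i * pmat 0 k z m * gM j) (wi i * rinf k z m * wi j) := by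
  have hB : inB z m := small_bound i j k z m (by rcases h with h | h | h | h <;> rw [h] <;> norm_num)
  have hmem := mem_allKeys j k z m hB
  have hc : condH (gM i * pmat 0 k z m * gM j).x02.nrm = true := by
    unfold condH
    rcases h with h | h | h | h <;> rw [h] <;> rfl
  have hf : ((j, k, z.a, z.b, m) : Fin 6 × Fin 6 × ℤ × ℤ × ℤ) ∈ allKeys.filter (fun x =>
      condH (gM i * pmat 0 x.2.1 ⟨x.2.2.1, x.2.2.2.1⟩ x.2.2.2.2 * gM x.1).x02.nrm) := by
    rw [List.mem_filter]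
    exact ⟨hmem, hc⟩
  rw [tab_keys i, List.mem_map] at hf
  obtain ⟨e, he, hk⟩ := hf
  have hi := tab_i i e he
  obtain ⟨o1, o2, o3, o4, o5⟩ := tblAll_ok i e he
  unfold Ent.key at hk
  simp only [Prod.mk.injEq] at hk
  obtain ⟨k1, k2, k3, k4, k5⟩ := hk
  have hz : e.z = z := Eis.ext k3 k4
  rw [hi, k1, k2, hz, k5] at o1
  rw [hi, k1, k2, hz, k5, ← rv_ok k z m hB, ← rv_ok _ _ _ o4, ← rv_ok _ _ _ o5] at o2
  exact ⟨e.l, _, _, _, _, PRel_pmat e.su e.sk e.sz e.sm, PRel_pmat 0 e.tk e.tz e.tm, o1, o2⟩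

theorem Fr_left {g s : M3} {w : Wr} (hs : PRel s 1) (h : Fr g w) : Fr (s * g) w := by
  have h1 := Fr_mul_PRel hs PRel_one h
  rw [mul_one, one_mul, mul_one] at h1
  exact h1

theorem Fr_left_nrm {g s : M3} {σ : Wr} (hs : PRel s σ) : (s * g).x02.nrm = g.x02.nrm := by
  have h1 := PRel_nrm (p := g) hs PRel_one
  rw [mul_one] at h1
  exact h1

theorem pmat_scal (a b : M3) (u k : Fin 6) (z : Eis) (m : ℤ) :
    a * pmat u k z m * b = pmat u 0 0 0 * (a * pmat 0 k z m * b) := by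
  have e1 : pmat u 0 0 0 = M3.smul (Eis.unit u) 1 := by
    rw [stab_smul, stab_pmat_one]
  rw [e1, stab_smul u k z m, M3.mul_smul', M3.smul_mul, M3.smul_mul, one_mul]

/-- the norms allowed -/
def OkN (n : ℤ) : Prop := n = 0 ∨ n = 1 ∨ n = 3 ∨ n = 4

theorem Fr_mid (l l' : Option (Fin 6)) {r : M3} {ρ : Wr} (hr : PRel r ρ)
    (h : OkN (gO l * r * gO l').x02.nrm) : Fr (gO l * r * gO l') (wO l * ρ * wO l') := by
  match l, l' with
  | none, l' =>
    refine ⟨l', r, ρ, 1, 1, hr, PRel_one, ?_, ?_⟩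
    · rw [gO_none, one_mul, mul_one]
    · rw [wO_none, one_mul, mul_one]
  | some i, none =>
    refine ⟨some i, 1, 1, r, ρ, PRel_one, hr, ?_, ?_⟩
    · rw [gO_none, one_mul, mul_one]
    · rw [wO_none, one_mul, mul_one]
  | some i, some j =>
    obtain ⟨u, k, z, m, rfl, rfl⟩ := hr
    have hu : PRel (pmat u 0 0 0) 1 := ⟨u, 0, 0, 0, rfl, rinf_zero.symm⟩
    have hn : (gM i * pmat u k z m * gM j).x02.nrm = (gM i * pmat 0 k z m * gM j).x02.nrm := by
      rw [pmat_scal, Fr_left_nrm hu]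
    rw [gO_some, gO_some] at h ⊢
    rw [wO_some, wO_some]
    rw [hn] at h
    have h1 := Fr_mid_some i j k z m h
    rw [pmat_scal]
    exact Fr_left hu h1

theorem Fr_mul {g h : M3} {w w' : Wr} (hg : Fr g w) (hh : Fr h w')
    (hn : OkN (g * h).x02.nrm) : Fr (g * h) (w * w') := by
  obtain ⟨l, s, σ, t, τ, hs, ht, rfl, rfl⟩ := hg
  obtain ⟨l', s', σ', t', τ', hs', ht', rfl, rfl⟩ := hh
  have e : s * gO l * t * (s' * gO l' * t') = s * (gO l * (t * s') * gO l') * t' := by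
    simp only [mul_assoc]
  have e' : σ * wO l * τ * (σ' * wO l' * τ') = σ * (wO l * (τ * σ') * wO l') * τ' := by
    simp only [mul_assoc]
  rw [e] at hn ⊢
  rw [e']
  rw [PRel_nrm hs ht'] at hn
  exact Fr_mul_PRel hs ht' (Fr_mid l l' (PRel_mul ht hs') hn)

theorem Fr_exists (g : UU) (h : g ∈ Sg) : ∃ w, Fr g.m w := by
  by_cases h0 : g.ht = 0
  · obtain ⟨r, hr⟩ := PRel_of_ht h0
    exact ⟨r, Fr_PRel hr⟩
  · have h1 : g.ht = 1 ∨ g.ht = 3 ∨ g.ht = 4 := by
      rcases h with h | h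
      · exact absurd h h0
      · exact h
    obtain ⟨i, p, q, hp, hq, hg⟩ := class_Sigma g h1
    obtain ⟨σ, hs⟩ := PRel_of_ht hp
    obtain ⟨τ, ht⟩ := PRel_of_ht hq
    refine ⟨σ * wi i * τ, some i, p.m, σ, q.m, τ, hs, ht, ?_, rfl⟩
    rw [hg]
    rfl

theorem okN_of_Sg {g : UU} (h : g ∈ Sg) : OkN g.m.x02.nrm := by
  have h1 := nrm_nn g.m.x02
  have h2 : g.ht = 0 ∨ g.ht = 1 ∨ g.ht = 3 ∨ g.ht = 4 := h
  unfold UU.ht at h2
  unfold OkN
  omega

open Classical in
/-- the local homomorphism -/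
noncomputable def fFr (g : UU) : Wr := if h : ∃ w, Fr g.m w then h.choose else 1

theorem fFr_eq {g : UU} {w : Wr} (h : Fr g.m w) : fFr g = w := by
  have h1 : ∃ w, Fr g.m w := ⟨w, h⟩
  unfold fFr
  rw [dif_pos h1]
  exact Fr_uniq h1.choose_spec h

theorem fFr_spec {g : UU} (h : g ∈ Sg) : Fr g.m (fFr g) := by
  obtain ⟨w, hw⟩ := Fr_exists g h
  rw [fFr_eq hw]
  exact hw

theorem exists_f : ∃ f : UU → Wr, f 1 = 1 ∧
    (∀ g h, g ∈ Sg → h ∈ Sg → g * h ∈ Sg → f (g * h) = f g * f h) ∧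
    (∀ (g : UU) (u k : Fin 6) (z : Eis) (m : ℤ), g.m = pmat u k z m → f g = rinf k z m) ∧
    ∀ i, f (gi i) = wi i := by
  refine ⟨fFr, ?_, ?_, ?_, ?_⟩
  · exact fFr_eq (Fr_PRel PRel_one)
  · intro g h hg hh hgh
    exact fFr_eq (Fr_mul (fFr_spec hg) (fFr_spec hh) (okN_of_Sg hgh))
  · intro g u k z m hg
    exact fFr_eq (Fr_PRel ⟨u, k, z, m, hg, rfl⟩)
  · intro i
    exact fFr_eq (Fr_gi i)

end Pool.Agent.H13.DM
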