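import Mathlib
import Pool.Agent.H13.DM.RhoInf
import Pool.Agent.H86.DM.Kg

/-!
MP_9d29f5_al, project DM, block G: explicit generators of the unitary group and of the fibre
group, word identities (kernel checks).
-/
set_option autoImplicit false

namespace Pool.Agent.H13.DM

/-- the element of UU with matrix pmat u k z m -/
def pU (u k : Fin 6) (z : Eis) (m : ℤ) : UU := ⟨pmat u k z m, pmat_isU u k z m⟩

/-- half twist of the strands 0, 1 -/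
def s1U : UU := ⟨pmat 0 5 ⟨1, 0⟩ (-1), pmat_isU _ _ _ _⟩
/-- half twist of the strands 1, 2 -/
def s2U : UU := ⟨pmat 0 5 ⟨1, 1⟩ (-1), pmat_isU _ _ _ _⟩
/-- half twist of the strands 3, 4 -/
def s4U : UU := ⟨pmat 0 0 ⟨0, 0⟩ (-1), pmat_isU _ _ _ _⟩
/-- full twist of the strands 2, 3 -/
def tU : UU := ⟨⟨⟨1, 1⟩, ⟨-1, 0⟩, ⟨-1, -1⟩, ⟨-2, 0⟩, ⟨-1, -2⟩, ⟨0, -2⟩, ⟨-1, -1⟩, ⟨0, -1⟩,
  ⟨2, 0⟩⟩, by unfold M3.IsU; decide⟩
/-- the scalar zeta -/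
def zU : UU := ⟨pmat 1 0 ⟨0, 0⟩ 0, pmat_isU _ _ _ _⟩

/-- the four generators of the fibre group -/
abbrev xU (i : Fin 4) : UU := Pool.Agent.H86.DM.xU i

/-- the fibre group, generated by the xU i and the scalars -/
abbrev Kg : Subgroup UU := Pool.Agent.H86.DM.Kg

theorem zU_eq : zU = Pool.Agent.H86.DM.zU 1 := by decide +kernel

theorem w_D : pU 0 1 ⟨0, 0⟩ 0 = s1U * s2U⁻¹ * s1U⁻¹ := by decide +kernel
theorem w_X : pU 0 0 ⟨1, 0⟩ 0 = s1U * s2U⁻¹ * s4U⁻¹ := by decide +kernel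
theorem w_Y : pU 0 0 ⟨0, 1⟩ 0 = s1U⁻¹ * s2U * s4U⁻¹ := by decide +kernel
theorem w_Z : pU 0 0 ⟨0, 0⟩ 1 = s4U⁻¹ := by decide +kernel
theorem w_g0 : gi 0 = zU ^ 5 * (s1U * tU⁻¹ * s2U⁻¹ * s1U⁻¹ * tU⁻¹ * s4U⁻¹) := by decide +kernel
theorem w_g1 : gi 1 = s4U * s2U⁻¹ * tU⁻¹ * s4U * tU * s2U * s4U⁻¹ := by decide +kernel
theorem w_g2 : gi 2 = s4U * s2U⁻¹ * tU⁻¹ * s4U⁻¹ * tU * s2U * s4U⁻¹ := by decide +kernel
theorem w_g3 : gi 3 = s4U * s2U⁻¹ * tU * tU * tU * s2U * s4U⁻¹ := by decide +kernel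
theorem w_g4 : gi 4 = s4U * tU * s2U * tU⁻¹ * s4U⁻¹ := by decide +kernel
theorem w_g5 : gi 5 = s4U * tU * s2U⁻¹ * tU⁻¹ * s4U⁻¹ := by decide +kernel
theorem w_t : tU = pU 4 5 ⟨1, 1⟩ 1 * gi 0 * pU 0 0 ⟨0, -1⟩ 0 := by decide +kernel
theorem w_x0 : xU 0 = s2U * s1U * s1U * s2U⁻¹ := by decide +kernel
theorem w_x1 : xU 1 = s2U * s2U := by decide +kernel
theorem w_x2 : xU 2 = tU := by decide +kernel
theorem w_x3 : xU 3 = s4U * tU * s4U⁻¹ := by decide +kernel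

/-- relation: x1 x2 x3 x4 is the scalar w = zeta^2 -/
theorem rel_x : xU 0 * xU 1 * xU 2 * xU 3 = zU ^ 2 := by decide +kernel
theorem z_pow6 : zU ^ 6 = 1 := by decide +kernel

/-- A = s2 T23 s2^-1 -/
def aU : UU := s2U * tU * s2U⁻¹

theorem c_s1_0 : s1U * xU 0 * s1U⁻¹ = xU 1 := by decide +kernel
theorem c_s1_1 : s1U * xU 1 * s1U⁻¹ = zU ^ 2 * ((xU 1)⁻¹ * (xU 3)⁻¹ * (xU 2)⁻¹) := by decide +kernel
theorem c_s1_2 : s1U * xU 2 * s1U⁻¹ = xU 2 := by decide +kernel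
theorem c_s1_3 : s1U * xU 3 * s1U⁻¹ = xU 3 := by decide +kernel
theorem c_s4_0 : s4U * xU 0 * s4U⁻¹ = xU 0 := by decide +kernel
theorem c_s4_1 : s4U * xU 1 * s4U⁻¹ = xU 1 := by decide +kernel
theorem c_s4_2 : s4U * xU 2 * s4U⁻¹ = xU 3 := by decide +kernel
theorem c_s4_3 : s4U * xU 3 * s4U⁻¹ = (xU 3)⁻¹ * xU 2 * xU 3 := by decide +kernel
theorem c_a_0 : aU * xU 0 * aU⁻¹ = xU 0 := by decide +kernel
theorem c_a_1 : aU * xU 1 * aU⁻¹ = (xU 2)⁻¹ * xU 1 * xU 2 := by decide +kernel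
theorem c_a_2 : aU * xU 2 * aU⁻¹ = (xU 2)⁻¹ * (xU 1)⁻¹ * xU 2 * xU 1 * xU 2 := by decide +kernel
theorem c_a_3 : aU * xU 3 * aU⁻¹ = xU 3 := by decide +kernel

end Pool.Agent.H13.DM
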