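import Mathlib

/-!
MP_9d29f5_al, project DM. Local to global principle: a map f on the elements of small height,
multiplicative where this makes sense, extends to a homomorphism of the whole group if the
descending links are connected (condition hE).
-/
set_option autoImplicit false

namespace Pool.Agent.H13.DM

theorem local_global {G W : Type*} [Group G] [Monoid W] (ht : G → ℕ) (Sg : Set G)
    (f : G → W)
    (hinv : ∀ g ∈ Sg, g⁻¹ ∈ Sg) (h0 : ∀ g, ht g = 0 → g ∈ Sg) (h1 : ht 1 = 0)
    (hf1 : f 1 = 1)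
    (hf : ∀ g h, g ∈ Sg → h ∈ Sg → g * h ∈ Sg → f (g * h) = f g * f h)
    (hE : ∀ g, 0 < ht g → ∃ c ∈ Sg, ht (c⁻¹ * g) < ht g ∧
      ∀ t ∈ Sg, ht (t⁻¹ * g) ≤ ht g →
        ∃ m ∈ Sg, ht (m⁻¹ * g) < ht g ∧ t⁻¹ * m ∈ Sg ∧ m⁻¹ * c ∈ Sg) :
    ∃ r : G →* W, ∀ g ∈ Sg, r g = f g := by
  classical
  choose! c hc using hE
  -- the recursion
  obtain ⟨r, hr⟩ : ∃ r : G → W, ∀ g, r g = if ht g = 0 then f g else
      f (c g) * r ((c g)⁻¹ * g) := by
    let F : (x : G) → ((y : G) → InvImage (· < ·) ht y x → W) → W := fun x rec =>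
      if h : ht x = 0 then f x else
        f (c x) * rec ((c x)⁻¹ * x) (hc x (Nat.pos_of_ne_zero h)).2.1
    refine ⟨(InvImage.wf ht Nat.lt_wfRel.wf).fix F, fun g => ?_⟩
    rw [WellFounded.fix_eq]
    by_cases h : ht g = 0
    · simp [F, h]
    · simp [F, h]
  have one_mem : (1 : G) ∈ Sg := h0 1 h1
  have hfinv : ∀ s ∈ Sg, f s * f s⁻¹ = 1 := fun s hs => by
    rw [← hf s s⁻¹ hs (hinv s hs) (by rw [mul_inv_cancel]; exact one_mem), mul_inv_cancel, hf1]
  have key : ∀ n : ℕ, ∀ s ∈ Sg, ∀ h, ht h ≤ n → ht (s * h) ≤ n → r (s * h) = f s * r h := by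
    intro n
    induction n with
    | zero =>
      intro s hs h hh hsh
      rw [hr (s * h), hr h, if_pos (by omega), if_pos (by omega)]
      exact hf s h hs (h0 h (by omega)) (h0 _ (by omega))
    | succ n ih =>
      -- strict descent
      have hstrict : ∀ g, ht g = n + 1 → ∀ t ∈ Sg, ht (t⁻¹ * g) ≤ n →
          r g = f t * r (t⁻¹ * g) := by
        intro g hg t ht1 ht2
        obtain ⟨hc1, hc2, hc3⟩ := hc g (by omega)
        obtain ⟨m, hm1, hm2, hm3, hm4⟩ := hc3 t ht1 (by omega)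
        have e1 : r (m⁻¹ * g) = f (m⁻¹ * c g) * r ((c g)⁻¹ * g) := by
          have := ih (m⁻¹ * c g) hm4 ((c g)⁻¹ * g) (by omega)
            (by rw [show m⁻¹ * c g * ((c g)⁻¹ * g) = m⁻¹ * g by group]; omega)
          rwa [show m⁻¹ * c g * ((c g)⁻¹ * g) = m⁻¹ * g by group] at this
        have e2 : r (t⁻¹ * g) = f (t⁻¹ * m) * r (m⁻¹ * g) := by
          have := ih (t⁻¹ * m) hm3 (m⁻¹ * g) (by omega)
            (by rw [show t⁻¹ * m * (m⁻¹ * g) = t⁻¹ * g by group]; omega)
          rwa [show t⁻¹ * m * (m⁻¹ * g) = t⁻¹ * g by group] at this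
        have e3 : f (c g) = f m * f (m⁻¹ * c g) := by
          rw [← hf m (m⁻¹ * c g) hm1 hm4 (by rw [mul_inv_cancel_left]; exact hc1),
            mul_inv_cancel_left]
        have e4 : f m = f t * f (t⁻¹ * m) := by
          rw [← hf t (t⁻¹ * m) ht1 hm3 (by rw [mul_inv_cancel_left]; exact hm1),
            mul_inv_cancel_left]
        rw [hr g, if_neg (by omega), e2, ← mul_assoc, ← e4, e1, e3, mul_assoc]
      -- horizontal
      have hhor : ∀ g, ht g = n + 1 → ∀ t ∈ Sg, ht (t⁻¹ * g) = n + 1 →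
          r g = f t * r (t⁻¹ * g) := by
        intro g hg t ht1 ht2
        obtain ⟨hc1, hc2, hc3⟩ := hc g (by omega)
        obtain ⟨m, hm1, hm2, hm3, hm4⟩ := hc3 t ht1 (by omega)
        have e1 := hstrict g hg m hm1 (by omega)
        have e2 := hstrict (t⁻¹ * g) ht2 (t⁻¹ * m) hm3
          (by rw [show (t⁻¹ * m)⁻¹ * (t⁻¹ * g) = m⁻¹ * g by group]; omega)
        rw [show (t⁻¹ * m)⁻¹ * (t⁻¹ * g) = m⁻¹ * g by group] at e2
        have e4 : f m = f t * f (t⁻¹ * m) := by
          rw [← hf t (t⁻¹ * m) ht1 hm3 (by rw [mul_inv_cancel_left]; exact hm1),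
            mul_inv_cancel_left]
        rw [e1, e2, e4, mul_assoc]
      intro s hs h hh hsh
      have hback : s⁻¹ * (s * h) = h := by group
      rcases Nat.lt_or_ge n (ht (s * h)) with h2 | h2
      · have h1' : ht (s * h) = n + 1 := by omega
        rcases Nat.lt_or_ge n (ht h) with h3 | h3
        · have := hhor (s * h) h1' s hs (by rw [hback]; omega)
          rwa [hback] at this
        · have := hstrict (s * h) h1' s hs (by rw [hback]; exact h3)
          rwa [hback] at this
      · rcases Nat.lt_or_ge n (ht h) with h3 | h3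
        · -- h high, s h low
          have h2' : ht h = n + 1 := by omega
          have e := hstrict h h2' s⁻¹ (hinv s hs) (by rw [inv_inv]; exact h2)
          rw [inv_inv] at e
          rw [e, ← mul_assoc, hfinv s hs, one_mul]
        · exact ih s hs h h3 h2
  have key' : ∀ s ∈ Sg, ∀ h, r (s * h) = f s * r h := fun s hs h =>
    key (max (ht h) (ht (s * h))) s hs h (le_max_left _ _) (le_max_right _ _)
  have hr1 : r 1 = 1 := by rw [hr 1, if_pos h1, hf1]
  have hmul : ∀ n : ℕ, ∀ g, ht g ≤ n → ∀ h, r (g * h) = r g * r h := by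
    intro n
    induction n with
    | zero =>
      intro g hg h
      have hgS := h0 g (by omega)
      have e := key' g hgS 1
      rw [mul_one, hr1, mul_one] at e
      rw [key' g hgS h, e]
    | succ n ih =>
      intro g hg h
      rcases Nat.eq_zero_or_pos (ht g) with h2 | h2
      · exact ih g (by omega) h
      · obtain ⟨hc1, hc2, -⟩ := hc g h2
        have e1 := key' (c g) hc1 ((c g)⁻¹ * g * h)
        rw [show c g * ((c g)⁻¹ * g * h) = g * h by group] at e1
        have e2 := key' (c g) hc1 ((c g)⁻¹ * g)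
        rw [show c g * ((c g)⁻¹ * g) = g by group] at e2
        rw [e1, ih _ (by omega) h, ← mul_assoc, ← e2]
  refine ⟨⟨⟨r, hr1⟩, fun g h => hmul (ht g) g le_rfl h⟩, fun g hg => ?_⟩
  have e := key' g hg 1
  rw [mul_one, hr1, mul_one] at e
  exact e

end Pool.Agent.H13.DM
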