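import Mathlib
import Pool.Agent.H13.DM.FDef
import Pool.Agent.H13.DM.ECond
import Pool.Agent.H13.DM.LocalGlobal

/-!
MP_9d29f5_al, project DM, block B: the homomorphism rho : UU -> Wr.
-/
set_option autoImplicit false

namespace Pool.Agent.H13.DM

theorem exists_rho : ∃ r : UU →* Wr,
    (∀ (g : UU) (u k : Fin 6) (z : Eis) (m : ℤ), g.m = pmat u k z m → r g = rinf k z m) ∧
    ∀ i, r (gi i) = wi i := by
  obtain ⟨f, hf1, hf, hfP, hfi⟩ := exists_f
  obtain ⟨r, hr⟩ := local_global UU.ht Sg f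
    (fun g hg => by
      have h := ht_inv g
      simpa only [Sg, Set.mem_setOf_eq, h] using hg)
    (fun g hg => Or.inl hg) (by decide) hf1 hf cond_E
  have hmem : ∀ (g : UU) (u k : Fin 6) (z : Eis) (m : ℤ), g.m = pmat u k z m → g ∈ Sg :=
    fun g u k z m h => Or.inl (ht_pmat h)
  have hmem' : ∀ i, gi i ∈ Sg := by
    intro i
    have : ∀ i, (gi i).ht = 0 ∨ (gi i).ht = 1 ∨ (gi i).ht = 3 ∨ (gi i).ht = 4 := by decide
    exact this i
  exact ⟨r, fun g u k z m h => by rw [hr g (hmem g u k z m h), hfP g u k z m h],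
    fun i => by rw [hr _ (hmem' i), hfi i]⟩

/-- the homomorphism rho -/
noncomputable def rho : UU →* Wr := exists_rho.choose

theorem rho_P (g : UU) (u k : Fin 6) (z : Eis) (m : ℤ) (h : g.m = pmat u k z m) :
    rho g = rinf k z m := exists_rho.choose_spec.1 g u k z m h

theorem rho_gi (i : Fin 6) : rho (gi i) = wi i := exists_rho.choose_spec.2 i

end Pool.Agent.H13.DM
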