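import Mathlib
import Pool.Agent.H13.DM.Rho
import Pool.Agent.H13.DM.Gens

/-!
MP_9d29f5_al, project DM, block G, file Grp1 (job DM-GRP1): generation, columns, the stabiliser gam1, the fibre group Kg.
Prove the theorems in place (helper lemmas welcome).

PAPER PROOFS.
(1) gen_UU: let G' = closure. By cond_E and induction on the height every g is in the subgroup generated by Sg (for 0 < ht g take c in Sg with ht (c^-1 g) < ht g; ht g = 0: g in Sg). Sg is contained in P gi P (class_Sigma) and P; elements of P have matrix pmat u k z m = zU^u * D^k * X^a * Y^b * Z^(m - ab)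
(D = pU 0 1 0 0, X = pU 0 0 <1,0> 0, Y = pU 0 0 <0,1> 0, Z = pU 0 0 0 1, z = a + b w; use pmat_mul and inductions on the exponents, as in rinf) and D, X, Y, Z, gi i are words in the generators (w_D .. w_g5 in Gens.lean).
(2) acol_rho: the property acolW (column number px b of the matrix R is the unit vector e_(px a), where (b, R) = x.f a) holds for 1 and is closed under products (if (b,R) = x.f a, (c,S) = y.f b then R S e_(px c) = R e_(px b) = e_(px a)). It holds for rinf k z m: for Du, Xu, Yu, Zu and their inverses by decide +kernel,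
hence for all integer powers and products, and for wi i by decide. Every g in UU is a product of elements of Sg (as in (1)), and rho is known on P and on gi i (rho_P, rho_gi).
(3) gam1: ((rho g).f 4).1 = 4 is closed under products and inverses.
(Kg = Pool.Agent.H86.DM.Kg = closure of the xU i and the six scalars; the scalars are the powers of zU = scalar zeta.)
(4) Kg_le: rho (xU i) .f 4 = (4, ..) : rho (xU 0), rho (xU 1) are rinf values (matrices pmat 0 4 <3,0> (-3), pmat 0 4 <2,1> (-1)), tU = pU 4 5 <1,1> 1 * gi 0 * pU 0 0 <0,-1> 0 (w_t), xU 3 = s4U * tU * s4U^-1; zU -> 1. Values by decide +kernel (for z of size 3 split the rinf computation).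
(5) Kg_normal: for p in {0,1,2} let K(2) = Kg, K(1) = s2^-1 Kg s2, K(0) = (s2 s1)^-1 Kg (s2 s1). Claim: for every g in UU and every a with ((rho g).f a).1 = b: g K(px b) g^-1 = K(px a). The set of such g is closed under products and inverses and contains the generators of (1):
for s in {s1,s2,T23,s4,z} and each a: need n Kg n^-1 = Kg where n = t_(px a) s t_(px b)^-1, t_2 = 1, t_1 = s2, t_0 = s2 s1. These n are (by the first components of rho s, and word identities checked by decide +kernel): px a = 2: s1 -> s1; s2 -> 1; T23 -> T23 = x3; s4 -> s4. px a = 1: s1 -> 1; s2 -> s2^2 = x2; T23 -> aU;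
s4 -> s2 s4 s2^-1 = s4. px a = 0: s1 -> s2 s1 s1 s2^-1 = x1; s2 -> s2 s1 s2 s1^-1 s2^-1 = s1; T23 -> s2 s1 T23 s1^-1 s2^-1 = aU; s4 -> s4. z central. So it suffices that s1, s4, aU normalise Kg: c_s1_0 .. c_a_3 in Gens.lean show n x_i n^-1 in Kg for all i, and the images generate: from rel_x Kg is generated by
three of the x_i and z; e.g. for s1: the images are x2, z^2 (x3 x4 x2)^-1, x3, x4 and x1 = z^2 (x2 x3 x4)^-1. s4: x1, x2, x4, x4^-1 x3 x4. aU: x1, x3^-1 x2 x3, (x3^-1 x2^-1 x3 x2 x3), x4: with y = x3^-1 x2 x3: third = y^-1 ... = x3^-1 x2^-1 x3 x2 x3 = y^-1 x2 x3 ... compute: y^-1 = x3^-1 x2^-1 x3, so third = y^-1 x2 x3.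
By rel_x conjugated: x2 x3 = z^2 x1^-1 ... x4^-1 cyclically: x1 x2 x3 x4 = z^2 gives x2 x3 = z^2 x1^-1 x4^-1, so third = y^-1 z^2 x1^-1 x4^-1: no new information, but the images of x1, x2, x4 and z generate the same group as x1, y, x4, z; and x3 = ? From third = y^-1 x2 x3 and aU x3 aU^-1 = third.
 Simplest: show also n^-1 x_i n in Kg: if n H n^-1 is contained in H for n and for n^-1, done. For n = aU: aU^-1 x2 aU: solve from c_a: aU x2 aU^-1 = x3^-1 x2 x3 and aU x3 aU^-1 = x3^-1 x2^-1 x3 x2 x3 =: third. Then aU (x2 x3) aU^-1 = x3^-1 x2 x3 x3^-1 x2^-1 x3 x2 x3 = x2 x3. So aU^-1 (x2 x3) aU = x2 x3.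
 And aU (x2 x3 x2 x3^-1 x2^-1) aU^-1 = (x2 x3)(x3^-1 x2 x3)(x2 x3)^-1 = x2 x2 x3 (x2 x3)^-1 ... = x2 (x2 x3)(x2 x3)^-1 = x2. So aU^-1 x2 aU = x2 x3 x2 x3^-1 x2^-1, and aU^-1 x3 aU = (aU^-1 x2 aU)^-1 (x2 x3) = x2 x3 x2^-1 (check by decide +kernel).
 Similarly s4^-1 x3 s4 = x3 x4 x3^-1, s4^-1 x4 s4 = x3; s1^-1 x2 s1 = x1, s1^-1 x1 s1 = z^2 (x1 x3 x4)^-1.
(6) gam1_finiteIndex: UU acts on Fin 6 by permutations: a -> ((rho g^-1).f a).1 is a left action, gam1 is a point stabiliser (or: gam1 contains the kernel of the homomorphism to the finite group Equiv.Perm (Fin 6)).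
-/
set_option autoImplicit false

namespace Pool.Agent.H13.DM

/-! ### generation -/

theorem grp1_pU_mul (u k u' k' : Fin 6) (z z' : Eis) (m m' : ℤ) :
    pU u k z m * pU u' k' z' m' = pU (u + u') (k + k') (z * Eis.unit k' + z')
        (m + m' + ((z * Eis.unit k').a * z'.b - (z * Eis.unit k').b * z'.a)) :=
  UU.ext (pmat_mul u k u' k' z z' m m')

/-- the subgroup generated by the five generators -/
def grp1G : Subgroup UU := Subgroup.closure ({s1U, s2U, tU, s4U, zU} : Set UU)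

theorem grp1_s1 : s1U ∈ grp1G := Subgroup.subset_closure (by simp)
theorem grp1_s2 : s2U ∈ grp1G := Subgroup.subset_closure (by simp)
theorem grp1_t : tU ∈ grp1G := Subgroup.subset_closure (by simp)
theorem grp1_s4 : s4U ∈ grp1G := Subgroup.subset_closure (by simp)
theorem grp1_z : zU ∈ grp1G := Subgroup.subset_closure (by simp)

theorem grp1_s1i : s1U⁻¹ ∈ grp1G := inv_mem grp1_s1
theorem grp1_s2i : s2U⁻¹ ∈ grp1G := inv_mem grp1_s2
theorem grp1_ti : tU⁻¹ ∈ grp1G := inv_mem grp1_t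
theorem grp1_s4i : s4U⁻¹ ∈ grp1G := inv_mem grp1_s4

theorem grp1_D : pU 0 1 ⟨0, 0⟩ 0 ∈ grp1G := by
  rw [w_D]
  exact mul_mem (mul_mem grp1_s1 grp1_s2i) grp1_s1i

theorem grp1_X : pU 0 0 ⟨1, 0⟩ 0 ∈ grp1G := by
  rw [w_X]
  exact mul_mem (mul_mem grp1_s1 grp1_s2i) grp1_s4i

theorem grp1_Y : pU 0 0 ⟨0, 1⟩ 0 ∈ grp1G := by
  rw [w_Y]
  exact mul_mem (mul_mem grp1_s1i grp1_s2) grp1_s4i

theorem grp1_Z : pU 0 0 ⟨0, 0⟩ 1 ∈ grp1G := by
  rw [w_Z]
  exact grp1_s4i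

theorem grp1_gi (i : Fin 6) : gi i ∈ grp1G := by
  fin_cases i
  · change gi 0 ∈ grp1G
    rw [w_g0]
    exact mul_mem (pow_mem grp1_z 5) (mul_mem (mul_mem (mul_mem (mul_mem (mul_mem grp1_s1 grp1_ti)
      grp1_s2i) grp1_s1i) grp1_ti) grp1_s4i)
  · change gi 1 ∈ grp1G
    rw [w_g1]
    exact mul_mem (mul_mem (mul_mem (mul_mem (mul_mem (mul_mem grp1_s4 grp1_s2i) grp1_ti) grp1_s4)
      grp1_t) grp1_s2) grp1_s4i
  · change gi 2 ∈ grp1G
    rw [w_g2]
    exact mul_mem (mul_mem (mul_mem (mul_mem (mul_mem (mul_mem grp1_s4 grp1_s2i) grp1_ti) grp1_s4i)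
      grp1_t) grp1_s2) grp1_s4i
  · change gi 3 ∈ grp1G
    rw [w_g3]
    exact mul_mem (mul_mem (mul_mem (mul_mem (mul_mem (mul_mem grp1_s4 grp1_s2i) grp1_t) grp1_t)
      grp1_t) grp1_s2) grp1_s4i
  · change gi 4 ∈ grp1G
    rw [w_g4]
    exact mul_mem (mul_mem (mul_mem (mul_mem grp1_s4 grp1_t) grp1_s2) grp1_ti) grp1_s4i
  · change gi 5 ∈ grp1G
    rw [w_g5]
    exact mul_mem (mul_mem (mul_mem (mul_mem grp1_s4 grp1_t) grp1_s2i) grp1_ti) grp1_s4i

theorem grp1_pU_u (u : Fin 6) : pU u 0 ⟨0, 0⟩ 0 ∈ grp1G := by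
  have h : ∀ u : Fin 6, pU u 0 ⟨0, 0⟩ 0 = zU ^ (u : ℕ) := by decide +kernel
  rw [h u]
  exact pow_mem grp1_z _

theorem grp1_pU_k (k : Fin 6) : pU 0 k ⟨0, 0⟩ 0 ∈ grp1G := by
  have h : ∀ k : Fin 6, pU 0 k ⟨0, 0⟩ 0 = (pU 0 1 ⟨0, 0⟩ 0) ^ (k : ℕ) := by decide +kernel
  rw [h k]
  exact pow_mem grp1_D _

/-- integer induction for a one parameter subgroup -/
theorem grp1_int (f : ℤ → UU) (h0 : f 0 = 1) (h1 : ∀ n, f (n + 1) = f n * f 1)
    (hf : f 1 ∈ grp1G) (n : ℤ) : f n ∈ grp1G := by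
  induction n using Int.induction_on with
  | zero => rw [h0]; exact one_mem _
  | succ i ih => rw [h1]; exact mul_mem ih hf
  | pred i ih =>
    have h2 := h1 (-(i : ℤ) - 1)
    rw [sub_add_cancel] at h2
    have h3 : f (-(i : ℤ) - 1) = f (-(i : ℤ)) * (f 1)⁻¹ := by
      rw [h2, mul_inv_cancel_right]
    rw [h3]
    exact mul_mem ih (inv_mem hf)

theorem grp1_pU_one : pU 0 0 ⟨0, 0⟩ 0 = 1 := by decide +kernel

theorem grp1_unit0 : Eis.unit 0 = 1 := rfl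

theorem grp1_pU_X (a : ℤ) : pU 0 0 ⟨a, 0⟩ 0 ∈ grp1G := by
  refine grp1_int (fun a => pU 0 0 ⟨a, 0⟩ 0) grp1_pU_one (fun n => ?_) grp1_X a
  rw [grp1_pU_mul, grp1_unit0, mul_one]
  congr 1
  simp

theorem grp1_pU_Y (a : ℤ) : pU 0 0 ⟨0, a⟩ 0 ∈ grp1G := by
  refine grp1_int (fun a => pU 0 0 ⟨0, a⟩ 0) grp1_pU_one (fun n => ?_) grp1_Y a
  rw [grp1_pU_mul, grp1_unit0, mul_one]
  congr 1
  simp

theorem grp1_pU_Z (a : ℤ) : pU 0 0 ⟨0, 0⟩ a ∈ grp1G := by
  refine grp1_int (fun a => pU 0 0 ⟨0, 0⟩ a) grp1_pU_one (fun n => ?_) grp1_Z a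
  rw [grp1_pU_mul, grp1_unit0, mul_one]
  congr 1
  simp

theorem grp1_pU (u k : Fin 6) (z : Eis) (m : ℤ) : pU u k z m ∈ grp1G := by
  have h : pU u k z m = pU u 0 ⟨0, 0⟩ 0 * pU 0 k ⟨0, 0⟩ 0 *
      (pU 0 0 ⟨z.a, 0⟩ 0 * pU 0 0 ⟨0, z.b⟩ 0 * pU 0 0 ⟨0, 0⟩ (m - z.a * z.b)) := by
    rw [grp1_pU_mul, grp1_pU_mul, grp1_pU_mul, grp1_pU_mul]
    simp only [grp1_unit0, mul_one]
    congr 1
    · simp
    · simp
    · ext <;> simp
    · simp
  rw [h]
  exact mul_mem (mul_mem (grp1_pU_u u) (grp1_pU_k k))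
    (mul_mem (mul_mem (grp1_pU_X _) (grp1_pU_Y _)) (grp1_pU_Z _))

theorem grp1_ht0 (g : UU) (h : g.ht = 0) : g ∈ grp1G := by
  obtain ⟨u, k, z, m, hg⟩ := class_P g h
  have h1 : g = pU u k z m := UU.ext hg
  rw [h1]
  exact grp1_pU u k z m

theorem grp1_Sg (g : UU) (h : g ∈ Sg) : g ∈ grp1G := by
  rcases h with h | h
  · exact grp1_ht0 g h
  · obtain ⟨i, p, q, hp, hq, hg⟩ := class_Sigma g h
    rw [hg]
    exact mul_mem (mul_mem (grp1_ht0 p hp) (grp1_gi i)) (grp1_ht0 q hq)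

theorem grp1_all (n : ℕ) : ∀ g : UU, g.ht ≤ n → g ∈ grp1G := by
  induction n with
  | zero => exact fun g hg => grp1_ht0 g (Nat.le_zero.1 hg)
  | succ n ih =>
    intro g hg
    rcases Nat.eq_zero_or_pos g.ht with h | h
    · exact grp1_ht0 g h
    · obtain ⟨c, hc, hlt, _⟩ := cond_E g h
      have h1 : c⁻¹ * g ∈ grp1G := ih _ (by omega)
      have h2 : g = c * (c⁻¹ * g) := by group
      rw [h2]
      exact mul_mem (grp1_Sg c hc) h1

theorem gen_UU : Subgroup.closure ({s1U, s2U, tU, s4U, zU} : Set UU) = ⊤ := by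
  rw [eq_top_iff]
  intro g _
  exact grp1_all g.ht g le_rfl

/-- induction principle -/
theorem grp1_ind (p : UU → Prop) (h1 : p 1) (hmul : ∀ g h, p g → p h → p (g * h))
    (hinv : ∀ g, p g → p g⁻¹) (hs1 : p s1U) (hs2 : p s2U) (ht : p tU) (hs4 : p s4U) (hz : p zU)
    (g : UU) : p g := by
  have hg : g ∈ Subgroup.closure ({s1U, s2U, tU, s4U, zU} : Set UU) := by
    rw [gen_UU]
    exact Subgroup.mem_top g
  induction hg using Subgroup.closure_induction with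
  | mem x hx =>
    simp only [Set.mem_insert_iff, Set.mem_singleton_iff] at hx
    rcases hx with rfl | rfl | rfl | rfl | rfl
    · exact hs1
    · exact hs2
    · exact ht
    · exact hs4
    · exact hz
  | one => exact h1
  | mul x y _ _ hx hy => exact hmul x y hx hy
  | inv x _ hx => exact hinv x hx

/-- position of the strand x in the arrangement a -/
def px : Fin 6 → Fin 3
  | 0 => 0 | 1 => 0 | 2 => 1 | 3 => 1 | 4 => 2 | 5 => 2

/-- columns -/
def M3.col (p : M3) : Fin 3 → Eis × Eis × Eis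
  | 0 => (p.x00, p.x10, p.x20) | 1 => (p.x01, p.x11, p.x21) | 2 => (p.x02, p.x12, p.x22)

/-- unit vectors -/
def eV : Fin 3 → Eis × Eis × Eis
  | 0 => (1, 0, 0) | 1 => (0, 1, 0) | 2 => (0, 0, 1)

/-! ### the values of rho at the generators -/

theorem grp1_rho_s1 : rho s1U = rinf 5 ⟨1, 0⟩ (-1) := rho_P _ _ _ _ _ rfl
theorem grp1_rho_s2 : rho s2U = rinf 5 ⟨1, 1⟩ (-1) := rho_P _ _ _ _ _ rfl
theorem grp1_rho_s4 : rho s4U = rinf 0 ⟨0, 0⟩ (-1) := rho_P _ _ _ _ _ rfl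
theorem grp1_rho_z : rho zU = rinf 0 ⟨0, 0⟩ 0 := rho_P _ _ _ _ _ rfl
theorem grp1_rho_t : rho tU = rinf 5 ⟨1, 1⟩ 1 * wi 0 * rinf 0 ⟨0, -1⟩ 0 := by
  rw [w_t, map_mul, map_mul, rho_gi]
  congr 1
  · congr 1
    exact rho_P _ _ _ _ _ rfl
  · exact rho_P _ _ _ _ _ rfl

/-- a matrix acting on a column vector -/
def grp1_app (p : M3) (v : Eis × Eis × Eis) : Eis × Eis × Eis :=
  (p.x00 * v.1 + p.x01 * v.2.1 + p.x02 * v.2.2, p.x10 * v.1 + p.x11 * v.2.1 + p.x12 * v.2.2,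
    p.x20 * v.1 + p.x21 * v.2.1 + p.x22 * v.2.2)

theorem grp1_mul_col (p q : M3) (j : Fin 3) : (p * q).col j = grp1_app p (q.col j) := by
  fin_cases j <;> rfl

theorem grp1_app_eV (p : M3) (j : Fin 3) : grp1_app p (eV j) = p.col j := by
  fin_cases j <;> simp [grp1_app, eV, M3.col]

/-- the column property -/
def grp1_ac (x : Wr) : Prop := ∀ a, ((x.f a).2).col (px (x.f a).1) = eV (px a)

instance (x : Wr) : Decidable (grp1_ac x) :=
  inferInstanceAs (Decidable (∀ a, ((x.f a).2).col (px (x.f a).1) = eV (px a)))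

theorem grp1_ac_one : grp1_ac 1 := by
  intro a
  rw [Wr.one_f]
  rw [← grp1_app_eV]
  fin_cases a <;> decide

theorem grp1_ac_mul {x y : Wr} (hx : grp1_ac x) (hy : grp1_ac y) : grp1_ac (x * y) := by
  intro a
  rw [Wr.mul_f, grp1_mul_col, hy, grp1_app_eV, hx]

theorem grp1_ac_inv {x y : Wr} (hyx : y * x = 1) (hx : grp1_ac x) :
    grp1_ac y := by
  intro b
  have h1 : (y * x).f b = (b, 1) := by rw [hyx]; rfl
  rw [Wr.mul_f] at h1
  have h2 : (x.f (y.f b).1).1 = b := congrArg Prod.fst h1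
  have h3 : (y.f b).2 * (x.f (y.f b).1).2 = 1 := congrArg Prod.snd h1
  have h4 := hx (y.f b).1
  rw [h2] at h4
  rw [← grp1_app_eV, ← h4, ← grp1_mul_col, h3, ← grp1_app_eV]
  generalize px b = j
  fin_cases j <;> decide

theorem grp1_ac_rho (g : UU) : grp1_ac (rho g) := by
  refine grp1_ind (fun g => grp1_ac (rho g)) ?_ ?_ ?_ ?_ ?_ ?_ ?_ ?_ g
  · rw [map_one]
    exact grp1_ac_one
  · intro g h hg hh
    rw [map_mul]
    exact grp1_ac_mul hg hh
  · intro g hg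
    exact grp1_ac_inv (by rw [← map_mul, inv_mul_cancel, map_one]) hg
  · rw [grp1_rho_s1]
    decide +kernel
  · rw [grp1_rho_s2]
    decide +kernel
  · rw [grp1_rho_t]
    decide +kernel
  · rw [grp1_rho_s4]
    decide +kernel
  · rw [grp1_rho_z]
    decide +kernel

theorem acol_rho (g : UU) (a : Fin 6) :
    (((rho g).f a).2).col (px ((rho g).f a).1) = eV (px a) := grp1_ac_rho g a

/-! ### the action on the arrangements -/

/-- the right action on the arrangements -/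
noncomputable def grp1_act (g : UU) (a : Fin 6) : Fin 6 := ((rho g).f a).1

theorem grp1_act_one (a : Fin 6) : grp1_act 1 a = a := by
  unfold grp1_act
  rw [map_one]
  rfl

theorem grp1_act_mul (g h : UU) (a : Fin 6) :
    grp1_act (g * h) a = grp1_act h (grp1_act g a) := by
  unfold grp1_act
  rw [map_mul, Wr.mul_f]

theorem grp1_act_inv {g : UU} {a b : Fin 6} (h : grp1_act g a = b) : grp1_act g⁻¹ b = a := by
  rw [← h, ← grp1_act_mul, mul_inv_cancel, grp1_act_one]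

theorem grp1_perm_s1 : ∀ a : Fin 6, ((rinf 5 ⟨1, 0⟩ (-1)).f a).1 =
    (![2, 3, 0, 1, 4, 5] : Fin 6 → Fin 6) a := by decide +kernel
theorem grp1_perm_s2 : ∀ a : Fin 6, ((rinf 5 ⟨1, 1⟩ (-1)).f a).1 =
    (![0, 1, 4, 5, 2, 3] : Fin 6 → Fin 6) a := by decide +kernel
theorem grp1_perm_s4 : ∀ a : Fin 6, ((rinf 0 ⟨0, 0⟩ (-1)).f a).1 =
    (![1, 0, 3, 2, 5, 4] : Fin 6 → Fin 6) a := by decide +kernel
theorem grp1_perm_z : ∀ a : Fin 6, ((rinf 0 ⟨0, 0⟩ 0).f a).1 = a := by decide +kernel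
theorem grp1_perm_t : ∀ a : Fin 6,
    ((rinf 5 ⟨1, 1⟩ 1 * wi 0 * rinf 0 ⟨0, -1⟩ 0).f a).1 = a := by decide +kernel

theorem grp1_act_s1 (a : Fin 6) : grp1_act s1U a = (![2, 3, 0, 1, 4, 5] : Fin 6 → Fin 6) a := by
  unfold grp1_act
  rw [grp1_rho_s1]
  exact grp1_perm_s1 a
theorem grp1_act_s2 (a : Fin 6) : grp1_act s2U a = (![0, 1, 4, 5, 2, 3] : Fin 6 → Fin 6) a := by
  unfold grp1_act
  rw [grp1_rho_s2]
  exact grp1_perm_s2 a
theorem grp1_act_s4 (a : Fin 6) : grp1_act s4U a = (![1, 0, 3, 2, 5, 4] : Fin 6 → Fin 6) a := by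
  unfold grp1_act
  rw [grp1_rho_s4]
  exact grp1_perm_s4 a
theorem grp1_act_z (a : Fin 6) : grp1_act zU a = a := by
  unfold grp1_act
  rw [grp1_rho_z]
  exact grp1_perm_z a
theorem grp1_act_t (a : Fin 6) : grp1_act tU a = a := by
  unfold grp1_act
  rw [grp1_rho_t]
  exact grp1_perm_t a
theorem grp1_act_s2i (a : Fin 6) :
    grp1_act s2U⁻¹ a = (![0, 1, 4, 5, 2, 3] : Fin 6 → Fin 6) a := by
  apply grp1_act_inv
  rw [grp1_act_s2]
  revert a
  decide
theorem grp1_act_s4i (a : Fin 6) :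
    grp1_act s4U⁻¹ a = (![1, 0, 3, 2, 5, 4] : Fin 6 → Fin 6) a := by
  apply grp1_act_inv
  rw [grp1_act_s4]
  revert a
  decide

/-- the stabiliser of the arrangement number 4 -/
noncomputable def gam1 : Subgroup UU where
  carrier := {g | ((rho g).f 4).1 = 4}
  one_mem' := by
    show ((rho 1).f 4).1 = 4
    rw [map_one]; rfl
  mul_mem' := by
    intro g h hg hh
    show ((rho (g * h)).f 4).1 = 4
    have hg' : ((rho g).f 4).1 = 4 := hg
    have hh' : ((rho h).f 4).1 = 4 := hh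
    rw [map_mul, Wr.mul_f, hg', hh']
  inv_mem' := by
    intro g hg
    show ((rho g⁻¹).f 4).1 = 4
    have hg' : ((rho g).f 4).1 = 4 := hg
    have h1 : ((rho (g * g⁻¹)).f 4).1 = 4 := by rw [mul_inv_cancel, map_one]; rfl
    rw [map_mul, Wr.mul_f, hg'] at h1
    exact h1

theorem mem_gam1 (g : UU) : g ∈ gam1 ↔ ((rho g).f 4).1 = 4 := Iff.rfl

theorem grp1_mem_gam1 {g : UU} (h : grp1_act g 4 = 4) : g ∈ gam1 := h

theorem s1_mem : s1U ∈ gam1 := by
  apply grp1_mem_gam1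
  rw [grp1_act_s1]
  rfl

theorem s4_mem : s4U * s4U ∈ gam1 := by
  apply grp1_mem_gam1
  rw [grp1_act_mul, grp1_act_s4, grp1_act_s4]
  rfl

theorem a_mem : aU ∈ gam1 := by
  apply grp1_mem_gam1
  unfold aU
  rw [grp1_act_mul, grp1_act_mul, grp1_act_s2, grp1_act_t, grp1_act_s2i]
  rfl

theorem grp1_x_mem (i : Fin 4) : xU i ∈ gam1 := by
  fin_cases i
  · change xU 0 ∈ gam1
    apply grp1_mem_gam1
    rw [w_x0, grp1_act_mul, grp1_act_mul, grp1_act_mul, grp1_act_s2, grp1_act_s1, grp1_act_s1,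
      grp1_act_s2i]
    rfl
  · change xU 1 ∈ gam1
    apply grp1_mem_gam1
    rw [w_x1, grp1_act_mul, grp1_act_s2, grp1_act_s2]
    rfl
  · change xU 2 ∈ gam1
    apply grp1_mem_gam1
    rw [w_x2, grp1_act_t]
  · change xU 3 ∈ gam1
    apply grp1_mem_gam1
    rw [w_x3, grp1_act_mul, grp1_act_mul, grp1_act_s4, grp1_act_t, grp1_act_s4i]
    rfl

theorem grp1_zz (u : Fin 6) : Pool.Agent.H86.DM.zU u = zU ^ (u : ℕ) := by
  revert u
  decide +kernel

theorem Kg_le : Kg ≤ gam1 := by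
  change Subgroup.closure _ ≤ _
  rw [Subgroup.closure_le]
  rintro g (⟨i, rfl⟩ | ⟨u, rfl⟩)
  · exact grp1_x_mem i
  · change Pool.Agent.H86.DM.zU u ∈ gam1
    rw [grp1_zz]
    exact pow_mem (grp1_mem_gam1 (grp1_act_z 4)) _

/-! ### the normalizer of the fibre group -/

theorem grp1_x (i : Fin 4) : xU i ∈ Kg := Subgroup.subset_closure (Or.inl ⟨i, rfl⟩)
theorem grp1_xi (i : Fin 4) : (xU i)⁻¹ ∈ Kg := inv_mem (grp1_x i)
theorem grp1_zK : zU ∈ Kg := by
  rw [zU_eq]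
  exact Subgroup.subset_closure (Or.inr ⟨1, rfl⟩)

/-- `n` normalises the fibre group -/
def grp1_nz (n : UU) : Prop := (∀ k ∈ Kg, n * k * n⁻¹ ∈ Kg) ∧ ∀ k ∈ Kg, n⁻¹ * k * n ∈ Kg

theorem grp1_nz_mem {n : UU} (h : n ∈ Kg) : grp1_nz n :=
  ⟨fun _ hk => mul_mem (mul_mem h hk) (inv_mem h),
    fun _ hk => mul_mem (mul_mem (inv_mem h) hk) h⟩

theorem grp1_nz_mul {n m : UU} (hn : grp1_nz n) (hm : grp1_nz m) : grp1_nz (n * m) := by
  constructor
  · intro k hk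
    have h := hn.1 _ (hm.1 k hk)
    have e : n * (m * k * m⁻¹) * n⁻¹ = n * m * k * (n * m)⁻¹ := by group
    rwa [e] at h
  · intro k hk
    have h := hm.2 _ (hn.2 k hk)
    have e : m⁻¹ * (n⁻¹ * k * n) * m = (n * m)⁻¹ * k * (n * m) := by group
    rwa [e] at h

theorem grp1_nz_inv {n : UU} (hn : grp1_nz n) : grp1_nz n⁻¹ := by
  constructor
  · intro k hk
    rw [inv_inv]
    exact hn.2 k hk
  · intro k hk
    rw [inv_inv]
    exact hn.1 k hk

theorem grp1_half (n : UU) (h : ∀ i, n * xU i * n⁻¹ ∈ Kg) (k : UU) (hk : k ∈ Kg) :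
    n * k * n⁻¹ ∈ Kg := by
  have h1 : Kg ≤ Kg.comap (MulAut.conj n).toMonoidHom := by
    change Subgroup.closure _ ≤ _
    rw [Subgroup.closure_le]
    rintro g (⟨i, rfl⟩ | ⟨u, rfl⟩)
    · exact h i
    · change n * Pool.Agent.H86.DM.zU u * n⁻¹ ∈ Kg
      rw [← Pool.Agent.H86.DM.zU_comm, mul_inv_cancel_right]
      exact Subgroup.subset_closure (Or.inr ⟨u, rfl⟩)
  exact h1 hk

theorem grp1_nz_gen (n : UU) (h : ∀ i, n * xU i * n⁻¹ ∈ Kg) (h' : ∀ i, n⁻¹ * xU i * n ∈ Kg) :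
    grp1_nz n := by
  refine ⟨grp1_half n h, fun k hk => ?_⟩
  have := grp1_half n⁻¹ (fun i => by rw [inv_inv]; exact h' i) k hk
  rwa [inv_inv] at this

theorem grp1_ci_s1_0 : s1U⁻¹ * xU 0 * s1U = zU ^ 2 * ((xU 3)⁻¹ * (xU 2)⁻¹ * (xU 0)⁻¹) := by
  decide +kernel
theorem grp1_ci_s1_1 : s1U⁻¹ * xU 1 * s1U = xU 0 := by decide +kernel
theorem grp1_ci_s1_2 : s1U⁻¹ * xU 2 * s1U = xU 2 := by decide +kernel
theorem grp1_ci_s1_3 : s1U⁻¹ * xU 3 * s1U = xU 3 := by decide +kernel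
theorem grp1_ci_s4_0 : s4U⁻¹ * xU 0 * s4U = xU 0 := by decide +kernel
theorem grp1_ci_s4_1 : s4U⁻¹ * xU 1 * s4U = xU 1 := by decide +kernel
theorem grp1_ci_s4_2 : s4U⁻¹ * xU 2 * s4U = xU 2 * xU 3 * (xU 2)⁻¹ := by decide +kernel
theorem grp1_ci_s4_3 : s4U⁻¹ * xU 3 * s4U = xU 2 := by decide +kernel
theorem grp1_ci_a_0 : aU⁻¹ * xU 0 * aU = xU 0 := by decide +kernel
theorem grp1_ci_a_1 : aU⁻¹ * xU 1 * aU = xU 1 * xU 2 * xU 1 * (xU 2)⁻¹ * (xU 1)⁻¹ := by
  decide +kernel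
theorem grp1_ci_a_2 : aU⁻¹ * xU 2 * aU = xU 1 * xU 2 * (xU 1)⁻¹ := by decide +kernel
theorem grp1_ci_a_3 : aU⁻¹ * xU 3 * aU = xU 3 := by decide +kernel

theorem grp1_nz_s1 : grp1_nz s1U := by
  refine grp1_nz_gen _ (fun i => ?_) (fun i => ?_)
  · fin_cases i
    · change s1U * xU 0 * s1U⁻¹ ∈ Kg
      rw [c_s1_0]
      exact grp1_x 1
    · change s1U * xU 1 * s1U⁻¹ ∈ Kg
      rw [c_s1_1]
      exact mul_mem (pow_mem grp1_zK 2) (mul_mem (mul_mem (grp1_xi 1) (grp1_xi 3)) (grp1_xi 2))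
    · change s1U * xU 2 * s1U⁻¹ ∈ Kg
      rw [c_s1_2]
      exact grp1_x 2
    · change s1U * xU 3 * s1U⁻¹ ∈ Kg
      rw [c_s1_3]
      exact grp1_x 3
  · fin_cases i
    · change s1U⁻¹ * xU 0 * s1U ∈ Kg
      rw [grp1_ci_s1_0]
      exact mul_mem (pow_mem grp1_zK 2) (mul_mem (mul_mem (grp1_xi 3) (grp1_xi 2)) (grp1_xi 0))
    · change s1U⁻¹ * xU 1 * s1U ∈ Kg
      rw [grp1_ci_s1_1]
      exact grp1_x 0
    · change s1U⁻¹ * xU 2 * s1U ∈ Kg
      rw [grp1_ci_s1_2]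
      exact grp1_x 2
    · change s1U⁻¹ * xU 3 * s1U ∈ Kg
      rw [grp1_ci_s1_3]
      exact grp1_x 3

theorem grp1_nz_s4 : grp1_nz s4U := by
  refine grp1_nz_gen _ (fun i => ?_) (fun i => ?_)
  · fin_cases i
    · change s4U * xU 0 * s4U⁻¹ ∈ Kg
      rw [c_s4_0]
      exact grp1_x 0
    · change s4U * xU 1 * s4U⁻¹ ∈ Kg
      rw [c_s4_1]
      exact grp1_x 1
    · change s4U * xU 2 * s4U⁻¹ ∈ Kg
      rw [c_s4_2]
      exact grp1_x 3
    · change s4U * xU 3 * s4U⁻¹ ∈ Kg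
      rw [c_s4_3]
      exact mul_mem (mul_mem (grp1_xi 3) (grp1_x 2)) (grp1_x 3)
  · fin_cases i
    · change s4U⁻¹ * xU 0 * s4U ∈ Kg
      rw [grp1_ci_s4_0]
      exact grp1_x 0
    · change s4U⁻¹ * xU 1 * s4U ∈ Kg
      rw [grp1_ci_s4_1]
      exact grp1_x 1
    · change s4U⁻¹ * xU 2 * s4U ∈ Kg
      rw [grp1_ci_s4_2]
      exact mul_mem (mul_mem (grp1_x 2) (grp1_x 3)) (grp1_xi 2)
    · change s4U⁻¹ * xU 3 * s4U ∈ Kg
      rw [grp1_ci_s4_3]
      exact grp1_x 2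

theorem grp1_nz_a : grp1_nz aU := by
  refine grp1_nz_gen _ (fun i => ?_) (fun i => ?_)
  · fin_cases i
    · change aU * xU 0 * aU⁻¹ ∈ Kg
      rw [c_a_0]
      exact grp1_x 0
    · change aU * xU 1 * aU⁻¹ ∈ Kg
      rw [c_a_1]
      exact mul_mem (mul_mem (grp1_xi 2) (grp1_x 1)) (grp1_x 2)
    · change aU * xU 2 * aU⁻¹ ∈ Kg
      rw [c_a_2]
      exact mul_mem (mul_mem (mul_mem (mul_mem (grp1_xi 2) (grp1_xi 1)) (grp1_x 2)) (grp1_x 1))
        (grp1_x 2)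
    · change aU * xU 3 * aU⁻¹ ∈ Kg
      rw [c_a_3]
      exact grp1_x 3
  · fin_cases i
    · change aU⁻¹ * xU 0 * aU ∈ Kg
      rw [grp1_ci_a_0]
      exact grp1_x 0
    · change aU⁻¹ * xU 1 * aU ∈ Kg
      rw [grp1_ci_a_1]
      exact mul_mem (mul_mem (mul_mem (mul_mem (grp1_x 1) (grp1_x 2)) (grp1_x 1)) (grp1_xi 2))
        (grp1_xi 1)
    · change aU⁻¹ * xU 2 * aU ∈ Kg
      rw [grp1_ci_a_2]
      exact mul_mem (mul_mem (grp1_x 1) (grp1_x 2)) (grp1_xi 1)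
    · change aU⁻¹ * xU 3 * aU ∈ Kg
      rw [grp1_ci_a_3]
      exact grp1_x 3

/-- the transversal -/
def grp1_tP : Fin 3 → UU
  | 0 => s2U * s1U | 1 => s2U | 2 => 1

/-- the element `t_a g t_b⁻¹` -/
noncomputable def grp1_n (g : UU) (a b : Fin 6) : UU :=
  grp1_tP (px a) * g * (grp1_tP (px b))⁻¹

/-- the property proved for all elements -/
def grp1_S (g : UU) : Prop := ∀ a, grp1_nz (grp1_n g a (grp1_act g a))

theorem grp1_S_one : grp1_S 1 := by
  intro a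
  rw [grp1_act_one]
  unfold grp1_n
  rw [mul_one, mul_inv_cancel]
  exact grp1_nz_mem (one_mem _)

theorem grp1_S_mul (g h : UU) (hg : grp1_S g) (hh : grp1_S h) : grp1_S (g * h) := by
  intro a
  have h1 := grp1_nz_mul (hg a) (hh (grp1_act g a))
  rw [grp1_act_mul]
  have e : grp1_n g a (grp1_act g a) * grp1_n h (grp1_act g a) (grp1_act h (grp1_act g a)) =
      grp1_n (g * h) a (grp1_act h (grp1_act g a)) := by
    unfold grp1_n
    group
  rwa [e] at h1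

theorem grp1_S_inv (g : UU) (hg : grp1_S g) : grp1_S g⁻¹ := by
  intro b
  set a := grp1_act g⁻¹ b with ha
  have hab : grp1_act g a = b := by
    have := grp1_act_inv (g := g⁻¹) (a := b) (b := a) rfl
    rwa [inv_inv] at this
  have h1 := grp1_nz_inv (hg a)
  rw [hab] at h1
  have e : (grp1_n g a b)⁻¹ = grp1_n g⁻¹ b a := by
    unfold grp1_n
    group
  rwa [e] at h1

theorem grp1_e1 : s2U * s1U * s1U * s2U⁻¹ = xU 0 := by decide +kernel
theorem grp1_e2 : s2U * s1U * (s2U * s1U)⁻¹ = 1 := by decide +kernel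
theorem grp1_e3 : s2U * s1U * s2U * (s2U * s1U)⁻¹ = s1U := by decide +kernel
theorem grp1_e4 : s2U * s1U * s4U * (s2U * s1U)⁻¹ = s4U := by decide +kernel
theorem grp1_e5 : s2U * s4U * s2U⁻¹ = s4U := by decide +kernel
theorem grp1_e6 : s2U * s1U * tU * (s2U * s1U)⁻¹ = aU := by decide +kernel

theorem grp1_S_s1 : grp1_S s1U := by
  intro a
  rw [grp1_act_s1]
  have h0 : grp1_nz (s2U * s1U * s1U * s2U⁻¹) := by
    rw [grp1_e1]
    exact grp1_nz_mem (grp1_x 0)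
  have h1 : grp1_nz (s2U * s1U * (s2U * s1U)⁻¹) := by
    rw [grp1_e2]
    exact grp1_nz_mem (one_mem _)
  have h2 : grp1_nz (1 * s1U * (1 : UU)⁻¹) := by
    rw [one_mul, inv_one, mul_one]
    exact grp1_nz_s1
  fin_cases a
  · exact h0
  · exact h0
  · exact h1
  · exact h1
  · exact h2
  · exact h2

theorem grp1_S_s2 : grp1_S s2U := by
  intro a
  rw [grp1_act_s2]
  have h0 : grp1_nz (s2U * s1U * s2U * (s2U * s1U)⁻¹) := by
    rw [grp1_e3]
    exact grp1_nz_s1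
  have h1 : grp1_nz (s2U * s2U * (1 : UU)⁻¹) := by
    rw [inv_one, mul_one, ← w_x1]
    exact grp1_nz_mem (grp1_x 1)
  have h2 : grp1_nz (1 * s2U * s2U⁻¹) := by
    rw [one_mul, mul_inv_cancel]
    exact grp1_nz_mem (one_mem _)
  fin_cases a
  · exact h0
  · exact h0
  · exact h1
  · exact h1
  · exact h2
  · exact h2

theorem grp1_S_s4 : grp1_S s4U := by
  intro a
  rw [grp1_act_s4]
  have h0 : grp1_nz (s2U * s1U * s4U * (s2U * s1U)⁻¹) := by
    rw [grp1_e4]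
    exact grp1_nz_s4
  have h1 : grp1_nz (s2U * s4U * s2U⁻¹) := by
    rw [grp1_e5]
    exact grp1_nz_s4
  have h2 : grp1_nz (1 * s4U * (1 : UU)⁻¹) := by
    rw [one_mul, inv_one, mul_one]
    exact grp1_nz_s4
  fin_cases a
  · exact h0
  · exact h0
  · exact h1
  · exact h1
  · exact h2
  · exact h2

theorem grp1_S_t : grp1_S tU := by
  intro a
  rw [grp1_act_t]
  have h0 : grp1_nz (s2U * s1U * tU * (s2U * s1U)⁻¹) := by
    rw [grp1_e6]
    exact grp1_nz_a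
  have h1 : grp1_nz (s2U * tU * s2U⁻¹) := grp1_nz_a
  have h2 : grp1_nz (1 * tU * (1 : UU)⁻¹) := by
    rw [one_mul, inv_one, mul_one, ← w_x2]
    exact grp1_nz_mem (grp1_x 2)
  fin_cases a
  · exact h0
  · exact h0
  · exact h1
  · exact h1
  · exact h2
  · exact h2

theorem grp1_S_z : grp1_S zU := by
  intro a
  rw [grp1_act_z]
  unfold grp1_n
  have h : grp1_tP (px a) * zU = zU * grp1_tP (px a) := by
    rw [zU_eq]
    exact (Pool.Agent.H86.DM.zU_comm 1 _).symm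
  rw [h, mul_inv_cancel_right]
  exact grp1_nz_mem grp1_zK

theorem Kg_normal (g : UU) (hg : g ∈ gam1) (k : UU) (hk : k ∈ Kg) : g * k * g⁻¹ ∈ Kg := by
  have h := grp1_ind grp1_S grp1_S_one grp1_S_mul grp1_S_inv grp1_S_s1 grp1_S_s2 grp1_S_t
    grp1_S_s4 grp1_S_z g 4
  have h4 : grp1_act g 4 = 4 := hg
  rw [h4] at h
  have e : grp1_n g 4 4 = g := by
    change 1 * g * (1 : UU)⁻¹ = g
    rw [one_mul, inv_one, mul_one]
  rw [e] at h
  exact h.1 k hk

/-- the left action on the arrangements -/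
noncomputable def grp1_phi : UU →* Equiv.Perm (Fin 6) where
  toFun g := ⟨grp1_act g⁻¹, grp1_act g, fun a => by
      rw [← grp1_act_mul, inv_mul_cancel, grp1_act_one], fun a => by
      rw [← grp1_act_mul, mul_inv_cancel, grp1_act_one]⟩
  map_one' := by
    ext a
    change (grp1_act 1⁻¹ a : ℕ) = _
    rw [inv_one, grp1_act_one]
    rfl
  map_mul' g h := by
    ext a
    change (grp1_act (g * h)⁻¹ a : ℕ) = grp1_act g⁻¹ (grp1_act h⁻¹ a)
    rw [mul_inv_rev, grp1_act_mul]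

theorem gam1_finiteIndex : gam1.FiniteIndex := by
  have h : grp1_phi.ker ≤ gam1 := by
    intro g hg
    have h1 : grp1_phi g = 1 := hg
    have h2 : grp1_act g⁻¹ 4 = 4 := congrArg (fun e : Equiv.Perm (Fin 6) => e 4) h1
    have h3 := grp1_act_inv h2
    rw [inv_inv] at h3
    exact h3
  exact Subgroup.finiteIndex_of_le h

end Pool.Agent.H13.DM
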