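import Mathlib
import Pool.Agent.H13.DM.Grp1
import Pool.Agent.H86.DM.Ker

/-!
MP_9d29f5_al, project DM, block G, file Grp2 (job DM-GRP2): the affine homomorphism of the fibre group, its kernel NU.
Prove the theorems in place (helper lemmas welcome; Grp1 and Ker may be cited as stubs).

PAPER PROOFS. For g in UU with ((rho g).f 4).1 = 4 write R(g) = ((rho g).f 4).2; R(g h) = R(g) R(h) on gam1. affM a * affM b = affM (b * a), affM injective, affM 1 = 1.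
(1) exists_A: the set of g in Kg with (rho g^-1).f 4 = (4, affM a) for some a is a subgroup containing xU i and the scalars (explicit values: rho (xU i)^-1 .f 4 = (4, affM (ax i)): decide +kernel after expressing rho (xU i) through rho_P, rho_gi, w_x0 .. w_x3, w_t; R of the inverse: (rho g^-1).f 4 is determined
by rho g * rho g^-1 = 1; e.g. compute rho (xU i)^-1 directly for the inverse elements: (xU 0)^-1, (xU 1)^-1 are pU 0 2 .. elements (find z, m by evaluating), tU^-1 = P * gi 0 * P' similarly (gi 0 is an involution: gi 0 * gi 0 = 1), or use that the inverse in Wr of an explicit element can be checked by multiplication and cancelled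
because rho (g^-1) is an inverse). The scalars go to rinf 0 0 0 = 1. A g := the (unique) such a; A (g h): (rho (h^-1 g^-1)).f 4 = (4, affM (A h) * affM (A g)) = (4, affM (A g * A h)).
(2) NU_conj: g in gam1, n in NU: g n g^-1 in Kg by Kg_normal; (g n g^-1)^-1 = g n^-1 g^-1; R(g) * affM 1 * R(g^-1) = R(g g^-1) = 1.
(3) AH_conj: g in gam1, k in Kg with A k = (0, c1, c2). By acol_rho R(g^-1) = [b11 b12 0; b21 b22 0; e1 e2 1] (column 2 is (0,0,1)), the same for R(g), R(g) R(g^-1) = 1. R(g) * affM(A k) * R(g^-1) = 1 + [0 0 0; 0 0 0; (c1,c2) B 0], B = (b_ij): because R(g) * [1 0 0; 0 1 0; c1 c2 1] = R(g) + [0;0;(c1,c2,0)] (rows: row 2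
of R(g) is (e, e', 1); rows 0, 1 of R(g) have last entry 0). So A (g k g^-1) = (0, c1 b11 + c2 b21, c1 b12 + c2 b22).
-/
set_option autoImplicit false

namespace Pool.Agent.H13.DM

open Pool.Agent.H86.DM (Aff IsAff xk zk)

/-- the matrix of an affine map, acting on row vectors (y1, y2, 1) from the right -/
def affM (a : Aff) : M3 := ⟨Eis.unit a.n, 0, 0, 0, Eis.unit a.n, 0, a.c1, a.c2, 1⟩

theorem grp2_affM_mul (a b : Aff) : affM a * affM b = affM (b * a) := by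
  ext1 <;> simp only [affM, M3.mul_def, Aff.mul_n, Aff.mul_c1, Aff.mul_c2, unit_add] <;> ring

theorem grp2_affM_one : affM 1 = 1 := rfl

theorem grp2_affM_inj : Function.Injective affM := by
  intro a b h
  have h1 : a.n = b.n := rhoInf_unit_inj _ _ (congrArg M3.x00 h)
  have h2 : a.c1 = b.c1 := congrArg M3.x20 h
  have h3 : a.c2 = b.c2 := congrArg M3.x21 h
  exact Aff.ext h1 h2 h3

theorem grp2_x0i : (xU 0)⁻¹ = pU 0 2 ⟨0, -3⟩ 3 := by decide +kernel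
theorem grp2_x1i : (xU 1)⁻¹ = pU 0 2 ⟨1, -1⟩ 1 := by decide +kernel
theorem grp2_x2i : (xU 2)⁻¹ = pU 0 0 ⟨0, 1⟩ 0 * gi 0 * pU 2 1 ⟨0, -1⟩ (-1) := by decide +kernel
theorem grp2_x3i : (xU 3)⁻¹ = pU 0 0 ⟨0, 0⟩ (-1) *
    (pU 0 0 ⟨0, 1⟩ 0 * gi 0 * pU 2 1 ⟨0, -1⟩ (-1)) * pU 0 0 ⟨0, 0⟩ 1 := by decide +kernel
theorem grp2_v0 : (rinf 2 ⟨0, -3⟩ 3).f 4 = (4, affM (Pool.Agent.H86.DM.ax 0)) := by decide +kernel
theorem grp2_v1 : (rinf 2 ⟨1, -1⟩ 1).f 4 = (4, affM (Pool.Agent.H86.DM.ax 1)) := by decide +kernel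
theorem grp2_v2 : (rinf 0 ⟨0, 1⟩ 0 * wi 0 * rinf 1 ⟨0, -1⟩ (-1)).f 4 =
    (4, affM (Pool.Agent.H86.DM.ax 2)) := by decide +kernel
theorem grp2_v3 : (rinf 0 ⟨0, 0⟩ (-1) * (rinf 0 ⟨0, 1⟩ 0 * wi 0 * rinf 1 ⟨0, -1⟩ (-1)) *
    rinf 0 ⟨0, 0⟩ 1).f 4 = (4, affM (Pool.Agent.H86.DM.ax 3)) := by decide +kernel

theorem grp2_rho_pU (u k : Fin 6) (z : Eis) (m : ℤ) : rho (pU u k z m) = rinf k z m :=
  rho_P _ u k z m rfl

theorem grp2_x (i : Fin 4) : (rho (xU i)⁻¹).f 4 = (4, affM (Pool.Agent.H86.DM.ax i)) := by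
  fin_cases i
  · change (rho (xU 0)⁻¹).f 4 = _
    rw [grp2_x0i, grp2_rho_pU]; exact grp2_v0
  · change (rho (xU 1)⁻¹).f 4 = _
    rw [grp2_x1i, grp2_rho_pU]; exact grp2_v1
  · change (rho (xU 2)⁻¹).f 4 = _
    rw [grp2_x2i, map_mul, map_mul, grp2_rho_pU, grp2_rho_pU, rho_gi]; exact grp2_v2
  · change (rho (xU 3)⁻¹).f 4 = _
    rw [grp2_x3i, map_mul, map_mul, map_mul, map_mul, grp2_rho_pU, grp2_rho_pU, grp2_rho_pU,
      grp2_rho_pU, rho_gi]
    exact grp2_v3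

theorem grp2_zi : ∀ u : Fin 6, (Pool.Agent.H86.DM.zU u)⁻¹ = pU (-u) 0 0 0 := by decide +kernel

theorem grp2_z (u : Fin 6) : (rho (Pool.Agent.H86.DM.zU u)⁻¹).f 4 = (4, affM 1) := by
  rw [grp2_zi, grp2_rho_pU, rinf_zero]
  rfl

/-- elements which act on the arrangement number 4 by an affine matrix -/
noncomputable def grp2S : Subgroup UU where
  carrier := {g | ∃ a : Aff, (rho g⁻¹).f 4 = (4, affM a)}
  one_mem' := ⟨1, by rw [inv_one, map_one]; rfl⟩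
  mul_mem' := by
    rintro g h ⟨a, ha⟩ ⟨b, hb⟩
    refine ⟨a * b, ?_⟩
    rw [mul_inv_rev, map_mul, Wr.mul_f, hb, ha, grp2_affM_mul]
  inv_mem' := by
    rintro g ⟨a, ha⟩
    refine ⟨a⁻¹, ?_⟩
    rw [inv_inv]
    have h1 : (rho (g⁻¹ * g)).f 4 = (4, 1) := by
      rw [inv_mul_cancel, map_one]; rfl
    rw [map_mul, Wr.mul_f, ha] at h1
    have h2 : ((rho g).f 4).1 = 4 := congrArg Prod.fst h1
    have h3 : affM a * ((rho g).f 4).2 = 1 := congrArg Prod.snd h1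
    have h4 : ((rho g).f 4).2 = affM a⁻¹ := by
      have h5 : affM a⁻¹ * (affM a * ((rho g).f 4).2) = affM a⁻¹ := by rw [h3, mul_one]
      rw [← mul_assoc, grp2_affM_mul, mul_inv_cancel, grp2_affM_one, one_mul] at h5
      exact h5
    exact Prod.ext h2 h4

theorem grp2_le : Kg ≤ grp2S := by
  refine (Subgroup.closure_le _).2 ?_
  rintro g (⟨i, rfl⟩ | ⟨u, rfl⟩)
  · exact ⟨_, grp2_x i⟩
  · exact ⟨_, grp2_z u⟩

theorem exists_A : ∃ A : Kg →* Aff, IsAff A ∧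
    ∀ g : Kg, (rho ((g : UU)⁻¹)).f 4 = (4, affM (A g)) := by
  have hex : ∀ g : Kg, ∃ a : Aff, (rho ((g : UU)⁻¹)).f 4 = (4, affM a) := fun g => grp2_le g.2
  choose A hA using hex
  have huniq : ∀ (g : Kg) (a : Aff), (rho ((g : UU)⁻¹)).f 4 = (4, affM a) → A g = a := by
    intro g a h
    rw [hA] at h
    exact grp2_affM_inj (congrArg Prod.snd h)
  refine ⟨{ toFun := A, map_one' := ?_, map_mul' := ?_ }, ⟨?_, ?_⟩, hA⟩
  · refine huniq 1 1 ?_
    change (rho (1 : UU)⁻¹).f 4 = _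
    rw [inv_one, map_one]; rfl
  · intro g h
    refine huniq (g * h) _ ?_
    change (rho ((g : UU) * (h : UU))⁻¹).f 4 = _
    rw [mul_inv_rev, map_mul, Wr.mul_f, hA, hA, grp2_affM_mul]
  · intro i
    exact huniq (xk i) _ (grp2_x i)
  · intro u
    exact huniq (zk u) _ (grp2_z u)

/-- the affine action of the fibre group -/
noncomputable def AH : Kg →* Aff := exists_A.choose

theorem AH_isAff : IsAff AH := exists_A.choose_spec.1

theorem AH_rho (g : Kg) : (rho ((g : UU)⁻¹)).f 4 = (4, affM (AH g)) := exists_A.choose_spec.2 g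

/-- the kernel, as a subgroup of UU -/
noncomputable def NU : Subgroup UU := AH.ker.map Kg.subtype

theorem NU_fg : NU.FG := by
  obtain ⟨F, hF⟩ := Pool.Agent.H86.DM.kerA_fg AH AH_isAff
  classical
  refine ⟨F.image Kg.subtype, ?_⟩
  rw [Finset.coe_image, ← MonoidHom.map_closure, hF]
  rfl

theorem mem_NU (g : UU) : g ∈ NU ↔ ∃ h : g ∈ Kg, AH ⟨g, h⟩ = 1 := by
  constructor
  · rintro ⟨k, hk, rfl⟩
    exact ⟨k.2, hk⟩
  · rintro ⟨h, hg⟩
    exact ⟨⟨g, h⟩, hg, rfl⟩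

/-- the second components on the stabiliser -/
theorem grp2_RR (g : UU) (hg : g ∈ gam1) :
    ((rho g).f 4).2 * ((rho g⁻¹).f 4).2 = 1 := by
  have h1 : (rho (g * g⁻¹)).f 4 = (4, 1) := by
    rw [mul_inv_cancel, map_one]; rfl
  have h2 : ((rho g).f 4).1 = 4 := hg
  rw [map_mul, Wr.mul_f, h2] at h1
  exact congrArg Prod.snd h1

theorem grp2_conj (g : UU) (hg : g ∈ gam1) (k : Kg) :
    affM (AH ⟨g * k * g⁻¹, Kg_normal g hg k k.2⟩) =
      ((rho g).f 4).2 * affM (AH k) * ((rho g⁻¹).f 4).2 := by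
  have h1 := AH_rho ⟨g * k * g⁻¹, Kg_normal g hg k k.2⟩
  change (rho (g * (k : UU) * g⁻¹)⁻¹).f 4 = _ at h1
  have h2 : (g * (k : UU) * g⁻¹)⁻¹ = g * (k : UU)⁻¹ * g⁻¹ := by group
  have h3 : ((rho g).f 4).1 = 4 := hg
  rw [h2, map_mul, map_mul, Wr.mul_f, Wr.mul_f, h3, AH_rho k] at h1
  exact (congrArg Prod.snd h1).symm

theorem NU_conj (g : UU) (hg : g ∈ gam1) (n : UU) (hn : n ∈ NU) : g * n * g⁻¹ ∈ NU := by
  obtain ⟨hk, h1⟩ := (mem_NU n).1 hn
  refine (mem_NU _).2 ⟨Kg_normal g hg n hk, ?_⟩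
  apply grp2_affM_inj
  have h2 := grp2_conj g hg ⟨n, hk⟩
  rw [h1, grp2_affM_one, mul_one, grp2_RR g hg] at h2
  exact h2

theorem grp2_col (g : UU) (hg : g ∈ gam1) : ((rho g).f 4).2.x02 = 0 ∧
    ((rho g).f 4).2.x12 = 0 ∧ ((rho g).f 4).2.x22 = 1 := by
  have h := acol_rho g 4
  have h3 : ((rho g).f 4).1 = 4 := hg
  rw [h3] at h
  have h4 : (((rho g).f 4).2.x02, ((rho g).f 4).2.x12, ((rho g).f 4).2.x22) =
      ((0 : Eis), (0 : Eis), (1 : Eis)) := h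
  exact ⟨congrArg Prod.fst h4, congrArg (fun x => x.2.1) h4, congrArg (fun x => x.2.2) h4⟩

theorem grp2_mat (R S : M3) (c1 c2 : Eis) (h : R * S = 1)
    (hR : R.x02 = 0 ∧ R.x12 = 0 ∧ R.x22 = 1) (hS : S.x02 = 0 ∧ S.x12 = 0 ∧ S.x22 = 1) :
    R * ⟨1, 0, 0, 0, 1, 0, c1, c2, 1⟩ * S =
      ⟨1, 0, 0, 0, 1, 0, c1 * S.x00 + c2 * S.x10, c1 * S.x01 + c2 * S.x11, 1⟩ := by
  obtain ⟨r1, r2, r3⟩ := hR
  obtain ⟨s1, s2, s3⟩ := hS
  simp only [M3.mul_def, M3.one_def, M3.mk.injEq, r1, r2, r3, s1, s2, s3] at h ⊢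
  obtain ⟨h00, h01, h02, h10, h11, h12, h20, h21, h22⟩ := h
  refine ⟨?_, ?_, ?_, ?_, ?_, ?_, ?_, ?_, ?_⟩
  · linear_combination h00
  · linear_combination h01
  · linear_combination h02
  · linear_combination h10
  · linear_combination h11
  · linear_combination h12
  · linear_combination h20
  · linear_combination h21
  · linear_combination h22

theorem AH_conj (g : UU) (hg : g ∈ gam1) (k : Kg) (hk : (AH k).n = 0) :
    (AH ⟨g * k * g⁻¹, Kg_normal g hg k k.2⟩) =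
      ⟨0, (AH k).c1 * ((rho g⁻¹).f 4).2.x00 + (AH k).c2 * ((rho g⁻¹).f 4).2.x10,
        (AH k).c1 * ((rho g⁻¹).f 4).2.x01 + (AH k).c2 * ((rho g⁻¹).f 4).2.x11⟩ := by
  apply grp2_affM_inj
  rw [grp2_conj g hg k]
  have e : affM (AH k) = ⟨1, 0, 0, 0, 1, 0, (AH k).c1, (AH k).c2, 1⟩ := by
    unfold affM
    rw [hk]
    rfl
  rw [e, grp2_mat _ _ _ _ (grp2_RR g hg) (grp2_col g hg) (grp2_col g⁻¹ (gam1.inv_mem hg))]
  rfl

end Pool.Agent.H13.DM
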