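import Mathlib
import Pool.Agent.H13.DM.Grp2
import Pool.Agent.H13.DM.Cov.Defs

/-!
MP_9d29f5_al, project DM, block G, file Grp3 (job DM-GRP3): passage to determinant 1.
Prove the theorems in place (helper lemmas welcome; imported files may be cited as stubs).

PAPER PROOFS. (1) Gam0_fi: gam1 has finite index in UU, so gam1.subgroupOf SUU has finite index. (2) N0_normal: NU_conj. (3) N0_fg: N0 is isomorphic to NU intersected with SUU (NU is contained in gam1 by Kg_le); NU intersected with SUU has finite index in NU: it is the kernel of det on NU, with values in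
the finite set of units (det g * conj (det g) = 1 by M3.det_isU, so det g is one of finitely many Eisenstein integers); a subgroup of finite index of a finitely generated group is finitely generated (Subgroup.fg_of_index_ne_zero or Group.fg..). Transport along the isomorphism.
(4) N0_infinite: u = (xU 0 * xU 1)^3 has matrix pmat 0 0 0 (-6) (decide +kernel), so u^n has matrix pmat 0 0 0 (-6 n) (pmat_mul) and the powers are distinct; det 1; u in Kg, A u = (ax 0 * ax 1)^3 = 1 (decide).
-/
set_option autoImplicit false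

namespace Pool.Agent.H13.DM

/-- the lattice, as a subgroup of SUU -/
noncomputable def Gam0 : Subgroup SUU := gam1.subgroupOf SUU

/-- the normal subgroup -/
noncomputable def N0 : Subgroup Gam0 := NU.comap (SUU.subtype.comp Gam0.subtype)

theorem Gam0_fi : Gam0.FiniteIndex := by
  have := gam1_finiteIndex
  unfold Gam0
  infer_instance

theorem mem_Gam0 (g : SUU) : g ∈ Gam0 ↔ (g : UU) ∈ gam1 := Subgroup.mem_subgroupOf

theorem mem_N0 (g : Gam0) : g ∈ N0 ↔ ((g : SUU) : UU) ∈ NU := Iff.rfl

theorem N0_normal : N0.Normal := by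
  constructor
  intro n hn g
  rw [mem_N0] at hn ⊢
  have hg : ((g : SUU) : UU) ∈ gam1 := (mem_Gam0 _).mp g.2
  exact NU_conj _ hg _ hn

theorem NU_le_gam1 {g : UU} (h : g ∈ NU) : g ∈ gam1 := by
  obtain ⟨h1, -⟩ := (mem_NU g).mp h
  exact Kg_le h1

/-- the determinant as a homomorphism -/
def detH : UU →* Eis where
  toFun := UU.det
  map_one' := by decide
  map_mul' g h := by
    unfold UU.det
    rw [UU.mul_m, M3.det_mul]

theorem det_unit (g : UU) : ∃ u : Fin 6, g.det = Eis.unit u := by
  apply nrm_one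
  have h := M3.det_isU g.h
  have h1 := congrArg Eis.nrm h
  rw [nrm_mul', nrm_conj'] at h1
  have h2 : (1 : Eis).nrm = 1 := rfl
  rw [h2] at h1
  have h3 := nrm_nn g.m.det
  change g.m.det.nrm = 1
  nlinarith [h1, h3]

theorem SUU_finiteIndex : SUU.FiniteIndex := by
  have h1 : Finite (detH.toHomUnits).range := by
    have h2 : ((detH.toHomUnits).range : Set Eisˣ) ⊆
        (Units.val) ⁻¹' (Set.range Eis.unit) := by
      rintro _ ⟨g, rfl⟩
      obtain ⟨u, hu⟩ := det_unit g
      exact ⟨u, hu.symm⟩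
    exact (((Set.finite_range Eis.unit).preimage Units.val_injective.injOn).subset h2)
  have h3 : SUU = (detH.toHomUnits).ker := by
    ext g
    rw [MonoidHom.mem_ker]
    constructor
    · intro h
      exact Units.ext h
    · intro h
      exact congrArg Units.val h
  rw [h3]
  infer_instance

/-- comparison map -/
noncomputable def toN0 : (SUU.subgroupOf NU) →* N0 where
  toFun x := ⟨⟨⟨(x : NU), x.2⟩, (mem_Gam0 _).mpr (NU_le_gam1 x.1.2)⟩, x.1.2⟩
  map_one' := rfl
  map_mul' _ _ := rfl

theorem toN0_surj : Function.Surjective toN0 := by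
  intro n
  exact ⟨⟨⟨((n : Gam0) : SUU), n.2⟩, (n : Gam0).1.2⟩, rfl⟩

theorem N0_fg : N0.FG := by
  have h1 : Group.FG NU := (Group.fg_iff_subgroup_fg NU).mpr NU_fg
  have h2 := SUU_finiteIndex
  have h3 : Group.FG (SUU.subgroupOf NU) := inferInstance
  exact (Group.fg_iff_subgroup_fg N0).mp (Group.fg_of_surjective toN0_surj)

/-- an element of infinite order of N0 -/
def uN : UU := (xU 0 * xU 1) ^ 3

theorem uN_m : uN.m = pmat 0 0 0 (-6) := by decide +kernel

theorem uN_pow (n : ℕ) : (uN ^ n).m = pmat 0 0 0 (-6 * n) := by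
  induction n with
  | zero =>
    have h : pmat 0 0 0 0 = 1 := by decide +kernel
    simp only [pow_zero, UU.one_m, Nat.cast_zero, mul_zero, h]
  | succ n ih =>
    rw [pow_succ, UU.mul_m, ih, uN_m, pmat_mul]
    have h0 : (0 : Eis) * Eis.unit 0 + 0 = 0 := by decide
    have h1 : -6 * (n : ℤ) + -6 + ((0 * Eis.unit 0 : Eis).a * (0 : Eis).b -
        (0 * Eis.unit 0 : Eis).b * (0 : Eis).a) = -6 * ((n + 1 : ℕ) : ℤ) := by
      push_cast
      simp
      ring
    rw [h0, h1]
    rfl

theorem uN_det : uN.det = 1 := by decide +kernel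

theorem uN_NU : uN ∈ NU := by
  have h : uN = (((Pool.Agent.H86.DM.xk 0 * Pool.Agent.H86.DM.xk 1) ^ 3 : Kg) : UU) := rfl
  rw [mem_NU]
  have hk : uN ∈ Kg := by
    rw [h]
    exact ((Pool.Agent.H86.DM.xk 0 * Pool.Agent.H86.DM.xk 1) ^ 3 : Kg).2
  refine ⟨hk, ?_⟩
  have e : (⟨uN, hk⟩ : Kg) = (Pool.Agent.H86.DM.xk 0 * Pool.Agent.H86.DM.xk 1) ^ 3 := rfl
  rw [e, map_pow, map_mul, AH_isAff.x, AH_isAff.x]
  decide +kernel

theorem uN_SUU : uN ∈ SUU := uN_det

/-- the powers of uN -/
noncomputable def uNp (n : ℕ) : N0 :=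
  ⟨⟨⟨uN ^ n, SUU.pow_mem uN_SUU n⟩, (mem_Gam0 _).mpr (NU_le_gam1 (NU.pow_mem uN_NU n))⟩,
    NU.pow_mem uN_NU n⟩

theorem N0_infinite : Infinite N0 := by
  apply Infinite.of_injective uNp
  intro n m h
  have h1 : uN ^ n = uN ^ m := congrArg (fun x : N0 => ((x : Gam0) : SUU).1) h
  have h2 := congrArg UU.m h1
  rw [uN_pow, uN_pow] at h2
  obtain ⟨-, -, -, h3⟩ := pmat_inj _ _ _ _ _ _ _ _ h2
  omega

end Pool.Agent.H13.DM
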