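import Mathlib
import Pool.Agent.H13.DM.Grp3
import Pool.Agent.H29.DM.NotHaag

/-!
MP_9d29f5_al, project DM, block G, file NotHaag (job DM-NOTHAAG): the quotient Gam0 / N0 is not a-T-menable.
Proved by helper29.

PAPER PROOF. Apply not_atmenable (RelT/Hyp.lean) with d = 4.
Elements of Kg with determinant 1: e1 = x1^-1 x2, e2 = x2 x1^-1, e3 = x3 x2^-1 x3^-1 x2, e4 = x1^-1 x4^-1 x2^-1 x3^-1 (x_i = xU (i-1)). AH e_j = (0, v_j) with v1 = (1+2w, -1+w) = l1, v2 = w l1, v3 = (0, -2+2w) = l2, v4 = w l2 (decide on ax). det = 1 (decide +kernel on matrices). They lie in Gam0.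
a : Z^4 -> Gam0/N0, a(n) = class of e1^n1 e2^n2 e3^n3 e4^n4. Homomorphism: the classes of the e_j commute since AH of a commutator of translations is 1 (so the commutator is in NU, determinant 1). AH (e1^n1 ... e4^n4) = (0, sum n_j v_j). Injective: v_j linearly independent over Z.
In general for k, k' in Kg of determinant 1: class k = class k' in Gam0/N0 iff AH k = AH k'.
s0 = s2U * tU * s2U^-1 * s1U * s1U * s2U * tU^-1 * s2U^-1 * s1U^-1 * s4U * s4U, det s0 = -w; s := s0 * xU 2 * xU 2 * zU (AH of xU 2 ^2 is 1, so conjugation by it is trivial on translations; det (xU 2)^2 = w^2, det zU = -1) has determinant 1, lies in gam1. t := s1U * s * s1U^-1.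
((rho s0^-1).f 4).2 = [1+2w 1 0; -3-5w -3 0; 5+w -1-2w 1], ((rho s1U^-1).f 4).2 = [0 -1-w 0; 1 2+w 0; 0 0 1]. So by AH_conj conjugation by s acts on translation vectors by (c1,c2) -> (c1 (1+2w) + c2 (-3-5w), c1 - 3 c2) =: M_s, conjugation by s1 by (c1,c2) -> (c2, c1 (-1-w) + c2 (2+w)) =: M_1.
In the basis v1..v4: M_s v_j = sum_i S_ij v_i, and M_t = M_1 M_s M_1^-1 has matrix T:
S = [[3,1,4,6],[-1,4,-6,10],[-3,0,-5,-3],[0,-3,3,-8]], T = [[-3,1,-2,0],[-1,-2,0,-2],[0,-3,1,-3],[3,-3,3,-2]].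
(Over O in the basis l1, l2: SL = [[3-w, 4-6w],[-3,-5+3w]], M_1 = [[1+w, 2+2w],[0,1]], TL = [[-3-w,-2],[3w,1+3w]]; multiplication by a + b w on (x,y) = x + y w is [[a,-b],[b,a-b]].)
Then s a(n) s^-1 = a(S n), t a(n) t^-1 = a(T n).
Eigenvalues of SL: lam = (w-1)(1+r), mu = (w-1)(1-r), r = sqrt6/3 (|w-1|^2 = 3, |lam| = sqrt3 (1+r) > 1, |mu| = sqrt3 (1-r) < 1, trace -2+2w, determinant (w-1)^2/3 = -w). Eigenvectors: u_lam = (4-6w, lam - 3 + w), u_mu = (4-6w, mu - 3 + w).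
For a vector u = (u1,u2) in C^2 with SL u = l u put P(x) = u1 (x0 - w x1) + u2 (x2 - w x3) on R^4. Then P(S^T x) = l P(x): indeed the complex vector p = (u1, -w u1, u2, -w u2) satisfies S p = l p since (1,-w) is an eigenvector of [[a,-b],[b,a-b]] with eigenvalue a + b w. P1 uses u_lam, Q1 uses u_mu.
For T = M_1 S M_1^-1 the eigenvectors are M_1 u_lam, M_1 u_mu (same eigenvalues): P2, Q2.
hinj: (x0 - w x1, x2 - w x3) ranges over C^2 bijectively; u_lam, u_mu are linearly independent, so P = Q = 0 implies x = 0. hne: for x /= 0 with y = (x0 - w x1, x2 - w x3) /= 0 in C^2: u_a . y = 0 and (M_1 u_b) . y = 0 with a, b in {lam, mu} would imply that u_a and M_1 u_b are proportional: det(u_a, M_1 u_b) /= 0 must be checked in the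
four cases (numbers in Q(w, sqrt6)): M_1 u_b = ((1+w) u_b1 + (2+2w) u_b2, u_b2). Here w stands for the complex number wC.
-/
set_option autoImplicit false

namespace Pool.Agent.H13.DM

open Pool.Agent.H86.DM (Aff IsAff xk zk)

universe v

theorem nh_s1i : s1U⁻¹ = pU 0 1 ⟨-1, -1⟩ 1 := by decide +kernel
theorem nh_s2i : s2U⁻¹ = pU 0 1 ⟨0, -1⟩ 1 := by decide +kernel
theorem nh_s4i : s4U⁻¹ = pU 0 0 ⟨0, 0⟩ 1 := by decide +kernel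
theorem nh_ti : tU⁻¹ = pU 0 0 ⟨0, 1⟩ 0 * gi 0 * pU 2 1 ⟨0, -1⟩ (-1) := by decide +kernel
theorem nh_zi : zU⁻¹ = pU 5 0 ⟨0, 0⟩ 0 := by decide +kernel

theorem nh_rs1i : rho s1U⁻¹ = rinf 1 ⟨-1, -1⟩ 1 := by rw [nh_s1i, grp2_rho_pU]
theorem nh_rs2i : rho s2U⁻¹ = rinf 1 ⟨0, -1⟩ 1 := by rw [nh_s2i, grp2_rho_pU]
theorem nh_rs4i : rho s4U⁻¹ = rinf 0 ⟨0, 0⟩ 1 := by rw [nh_s4i, grp2_rho_pU]
theorem nh_rti : rho tU⁻¹ = rinf 0 ⟨0, 1⟩ 0 * wi 0 * rinf 1 ⟨0, -1⟩ (-1) := by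
  rw [nh_ti, map_mul, map_mul, grp2_rho_pU, grp2_rho_pU, rho_gi]
theorem nh_rzi : rho zU⁻¹ = rinf 0 ⟨0, 0⟩ 0 := by rw [nh_zi, grp2_rho_pU]

/-- the element `s`, of determinant one -/
def nhs : UU := s2U * tU * s2U⁻¹ * s1U * s1U * s2U * tU⁻¹ * s2U⁻¹ * s1U⁻¹ * s4U * s4U * tU * tU * zU

theorem nhs_inv : nhs⁻¹ = zU⁻¹ * tU⁻¹ * tU⁻¹ * s4U⁻¹ * s4U⁻¹ * s1U * s2U * tU * s2U⁻¹ * s1U⁻¹ *
    s1U⁻¹ * s2U * tU⁻¹ * s2U⁻¹ := by
  unfold nhs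
  group

theorem nhs_det : nhs.det = 1 := by decide +kernel

theorem nhs_rho : (rho nhs⁻¹).f 4 = (4, ⟨⟨1, 2⟩, 1, 0, ⟨-3, -5⟩, ⟨-3, 0⟩, 0, ⟨5, 1⟩, ⟨-1, -2⟩, 1⟩) := by
  rw [nhs_inv]
  simp only [map_mul, nh_rs1i, nh_rs2i, nh_rs4i, nh_rti, nh_rzi, grp1_rho_s1, grp1_rho_s2,
    grp1_rho_t]
  decide +kernel

theorem nh1_rho : (rho s1U⁻¹).f 4 = (4, ⟨0, ⟨-1, -1⟩, 0, 1, ⟨2, 1⟩, 0, 0, 0, 1⟩) := by
  rw [nh_rs1i]
  decide +kernel

/-- the inclusion of the lattice in the unitary group -/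
noncomputable def nhi : Gam0 →* UU := SUU.subtype.comp Gam0.subtype

theorem nhi_gam (g : Gam0) : nhi g ∈ gam1 := g.2

/-- `g` is in the fibre group and acts as the translation by `c` -/
def IsT (g : Gam0) (c : Eis × Eis) : Prop :=
  ∃ h : nhi g ∈ Kg, AH ⟨nhi g, h⟩ = ⟨0, c.1, c.2⟩

theorem IsT.mul {g h : Gam0} {c d : Eis × Eis} (hg : IsT g c) (hh : IsT h d) :
    IsT (g * h) (c.1 + d.1, c.2 + d.2) := by
  obtain ⟨h1, h2⟩ := hg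
  obtain ⟨h3, h4⟩ := hh
  have h5 : nhi (g * h) ∈ Kg := by
    rw [map_mul]
    exact mul_mem h1 h3
  refine ⟨h5, ?_⟩
  have h6 : (⟨nhi (g * h), h5⟩ : Kg) = ⟨nhi g, h1⟩ * ⟨nhi h, h3⟩ := Subtype.ext (map_mul _ _ _)
  rw [h6, map_mul, h2, h4]
  ext1
  · rfl
  · change c.1 + Eis.unit 0 * d.1 = _
    rw [grp1_unit0, one_mul]
  · change c.2 + Eis.unit 0 * d.2 = _
    rw [grp1_unit0, one_mul]

theorem IsT.inv {g : Gam0} {c : Eis × Eis} (hg : IsT g c) : IsT g⁻¹ (-c.1, -c.2) := by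
  obtain ⟨h1, h2⟩ := hg
  have h5 : nhi g⁻¹ ∈ Kg := by
    rw [map_inv]
    exact inv_mem h1
  refine ⟨h5, ?_⟩
  have h6 : (⟨nhi g⁻¹, h5⟩ : Kg) = (⟨nhi g, h1⟩ : Kg)⁻¹ := Subtype.ext (map_inv _ _)
  rw [h6, map_inv, h2]
  ext1
  · simp only [Aff.inv_n, neg_zero]
  · simp only [Aff.inv_c1, neg_zero, grp1_unit0, one_mul]
  · simp only [Aff.inv_c2, neg_zero, grp1_unit0, one_mul]

theorem IsT.one : IsT 1 (0, 0) := by
  have h5 : nhi (1 : Gam0) ∈ Kg := by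
    rw [map_one]
    exact one_mem _
  refine ⟨h5, ?_⟩
  have h6 : (⟨nhi (1 : Gam0), h5⟩ : Kg) = 1 := Subtype.ext (map_one _)
  rw [h6, map_one]
  rfl

/-- integer multiple -/
def nhsc (n : ℤ) (c : Eis × Eis) : Eis × Eis :=
  (⟨n * c.1.a, n * c.1.b⟩, ⟨n * c.2.a, n * c.2.b⟩)

theorem IsT.zpow {g : Gam0} {c : Eis × Eis} (hg : IsT g c) (n : ℤ) : IsT (g ^ n) (nhsc n c) := by
  induction n using Int.induction_on with
  | zero =>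
    rw [zpow_zero]
    have h : nhsc 0 c = (0, 0) := by
      ext <;> simp [nhsc]
    rw [h]
    exact IsT.one
  | succ i ih =>
    rw [zpow_add_one]
    have h := ih.mul hg
    have h1 : nhsc ((i : ℤ) + 1) c = ((nhsc i c).1 + c.1, (nhsc i c).2 + c.2) := by
      ext <;> simp [nhsc] <;> ring
    rw [h1]
    exact h
  | pred i ih =>
    rw [zpow_sub_one]
    have h := ih.mul hg.inv
    have h1 : nhsc (-(i : ℤ) - 1) c = ((nhsc (-(i : ℤ)) c).1 + (-c.1, -c.2).1,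
        (nhsc (-(i : ℤ)) c).2 + (-c.1, -c.2).2) := by
      ext <;> simp [nhsc] <;> ring
    rw [h1]
    exact h

theorem IsT.conj {g : Gam0} {c : Eis × Eis} (hg : IsT g c) (s : Gam0) (M : M3)
    (hs : (rho (nhi s)⁻¹).f 4 = (4, M)) :
    IsT (s * g * s⁻¹) (c.1 * M.x00 + c.2 * M.x10, c.1 * M.x01 + c.2 * M.x11) := by
  obtain ⟨h1, h2⟩ := hg
  have h3 := AH_conj (nhi s) (nhi_gam s) ⟨nhi g, h1⟩ (by rw [h2])
  have h5 : nhi (s * g * s⁻¹) ∈ Kg := by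
    rw [map_mul, map_mul, map_inv]
    exact Kg_normal _ (nhi_gam s) _ h1
  refine ⟨h5, ?_⟩
  have h7 : nhi (s * g * s⁻¹) = nhi s * nhi g * (nhi s)⁻¹ := by rw [map_mul, map_mul, map_inv]
  have h6 : (⟨nhi (s * g * s⁻¹), h5⟩ : Kg) =
      ⟨nhi s * nhi g * (nhi s)⁻¹, Kg_normal _ (nhi_gam s) _ h1⟩ :=
    Subtype.ext h7
  rw [h6]
  refine h3.trans ?_
  rw [h2, hs]

theorem IsT.mk_eq {g h : Gam0} {c : Eis × Eis} (hg : IsT g c) (hh : IsT h c) :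
    (QuotientGroup.mk g : Gam0 ⧸ N0) = QuotientGroup.mk h := by
  rw [QuotientGroup.eq]
  obtain ⟨h1, h2⟩ := hg.inv.mul hh
  change nhi (g⁻¹ * h) ∈ NU
  rw [mem_NU]
  refine ⟨h1, ?_⟩
  rw [h2]
  ext1
  · rfl
  · exact neg_add_cancel _
  · exact neg_add_cancel _

theorem IsT.of_mk_eq {g h : Gam0} {c d : Eis × Eis} (hg : IsT g c) (hh : IsT h d)
    (e : (QuotientGroup.mk g : Gam0 ⧸ N0) = QuotientGroup.mk h) : c = d := by
  rw [QuotientGroup.eq] at e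
  obtain ⟨h1, h2⟩ := hg.inv.mul hh
  have e' : nhi (g⁻¹ * h) ∈ NU := e
  rw [mem_NU] at e'
  obtain ⟨h3, h4⟩ := e'
  rw [h4] at h2
  have h5 : (0 : Eis) = -c.1 + d.1 := congrArg Aff.c1 h2
  have h6 : (0 : Eis) = -c.2 + d.2 := congrArg Aff.c2 h2
  refine Prod.ext ?_ ?_
  · exact (neg_add_eq_zero.1 h5.symm)
  · exact (neg_add_eq_zero.1 h6.symm)

/-- the four translations -/
def nhe : Fin 4 → UU
  | 0 => (xU 0)⁻¹ * xU 1
  | 1 => xU 1 * (xU 0)⁻¹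
  | 2 => xU 2 * (xU 1)⁻¹ * (xU 2)⁻¹ * xU 1
  | 3 => (xU 0)⁻¹ * (xU 3)⁻¹ * (xU 1)⁻¹ * (xU 2)⁻¹

theorem nhe_det : ∀ j, (nhe j).det = 1 := by decide +kernel

theorem nh_x (i : Fin 4) : xU i ∈ Kg := (xk i).2

theorem nhe_mem (j : Fin 4) : nhe j ∈ Kg := by
  fin_cases j
  · exact mul_mem (inv_mem (nh_x 0)) (nh_x 1)
  · exact mul_mem (nh_x 1) (inv_mem (nh_x 0))
  · exact mul_mem (mul_mem (mul_mem (nh_x 2) (inv_mem (nh_x 1))) (inv_mem (nh_x 2))) (nh_x 1)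
  · exact mul_mem (mul_mem (mul_mem (inv_mem (nh_x 0)) (inv_mem (nh_x 3))) (inv_mem (nh_x 1)))
      (inv_mem (nh_x 2))

/-- the translation vectors -/
def nhc : Fin 4 → Eis × Eis
  | 0 => (⟨1, 2⟩, ⟨-1, 1⟩)
  | 1 => (⟨-2, -1⟩, ⟨-1, -2⟩)
  | 2 => (⟨0, 0⟩, ⟨-2, 2⟩)
  | 3 => (⟨0, 0⟩, ⟨-2, -4⟩)

theorem nhe_AH0 : AH ((xk 0)⁻¹ * xk 1) = ⟨0, (nhc 0).1, (nhc 0).2⟩ := by
  have hx := AH_isAff.x
  rw [map_mul, map_inv, hx, hx]
  decide +kernel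

theorem nhe_AH1 : AH (xk 1 * (xk 0)⁻¹) = ⟨0, (nhc 1).1, (nhc 1).2⟩ := by
  have hx := AH_isAff.x
  rw [map_mul, map_inv, hx, hx]
  decide +kernel

theorem nhe_AH2 : AH (xk 2 * (xk 1)⁻¹ * (xk 2)⁻¹ * xk 1) = ⟨0, (nhc 2).1, (nhc 2).2⟩ := by
  have hx := AH_isAff.x
  rw [map_mul, map_mul, map_mul, map_inv, map_inv, hx, hx]
  decide +kernel

theorem nhe_AH3 : AH ((xk 0)⁻¹ * (xk 3)⁻¹ * (xk 1)⁻¹ * (xk 2)⁻¹) =
    ⟨0, (nhc 3).1, (nhc 3).2⟩ := by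
  have hx := AH_isAff.x
  rw [map_mul, map_mul, map_mul, map_inv, map_inv, map_inv, map_inv, hx, hx, hx, hx]
  decide +kernel

theorem nhe_eq0 : (⟨nhe 0, nhe_mem 0⟩ : Kg) = (xk 0)⁻¹ * xk 1 := by
  apply Subtype.ext
  decide +kernel

theorem nhe_eq1 : (⟨nhe 1, nhe_mem 1⟩ : Kg) = xk 1 * (xk 0)⁻¹ := by
  apply Subtype.ext
  decide +kernel

theorem nhe_eq2 : (⟨nhe 2, nhe_mem 2⟩ : Kg) = xk 2 * (xk 1)⁻¹ * (xk 2)⁻¹ * xk 1 := by
  apply Subtype.ext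
  decide +kernel

theorem nhe_eq3 : (⟨nhe 3, nhe_mem 3⟩ : Kg) = (xk 0)⁻¹ * (xk 3)⁻¹ * (xk 1)⁻¹ * (xk 2)⁻¹ := by
  apply Subtype.ext
  decide +kernel

theorem nhe_AH (j : Fin 4) : AH ⟨nhe j, nhe_mem j⟩ = ⟨0, (nhc j).1, (nhc j).2⟩ := by
  fin_cases j
  · exact (congrArg AH nhe_eq0).trans nhe_AH0
  · exact (congrArg AH nhe_eq1).trans nhe_AH1
  · exact (congrArg AH nhe_eq2).trans nhe_AH2
  · exact (congrArg AH nhe_eq3).trans nhe_AH3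

/-- the four translations in the lattice -/
noncomputable def nhg (j : Fin 4) : Gam0 := ⟨⟨nhe j, nhe_det j⟩, Kg_le (nhe_mem j)⟩

theorem nhg_T (j : Fin 4) : IsT (nhg j) (nhc j) := ⟨nhe_mem j, nhe_AH j⟩

/-- the element of the lattice with coordinates `v` -/
noncomputable def nhG (v : Fin 4 → ℤ) : Gam0 :=
  nhg 0 ^ v 0 * nhg 1 ^ v 1 * nhg 2 ^ v 2 * nhg 3 ^ v 3

/-- the vector with coordinates `v` -/
def nhV (v : Fin 4 → ℤ) : Eis × Eis :=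
  (⟨v 0, v 1⟩ * ⟨1, 2⟩, ⟨v 0, v 1⟩ * ⟨-1, 1⟩ + ⟨v 2, v 3⟩ * ⟨-2, 2⟩)

theorem nhG_T (v : Fin 4 → ℤ) : IsT (nhG v) (nhV v) := by
  have h := ((((nhg_T 0).zpow (v 0)).mul ((nhg_T 1).zpow (v 1))).mul ((nhg_T 2).zpow (v 2))).mul
    ((nhg_T 3).zpow (v 3))
  have e : ((((nhsc (v 0) (nhc 0)).1 + (nhsc (v 1) (nhc 1)).1 +
      (nhsc (v 2) (nhc 2)).1 + (nhsc (v 3) (nhc 3)).1),
      ((nhsc (v 0) (nhc 0)).2 + (nhsc (v 1) (nhc 1)).2 +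
      (nhsc (v 2) (nhc 2)).2 + (nhsc (v 3) (nhc 3)).2)) : Eis × Eis) = nhV v := by
    ext <;> simp [nhV, nhsc, nhc] <;> ring
  rw [← e]
  exact h

theorem nhV_add (v w : Fin 4 → ℤ) :
    ((nhV v).1 + (nhV w).1, (nhV v).2 + (nhV w).2) = nhV (v + w) := by
  ext <;> simp [nhV] <;> ring

theorem nhV_inj : Function.Injective nhV := by
  intro v w h
  have h1 := congrArg Prod.fst h
  have h2 := congrArg Prod.snd h
  have h1a := congrArg Eis.a h1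
  have h1b := congrArg Eis.b h1
  have h2a := congrArg Eis.a h2
  have h2b := congrArg Eis.b h2
  simp [nhV] at h1a h1b h2a h2b
  funext i
  fin_cases i
  · change v 0 = w 0
    omega
  · change v 1 = w 1
    omega
  · change v 2 = w 2
    omega
  · change v 3 = w 3
    omega

theorem nhs_mem : nhs ∈ gam1 := by
  have h : nhs⁻¹ ∈ gam1 := congrArg Prod.fst nhs_rho
  have := gam1.inv_mem h
  rwa [inv_inv] at this

/-- `s` in the lattice -/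
noncomputable def nhS : Gam0 := ⟨⟨nhs, nhs_det⟩, nhs_mem⟩

/-- `t` in the unitary group -/
def nht : UU := s1U * nhs * s1U⁻¹

theorem nht_det : nht.det = 1 := by decide +kernel

theorem nht_mem : nht ∈ gam1 := mul_mem (mul_mem s1_mem nhs_mem) (inv_mem s1_mem)

/-- `t` in the lattice -/
noncomputable def nhT : Gam0 := ⟨⟨nht, nht_det⟩, nht_mem⟩

theorem nht_rho : (rho nht⁻¹).f 4 =
    (4, ⟨⟨-2, -1⟩, ⟨-5, -3⟩, 0, ⟨0, 1⟩, ⟨0, 3⟩, 0, ⟨-1, -2⟩, ⟨-4, -8⟩, 1⟩) := by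
  have h : nht⁻¹ = s1U * nhs⁻¹ * s1U⁻¹ := by
    unfold nht
    group
  rw [h, nhs_inv]
  simp only [map_mul, nh_rs1i, nh_rs2i, nh_rs4i, nh_rti, nh_rzi, grp1_rho_s1, grp1_rho_s2,
    grp1_rho_t]
  decide +kernel

theorem nhi_S : nhi nhS = nhs := rfl

theorem nhi_T : nhi nhT = nht := rfl

theorem nhi_S_rho : (rho (nhi nhS)⁻¹).f 4 =
    (4, ⟨⟨1, 2⟩, 1, 0, ⟨-3, -5⟩, ⟨-3, 0⟩, 0, ⟨5, 1⟩, ⟨-1, -2⟩, 1⟩) := by
  rw [nhi_S]
  exact nhs_rho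

theorem nhi_T_rho : (rho (nhi nhT)⁻¹).f 4 =
    (4, ⟨⟨-2, -1⟩, ⟨-5, -3⟩, 0, ⟨0, 1⟩, ⟨0, 3⟩, 0, ⟨-1, -2⟩, ⟨-4, -8⟩, 1⟩) := by
  rw [nhi_T]
  exact nht_rho

open Pool.Agent.H29.DM (Smat Tmat not_atm')

theorem nhV_S (v : Fin 4 → ℤ) :
    ((nhV v).1 * ⟨1, 2⟩ + (nhV v).2 * ⟨-3, -5⟩, (nhV v).1 * 1 + (nhV v).2 * ⟨-3, 0⟩) =
      nhV (Smat.mulVec v) := by
  ext <;> simp [nhV, Smat, Matrix.mulVec, dotProduct, Fin.sum_univ_four] <;> ring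

theorem nhV_T (v : Fin 4 → ℤ) :
    ((nhV v).1 * ⟨-2, -1⟩ + (nhV v).2 * ⟨0, 1⟩, (nhV v).1 * ⟨-5, -3⟩ + (nhV v).2 * ⟨0, 3⟩) =
      nhV (Tmat.mulVec v) := by
  ext <;> simp [nhV, Tmat, Matrix.mulVec, dotProduct, Fin.sum_univ_four] <;> ring

theorem nh_abs {G : Type*} [Group G] (N : Subgroup G) [N.Normal] (s g h : G)
    (e : (QuotientGroup.mk (s * g * s⁻¹) : G ⧸ N) = QuotientGroup.mk h) :
    (QuotientGroup.mk s : G ⧸ N) * QuotientGroup.mk g * (QuotientGroup.mk s)⁻¹ =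
      QuotientGroup.mk h := e

theorem nh_abs2 {G : Type*} [Group G] (N : Subgroup G) [N.Normal] (g h k : G)
    (e : (QuotientGroup.mk k : G ⧸ N) = QuotientGroup.mk (g * h)) :
    (QuotientGroup.mk k : G ⧸ N) = QuotientGroup.mk g * QuotientGroup.mk h := e

theorem nhG_mul (v w : Fin 4 → ℤ) :
    (QuotientGroup.mk (nhG (v + w)) : Gam0 ⧸ N0) = QuotientGroup.mk (nhG v * nhG w) := by
  have h1 := nhG_T (v + w)
  rw [← nhV_add] at h1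
  exact h1.mk_eq ((nhG_T v).mul (nhG_T w))

theorem nh_S_conj (v : Fin 4 → ℤ) : IsT (nhS * nhG v * nhS⁻¹) (nhV (Smat.mulVec v)) := by
  rw [← nhV_S]
  exact (nhG_T v).conj nhS _ nhi_S_rho

theorem nh_T_conj (v : Fin 4 → ℤ) : IsT (nhT * nhG v * nhT⁻¹) (nhV (Tmat.mulVec v)) := by
  rw [← nhV_T]
  exact (nhG_T v).conj nhT _ nhi_T_rho

/-- the embedding of `Z^4` -/
noncomputable def nha (hn : N0.Normal) : Multiplicative (Fin 4 → ℤ) →* Gam0 ⧸ N0 :=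
  MonoidHom.mk' (fun v => QuotientGroup.mk (nhG (Multiplicative.toAdd v)))
    (fun v w => nh_abs2 N0 _ _ _ (nhG_mul (Multiplicative.toAdd v) (Multiplicative.toAdd w)))

theorem nha_apply (hn : N0.Normal) (v : Fin 4 → ℤ) :
    nha hn (Multiplicative.ofAdd v) = QuotientGroup.mk (nhG v) := rfl

theorem not_haag (hn : N0.Normal) : ¬ ATMenable.{0, v} (Gam0 ⧸ N0) := by
  refine not_atm' (nha hn) ?_ (QuotientGroup.mk nhS) (QuotientGroup.mk nhT) ?_ ?_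
  · intro v w h
    have h1 := (nhG_T (Multiplicative.toAdd v)).of_mk_eq (nhG_T (Multiplicative.toAdd w)) h
    exact Multiplicative.toAdd.injective (nhV_inj h1)
  · intro v
    rw [nha_apply, nha_apply]
    exact nh_abs N0 _ _ _ ((nh_S_conj v).mk_eq (nhG_T (Smat.mulVec v)))
  · intro v
    rw [nha_apply, nha_apply]
    exact nh_abs N0 _ _ _ ((nh_T_conj v).mk_eq (nhG_T (Tmat.mulVec v)))

end Pool.Agent.H13.DM
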