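import Mathlib
import Pool.Agent.H13.DM.NotHaag
import Pool.Agent.H13.DM.Cov.Lattice

/-!
MP_9d29f5_al, project DM: final theorem.

(job DM-TRANS) transport, atm_congr: PAPER PROOF. atm_congr: compose the action with the isomorphism. final: Gamma := Gam0.map emb, e : Gam0 isomorphic to Gamma (Subgroup.equivMapOfInjective, emb_injective), N := N0.map e. Normal (Subgroup.Normal.map with surjectivity), finitely generated (N0_fg mapped), infinite, quotient isomorphic
(QuotientGroup.congr), so not a-T-menable by atm_congr; IsLattice by isLattice_map Gam0 Gam0_fi.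
-/
set_option autoImplicit false

namespace Pool.Agent.H13.DM

universe u v

theorem atm_congr {H₁ H₂ : Type u} [Group H₁] [Group H₂] (e : H₁ ≃* H₂)
    (h : ATMenable.{u, v} H₂) : ATMenable.{u, v} H₁ := by
  obtain ⟨E, i1, i2, i3, α, hα⟩ := h
  refine ⟨E, i1, i2, i3, α.comp e.toMonoidHom, ?_⟩
  intro x r
  exact (hα x r).preimage e.injective.injOn

/-- There is a lattice Γ in SU(2,1) and a finitely generated infinite normal subgroup N of Γ
such that Γ / N is not a-T-menable. -/
theorem dm_final : ∃ Γ : Subgroup SU21, IsLattice Γ ∧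
    ∃ (N : Subgroup Γ) (_ : N.Normal), N.FG ∧ Infinite N ∧ ¬ ATMenable.{0, v} (Γ ⧸ N) := by
  have hn : N0.Normal := N0_normal
  set e : Gam0 ≃* (Gam0.map emb) := Gam0.equivMapOfInjective emb emb_injective with he
  have hN : (N0.map e.toMonoidHom).Normal := hn.map e.toMonoidHom e.surjective
  refine ⟨Gam0.map emb, isLattice_map Gam0 Gam0_fi, N0.map e.toMonoidHom, hN, ?_, ?_, ?_⟩
  · have h1 : Group.FG N0 := (Group.fg_iff_subgroup_fg N0).mpr N0_fg
    set e1 : N0 ≃* (N0.map e.toMonoidHom) :=
      N0.equivMapOfInjective e.toMonoidHom e.injective with he1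
    exact (Group.fg_iff_subgroup_fg _).mp
      (Group.fg_of_surjective (f := e1.toMonoidHom) e1.surjective)
  · have h1 := N0_infinite
    apply Infinite.of_injective
      (fun n : N0 => (⟨e n, Subgroup.mem_map_of_mem e.toMonoidHom n.2⟩ : N0.map e.toMonoidHom))
    intro a b hab
    have h2 : e a = e b := congrArg Subtype.val hab
    exact Subtype.ext (e.injective h2)
  · intro h
    have h3 : (Gam0 ⧸ N0) ≃* ((Gam0.map emb) ⧸ (N0.map e.toMonoidHom)) :=
      QuotientGroup.congr N0 (N0.map e.toMonoidHom) e rfl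
    exact not_haag hn (atm_congr h3 h)

end Pool.Agent.H13.DM
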